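import Pool.Agent.BEO.Alg
import Pool.Agent.PQE.Zf

/-!
# FRN/Alg: the algorithm

Integers are pairs of natural numbers (`PQE.In`, value `zv a = a.1 - a.2`), sparse integer matrices are lists (`PQE.Qz`, entries `lk`).
`look`, `memb`, `comp` (classes of a relation) are in BEO/Alg.  The Hurwitz units are numbered by `0, .., 23` (FRN/Tb1); the class of number `t` is
`t / 8`.
-/

set_option autoImplicit false

namespace Pool.Agent.FRN

open Pool.Agent.BEO Pool.Agent.PQE

/-- edges: number, first end, second end, class of the gain -/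
abbrev Ed := ℕ × (ℕ × (ℕ × ℕ))

/-! ### the forest and the overlaps; `W` is the list of the vertices -/

/-- the ends of the edges -/
def rl (L : List Ed) : List (ℕ × ℕ) := L.map fun e => (e.2.1, e.2.2.1)

/-- label of the component of `x` -/
def lb (W : List ℕ) (L : List Ed) (x : ℕ) : ℕ := look (comp W (rl L)) x x

/-- are `x` and `y` connected by the edges in `L`? -/
def cn (W : List ℕ) (L : List Ed) (x y : ℕ) : Bool := decide (lb W L x = lb W L y)

/-- remove the edge number `j` -/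
def er (L : List Ed) (j : ℕ) : List Ed := L.filter fun e => !(decide (e.1 = j))

/-- spanning forest: remove edges as long as their ends stay connected -/
def frs (W : List ℕ) (L : List Ed) : List Ed :=
  L.foldl (fun T e => if cn W (er T e.1) e.2.1 e.2.2.1 then er T e.1 else T) L

/-- is the edge `c` of the forest `T` on the fundamental cycle of `f`? -/
def onc (W : List ℕ) (T : List Ed) (c f : Ed) : Bool := !(cn W (er T c.1) f.2.1 f.2.2.1)

/-- do the fundamental cycles of `f` and `g` have a common edge in the forest? -/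
def ov (W : List ℕ) (T : List Ed) (f g : Ed) : Bool := T.any fun c => onc W T c f && onc W T c g

/-! ### matrices -/

/-- The `4 × 4` integer matrices of `0`, of `1` (doubled), and of minus the Hurwitz unit number `t` (doubled) at place `t + 2`. -/
def btab : List (List (List In)) :=
  [[[(0, 0), (0, 0), (0, 0), (0, 0)], [(0, 0), (0, 0), (0, 0), (0, 0)], [(0, 0), (0, 0), (0, 0), (0, 0)], [(0, 0), (0, 0), (0, 0), (0, 0)]],
   [[(2, 0), (0, 0), (0, 0), (0, 0)], [(0, 0), (2, 0), (0, 0), (0, 0)], [(0, 0), (0, 0), (2, 0), (0, 0)], [(0, 0), (0, 0), (0, 0), (2, 0)]],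
   [[(0, 2), (0, 0), (0, 0), (0, 0)], [(0, 0), (0, 2), (0, 0), (0, 0)], [(0, 0), (0, 0), (0, 2), (0, 0)], [(0, 0), (0, 0), (0, 0), (0, 2)]],
   [[(2, 0), (0, 0), (0, 0), (0, 0)], [(0, 0), (2, 0), (0, 0), (0, 0)], [(0, 0), (0, 0), (2, 0), (0, 0)], [(0, 0), (0, 0), (0, 0), (2, 0)]],
   [[(0, 0), (2, 0), (0, 0), (0, 0)], [(0, 2), (0, 0), (0, 0), (0, 0)], [(0, 0), (0, 0), (0, 0), (0, 2)], [(0, 0), (0, 0), (2, 0), (0, 0)]],
   [[(0, 0), (0, 2), (0, 0), (0, 0)], [(2, 0), (0, 0), (0, 0), (0, 0)], [(0, 0), (0, 0), (0, 0), (2, 0)], [(0, 0), (0, 0), (0, 2), (0, 0)]],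
   [[(0, 0), (0, 0), (0, 2), (0, 0)], [(0, 0), (0, 0), (0, 0), (0, 2)], [(2, 0), (0, 0), (0, 0), (0, 0)], [(0, 0), (2, 0), (0, 0), (0, 0)]],
   [[(0, 0), (0, 0), (2, 0), (0, 0)], [(0, 0), (0, 0), (0, 0), (2, 0)], [(0, 2), (0, 0), (0, 0), (0, 0)], [(0, 0), (0, 2), (0, 0), (0, 0)]],
   [[(0, 0), (0, 0), (0, 0), (2, 0)], [(0, 0), (0, 0), (0, 2), (0, 0)], [(0, 0), (2, 0), (0, 0), (0, 0)], [(0, 2), (0, 0), (0, 0), (0, 0)]],
   [[(0, 0), (0, 0), (0, 0), (0, 2)], [(0, 0), (0, 0), (2, 0), (0, 0)], [(0, 0), (0, 2), (0, 0), (0, 0)], [(2, 0), (0, 0), (0, 0), (0, 0)]],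
   [[(0, 1), (1, 0), (0, 1), (1, 0)], [(0, 1), (0, 1), (0, 1), (0, 1)], [(1, 0), (1, 0), (0, 1), (0, 1)], [(0, 1), (1, 0), (1, 0), (0, 1)]],
   [[(0, 1), (1, 0), (1, 0), (0, 1)], [(0, 1), (0, 1), (1, 0), (1, 0)], [(0, 1), (0, 1), (0, 1), (0, 1)], [(1, 0), (0, 1), (1, 0), (0, 1)]],
   [[(0, 1), (0, 1), (0, 1), (0, 1)], [(1, 0), (0, 1), (1, 0), (0, 1)], [(1, 0), (0, 1), (0, 1), (1, 0)], [(1, 0), (1, 0), (0, 1), (0, 1)]],
   [[(0, 1), (0, 1), (1, 0), (1, 0)], [(1, 0), (0, 1), (0, 1), (1, 0)], [(0, 1), (1, 0), (0, 1), (1, 0)], [(0, 1), (0, 1), (0, 1), (0, 1)]],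
   [[(1, 0), (1, 0), (0, 1), (0, 1)], [(0, 1), (1, 0), (1, 0), (0, 1)], [(1, 0), (0, 1), (1, 0), (0, 1)], [(1, 0), (1, 0), (1, 0), (1, 0)]],
   [[(1, 0), (1, 0), (1, 0), (1, 0)], [(0, 1), (1, 0), (0, 1), (1, 0)], [(0, 1), (1, 0), (1, 0), (0, 1)], [(0, 1), (0, 1), (1, 0), (1, 0)]],
   [[(1, 0), (0, 1), (0, 1), (1, 0)], [(1, 0), (1, 0), (0, 1), (0, 1)], [(1, 0), (1, 0), (1, 0), (1, 0)], [(0, 1), (1, 0), (0, 1), (1, 0)]],
   [[(1, 0), (0, 1), (1, 0), (0, 1)], [(1, 0), (1, 0), (1, 0), (1, 0)], [(0, 1), (0, 1), (1, 0), (1, 0)], [(1, 0), (0, 1), (0, 1), (1, 0)]],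
   [[(0, 1), (1, 0), (0, 1), (0, 1)], [(0, 1), (0, 1), (1, 0), (0, 1)], [(1, 0), (0, 1), (0, 1), (0, 1)], [(1, 0), (1, 0), (1, 0), (0, 1)]],
   [[(0, 1), (1, 0), (1, 0), (1, 0)], [(0, 1), (0, 1), (0, 1), (1, 0)], [(0, 1), (1, 0), (0, 1), (0, 1)], [(0, 1), (0, 1), (1, 0), (0, 1)]],
   [[(0, 1), (0, 1), (0, 1), (1, 0)], [(1, 0), (0, 1), (0, 1), (0, 1)], [(1, 0), (1, 0), (0, 1), (1, 0)], [(0, 1), (1, 0), (0, 1), (0, 1)]],
   [[(0, 1), (0, 1), (1, 0), (0, 1)], [(1, 0), (0, 1), (1, 0), (1, 0)], [(0, 1), (0, 1), (0, 1), (1, 0)], [(1, 0), (0, 1), (0, 1), (0, 1)]],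
   [[(1, 0), (1, 0), (0, 1), (1, 0)], [(0, 1), (1, 0), (0, 1), (0, 1)], [(1, 0), (1, 0), (1, 0), (0, 1)], [(0, 1), (1, 0), (1, 0), (1, 0)]],
   [[(1, 0), (1, 0), (1, 0), (0, 1)], [(0, 1), (1, 0), (1, 0), (1, 0)], [(0, 1), (0, 1), (1, 0), (0, 1)], [(1, 0), (0, 1), (1, 0), (1, 0)]],
   [[(1, 0), (0, 1), (0, 1), (0, 1)], [(1, 0), (1, 0), (1, 0), (0, 1)], [(1, 0), (0, 1), (1, 0), (1, 0)], [(1, 0), (1, 0), (0, 1), (1, 0)]],
   [[(1, 0), (0, 1), (1, 0), (1, 0)], [(1, 0), (1, 0), (0, 1), (1, 0)], [(0, 1), (1, 0), (1, 0), (1, 0)], [(0, 1), (0, 1), (0, 1), (1, 0)]]]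

/-- row `a` of the block number `c` -/
def blk (c a : ℕ) : List In := (btab.getD c []).getD a []

/-- number of the block of the edge `e` in the row of the vertex `z`, for the assignment `asg` -/
def clk (asg : List (ℕ × ℕ)) (e : Ed) (z : ℕ) : ℕ :=
  if memb (asg.map Prod.fst) e.1 then
    (if decide (e.2.1 = z) then 2 + look asg e.1 0 else if decide (e.2.2.1 = z) then 1 else 0) else 0

/-- number of the block of the unit vector `z'` in the row of `z` -/
def ulk (z' z : ℕ) : ℕ := if decide (z' = z) then 1 else 0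

/-- row `a` of the vertex `z` of the matrix with the columns `H` (unit vectors) and `L` (edges) -/
def rw1 (H : List ℕ) (L : List Ed) (asg : List (ℕ × ℕ)) (z a : ℕ) : List In :=
  (H.flatMap fun h => blk (ulk h z) a) ++ L.flatMap fun e => blk (clk asg e z) a

/-- all rows, with their numbers -/
def rws (W H : List ℕ) (L : List Ed) (asg : List (ℕ × ℕ)) : List (ℕ × List In) :=
  W.flatMap fun z => [0, 1, 2, 3].map fun a => (4 * z + a, rw1 H L asg z a)

/-- inner product -/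
def dot (u v : List In) : In := (List.zipWith zmul u v).sum

/-- Gram matrix -/
def gr (R : List (ℕ × List In)) : Qz := R.flatMap fun p => R.map fun q => ((p.1, q.1), dot p.2 q.2)

/-! ### Bird's algorithm for determinants -/

/-- minus -/
def zneg (a : In) : In := (a.2, a.1)

/-- the matrix `μ(X)` -/
def bmu (N : List ℕ) (X : Qz) (i k : ℕ) : In :=
  if decide (i < k) then lk X i k else if decide (i = k) then zneg ((N.filter fun l => decide (i < l)).map fun l => lk X l l).sum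
  else 0

/-- `μ(X) A` -/
def bst (N : List ℕ) (A X : Qz) : Qz :=
  N.flatMap fun i => N.map fun j => ((i, j), (N.map fun k => zmul (bmu N X i k) (lk A k j)).sum)

/-- absolute value -/
def zab (a : In) : ℕ := (a.1 - a.2) + (a.2 - a.1)

/-- the absolute value of the determinant of `A`; `N = [0, .., n - 1]` -/
def adet (N : List ℕ) (A : Qz) : ℕ :=
  if N.isEmpty then 1 else zab (lk (N.tail.foldl (fun X _ => bst N A X) A) 0 0)

/-! ### greedy choice of the units -/

/-- the energy of an assignment -/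
def en (W : List ℕ) (L : List Ed) (asg : List (ℕ × ℕ)) : ℕ :=
  adet ((rws W W L asg).map Prod.fst) (gr (rws W W L asg))

/-- the numbers of the units of class `k` -/
def cdl (k : ℕ) : List ℕ := ([0, 1, 2, 3, 4, 5, 6, 7].map fun t => 8 * k + t)

/-- second component of an element with minimal first component -/
def amin (l : List (ℕ × ℕ)) : ℕ := (l.foldl (fun m p => if decide (p.1 < m.1) then p else m) (l.headD (0, 0))).2

/-- the unit chosen for the edge `f` -/
def bsu (W : List ℕ) (L : List Ed) (asg : List (ℕ × ℕ)) (f : Ed) : ℕ :=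
  amin ((cdl f.2.2.2).map fun t => (en W L ((f.1, t) :: asg), t))

/-- assignment, current part, edges to do -/
abbrev St := List (ℕ × ℕ) × (List Ed × List Ed)

/-- the next edge if it overlaps the current part -/
def nx (W : List ℕ) (T : List Ed) (s : St) : List Ed := s.2.2.filter fun f => s.2.1.any fun g => ov W T f g

/-- one step -/
def stp (W : List ℕ) (L T : List Ed) (s : St) : St :=
  if s.2.2.isEmpty then s
  else if (nx W T s).isEmpty then
    (fun f : Ed => ((f.1, bsu W L s.1 f) :: s.1, ([f], er s.2.2 f.1))) (s.2.2.headD (0, (0, (0, 0))))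
  else
    (fun f : Ed => ((f.1, bsu W L s.1 f) :: s.1, (f :: s.2.1, er s.2.2 f.1))) ((nx W T s).headD (0, (0, (0, 0))))

/-- start: units for the forest, the other edges to do -/
def st0 (L T : List Ed) : St :=
  (T.map fun e => (e.1, 8 * e.2.2.2), ([], L.filter fun e => !(memb T e)))

/-- the assignment -/
def slv (W : List ℕ) (L : List Ed) : List (ℕ × ℕ) :=
  (L.foldl (fun s _ => stp W L (frs W L) s) (st0 L (frs W L))).1

/-! ### fourth root -/

/-- the powers of two up to the bit length of `n`, largest first -/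
def pws (l : List Bool) : List ℕ := l.foldl (fun p _ => (2 * p.headD 1) :: p) [1]

/-- the largest `s` with `s ^ 4 ≤ n` -/
def rt4 (n : ℕ) : ℕ :=
  (pws (Computability.encodeNat n)).foldl (fun s p => if decide ((s + p) * (s + p) * ((s + p) * (s + p)) ≤ n) then s + p else s) 0

/-- divide by `4 ^ W.length` -/
def dv4 (W : List ℕ) (n : ℕ) : ℕ := W.foldl (fun n _ => n / 2 / 2) n

/-! ### input -/

/-- entries: nonzero?, negative?, the exponents of `α`, `β`, `1 - α`, `1 - β`, `α - β` -/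
abbrev Ent := Bool × (Bool × (ℤ × (ℤ × (ℤ × (ℤ × ℤ)))))

/-- the input: the list of the rows -/
abbrev Mx := List (List Ent)

/-- remainder modulo 3 -/
def m3 (z : ℤ) : ℕ := (z % 3).toNat

/-- the class of an entry -/
def lme' (x : Ent) : ℕ :=
  (m3 x.2.2.1 + 2 * m3 x.2.2.2.1 + 2 * m3 x.2.2.2.2.1 + m3 x.2.2.2.2.2.1) % 3

/-- entry in row `i` and column `j` -/
def ent (A : Mx) (i j : ℕ) : Ent := (A.getD i []).getD j (false, (false, (0, (0, (0, (0, 0))))))

/-- the vertices -/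
def wn (A : Mx) : List ℕ := List.range A.length

/-- the columns -/
def cs (A : Mx) : List ℕ := List.range (A.headD []).length

/-- the rows of the nonzero entries of the column `j` -/
def nzr (A : Mx) (j : ℕ) : List ℕ := (wn A).filter fun i => (ent A i j).1

/-- the edges -/
def eds' (A : Mx) : List Ed := (cs A).flatMap fun j =>
  if decide ((nzr A j).length = 2) then
    [(j, ((nzr A j).getD 0 0, ((nzr A j).getD 1 0,
      (lme' (ent A ((nzr A j).getD 0 0) j) + 2 * lme' (ent A ((nzr A j).getD 1 0) j)) % 3)))]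
  else []

/-- the columns with one nonzero entry -/
def hfs (A : Mx) : List ℕ := (cs A).flatMap fun j => if decide ((nzr A j).length = 1) then [(nzr A j).getD 0 0] else []

/-- the number of bases -/
def nb (A : Mx) : ℕ :=
  dv4 (wn A) (rt4 (adet ((rws (wn A) (hfs A) (eds' A) (slv (wn A) (eds' A))).map Prod.fst)
    (gr (rws (wn A) (hfs A) (eds' A) (slv (wn A) (eds' A))))))

end Pool.Agent.FRN
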