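import Pool.Agent.FRN.Ee

/-!
# FRN/Am: the choice of a unit

PROOF PLAN.  `amin_spec`: induction on the list (fold with an arbitrary start).  `bsu_spec`: the candidates `cdl k` are the numbers `t < 24` with `t / 8 = k` (`k < 3`); by `en_eq` (for the assignment with `(f, t)` added: `RepA` for `insert f S`, `asv ((f, t) :: asg) = Function.update (asv asg) f (qu t)`, `rep_cons`, `asv_cons`) comparing `en` is comparing `Wt`
(both `≥ 0`, `wt_nonneg`, fourth powers are monotone).  Every Hurwitz unit is some `qu t`, `t < 24` (`hu_iff`), of class `t / 8` (`kc_qv`).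
-/

set_option autoImplicit false

noncomputable section

open scoped Classical

namespace Pool.Agent.FRN

open Pool.Agent.FRM Pool.Agent.FRM.GG Pool.Agent.BEO Pool.Agent.PQE

variable {r n : ℕ} {Γ : GG (Fin r) (Fin n) XG}

private theorem Am_fold (l : List (ℕ × ℕ)) (m₀ : ℕ × ℕ) :
    (l.foldl (fun m p => if decide (p.1 < m.1) then p else m) m₀ = m₀ ∨
      l.foldl (fun m p => if decide (p.1 < m.1) then p else m) m₀ ∈ l) ∧
    (l.foldl (fun m p => if decide (p.1 < m.1) then p else m) m₀).1 ≤ m₀.1 ∧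
    ∀ q ∈ l, (l.foldl (fun m p => if decide (p.1 < m.1) then p else m) m₀).1 ≤ q.1 := by
  induction l generalizing m₀ with
  | nil => simp
  | cons a l ih =>
    rw [List.foldl_cons]
    obtain ⟨h1, h2, h3⟩ := ih (if decide (a.1 < m₀.1) = true then a else m₀)
    set m := List.foldl (fun m p => if decide (p.1 < m.1) = true then p else m)
      (if decide (a.1 < m₀.1) = true then a else m₀) l with hm
    clear_value m
    by_cases h : a.1 < m₀.1
    · simp only [h, decide_true, if_true] at h1 h2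
      refine ⟨?_, by omega, ?_⟩
      · rcases h1 with h1 | h1
        · right
          rw [h1]
          exact List.mem_cons_self
        · exact Or.inr (List.mem_cons_of_mem _ h1)
      · intro q hq
        rcases List.mem_cons.mp hq with rfl | hq
        · exact h2
        · exact h3 q hq
    · simp only [h, decide_false, Bool.false_eq_true, if_false] at h1 h2
      refine ⟨?_, h2, ?_⟩
      · rcases h1 with h1 | h1
        · exact Or.inl h1
        · exact Or.inr (List.mem_cons_of_mem _ h1)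
      · intro q hq
        rcases List.mem_cons.mp hq with rfl | hq
        · omega
        · exact h3 q hq

theorem amin_spec {l : List (ℕ × ℕ)} (hl : l ≠ []) : ∃ p ∈ l, amin l = p.2 ∧ ∀ q ∈ l, p.1 ≤ q.1 := by
  obtain ⟨h1, -, h3⟩ := Am_fold l (l.headD (0, 0))
  refine ⟨_, ?_, rfl, h3⟩
  rcases h1 with h1 | h1
  · rw [h1]
    obtain ⟨a, t, rfl⟩ := List.exists_cons_of_ne_nil hl
    exact List.mem_cons_self
  · exact h1

theorem rep_cons {asg : List (ℕ × ℕ)} {S : Finset (Fin n)} (h : RepA asg S) (f : Fin n) {t : ℕ} (ht : t < 24) :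
    RepA ((f.val, t) :: asg) (insert f S) := by
  refine ⟨fun j => ?_, fun p hp => ?_, fun p hp => ?_⟩
  · rw [List.map_cons, List.mem_cons, Finset.mem_insert, h.mem j, Fin.ext_iff]
  · rcases List.mem_cons.mp hp with rfl | hp
    · exact ⟨f, Finset.mem_insert_self _ _, rfl⟩
    · obtain ⟨j, hj, h'⟩ := h.out p hp
      exact ⟨j, Finset.mem_insert_of_mem hj, h'⟩
  · rcases List.mem_cons.mp hp with rfl | hp
    · exact ht
    · exact h.lt p hp

private theorem Am_look (asg : List (ℕ × ℕ)) (a t x d : ℕ) :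
    look ((a, t) :: asg) x d = if a = x then t else look asg x d := by
  unfold look
  rw [List.filter_cons]
  by_cases h : a = x
  · simp [h]
  · simp [h]

theorem asv_cons (asg : List (ℕ × ℕ)) (f : Fin n) (t : ℕ) :
    (asv ((f.val, t) :: asg) : Fin n → Hqˣ) = Function.update (asv asg) f (qu t) := by
  funext j
  unfold asv
  rw [Am_look, Function.update_apply]
  by_cases h : j = f
  · rw [if_pos (by rw [h]), if_pos h]
  · rw [if_neg (fun h' => h (Fin.ext h'.symm)), if_neg h]

private theorem Am_cdl {k t : ℕ} : t ∈ cdl k ↔ t / 8 = k := by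
  unfold cdl
  simp only [List.mem_map, List.mem_cons, List.not_mem_nil, or_false]
  constructor
  · rintro ⟨a, ha, rfl⟩
    omega
  · intro h
    exact ⟨t % 8, by omega, by omega⟩

theorem bsu_spec {L : List Ed} (hL : RepE Γ L Γ.A) (lf : ∀ e ∈ Γ.A, Γ.s e ≠ Γ.t e) {asg : List (ℕ × ℕ)} {S : Finset (Fin n)}
    (hA : RepA asg S) (hS : S ⊆ Γ.A) {f : Fin n} (hf : f ∈ Γ.A) (hfS : f ∉ S) :
    bsu (List.range r) L asg (ed Γ f) < 24 ∧
      kc (qv (bsu (List.range r) L asg (ed Γ f))) = lm (Γ.g f) ∧
      ∀ t' : Hqˣ, HU (t' : Hq) → kc (t' : Hq) = lm (Γ.g f) →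
        Wt Γ (insert f S) (Function.update (asv asg) f (qu (bsu (List.range r) L asg (ed Γ f)))) ≤
          Wt Γ (insert f S) (Function.update (asv asg) f t') := by
  have hk : (lm (Γ.g f)).val < 3 := ZMod.val_lt _
  have hne : ((cdl (lm (Γ.g f)).val).map fun t => (en (List.range r) L ((f.val, t) :: asg), t)) ≠ [] := by
    unfold cdl
    simp
  obtain ⟨p, hp, hp1, hp2⟩ := amin_spec hne
  obtain ⟨t, ht, rfl⟩ := List.mem_map.mp hp
  have hb : bsu (List.range r) L asg (ed Γ f) = t := hp1
  rw [hb]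
  have ht8 := Am_cdl.mp ht
  have ht24 : t < 24 := by omega
  refine ⟨ht24, ?_, ?_⟩
  · rw [kc_qv ht24, ht8, ZMod.natCast_zmod_val]
  · intro t' hu hkc
    obtain ⟨s, hs, hs'⟩ := (hu_iff _).mp hu
    have hs8 : s / 8 = (lm (Γ.g f)).val := by
      rw [hs', kc_qv hs] at hkc
      rw [← hkc, ZMod.val_natCast, Nat.mod_eq_of_lt (by omega)]
    have htq : t' = qu s := Units.ext hs'
    have h1 := hp2 _ (List.mem_map.mpr ⟨s, Am_cdl.mpr hs8, rfl⟩)
    have hsub : insert f S ⊆ Γ.A := Finset.insert_subset hf hS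
    have h2 := en_eq hL lf (rep_cons hA f ht24) hsub
    have h3 := en_eq hL lf (rep_cons hA f hs) hsub
    rw [asv_cons] at h2 h3
    rw [htq]
    have h4 : ((en (List.range r) L ((f.val, t) :: asg) : ℕ) : ℝ) ≤
        ((en (List.range r) L ((f.val, s) :: asg) : ℕ) : ℝ) := by exact_mod_cast h1
    rw [h2, h3] at h4
    have h5 := le_of_mul_le_mul_left h4 (by positivity)
    exact le_of_pow_le_pow_left₀ (by norm_num) (wt_nonneg _ _ _) h5

end Pool.Agent.FRN
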