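import Pool.Agent.FRN.Defs

/-!
# FRN/Bd1: Bird's identity for determinants

PROOF PLAN.  For `p : ℕ` let `D p i j = ∑ over the sets S of indices > i with p elements of det A[i ∪ S ; j ∪ S]` (square submatrix with index type `Option S`: row and column `none` stand for `i` and `j`; it is `0` if `j ∈ S`).  Claim: `((fun X => muB X * A)^[p] A) i j = (-1) ^ p * D p i j`.  `p = 0`: clear.  Step: expand the determinants in `D (p + 1) i j`
along the column `none`: the entry in row `none` is `A i j` with cofactor `det A[S ; S]`; the entry in the row `k ∈ S` is `A k j` with cofactor `- det A[i ∪ S' ; k ∪ S']`, `S' = S - k` (exchange the columns `none` and `k`).  `∑_S det A[S ; S] = ∑_{k > i} D p k k` (`k` = least element of `S`), and `∑` over `S ∋ k` of the others is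
`∑_{k > i} A k j * D p i k` (terms with `k ∈ S'` are `0`).  So `D (p + 1) i j = A i j ∑_{k > i} D p k k - ∑_{k > i} D p i k * A k j`, which is `-(muB (D p) * A) i j`.  For `i = 0`, `p = n` the only set is `S = {1, .., n}` and `D n 0 0 = det A`.
-/

set_option autoImplicit false

noncomputable section

open scoped Classical

namespace Pool.Agent.FRN

open Pool.Agent.FRM Pool.Agent.FRM.GG

def muB {R : Type} [CommRing R] {n : ℕ} (X : Matrix (Fin n) (Fin n) R) : Matrix (Fin n) (Fin n) R :=
  fun i j => if i < j then X i j else if i = j then -∑ k ∈ Finset.univ.filter (fun k => i < k), X k k else 0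

section Bd1

open Polynomial Matrix

variable {R : Type} [CommRing R] {N : ℕ}

/-- the matrix with the rows before `m` replaced by zero -/
private def Bd1_m (A : Matrix (Fin N) (Fin N) R) (m : ℕ) : Matrix (Fin N) (Fin N) R :=
  Matrix.of fun k j => if m ≤ k.1 then A k j else 0

private def Bd1_B (A : Matrix (Fin N) (Fin N) R) (m : ℕ) : Matrix (Fin N) (Fin N) R[X] :=
  (X : R[X]) • (Bd1_m A m).map C + (1 : Matrix (Fin N) (Fin N) R).map C

private def Bd1_D (A : Matrix (Fin N) (Fin N) R) (i j : Fin N) : R[X] :=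
  ((fun k => C (A i k)) ᵥ* (Bd1_B A (i.1 + 1)).adjugate) j

private theorem Bd1_B_apply (A : Matrix (Fin N) (Fin N) R) (m : ℕ) (k j : Fin N) :
    Bd1_B A m k j = X * C (if m ≤ k.1 then A k j else 0) + C ((1 : Matrix (Fin N) (Fin N) R) k j) := by
  unfold Bd1_B Bd1_m
  rw [Matrix.add_apply, Matrix.smul_apply, Matrix.map_apply, Matrix.map_apply, Matrix.of_apply, smul_eq_mul]

private theorem Bd1_rec (A : Matrix (Fin N) (Fin N) R) (i j : Fin N) :
    Bd1_D A i j + X * ∑ k ∈ Finset.univ.filter (fun k => i < k), Bd1_D A i k * C (A k j) =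
      (Bd1_B A (i.1 + 1)).det * C (A i j) := by
  have h1 : ((fun k => C (A i k)) ᵥ* (Bd1_B A (i.1 + 1)).adjugate ᵥ* (Bd1_B A (i.1 + 1))) j =
      (Bd1_B A (i.1 + 1)).det * C (A i j) := by
    rw [Matrix.vecMul_vecMul, Matrix.adjugate_mul, Matrix.vecMul_smul, Matrix.vecMul_one]
    rfl
  rw [← h1]
  show _ = ∑ k, Bd1_D A i k * Bd1_B A (i.1 + 1) k j
  have h2 : ∀ k, Bd1_D A i k * Bd1_B A (i.1 + 1) k j =
      X * (if i < k then Bd1_D A i k * C (A k j) else 0) + (if k = j then Bd1_D A i k else 0) := by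
    intro k
    rw [Bd1_B_apply, mul_add]
    congr 1
    · by_cases h : i < k
      · rw [if_pos h, if_pos (by exact h)]
        ring
      · rw [if_neg h, if_neg (by exact h)]
        simp
    · by_cases h : k = j
      · rw [if_pos h, h, Matrix.one_apply_eq, C_1, mul_one]
      · rw [if_neg h, Matrix.one_apply_ne h, C_0, mul_zero]
  rw [Finset.sum_congr rfl fun k _ => h2 k, Finset.sum_add_distrib, ← Finset.mul_sum, ← Finset.sum_filter]
  simp only [Finset.sum_ite_eq', Finset.mem_univ, if_true]
  ring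

private theorem Bd1_row (A : Matrix (Fin N) (Fin N) R) (i : Fin N) :
    (Bd1_B A i.1).det = (Bd1_B A (i.1 + 1)).det + X * Bd1_D A i i := by
  have h1 : Bd1_B A i.1 = (Bd1_B A (i.1 + 1)).updateRow i
      ((X : R[X]) • (fun k => C (A i k)) + Bd1_B A (i.1 + 1) i) := by
    ext1 k j
    by_cases h : k = i
    · subst h
      rw [Matrix.updateRow_self, Pi.add_apply, Pi.smul_apply, Bd1_B_apply, Bd1_B_apply, if_pos le_rfl,
        if_neg (by omega), C_0, mul_zero, zero_add, smul_eq_mul]
    · rw [Matrix.updateRow_ne h, Bd1_B_apply, Bd1_B_apply]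
      have h2 : (i.1 ≤ k.1) ↔ (i.1 + 1 ≤ k.1) := by
        have : k.1 ≠ i.1 := fun h3 => h (Fin.ext h3)
        omega
      simp only [h2]
  have h2 : ((Bd1_B A (i.1 + 1)).updateRow i (fun k => C (A i k))).det = Bd1_D A i i := by
    rw [← Matrix.cramer_transpose_apply, Matrix.cramer_eq_adjugate_mulVec, ← Matrix.adjugate_transpose, Matrix.mulVec_transpose]
    rfl
  rw [h1, Matrix.det_updateRow_add, Matrix.det_updateRow_smul, h2, Matrix.updateRow_eq_self]
  ring

private theorem Bd1_sum (A : Matrix (Fin N) (Fin N) R) : ∀ r m : ℕ, m + r = N →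
    (Bd1_B A m).det = 1 + X * ∑ k ∈ Finset.univ.filter (fun k : Fin N => m ≤ k.1), Bd1_D A k k := by
  intro r
  induction r with
  | zero =>
    intro m hm
    have h1 : Bd1_B A m = 1 := by
      ext1 k j
      rw [Bd1_B_apply, if_neg (by have := k.2; omega), C_0, mul_zero, zero_add, Matrix.one_apply, Matrix.one_apply]
      split_ifs <;> simp
    have h2 : Finset.univ.filter (fun k : Fin N => m ≤ k.1) = ∅ := by
      rw [Finset.filter_eq_empty_iff]
      intro k _
      have := k.2
      omega
    rw [h1, h2, Matrix.det_one, Finset.sum_empty, mul_zero, add_zero]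
  | succ r ih =>
    intro m hm
    have h1 := Bd1_row A (⟨m, by omega⟩ : Fin N)
    rw [show ((⟨m, by omega⟩ : Fin N) : ℕ) = m from rfl, ih (m + 1) (by omega)] at h1
    have h2 : Finset.univ.filter (fun k : Fin N => m ≤ k.1) =
        insert (⟨m, by omega⟩ : Fin N) (Finset.univ.filter (fun k : Fin N => m + 1 ≤ k.1)) := by
      ext k
      simp only [Finset.mem_filter, Finset.mem_univ, true_and, Finset.mem_insert, Fin.ext_iff]
      omega
    rw [h1, h2, Finset.sum_insert (by simp)]
    ring

private theorem Bd1_det (A : Matrix (Fin N) (Fin N) R) (i : Fin N) :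
    (Bd1_B A (i.1 + 1)).det = 1 + X * ∑ k ∈ Finset.univ.filter (fun k : Fin N => i < k), Bd1_D A k k :=
  Bd1_sum A (N - (i.1 + 1)) (i.1 + 1) (by have := i.2; omega)

private theorem Bd1_mu (A Y : Matrix (Fin N) (Fin N) R) (i j : Fin N) :
    (muB Y * A) i j = ∑ k ∈ Finset.univ.filter (fun k => i < k), Y i k * A k j -
      (∑ k ∈ Finset.univ.filter (fun k => i < k), Y k k) * A i j := by
  rw [Matrix.mul_apply]
  have h1 : ∀ k, muB Y i k * A k j = (if i < k then Y i k * A k j else 0) +
      (if i = k then -(∑ l ∈ Finset.univ.filter (fun l => i < l), Y l l) * A i j else 0) := by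
    intro k
    unfold muB
    by_cases h : i < k
    · rw [if_pos h, if_pos h, if_neg (ne_of_lt h), add_zero]
    · by_cases h2 : i = k
      · subst h2
        rw [if_neg h, if_neg h, if_pos rfl, if_pos rfl, zero_add]
      · rw [if_neg h, if_neg h, if_neg h2, if_neg h2, zero_mul, add_zero]
  rw [Finset.sum_congr rfl fun k _ => h1 k, Finset.sum_add_distrib, ← Finset.sum_filter, Finset.sum_ite_eq,
    if_pos (Finset.mem_univ _)]
  ring

private theorem Bd1_coeff (A : Matrix (Fin N) (Fin N) R) (p : ℕ) : ∀ i j : Fin N,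
    ((fun X => muB X * A)^[p] A) i j = (-1) ^ p * (Bd1_D A i j).coeff p := by
  induction p with
  | zero =>
    intro i j
    have h1 := congrArg (fun P => Polynomial.coeff P 0) (Bd1_rec A i j)
    simp only [Bd1_det, Polynomial.coeff_add, Polynomial.coeff_X_mul_zero, Polynomial.coeff_mul_C,
      Polynomial.coeff_one_zero, add_zero, one_mul] at h1
    rw [Function.iterate_zero_apply, pow_zero, one_mul, h1]
  | succ p ih =>
    intro i j
    have h1 := congrArg (fun P => Polynomial.coeff P (p + 1)) (Bd1_rec A i j)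
    simp only [Bd1_det, Polynomial.coeff_add, Polynomial.coeff_X_mul, Polynomial.coeff_mul_C,
      Polynomial.finsetSum_coeff] at h1
    rw [Polynomial.coeff_one, if_neg (Nat.succ_ne_zero p), zero_add] at h1
    rw [Function.iterate_succ_apply']
    show (muB ((fun X => muB X * A)^[p] A) * A) i j = _
    rw [Bd1_mu]
    simp only [ih]
    have h2 : ∑ k ∈ Finset.univ.filter (fun k => i < k), (-1) ^ p * (Bd1_D A i k).coeff p * A k j =
        (-1) ^ p * ∑ k ∈ Finset.univ.filter (fun k => i < k), (Bd1_D A i k).coeff p * A k j := by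
      rw [Finset.mul_sum]
      exact Finset.sum_congr rfl fun k _ => by ring
    rw [h2, ← Finset.mul_sum, pow_succ]
    linear_combination (-1) ^ p * h1

end Bd1

theorem bird {R : Type} [CommRing R] {n : ℕ} (A : Matrix (Fin (n + 1)) (Fin (n + 1)) R) :
    ((fun X => muB X * A)^[n] A) 0 0 = (-1) ^ n * A.det := by
  have h1 := congrArg (fun P => Polynomial.coeff P (n + 1)) (Bd1_row A 0)
  simp only [Polynomial.coeff_add, Polynomial.coeff_X_mul] at h1
  have h2 : ∀ m, (Bd1_B A m).det.coeff (n + 1) = (Bd1_m A m).det := by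
    intro m
    have h3 := Polynomial.coeff_det_X_add_C_card (Bd1_m A m) (1 : Matrix (Fin (n + 1)) (Fin (n + 1)) R)
    rw [Fintype.card_fin] at h3
    exact h3
  have h3 : Bd1_m A 0 = A := by
    ext1 k j
    unfold Bd1_m
    rw [Matrix.of_apply, if_pos (Nat.zero_le _)]
  have h4 : (Bd1_m A 1).det = 0 := by
    refine Matrix.det_eq_zero_of_row_eq_zero 0 fun j => ?_
    unfold Bd1_m
    rw [Matrix.of_apply, if_neg (by show ¬ 1 ≤ 0; omega)]
  rw [h2, h2] at h1
  rw [Bd1_coeff]
  congr 1
  rw [show ((0 : Fin (n + 1)) : ℕ) = 0 from rfl, h3, h4, zero_add] at h1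
  exact h1.symm

end Pool.Agent.FRN
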