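import Pool.Agent.FRN.Bd1
import Pool.Agent.FRN.Alg

/-!
# FRN/Bd2: Bird's algorithm on lists

`lk_bst`: the list `bst N A X` has exactly one entry with the key `(i, j)` for `i, j ∈ N = List.range m`.  `zv` is additive and multiplicative (`zv_add`, `zv_mul`, `zv_sum`), `zv (zneg a) = - zv a`.  So `fun i j => zv (lk (bst N A X) i j)` is `muB X' * A'` for the matrices `X'`, `A'` of `X`, `A`; the fold over `N.tail` is the
`(m - 1)`-th iterate.  `bird` with `R = ℤ`; `zab a = |zv a|`.
-/

set_option autoImplicit false

noncomputable section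

open scoped Classical

namespace Pool.Agent.FRN

open Pool.Agent.FRM Pool.Agent.FRM.GG Pool.Agent.BEO Pool.Agent.PQE

theorem zv_zneg (a : In) : zv (zneg a) = -zv a := by
  simp only [zv, zneg]
  ring

theorem zab_eq (a : In) : zab a = (zv a).natAbs := by
  simp only [zab, zv]
  omega

private theorem Bd2_flat {α : Type} (l : List α) (f : α → List In) :
    (l.flatMap f).sum = (l.map fun x => (f x).sum).sum := by
  induction l with
  | nil => rfl
  | cons a l ih => rw [List.flatMap_cons, List.sum_append, ih, List.map_cons, List.sum_cons]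

private theorem Bd2_range {M : Type} [AddCommMonoid M] (m : ℕ) (f : ℕ → M) :
    ((List.range m).map f).sum = ∑ i ∈ Finset.range m, f i := by
  rw [← List.sum_toFinset f List.nodup_range, List.toFinset_range]

theorem lk_bst {m : ℕ} (A X : Qz) {i j : ℕ} (hi : i < m) (hj : j < m) :
    lk (bst (List.range m) A X) i j = ((List.range m).map fun k => zmul (bmu (List.range m) X i k) (lk A k j)).sum := by
  rw [lk, bst, List.map_flatMap, Bd2_flat, Bd2_range, Finset.sum_eq_single i]
  · rw [List.map_map, Bd2_range, Finset.sum_eq_single j]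
    · simp
    · intro l' _ hne
      simp [hne]
    · intro h
      exact absurd (Finset.mem_range.2 hj) h
  · intro i' _ hne
    rw [List.map_map]
    refine List.sum_eq_zero fun x hx => ?_
    obtain ⟨l', -, rfl⟩ := List.mem_map.1 hx
    simp [hne]
  · intro h
    exact absurd (Finset.mem_range.2 hi) h

private theorem Bd2_mu {m : ℕ} (X : Qz) (i k : Fin m) :
    zv (bmu (List.range m) X i.val k.val) = muB (fun a b : Fin m => zv (lk X a.val b.val)) i k := by
  unfold bmu muB
  by_cases h1 : i < k
  · rw [if_pos (decide_eq_true (Fin.lt_def.1 h1)), if_pos h1]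
  · rw [if_neg h1, if_neg (by rw [decide_eq_true_eq]; exact fun h => h1 (Fin.lt_def.2 h))]
    by_cases h2 : i = k
    · rw [if_pos h2, if_pos (by rw [decide_eq_true_eq, h2]), zv_zneg, zv_sum, List.map_map]
      congr 1
      rw [← List.sum_toFinset _ (List.nodup_range.filter _), List.toFinset_filter, List.toFinset_range,
        Finset.sum_filter, Finset.sum_range, Finset.sum_filter]
      refine Finset.sum_congr rfl fun l _ => ?_
      by_cases h3 : i < l
      · rw [if_pos h3, if_pos (decide_eq_true (Fin.lt_def.1 h3))]
        rfl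
      · rw [if_neg h3, if_neg (by rw [decide_eq_true_eq]; exact fun h => h3 (Fin.lt_def.2 h))]
    · rw [if_neg h2, if_neg (by rw [decide_eq_true_eq]; exact fun h => h2 (Fin.ext h))]
      rfl

private theorem Bd2_step {m : ℕ} (A X : Qz) :
    (fun i j : Fin m => zv (lk (bst (List.range m) A X) i.val j.val)) =
      muB (fun a b : Fin m => zv (lk X a.val b.val)) * (Matrix.of fun i j : Fin m => zv (lk A i.val j.val)) := by
  funext i j
  rw [Matrix.mul_apply, lk_bst A X i.isLt j.isLt, zv_sum, List.map_map, Bd2_range, Finset.sum_range]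
  refine Finset.sum_congr rfl fun k _ => ?_
  rw [Function.comp_apply, zv_mul, Bd2_mu, Matrix.of_apply]

private theorem Bd2_iter {m : ℕ} (A : Qz) (t : ℕ) :
    (fun i j : Fin m => zv (lk ((bst (List.range m) A)^[t] A) i.val j.val)) =
      ((fun X : Matrix (Fin m) (Fin m) ℤ => muB X * (Matrix.of fun i j : Fin m => zv (lk A i.val j.val)))^[t]
        (Matrix.of fun i j : Fin m => zv (lk A i.val j.val))) := by
  induction t with
  | zero => rfl
  | succ t ih =>
    rw [Function.iterate_succ_apply', Function.iterate_succ_apply', Bd2_step, ih]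

theorem adet_eq (m : ℕ) (A : Qz) :
    adet (List.range m) A = ((Matrix.of fun i j : Fin m => zv (lk A i.val j.val)).det).natAbs := by
  unfold adet
  rcases m with _ | n
  · rw [Matrix.det_isEmpty]
    rfl
  · rw [if_neg (by simp), zab_eq, List.foldl_const]
    have h1 : (List.range (n + 1)).tail.length = n := by simp
    rw [h1]
    have h2 := congrFun (congrFun (Bd2_iter (m := n + 1) A n) 0) 0
    have h3 := bird (R := ℤ) (n := n) (Matrix.of fun i j : Fin (n + 1) => zv (lk A i.val j.val))
    rw [h3] at h2
    have h4 : zv (lk ((bst (List.range (n + 1)) A)^[n] A) 0 0) = (-1) ^ n *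
        (Matrix.of fun i j : Fin (n + 1) => zv (lk A i.val j.val)).det := h2
    rw [h4, Int.natAbs_mul, Int.natAbs_pow, Int.natAbs_neg, Int.natAbs_one, one_pow, one_mul]

end Pool.Agent.FRN
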