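import Pool.Agent.FRN.Defs
import Pool.Agent.FRM.Wk3

/-!
# FRN/Eg: extension of gauges along a path

`ext_gauge`: induction on the path, as `ext_pot` in FRM/Ext.  `gauge_cycle`, `gauge_theta`: extension along the two (three) paths, the
inner vertices of one path are not on the others.  `good_gauge`: conjugation keeps the real part.
-/

set_option autoImplicit false

noncomputable section

open scoped Classical

namespace Pool.Agent.FRN

open Pool.Agent.FRM Pool.Agent.FRM.GG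

variable {V E Q : Type} [AddCommGroup Q] {Γ : GG V E Q}

omit [AddCommGroup Q] in
private theorem Eg_dart {G : Type} [Group G] (σ τ : E → G) (a : V → G) (d : Da E) :
    (if d.2 then τ d.1 else (τ d.1)⁻¹) = a (Γ.src d) * (if d.2 then σ d.1 else (σ d.1)⁻¹) * (a (Γ.tgt d))⁻¹ ↔
      τ d.1 = a (Γ.s d.1) * σ d.1 * (a (Γ.t d.1))⁻¹ := by
  obtain ⟨e, b⟩ := d
  cases b with
  | true => exact Iff.rfl
  | false =>
    simp only [src, tgt, Bool.false_eq_true, if_false]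
    rw [← inv_inj]
    have h : (a (Γ.t e) * (σ e)⁻¹ * (a (Γ.s e))⁻¹)⁻¹ = a (Γ.s e) * σ e * (a (Γ.t e))⁻¹ := by group
    rw [h, inv_inv]

omit [AddCommGroup Q] in
private theorem Eg_vs (a : V) (d : Da E) (l : List (Da E)) :
    Γ.vs a (d :: l) = a :: Γ.vs (Γ.tgt d) l := rfl

theorem gq_hl {G : Type} [Group G] {σ τ : E → G} {a : V → G} {S : Finset E} (h : Gq Γ σ τ a S) {x y : V} {l : List (Da E)}
    (hl' : Γ.Wk x l y) (hS : ∀ d ∈ l, d.1 ∈ S) : hl τ l = a x * hl σ l * (a y)⁻¹ := by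
  induction l generalizing x with
  | nil =>
    have h' : x = y := hl'
    rw [hl_nil, hl_nil, h']
    group
  | cons d l ih =>
    obtain ⟨_, hsrc, hw⟩ := hl'
    have h1 := ih hw fun d' hd' => hS d' (List.mem_cons_of_mem _ hd')
    have h2 := (Eg_dart (Γ := Γ) σ τ a d).2 (h d.1 (hS d List.mem_cons_self))
    rw [hl_cons, hl_cons, h1, h2, hsrc]
    group

theorem ext_gauge {G : Type} [Group G] (σ τ : E → G) (a₀ : V → G) {a b : V} {l : List (Da E)} (h : Γ.Pt a l b) (hne : a ≠ b)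
    (hl' : hl τ l = a₀ a * hl σ l * (a₀ b)⁻¹) :
    ∃ a' : V → G, (∀ z, z ∉ Γ.vs a l → a' z = a₀ z) ∧ a' a = a₀ a ∧ a' b = a₀ b ∧
      ∀ d ∈ l, τ d.1 = a' (Γ.s d.1) * σ d.1 * (a' (Γ.t d.1))⁻¹ := by
  induction l generalizing a a₀ with
  | nil => exact absurd h.1 hne
  | cons d l ih =>
    obtain ⟨⟨hd, hsrc, hw⟩, hnd⟩ := h
    rw [Eg_vs, List.nodup_cons] at hnd
    rw [hl_cons, hl_cons] at hl'
    by_cases hl0 : l = []
    · subst hl0
      refine ⟨a₀, fun _ _ => rfl, rfl, rfl, fun d' hd' => ?_⟩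
      rw [List.mem_singleton] at hd'
      subst hd'
      have hb : Γ.tgt d' = b := hw
      rw [hl_nil, hl_nil, mul_one, mul_one] at hl'
      rw [← Eg_dart, hsrc, hb]
      exact hl'
    · have hpt : Γ.Pt (Γ.tgt d) l b := ⟨hw, hnd.2⟩
      have hcb : Γ.tgt d ≠ b := fun h' => by
        rw [h'] at hpt
        exact hl0 (pt_self hpt)
      have hca : a ≠ Γ.tgt d := fun h' => hnd.1 (by rw [h']; exact wk_first _ _)
      set td : G := if d.2 then τ d.1 else (τ d.1)⁻¹ with htd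
      set sd : G := if d.2 then σ d.1 else (σ d.1)⁻¹ with hsd
      have e1 : Function.update a₀ (Γ.tgt d) (td⁻¹ * a₀ a * sd) (Γ.tgt d) = td⁻¹ * a₀ a * sd :=
        Function.update_self _ _ _
      have e2 : ∀ z, z ≠ Γ.tgt d → Function.update a₀ (Γ.tgt d) (td⁻¹ * a₀ a * sd) z = a₀ z :=
        fun z hz => Function.update_of_ne hz _ _
      obtain ⟨a', h1, h2, h3, h4⟩ := ih (Function.update a₀ (Γ.tgt d) (td⁻¹ * a₀ a * sd)) hpt hcb (by
        rw [e1, e2 b hcb.symm]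
        have h5 : hl τ l = td⁻¹ * (td * hl τ l) := by group
        rw [h5, hl']
        group)
      have hpa : a' a = a₀ a := (h1 a hnd.1).trans (e2 a hca)
      refine ⟨a', fun z hz => ?_, hpa, h3.trans (e2 b hcb.symm), fun d' hd' => ?_⟩
      · rw [Eg_vs, List.mem_cons, not_or] at hz
        rw [h1 z hz.2]
        exact e2 z fun h' => hz.2 (by rw [h']; exact wk_first _ _)
      · rcases List.mem_cons.1 hd' with rfl | hd'
        · rw [← Eg_dart, hsrc, hpa, h2, e1, ← htd, ← hsd]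
          group
        · exact h4 d' hd'

private theorem Eg_ext {G : Type} [Group G] (σ τ : E → G) (a₀ : V → G) {a b : V} {l : List (Da E)} (h : Γ.Pt a l b)
    (hne : a ≠ b) (hl' : hl τ l = a₀ a * hl σ l * (a₀ b)⁻¹) :
    ∃ a' : V → G, (∀ z, (z ∈ Γ.vs a l → z = a ∨ z = b) → a' z = a₀ z) ∧
      ∀ d ∈ l, τ d.1 = a' (Γ.s d.1) * σ d.1 * (a' (Γ.t d.1))⁻¹ := by
  obtain ⟨a', h1, h2, h3, h4⟩ := ext_gauge σ τ a₀ h hne hl'
  refine ⟨a', fun z hz => ?_, h4⟩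
  by_cases hm : z ∈ Γ.vs a l
  · rcases hz hm with rfl | rfl
    · exact h2
    · exact h3
  · exact h1 z hm

private theorem Eg_ends {a b : V} {l : List (Da E)} (h : Γ.Pt a l b) {d : Da E} (hd : d ∈ l) :
    Γ.s d.1 ∈ Γ.vs a l ∧ Γ.t d.1 ∈ Γ.vs a l := by
  obtain ⟨_, h1, h2⟩ := wk_mem h.1 d hd
  obtain ⟨e, b'⟩ := d
  cases b' with
  | true => exact ⟨h1, h2⟩
  | false => exact ⟨h2, h1⟩

theorem gauge_cycle {G : Type} [Group G] {σ τ : E → G} {x y : V} {P P' : List (Da E)} (h : Γ.Cy x y P P') (c : G)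
    (hc : hl τ P * (hl τ P')⁻¹ = c * (hl σ P * (hl σ P')⁻¹) * c⁻¹) :
    ∃ a : V → G, a x = c ∧ Gq Γ σ τ a (eds P ∪ eds P') := by
  have hxy : x ≠ y := h.ne
  set a₀ : V → G := fun z => if z = x then c else (hl τ P')⁻¹ * c * hl σ P' with ha₀
  have ex : a₀ x = c := if_pos rfl
  have ey : a₀ y = (hl τ P')⁻¹ * c * hl σ P' := if_neg hxy.symm
  obtain ⟨a₁, k1, k2⟩ := Eg_ext σ τ a₀ h.p hxy (by
    rw [ex, ey]
    have h1 : hl τ P = hl τ P * (hl τ P')⁻¹ * hl τ P' := by group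
    rw [h1, hc]
    group)
  have ex1 : a₁ x = c := (k1 x fun _ => Or.inl rfl).trans ex
  have ey1 : a₁ y = (hl τ P')⁻¹ * c * hl σ P' := (k1 y fun _ => Or.inr rfl).trans ey
  obtain ⟨a₂, l1, l2⟩ := Eg_ext σ τ a₁ h.p' hxy (by
    rw [ex1, ey1]
    group)
  refine ⟨a₂, (l1 x fun _ => Or.inl rfl).trans ex1, fun e he => ?_⟩
  rcases Finset.mem_union.1 he with he | he
  · obtain ⟨d, hd, rfl⟩ := (mem_eds e P).1 he
    obtain ⟨m1, m2⟩ := Eg_ends h.p hd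
    rw [l1 _ (h.dj _ m1), l1 _ (h.dj _ m2)]
    exact k2 d hd
  · obtain ⟨d, hd, rfl⟩ := (mem_eds e P').1 he
    exact l2 d hd

theorem gauge_theta {G : Type} [Group G] {σ τ : E → G} {u w : V} {X Y Z : List (Da E)} (h : Γ.Th u w X Y Z) (c : G)
    (h₁ : hl τ X * (hl τ Z)⁻¹ = c * (hl σ X * (hl σ Z)⁻¹) * c⁻¹)
    (h₂ : hl τ Y * (hl τ Z)⁻¹ = c * (hl σ Y * (hl σ Z)⁻¹) * c⁻¹) :
    ∃ a : V → G, a u = c ∧ Gq Γ σ τ a (eds X ∪ eds Y ∪ eds Z) := by
  have hxy : u ≠ w := h.xy.ne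
  set a₀ : V → G := fun z => if z = u then c else (hl τ Z)⁻¹ * c * hl σ Z with ha₀
  have ex : a₀ u = c := if_pos rfl
  have ey : a₀ w = (hl τ Z)⁻¹ * c * hl σ Z := if_neg hxy.symm
  obtain ⟨a₁, k1, k2⟩ := Eg_ext σ τ a₀ h.xy.p hxy (by
    rw [ex, ey]
    have h1 : hl τ X = hl τ X * (hl τ Z)⁻¹ * hl τ Z := by group
    rw [h1, h₁]
    group)
  have ex1 : a₁ u = c := (k1 u fun _ => Or.inl rfl).trans ex
  have ey1 : a₁ w = (hl τ Z)⁻¹ * c * hl σ Z := (k1 w fun _ => Or.inr rfl).trans ey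
  obtain ⟨a₂, l1, l2⟩ := Eg_ext σ τ a₁ h.yz.p hxy (by
    rw [ex1, ey1]
    have h1 : hl τ Y = hl τ Y * (hl τ Z)⁻¹ * hl τ Z := by group
    rw [h1, h₂]
    group)
  have ex2 : a₂ u = c := (l1 u fun _ => Or.inl rfl).trans ex1
  have ey2 : a₂ w = (hl τ Z)⁻¹ * c * hl σ Z := (l1 w fun _ => Or.inr rfl).trans ey1
  obtain ⟨a₃, m1, m2⟩ := Eg_ext σ τ a₂ h.yz.p' hxy (by
    rw [ex2, ey2]
    group)
  refine ⟨a₃, (m1 u fun _ => Or.inl rfl).trans ex2, fun e he => ?_⟩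
  rcases Finset.mem_union.1 he with he | he
  · rcases Finset.mem_union.1 he with he | he
    · obtain ⟨d, hd, rfl⟩ := (mem_eds e X).1 he
      obtain ⟨n1, n2⟩ := Eg_ends h.xy.p hd
      rw [m1 _ (h.xz.dj _ n1), m1 _ (h.xz.dj _ n2), l1 _ (h.xy.dj _ n1), l1 _ (h.xy.dj _ n2)]
      exact k2 d hd
    · obtain ⟨d, hd, rfl⟩ := (mem_eds e Y).1 he
      obtain ⟨n1, n2⟩ := Eg_ends h.yz.p hd
      rw [m1 _ (h.yz.dj _ n1), m1 _ (h.yz.dj _ n2)]
      exact l2 d hd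
  · obtain ⟨d, hd, rfl⟩ := (mem_eds e Z).1 he
    exact m2 d hd

private theorem Eg_re (c q : Hqˣ) : ((c * q * c⁻¹ : Hqˣ) : Hq).re = (q : Hq).re := by
  have h1 : ∀ p r : Hq, (p * r).re = (r * p).re := by
    intro p r
    rw [Quaternion.re_mul, Quaternion.re_mul]
    ring
  have h2 : ((c * q * c⁻¹ : Hqˣ) : Hq) = ((c * q : Hqˣ) : Hq) * ((c⁻¹ : Hqˣ) : Hq) := Units.val_mul _ _
  rw [h2, h1, ← Units.val_mul, inv_mul_cancel_left]

theorem good_gauge {σ τ : E → Hqˣ} (hσ : Good Γ σ) {a : V → Hqˣ} (h : Gq Γ σ τ a Γ.A) (hu : ∀ e ∈ Γ.A, HU (τ e : Hq)) :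
    Good Γ τ := by
  refine ⟨hu, fun x y P P' hc hg => ?_, fun x y P P' hc hg => ?_⟩
  · rw [gq_hl h hc.p.1 (fun d hd => (wk_mem hc.p.1 d hd).1), gq_hl h hc.p'.1 (fun d hd => (wk_mem hc.p'.1 d hd).1),
      hσ.bal x y P P' hc hg]
  · rw [gq_hl h hc.p.1 (fun d hd => (wk_mem hc.p.1 d hd).1), gq_hl h hc.p'.1 (fun d hd => (wk_mem hc.p'.1 d hd).1)]
    have h1 : a x * hl σ P * (a y)⁻¹ * (a x * hl σ P' * (a y)⁻¹)⁻¹ = a x * (hl σ P * (hl σ P')⁻¹) * (a x)⁻¹ := by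
      group
    rw [h1, Eg_re]
    exact hσ.unb x y P P' hc hg

theorem good_on {τ : E → Hqˣ} (h : Good Γ τ) {B : Finset E} (hB : B ⊆ Γ.A) : Good (Γ.on B) τ :=
  ⟨fun e he => h.hu e (hB he), fun x y P P' hc hg => h.bal x y P P' ((cy_on hB).1 hc).1 hg,
    fun x y P P' hc hg => h.unb x y P P' ((cy_on hB).1 hc).1 hg⟩

theorem good_congr {σ τ : E → Hqˣ} (h : Good Γ σ) (he : ∀ e ∈ Γ.A, τ e = σ e) : Good Γ τ :=
  good_gauge (a := fun _ => 1) h (fun e hm => by rw [he e hm, one_mul, inv_one, mul_one]) fun e hm => by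
    rw [he e hm]
    exact h.hu e hm

/-- membership of holonomies in a subgroup -/
theorem hl_mem {G : Type} [Group G] {σ : E → G} (H : Subgroup G) {l : List (Da E)} (h : ∀ d ∈ l, σ d.1 ∈ H) : hl σ l ∈ H := by
  induction l with
  | nil =>
    rw [hl_nil]
    exact H.one_mem
  | cons d l ih =>
    rw [hl_cons]
    refine H.mul_mem ?_ (ih fun d' hd' => h d' (List.mem_cons_of_mem _ hd'))
    have h1 := h d List.mem_cons_self
    split_ifs
    · exact h1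
    · exact H.inv_mem h1

end Pool.Agent.FRN
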