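import Pool.Agent.FRN.Tb1
import Pool.Agent.FRN.Eg

/-!
# FRN/Kh: holonomies and classes

Holonomies of Hurwitz connections are Hurwitz units (`hl_hu`), their classes are the holonomies of the classes (`hl_kc`); for a good
connection the classes agree on the balanced cycles and differ on the unbalanced ones (`good_kbal`, `good_kunb`).
-/

set_option autoImplicit false

noncomputable section

open scoped Classical

namespace Pool.Agent.FRN

open Pool.Agent.FRM Pool.Agent.FRM.GG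

variable {V E Q : Type} [AddCommGroup Q] {Γ : GG V E Q}


theorem hl_hu {σ : E → Hqˣ} {l : List (Da E)} (h : ∀ d ∈ l, HU (σ d.1 : Hq)) : HU ((hl σ l : Hqˣ) : Hq) :=
  mem_HUg.1 (hl_mem HUg h)

/-- the classes of a connection, as a function with values in a multiplicative group -/
def kce (σ : E → Hqˣ) (e : E) : Multiplicative (ZMod 3) := Multiplicative.ofAdd (kc (σ e : Hq))

theorem hl_kc {σ : E → Hqˣ} {l : List (Da E)} (h : ∀ d ∈ l, HU (σ d.1 : Hq)) :
    Multiplicative.ofAdd (kc ((hl σ l : Hqˣ) : Hq)) = hl (kce σ) l := by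
  induction l with
  | nil =>
    rw [hl_nil, hl_nil, Units.val_one, kc_one]
    rfl
  | cons d l ih =>
    have hd : HU (σ d.1 : Hq) := h d (List.mem_cons_self ..)
    have hl' : ∀ d ∈ l, HU (σ d.1 : Hq) := fun d' hd' => h d' (List.mem_cons_of_mem _ hd')
    rw [hl_cons, hl_cons, ← ih hl', Units.val_mul]
    by_cases hb : d.2 = true
    · rw [if_pos hb, if_pos hb, kc_mul hd (hl_hu hl')]
      rfl
    · rw [if_neg hb, if_neg hb, kc_mul (hu_inv hd) (hl_hu hl'), kc_inv hd]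
      rfl

theorem hl_kc_congr {σ τ : E → Hqˣ} {l : List (Da E)} (h : ∀ d ∈ l, HU (σ d.1 : Hq)) (h' : ∀ d ∈ l, HU (τ d.1 : Hq))
    (hk : ∀ d ∈ l, kc (σ d.1 : Hq) = kc (τ d.1 : Hq)) : kc ((hl σ l : Hqˣ) : Hq) = kc ((hl τ l : Hqˣ) : Hq) := by
  apply Multiplicative.ofAdd.injective
  rw [hl_kc h, hl_kc h']
  have h1 : ∀ d ∈ l, kce σ d.1 = kce τ d.1 := fun d hd => congrArg Multiplicative.ofAdd (hk d hd)
  unfold hl
  congr 1
  refine List.map_congr_left fun d hd => ?_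
  rw [h1 d hd]

theorem good_bal {σ : E → Hqˣ} (h : Good Γ σ) : Bal Γ σ := h.bal

private theorem Kh_hu {σ : E → Hqˣ} (h : Good Γ σ) {x y : V} {l : List (Da E)} (hl' : Γ.Wk x l y) :
    ∀ d ∈ l, HU (σ d.1 : Hq) :=
  fun d hd => h.hu d.1 (eds_sub hl' ((mem_eds d.1 l).2 ⟨d, hd, rfl⟩))

theorem good_kbal {σ : E → Hqˣ} (h : Good Γ σ) : Bal Γ (kce σ) := by
  intro x y P P' hc hg
  rw [← hl_kc (Kh_hu h hc.p.1), ← hl_kc (Kh_hu h hc.p'.1), h.bal x y P P' hc hg]

theorem good_kunb {σ : E → Hqˣ} (h : Good Γ σ) : Unb Γ (kce σ) := by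
  intro x y P P' hc hg he
  rw [← hl_kc (Kh_hu h hc.p.1), ← hl_kc (Kh_hu h hc.p'.1)] at he
  have h1 : kc ((hl σ P : Hqˣ) : Hq) = kc ((hl σ P' : Hqˣ) : Hq) := Multiplicative.ofAdd.injective he
  have hP : HU ((hl σ P : Hqˣ) : Hq) := hl_hu (Kh_hu h hc.p.1)
  have hP' : HU ((hl σ P' : Hqˣ) : Hq) := hl_hu (Kh_hu h hc.p'.1)
  have h2 := h.unb x y P P' hc hg
  rw [Units.val_mul] at h2
  apply kc_half (hu_mul hP (hu_inv hP')) h2
  rw [kc_mul hP (hu_inv hP'), kc_inv hP', h1, add_neg_cancel]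

end Pool.Agent.FRN
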