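import Pool.Agent.FRN.Defs

/-!
# FRN/Lam: the specialisation in the field with four elements

PROOF PLAN.  `lm` is additive by definition; `lm_FU` by `decide` on the 30 elements.  `hl_lm`: induction on the list.
-/

set_option autoImplicit false

noncomputable section

open scoped Classical

namespace Pool.Agent.FRN

open Pool.Agent.FRM Pool.Agent.FRM.GG

theorem lm_zero : lm 0 = 0 := by
  simp [lm]

theorem lm_add (a b : XG) : lm (a + b) = lm a + lm b := by
  simp only [lm, Prod.fst_add, Prod.snd_add, Int.cast_add]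
  ring

theorem lm_neg (a : XG) : lm (-a) = -lm a := by
  simp only [lm, Prod.fst_neg, Prod.snd_neg, Int.cast_neg]
  ring

theorem lm_sub (a b : XG) : lm (a - b) = lm a - lm b := by
  rw [sub_eq_add_neg, lm_add, lm_neg, sub_eq_add_neg]

theorem lm_FU {a : XG} (h : a ∈ FU) : lm a ≠ 0 := by
  simp only [FU, Finset.mem_insert, Finset.mem_singleton] at h
  rcases h with h | h | h | h | h | h | h | h | h | h | h | h | h | h | h | h | h | h | h | h | h | h | h | h | h | h | h | h | h | h <;>
    (subst h; simp only [lm]; intro hc; revert hc; decide)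

/-- `lm` of the gains, as a function on the edges with values in a multiplicative group -/
def lme {V E : Type} (Γ : GG V E XG) (e : E) : Multiplicative (ZMod 3) := Multiplicative.ofAdd (lm (Γ.g e))

theorem hl_lme {V E : Type} (Γ : GG V E XG) (l : List (Da E)) : hl (lme Γ) l = Multiplicative.ofAdd (lm (Γ.gn l)) := by
  induction l with
  | nil => simp [hl, gn, lm_zero]
  | cons d l ih =>
    have h1 : hl (lme Γ) (d :: l) = (if d.2 then lme Γ d.1 else (lme Γ d.1)⁻¹) * hl (lme Γ) l := by
      simp [hl]
    have h2 : Γ.gn (d :: l) = Γ.dg d + Γ.gn l := by simp [gn]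
    rw [h1, h2, ih, lm_add, ofAdd_add]
    congr 1
    unfold dg
    by_cases hd : d.2 = true
    · rw [if_pos hd, if_pos hd]
      rfl
    · rw [if_neg hd, if_neg hd, lm_neg, ofAdd_neg]
      rfl

theorem lme_bal {V E : Type} (Γ : GG V E XG) : Bal Γ (lme Γ) := by
  intro x y P P' _ hg
  rw [hl_lme, hl_lme, hg]

theorem lme_unb {V E : Type} {Γ : GG V E XG} (hΦ : Γ.Phi (FU : Set XG)) : Unb Γ (lme Γ) := by
  intro x y P P' hc hg he
  rw [hl_lme, hl_lme] at he
  have he' : lm (Γ.gn P) = lm (Γ.gn P') := Multiplicative.ofAdd.injective he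
  rcases hΦ x y P P' hc with h | h
  · exact hg (sub_eq_zero.mp h)
  · exact lm_FU (Finset.mem_coe.mp h) (by rw [lm_sub, he', sub_self])

end Pool.Agent.FRN
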