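import Pool.Agent.FRN.Tb1

/-!
# FRN/Tb2: conjugations of Hurwitz units

PROOF PLAN.  Finite checks over `qv t`, `t < 24` (`hu_iff`), on the doubled integer coordinates.  `conj_two`: it is enough to move all pairs with given classes to one standard pair (then compose):
the classes of `u`, `u'` are different (`u⁻¹ u'` has real part `1 / 2`, so nonzero class), 12 pairs for each of the two values of `kc u`.  `outer`: `o = 1 + i`: conjugation maps `(a, b, c, d)` to `(a, b, -d, c)`.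
-/

set_option autoImplicit false

noncomputable section

open scoped Classical

namespace Pool.Agent.FRN

open Pool.Agent.FRM Pool.Agent.FRM.GG

private def Tb2_m (p q : ℤ × ℤ × ℤ × ℤ) : ℤ × ℤ × ℤ × ℤ :=
  (p.1 * q.1 - p.2.1 * q.2.1 - p.2.2.1 * q.2.2.1 - p.2.2.2 * q.2.2.2,
    p.1 * q.2.1 + p.2.1 * q.1 + p.2.2.1 * q.2.2.2 - p.2.2.2 * q.2.2.1,
    p.1 * q.2.2.1 - p.2.1 * q.2.2.2 + p.2.2.1 * q.1 + p.2.2.2 * q.2.1,
    p.1 * q.2.2.2 + p.2.1 * q.2.2.1 - p.2.2.1 * q.2.1 + p.2.2.2 * q.1)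

private def Tb2_d (p q : ℤ × ℤ × ℤ × ℤ) : ℤ :=
  p.1 * q.1 + p.2.1 * q.2.1 + p.2.2.1 * q.2.2.1 + p.2.2.2 * q.2.2.2

private theorem Tb2_eq {c u w : ℕ} (h : Tb2_m (qd c) (qd u) = Tb2_m (qd w) (qd c)) : qu c * qu u * (qu c)⁻¹ = qu w := by
  rw [mul_inv_eq_iff_eq_mul]
  apply Units.ext
  rw [Units.val_mul, Units.val_mul, qu_val, qu_val, qu_val]
  unfold Tb2_m at h
  simp only [Prod.mk.injEq] at h
  obtain ⟨h1, h2, h3, h4⟩ := h
  have e1 : (((qd c).1 * (qd u).1 - (qd c).2.1 * (qd u).2.1 - (qd c).2.2.1 * (qd u).2.2.1 - (qd c).2.2.2 * (qd u).2.2.2 : ℤ) : ℚ)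
    = (((qd w).1 * (qd c).1 - (qd w).2.1 * (qd c).2.1 - (qd w).2.2.1 * (qd c).2.2.1 - (qd w).2.2.2 * (qd c).2.2.2 : ℤ) : ℚ) := by
    rw [h1]
  have e2 : (((qd c).1 * (qd u).2.1 + (qd c).2.1 * (qd u).1 + (qd c).2.2.1 * (qd u).2.2.2 - (qd c).2.2.2 * (qd u).2.2.1 : ℤ) : ℚ)
    = (((qd w).1 * (qd c).2.1 + (qd w).2.1 * (qd c).1 + (qd w).2.2.1 * (qd c).2.2.2 - (qd w).2.2.2 * (qd c).2.2.1 : ℤ) : ℚ) := by
    rw [h2]
  have e3 : (((qd c).1 * (qd u).2.2.1 - (qd c).2.1 * (qd u).2.2.2 + (qd c).2.2.1 * (qd u).1 + (qd c).2.2.2 * (qd u).2.1 : ℤ) : ℚ)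
    = (((qd w).1 * (qd c).2.2.1 - (qd w).2.1 * (qd c).2.2.2 + (qd w).2.2.1 * (qd c).1 + (qd w).2.2.2 * (qd c).2.1 : ℤ) : ℚ) := by
    rw [h3]
  have e4 : (((qd c).1 * (qd u).2.2.2 + (qd c).2.1 * (qd u).2.2.1 - (qd c).2.2.1 * (qd u).2.1 + (qd c).2.2.2 * (qd u).1 : ℤ) : ℚ)
    = (((qd w).1 * (qd c).2.2.2 + (qd w).2.1 * (qd c).2.2.1 - (qd w).2.2.1 * (qd c).2.1 + (qd w).2.2.2 * (qd c).1 : ℤ) : ℚ) := by
    rw [h4]
  push_cast at e1 e2 e3 e4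
  apply Quaternion.ext
  · rw [Quaternion.re_mul, Quaternion.re_mul]
    simp only [qv]
    linear_combination e1 / 4
  · rw [Quaternion.imI_mul, Quaternion.imI_mul]
    simp only [qv]
    linear_combination e2 / 4
  · rw [Quaternion.imJ_mul, Quaternion.imJ_mul]
    simp only [qv]
    linear_combination e3 / 4
  · rw [Quaternion.imK_mul, Quaternion.imK_mul]
    simp only [qv]
    linear_combination e4 / 4

private theorem Tb2_qu {u : Hqˣ} (hu : HU (u : Hq)) : ∃ t : Fin 24, u = qu t := by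
  obtain ⟨t, ht, h⟩ := (hu_iff _).1 hu
  exact ⟨⟨t, ht⟩, Units.ext h⟩

private theorem Tb2_re {t : ℕ} (h : ((qu t : Hqˣ) : Hq).re = 1 / 2) : (qd t).1 = 1 := by
  rw [qu_val] at h
  have h1 : ((qd t).1 : ℚ) / 2 = 1 / 2 := h
  have h2 : ((qd t).1 : ℚ) = 1 := by linarith
  exact_mod_cast h2

private theorem Tb2_kc {s t : Fin 24} (h : kc ((qu s : Hqˣ) : Hq) = kc ((qu t : Hqˣ) : Hq)) : (s : ℕ) / 8 = (t : ℕ) / 8 := by
  rw [qu_val, qu_val, kc_qv s.2, kc_qv t.2, ZMod.natCast_eq_natCast_iff'] at h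
  have h1 := s.2
  have h2 := t.2
  omega

private theorem Tb2_dot {s t : ℕ} (h : (((qu s)⁻¹ * qu t : Hqˣ) : Hq).re = 1 / 2) : Tb2_d (qd s) (qd t) = 2 := by
  rw [Units.val_mul, inv_star (by rw [qu_val]; exact hu_qv s), qu_val, qu_val, Quaternion.re_mul] at h
  rw [Quaternion.re_star, Quaternion.imI_star, Quaternion.imJ_star, Quaternion.imK_star] at h
  simp only [qv] at h
  have h1 : ((Tb2_d (qd s) (qd t) : ℤ) : ℚ) = ((2 : ℤ) : ℚ) := by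
    unfold Tb2_d
    push_cast
    linarith
  exact_mod_cast h1

attribute [-instance] Classical.propDecidable in
private theorem Tb2_c1 : ∀ s t : Fin 24, (qd s).1 = 1 → (qd t).1 = 1 → (s : ℕ) / 8 = (t : ℕ) / 8 →
    ∃ c : Fin 24, Tb2_m (qd c) (qd s) = Tb2_m (qd t) (qd c) := by
  decide +kernel

theorem conj_one {u w : Hqˣ} (hu : HU (u : Hq)) (hw : HU (w : Hq)) (ru : (u : Hq).re = 1 / 2) (rw' : (w : Hq).re = 1 / 2)
    (hk : kc (u : Hq) = kc (w : Hq)) : ∃ c : Hqˣ, HU (c : Hq) ∧ c * u * c⁻¹ = w := by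
  obtain ⟨s, rfl⟩ := Tb2_qu hu
  obtain ⟨t, rfl⟩ := Tb2_qu hw
  obtain ⟨c, hc⟩ := Tb2_c1 s t (Tb2_re ru) (Tb2_re rw') (Tb2_kc hk)
  exact ⟨qu c, by rw [qu_val]; exact hu_qv c, Tb2_eq hc⟩

private def Tb2_sp (s : ℕ) : ℕ × ℕ := if s / 8 = 1 then (8, 16) else (16, 8)

attribute [-instance] Classical.propDecidable in
private theorem Tb2_c2 : ∀ s s' : Fin 24, (qd s).1 = 1 → (qd s').1 = 1 → Tb2_d (qd s) (qd s') = 2 →
    ∃ c : Fin 24, Tb2_m (qd c) (qd s) = Tb2_m (qd (Tb2_sp s).1) (qd c) ∧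
      Tb2_m (qd c) (qd s') = Tb2_m (qd (Tb2_sp s).2) (qd c) := by
  decide +kernel

theorem conj_two {u u' w w' : Hqˣ} (hu : HU (u : Hq)) (hu' : HU (u' : Hq)) (hw : HU (w : Hq)) (hw' : HU (w' : Hq))
    (ru : (u : Hq).re = 1 / 2) (ru' : (u' : Hq).re = 1 / 2) (rw' : (w : Hq).re = 1 / 2) (rw'' : (w' : Hq).re = 1 / 2)
    (r : ((u⁻¹ * u' : Hqˣ) : Hq).re = 1 / 2) (r' : ((w⁻¹ * w' : Hqˣ) : Hq).re = 1 / 2)
    (hk : kc (u : Hq) = kc (w : Hq)) (hk' : kc (u' : Hq) = kc (w' : Hq)) :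
    ∃ c : Hqˣ, HU (c : Hq) ∧ c * u * c⁻¹ = w ∧ c * u' * c⁻¹ = w' := by
  obtain ⟨s, rfl⟩ := Tb2_qu hu
  obtain ⟨s', rfl⟩ := Tb2_qu hu'
  obtain ⟨t, rfl⟩ := Tb2_qu hw
  obtain ⟨t', rfl⟩ := Tb2_qu hw'
  obtain ⟨c, hc, hc'⟩ := Tb2_c2 s s' (Tb2_re ru) (Tb2_re ru') (Tb2_dot r)
  obtain ⟨d, hd, hd'⟩ := Tb2_c2 t t' (Tb2_re rw') (Tb2_re rw'') (Tb2_dot r')
  have h1 : Tb2_sp s = Tb2_sp t := by
    unfold Tb2_sp
    rw [Tb2_kc hk]
  rw [← h1] at hd hd'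
  have e1 := Tb2_eq hc
  have e2 := Tb2_eq hc'
  have e3 := Tb2_eq hd
  have e4 := Tb2_eq hd'
  refine ⟨(qu d)⁻¹ * qu c, ?_, ?_, ?_⟩
  · rw [Units.val_mul]
    exact hu_mul (hu_inv (by rw [qu_val]; exact hu_qv d)) (by rw [qu_val]; exact hu_qv c)
  · rw [show (qu d)⁻¹ * qu c * qu s * ((qu d)⁻¹ * qu c)⁻¹ = (qu d)⁻¹ * (qu c * qu s * (qu c)⁻¹) * qu d by group, e1, ← e3]
    group
  · rw [show (qu d)⁻¹ * qu c * qu s' * ((qu d)⁻¹ * qu c)⁻¹ = (qu d)⁻¹ * (qu c * qu s' * (qu c)⁻¹) * qu d by group, e2, ← e4]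
    group

private def Tb2_o : Hq := ⟨1, 1, 0, 0⟩

private def Tb2_v (q : Hq) : Hq := ⟨q.re, q.imI, -q.imK, q.imJ⟩

private theorem Tb2_o0 : Tb2_o ≠ 0 := by
  intro h
  have h1 : Tb2_o.re = 0 := by rw [h]; rfl
  exact one_ne_zero h1

private theorem Tb2_ov (q : Hq) : Tb2_o * q = Tb2_v q * Tb2_o := by
  have o1 : Tb2_o.re = 1 := rfl
  have o2 : Tb2_o.imI = 1 := rfl
  have o3 : Tb2_o.imJ = 0 := rfl
  have o4 : Tb2_o.imK = 0 := rfl
  have v1 : (Tb2_v q).re = q.re := rfl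
  have v2 : (Tb2_v q).imI = q.imI := rfl
  have v3 : (Tb2_v q).imJ = -q.imK := rfl
  have v4 : (Tb2_v q).imK = q.imJ := rfl
  apply Quaternion.ext
  · rw [Quaternion.re_mul, Quaternion.re_mul, o1, o2, o3, o4, v1, v2, v3, v4]
    ring
  · rw [Quaternion.imI_mul, Quaternion.imI_mul, o1, o2, o3, o4, v1, v2, v3, v4]
    ring
  · rw [Quaternion.imJ_mul, Quaternion.imJ_mul, o1, o2, o3, o4, v1, v2, v3, v4]
    ring
  · rw [Quaternion.imK_mul, Quaternion.imK_mul, o1, o2, o3, o4, v1, v2, v3, v4]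
    ring

/-- the outer automorphism -/
theorem outer : ∃ o : Hqˣ, ∀ u : Hqˣ, HU (u : Hq) →
    HU ((o * u * o⁻¹ : Hqˣ) : Hq) ∧ kc ((o * u * o⁻¹ : Hqˣ) : Hq) = -kc (u : Hq) := by
  refine ⟨Units.mk0 Tb2_o Tb2_o0, fun u hu => ?_⟩
  have h1 : ((Units.mk0 Tb2_o Tb2_o0 * u * (Units.mk0 Tb2_o Tb2_o0)⁻¹ : Hqˣ) : Hq) = Tb2_v (u : Hq) := by
    rw [Units.val_mul, Units.val_mul, Units.val_mk0, Tb2_ov, mul_assoc]
    have h2 := Units.mul_inv (Units.mk0 Tb2_o Tb2_o0)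
    rw [Units.val_mk0] at h2
    rw [h2, mul_one]
  rw [h1]
  have v1 : (Tb2_v (u : Hq)).re = (u : Hq).re := rfl
  have v2 : (Tb2_v (u : Hq)).imI = (u : Hq).imI := rfl
  have v3 : (Tb2_v (u : Hq)).imJ = -(u : Hq).imK := rfl
  have v4 : (Tb2_v (u : Hq)).imK = (u : Hq).imJ := rfl
  constructor
  · obtain ⟨h2, h3⟩ := hu
    refine ⟨?_, ?_⟩
    · rw [Quaternion.normSq_def'] at h2 ⊢
      rw [v1, v2, v3, v4]
      linear_combination h2
    · rcases h3 with ⟨a, b, c, d, h⟩ | ⟨a, b, c, d, h⟩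
      · left
        refine ⟨a, b, -d, c, ?_⟩
        rw [h]
        apply Quaternion.ext
        · rfl
        · rfl
        · show -(d : ℚ) = ((-d : ℤ) : ℚ)
          push_cast
          rfl
        · rfl
      · right
        refine ⟨a, b, -d - 1, c, ?_⟩
        rw [h]
        apply Quaternion.ext
        · rfl
        · rfl
        · show -((d : ℚ) + 1 / 2) = ((-d - 1 : ℤ) : ℚ) + 1 / 2
          push_cast
          ring
        · rfl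
  · unfold kc
    have h2 : (Tb2_v (u : Hq)).re * (Tb2_v (u : Hq)).imI * (Tb2_v (u : Hq)).imJ * (Tb2_v (u : Hq)).imK =
        -((u : Hq).re * (u : Hq).imI * (u : Hq).imJ * (u : Hq).imK) := by
      rw [v1, v2, v3, v4]
      ring
    simp only [h2]
    generalize (u : Hq).re * (u : Hq).imI * (u : Hq).imJ * (u : Hq).imK = x
    by_cases h3 : x = 1 / 16
    · rw [h3, if_neg (by norm_num), if_pos rfl, if_pos rfl]
      rfl
    · by_cases h4 : x = -(1 / 16)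
      · rw [h4, if_pos (by norm_num), if_neg (by norm_num), if_pos rfl]
        rfl
      · rw [if_neg (fun h => h4 (by linarith)), if_neg (fun h => h3 (by linarith)), if_neg h3, if_neg h4, neg_zero]

theorem cls_ex (k : ZMod 3) : ∃ u : Hqˣ, HU (u : Hq) ∧ kc (u : Hq) = k ∧ (k ≠ 0 → (u : Hq).re = 1 / 2) ∧ (k = 0 → u = 1) := by
  fin_cases k
  · exact ⟨1, by rw [Units.val_one]; exact hu_one, by rw [Units.val_one]; exact kc_one, fun h => (h rfl).elim, fun _ => rfl⟩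
  · refine ⟨qu 8, by rw [qu_val]; exact hu_qv 8, ?_, fun _ => ?_, fun h => ?_⟩
    · rw [qu_val, kc_qv (by norm_num)]
      rfl
    · rw [qu_val]
      show ((qd 8).1 : ℚ) / 2 = 1 / 2
      rw [show (qd 8).1 = 1 from rfl]
      norm_num
    · have h' : (1 : ZMod 3) = 0 := h
      exact absurd h' (by decide)
  · refine ⟨qu 16, by rw [qu_val]; exact hu_qv 16, ?_, fun _ => ?_, fun h => ?_⟩
    · rw [qu_val, kc_qv (by norm_num)]
      rfl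
    · rw [qu_val]
      show ((qd 16).1 : ℚ) / 2 = 1 / 2
      rw [show (qd 16).1 = 1 from rfl]
      norm_num
    · have h' : (2 : ZMod 3) = 0 := h
      exact absurd h' (by decide)

end Pool.Agent.FRN
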