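import Pool.Agent.FRN.Uz
import Pool.Agent.FRN.Kh
import Pool.Agent.FRN.Tb2
import Pool.Agent.FRN.Lam
import Pool.Agent.FRM.C2G

/-!
# FRN/Cf: good connections with the classes given by the gains

`good_cls`: a good connection by Hurwitz units (`c2_good`) can be changed, by the outer automorphism and a gauge, so that the classes of its
values are the specialisations `lm` of the gains (`z_uniq`).
-/

set_option autoImplicit false

noncomputable section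

open scoped Classical

namespace Pool.Agent.FRN

open Pool.Agent.FRM Pool.Agent.FRM.GG

variable {V E : Type} {Γ : GG V E XG}

private theorem Cf_gauge {σ : E → Hqˣ} (hσ : Good Γ σ) {a : V → Multiplicative (ZMod 3)}
    (ha : Gq Γ (kce σ) (lme Γ) a Γ.A) :
    ∃ τ : E → Hqˣ, Good Γ τ ∧ ∀ e ∈ Γ.A, kc (τ e : Hq) = lm (Γ.g e) := by
  have hb : ∀ z : V, ∃ u : Hqˣ, HU (u : Hq) ∧ kc (u : Hq) = Multiplicative.toAdd (a z) := by
    intro z
    obtain ⟨u, h1, h2, -⟩ := cls_ex (Multiplicative.toAdd (a z))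
    exact ⟨u, h1, h2⟩
  choose b hb1 hb2 using hb
  have h0 : ∀ e ∈ Γ.A, HU ((b (Γ.s e) * σ e : Hqˣ) : Hq) := by
    intro e he
    rw [Units.val_mul]
    exact hu_mul (hb1 _) (hσ.hu e he)
  refine ⟨fun e => b (Γ.s e) * σ e * (b (Γ.t e))⁻¹, good_gauge hσ (a := b) (fun e _ => rfl) ?_, ?_⟩
  · intro e he
    show HU ((b (Γ.s e) * σ e * (b (Γ.t e))⁻¹ : Hqˣ) : Hq)
    rw [Units.val_mul]
    exact hu_mul (h0 e he) (hu_inv (hb1 _))
  · intro e he
    show kc ((b (Γ.s e) * σ e * (b (Γ.t e))⁻¹ : Hqˣ) : Hq) = lm (Γ.g e)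
    rw [Units.val_mul, kc_mul (h0 e he) (hu_inv (hb1 _)), kc_inv (hb1 _), Units.val_mul,
      kc_mul (hb1 _) (hσ.hu e he), hb2, hb2]
    have h1 : Multiplicative.ofAdd (lm (Γ.g e)) = a (Γ.s e) * Multiplicative.ofAdd (kc (σ e : Hq)) * (a (Γ.t e))⁻¹ :=
      ha e he
    exact (congrArg Multiplicative.toAdd h1).symm

theorem good_cls (hΓ : Γ.C2) (hΦ : Γ.Phi (FU : Set XG)) :
    ∃ σ : E → Hqˣ, Good Γ σ ∧ ∀ e ∈ Γ.A, kc (σ e : Hq) = lm (Γ.g e) := by
  obtain ⟨σ, hσ⟩ := c2_good hΓ hΦ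
  rcases z_uniq hΓ hΦ (good_kbal hσ) (good_kunb hσ) (lme_bal Γ) (lme_unb hΦ) with ⟨a, ha⟩ | ⟨a, ha⟩
  · exact Cf_gauge hσ ha
  · obtain ⟨o, ho⟩ := outer
    have hσ1 : Good Γ (fun e => o * σ e * o⁻¹) :=
      good_gauge hσ (a := fun _ => o) (fun e _ => rfl) (fun e he => (ho _ (hσ.hu e he)).1)
    refine Cf_gauge hσ1 (a := a) ?_
    intro e he
    have h1 : kce (fun e => o * σ e * o⁻¹) e = (kce σ e)⁻¹ :=
      congrArg Multiplicative.ofAdd (ho _ (hσ.hu e he)).2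
    rw [h1]
    exact ha e he

end Pool.Agent.FRN
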