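import Pool.Agent.FRN.Defs
import Pool.Agent.FRM.Wk3
import Pool.Agent.FRM.Sw

/-!
# FRN/Fo: forests

PROOF PLAN.  `Cn Γ S x y`: there is a walk with edges in `S` (`Γ.on S` has the edge set `S`).  `dl_tri`, `dl_symm`: from `cn_trans`, `cn_symm`.  `dl_edge`: for `c' ≠ c` the edge `c` is in `T.erase c'`.  `dl_wk`: if `c` is not an edge of the walk, the
walk is in `T.erase c`.  `dl_pt`: `⊇`: for an edge `c` of the simple path split it at `c`: both parts avoid `c` (`pt_nodup`); if the ends of the path were connected in `T.erase c`, so would be the ends of `c`.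
`forest_cy`: both paths have the edges `Dl`; by `cy_disj` they are disjoint (then both empty, impossible as `x ≠ y`) or equal.
`forest_flat`: induction on `T` (remove an edge `c`; `T.erase c` has the property `ac` by `cn_mono`): given `a` for `T.erase c` multiply it on the left by `a (s c) σ c (a (t c))⁻¹` on the vertices connected to `t c` in `T.erase c` (not `s c`).
-/

set_option autoImplicit false

noncomputable section

open scoped Classical

namespace Pool.Agent.FRN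

open Pool.Agent.FRM Pool.Agent.FRM.GG

variable {V E Q : Type} [AddCommGroup Q] {Γ : GG V E Q}


theorem cn_refl (S : Finset E) (x : V) : Cn Γ S x x := ⟨[], rfl⟩

theorem cn_symm {S : Finset E} {x y : V} (h : Cn Γ S x y) : Cn Γ S y x := by
  obtain ⟨l, hl⟩ := h
  exact ⟨rv l, wk_rv hl⟩

theorem cn_trans {S : Finset E} {x y z : V} (h : Cn Γ S x y) (h' : Cn Γ S y z) : Cn Γ S x z := by
  obtain ⟨l, hl⟩ := h
  obtain ⟨l', hl'⟩ := h'
  exact ⟨l ++ l', wk_append.2 ⟨y, hl, hl'⟩⟩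

theorem cn_mono {S S' : Finset E} (hS : S ⊆ S') {x y : V} (h : Cn Γ S x y) : Cn Γ S' x y := by
  obtain ⟨l, hl⟩ := h
  exact ⟨l, wk_mono hS hl⟩

theorem cn_edge {S : Finset E} {c : E} (h : c ∈ S) : Cn Γ S (Γ.s c) (Γ.t c) :=
  ⟨[(c, true)], h, rfl, rfl⟩

/-- `Cn` is the equivalence relation generated by the edges -/
theorem cn_ind {S : Finset E} (r : V → V → Prop) (hr : Equivalence r) (h : ∀ c ∈ S, r (Γ.s c) (Γ.t c)) {x y : V}
    (hc : Cn Γ S x y) : r x y := by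
  obtain ⟨l, hl⟩ := hc
  induction l generalizing x with
  | nil =>
    have h1 : x = y := hl
    rw [h1]
    exact hr.refl y
  | cons d l ih =>
    obtain ⟨h1, h2, h3⟩ := hl
    refine hr.trans ?_ (ih h3)
    obtain ⟨c, b⟩ := d
    subst h2
    cases b
    · exact hr.symm (h c h1)
    · exact h c h1

theorem cn_of_cn {S S' : Finset E} (h : ∀ c ∈ S, Cn Γ S' (Γ.s c) (Γ.t c)) {x y : V} (hc : Cn Γ S x y) : Cn Γ S' x y :=
  cn_ind (Cn Γ S') ⟨cn_refl S', cn_symm, cn_trans⟩ h hc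

/-- a walk all of whose edges have ends connected in `S'` -/
theorem cn_wk {S' : Finset E} {x y : V} {l : List (Da E)} (h : Γ.Wk x l y) (hl : ∀ d ∈ l, Cn Γ S' (Γ.s d.1) (Γ.t d.1)) :
    Cn Γ S' x y := by
  induction l generalizing x with
  | nil =>
    have h1 : x = y := h
    rw [h1]
    exact cn_refl S' y
  | cons d l ih =>
    obtain ⟨h1, h2, h3⟩ := h
    refine cn_trans ?_ (ih h3 fun e he => hl e (List.mem_cons_of_mem _ he))
    have h4 := hl d List.mem_cons_self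
    obtain ⟨c, b⟩ := d
    subst h2
    cases b
    · exact cn_symm h4
    · exact h4

variable {T : Finset E}

theorem mem_dl {c : E} {x y : V} : c ∈ Dl Γ T x y ↔ c ∈ T ∧ ¬ Cn Γ (T.erase c) x y := by
  unfold Dl
  rw [Finset.mem_filter]

theorem dl_self (x : V) : Dl Γ T x x = ∅ := by
  rw [Finset.eq_empty_iff_forall_notMem]
  intro c hc
  exact (mem_dl.1 hc).2 (cn_refl _ x)

theorem dl_symm (x y : V) : Dl Γ T x y = Dl Γ T y x := by
  ext c
  rw [mem_dl, mem_dl]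
  exact and_congr_right fun _ => not_congr ⟨cn_symm, cn_symm⟩

theorem dl_tri (x y z : V) : Dl Γ T x z ⊆ Dl Γ T x y ∪ Dl Γ T y z := by
  intro c hc
  rw [Finset.mem_union, mem_dl, mem_dl]
  obtain ⟨h1, h2⟩ := mem_dl.1 hc
  by_cases h : Cn Γ (T.erase c) x y
  · exact Or.inr ⟨h1, fun h' => h2 (cn_trans h h')⟩
  · exact Or.inl ⟨h1, h⟩

theorem dl_edge (hac : ∀ c ∈ T, ¬ Cn Γ (T.erase c) (Γ.s c) (Γ.t c)) {c : E} (h : c ∈ T) :
    Dl Γ T (Γ.s c) (Γ.t c) = {c} := by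
  ext c'
  rw [mem_dl, Finset.mem_singleton]
  constructor
  · rintro ⟨_, h2⟩
    by_contra hne
    exact h2 (cn_edge (Finset.mem_erase.2 ⟨Ne.symm hne, h⟩))
  · rintro rfl
    exact ⟨h, hac _ h⟩

theorem dl_wk {x y : V} {l : List (Da E)} (h : (Γ.on T).Wk x l y) : Dl Γ T x y ⊆ eds l := by
  intro c hc
  obtain ⟨_, h2⟩ := mem_dl.1 hc
  by_contra hn
  refine h2 ⟨l, ?_⟩
  have h3 := (wk_on (Γ := Γ.on T) (B := T.erase c) (Finset.erase_subset _ _) (x := x) (y := y) (l := l)).2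
    ⟨h, fun d hd => Finset.mem_erase.2 ⟨fun he => hn ((mem_eds _ _).2 ⟨d, hd, he⟩), (wk_mem h d hd).1⟩⟩
  exact h3

theorem dl_pt (hac : ∀ c ∈ T, ¬ Cn Γ (T.erase c) (Γ.s c) (Γ.t c)) {x y : V} {l : List (Da E)} (h : (Γ.on T).Pt x l y) :
    eds l = Dl Γ T x y := by
  refine Finset.Subset.antisymm ?_ (dl_wk h.1)
  intro c hc
  obtain ⟨d, hd, rfl⟩ := (mem_eds _ _).1 hc
  have hT : d.1 ∈ T := (wk_mem h.1 d hd).1
  refine mem_dl.2 ⟨hT, fun hcn => ?_⟩
  obtain ⟨l₁, l₂, rfl⟩ := List.append_of_mem hd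
  have hnd := pt_nodup h
  rw [List.map_append, List.map_cons] at hnd
  have hn1 : ∀ e ∈ l₁, e.1 ≠ d.1 := by
    intro e he heq
    have h1 := (List.nodup_append.1 hnd).2.2
    exact h1 e.1 (List.mem_map_of_mem he) d.1 List.mem_cons_self heq
  have hn2 : ∀ e ∈ l₂, e.1 ≠ d.1 := by
    intro e he heq
    have h1 := (List.nodup_append.1 hnd).2.1
    rw [List.nodup_cons] at h1
    exact h1.1 (heq ▸ List.mem_map_of_mem he)
  obtain ⟨z, w1, w2⟩ := wk_append.1 h.1
  obtain ⟨_, w3, w4⟩ := w2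
  have c1 : Cn Γ (T.erase d.1) x z := by
    refine ⟨l₁, ?_⟩
    exact (wk_on (Γ := Γ.on T) (B := T.erase d.1) (Finset.erase_subset _ _)).2
      ⟨w1, fun e he => Finset.mem_erase.2 ⟨hn1 e he, (wk_mem w1 e he).1⟩⟩
  have c2 : Cn Γ (T.erase d.1) ((Γ.on T).tgt d) y := by
    refine ⟨l₂, ?_⟩
    exact (wk_on (Γ := Γ.on T) (B := T.erase d.1) (Finset.erase_subset _ _)).2
      ⟨w4, fun e he => Finset.mem_erase.2 ⟨hn2 e he, (wk_mem w4 e he).1⟩⟩
  have c3 : Cn Γ (T.erase d.1) ((Γ.on T).src d) ((Γ.on T).tgt d) := by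
    rw [w3]
    exact cn_trans (cn_symm c1) (cn_trans hcn (cn_symm c2))
  obtain ⟨c, b⟩ := d
  cases b
  · exact hac c hT (cn_symm c3)
  · exact hac c hT c3

theorem dl_ex (hac : ∀ c ∈ T, ¬ Cn Γ (T.erase c) (Γ.s c) (Γ.t c)) {x y : V} (h : Cn Γ T x y) :
    ∃ l, (Γ.on T).Pt x l y ∧ eds l = Dl Γ T x y := by
  obtain ⟨l, hl⟩ := h
  obtain ⟨l', h1, _, _⟩ := pt_of_wk hl
  exact ⟨l', h1, dl_pt hac h1⟩

theorem dl_empty (hac : ∀ c ∈ T, ¬ Cn Γ (T.erase c) (Γ.s c) (Γ.t c)) {x y : V} (h : Cn Γ T x y) (h' : Dl Γ T x y = ∅) :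
    x = y := by
  obtain ⟨l, h1, h2⟩ := dl_ex hac h
  rw [h'] at h2
  have h3 : l = [] := by
    rw [List.eq_nil_iff_forall_not_mem]
    intro d hd
    have h4 : d.1 ∈ eds l := (mem_eds _ _).2 ⟨d, hd, rfl⟩
    rw [h2] at h4
    exact absurd h4 (Finset.notMem_empty _)
  subst h3
  exact pt_nil.1 h1

theorem forest_cy (hac : ∀ c ∈ T, ¬ Cn Γ (T.erase c) (Γ.s c) (Γ.t c)) {x y : V} {P P' : List (Da E)}
    (h : (Γ.on T).Cy x y P P') : P = P' := by
  have h1 : eds P = eds P' := (dl_pt hac h.p).trans (dl_pt hac h.p').symm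
  rcases cy_disj h with h2 | ⟨d, rfl, rfl⟩
  · exfalso
    obtain ⟨d, l, hd⟩ := List.exists_cons_of_ne_nil (pt_ne h.p h.ne)
    have h3 : d ∈ P := by
      rw [hd]
      exact List.mem_cons_self
    refine h2 d h3 ?_
    rw [← h1]
    exact (mem_eds _ _).2 ⟨d, h3, rfl⟩
  · rfl

theorem forest_flat (hac : ∀ c ∈ T, ¬ Cn Γ (T.erase c) (Γ.s c) (Γ.t c)) {G : Type} [Group G] (H : Subgroup G) (σ : E → G)
    (hσ : ∀ c ∈ T, σ c ∈ H) :
    ∃ a : V → G, (∀ z, a z ∈ H) ∧ ∀ c ∈ T, a (Γ.s c) * σ c * (a (Γ.t c))⁻¹ = 1 := by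
  induction T using Finset.induction_on with
  | empty => exact ⟨fun _ => 1, fun _ => H.one_mem, fun c hc => absurd hc (Finset.notMem_empty c)⟩
  | insert c T hcT ih =>
    have hac' : ∀ e ∈ T, ¬ Cn Γ (T.erase e) (Γ.s e) (Γ.t e) := fun e he h =>
      hac e (Finset.mem_insert_of_mem he) (cn_mono (Finset.erase_subset_erase _ (Finset.subset_insert _ _)) h)
    obtain ⟨a, ha, h1⟩ := ih hac' fun e he => hσ e (Finset.mem_insert_of_mem he)
    have hs : ¬ Cn Γ T (Γ.t c) (Γ.s c) := by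
      intro h
      refine hac c (Finset.mem_insert_self _ _) ?_
      rw [Finset.erase_insert hcT]
      exact cn_symm h
    set k : G := a (Γ.s c) * σ c * (a (Γ.t c))⁻¹ with hk
    have hkH : k ∈ H := H.mul_mem (H.mul_mem (ha _) (hσ c (Finset.mem_insert_self _ _))) (H.inv_mem (ha _))
    refine ⟨fun z => if Cn Γ T (Γ.t c) z then k * a z else a z, fun z => ?_, fun e he => ?_⟩
    · dsimp only
      split_ifs
      · exact H.mul_mem hkH (ha z)
      · exact ha z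
    · dsimp only
      rcases Finset.mem_insert.1 he with rfl | heT
      · rw [if_neg hs, if_pos (cn_refl _ _), mul_inv_rev, ← mul_assoc, ← hk, mul_inv_cancel]
      · by_cases h : Cn Γ T (Γ.t c) (Γ.s e)
        · rw [if_pos h, if_pos (cn_trans h (cn_edge heT)), mul_inv_rev]
          have h2 := h1 e heT
          have h3 : k * a (Γ.s e) * σ e * ((a (Γ.t e))⁻¹ * k⁻¹) = k * (a (Γ.s e) * σ e * (a (Γ.t e))⁻¹) * k⁻¹ := by
            group
          rw [h3, h2, mul_one, mul_inv_cancel]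
        · rw [if_neg h, if_neg fun h' => h (cn_trans h' (cn_symm (cn_edge heT)))]
          exact h1 e heT

end Pool.Agent.FRN
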