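import Pool.Agent.FRN.DefL
import Pool.Agent.FRN.Fo
import Pool.Agent.BEO.CompS

/-!
# FRN/Cl: connectedness of lists of edges

The numbers of the edges are different for different edges; removing an edge from the list is removing it from the set; the
function `cn` decides whether two vertices are connected by the edges of the list (`comp_look` of BEO/CompS: it decides the
equivalence relation generated by the pairs of ends).
-/

set_option autoImplicit false

noncomputable section

open scoped Classical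

namespace Pool.Agent.FRN

open Pool.Agent.FRM Pool.Agent.FRM.GG Pool.Agent.BEO Pool.Agent.PQE

variable {r n : ℕ} {Γ : GG (Fin r) (Fin n) XG}

theorem ed_inj {j j' : Fin n} (h : (ed Γ j).1 = (ed Γ j').1) : j = j' := Fin.ext h

theorem rep_er {L : List Ed} {S : Finset (Fin n)} (h : RepE Γ L S) (j : Fin n) : RepE Γ (er L j.val) (S.erase j) := by
  refine ⟨h.nd.filter _, fun e => ?_⟩
  unfold er
  rw [List.mem_filter, h.mem]
  constructor
  · rintro ⟨⟨i, hi, rfl⟩, h2⟩
    refine ⟨i, Finset.mem_erase.2 ⟨fun hij => ?_, hi⟩, rfl⟩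
    subst hij
    simp [ed] at h2
  · rintro ⟨i, hi, rfl⟩
    obtain ⟨h1, h2⟩ := Finset.mem_erase.1 hi
    refine ⟨⟨i, h2, rfl⟩, ?_⟩
    have h3 : (ed Γ i).1 ≠ j.val := fun h4 => h1 (Fin.ext h4)
    simp [h3]

/-- the relation generated by the edges, for numbers -/
private theorem Cl_fwd {L : List Ed} {S : Finset (Fin n)} (h : RepE Γ L S) {a b : ℕ}
    (hab : Relation.EqvGen (fun a b => (a, b) ∈ rl L) a b) :
    a = b ∨ ∃ x y : Fin r, x.val = a ∧ y.val = b ∧ Cn Γ S x y := by
  induction hab with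
  | rel a b hr =>
    right
    unfold rl at hr
    obtain ⟨e, he, heq⟩ := List.mem_map.1 hr
    obtain ⟨j, hj, rfl⟩ := (h.mem e).1 he
    exact ⟨Γ.s j, Γ.t j, congrArg Prod.fst heq, congrArg Prod.snd heq, cn_edge hj⟩
  | refl a => exact Or.inl rfl
  | symm a b _ ih =>
    rcases ih with ih | ⟨x, y, hx, hy, hc⟩
    · exact Or.inl ih.symm
    · exact Or.inr ⟨y, x, hy, hx, cn_symm hc⟩
  | trans a b c _ _ ih1 ih2 =>
    rcases ih1 with rfl | ⟨x, y, hx, hy, hc⟩
    · exact ih2
    · rcases ih2 with rfl | ⟨y', z, hy', hz, hc'⟩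
      · exact Or.inr ⟨x, y, hx, hy, hc⟩
      · have h1 : y = y' := Fin.ext (hy.trans hy'.symm)
        subst h1
        exact Or.inr ⟨x, z, hx, hz, cn_trans hc hc'⟩

theorem cn_iff {L : List Ed} {S : Finset (Fin n)} (h : RepE Γ L S) (x y : Fin r) :
    cn (List.range r) L x.val y.val = true ↔ Cn Γ S x y := by
  have hrel : ∀ p ∈ rl L, p.1 ∈ List.range r ∧ p.2 ∈ List.range r := by
    intro p hp
    unfold rl at hp
    obtain ⟨e, he, rfl⟩ := List.mem_map.1 hp
    obtain ⟨j, _, rfl⟩ := (h.mem e).1 he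
    exact ⟨List.mem_range.2 (Γ.s j).2, List.mem_range.2 (Γ.t j).2⟩
  unfold cn lb
  rw [decide_eq_true_iff, comp_look _ _ hrel _ _ (List.mem_range.2 x.2) (List.mem_range.2 y.2)]
  constructor
  · intro h1
    rcases Cl_fwd h h1 with h2 | ⟨x', y', hx, hy, hc⟩
    · rw [Fin.ext h2]
      exact cn_refl S y
    · rw [Fin.ext hx, Fin.ext hy] at hc
      exact hc
  · intro h1
    refine cn_ind (fun x y : Fin r => Relation.EqvGen (fun a b => (a, b) ∈ rl L) x.val y.val)
      ⟨fun z => Relation.EqvGen.refl _, fun h => Relation.EqvGen.symm _ _ h,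
        fun h h' => Relation.EqvGen.trans _ _ _ h h'⟩ ?_ h1
    intro c hc
    refine Relation.EqvGen.rel _ _ ?_
    unfold rl
    exact List.mem_map.2 ⟨ed Γ c, (h.mem _).2 ⟨c, hc, rfl⟩, rfl⟩

end Pool.Agent.FRN
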