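import Pool.Agent.FRN.Defs

/-!
# FRN/Tb1: the 24 Hurwitz units: table, products, classes

In doubled integer coordinates the Hurwitz units are the vectors with square sum 4 whose coordinates have the same parity (`Tb1_hu`);
the table, the products, the conjugates and the classes are finite checks (`decide`).
-/

set_option autoImplicit false

noncomputable section

open scoped Classical

namespace Pool.Agent.FRN

open Pool.Agent.FRM Pool.Agent.FRM.GG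

/-- doubled coordinates of the 24 Hurwitz units; the class of number `t` is `t / 8` -/
def qdl : List (ℤ × ℤ × ℤ × ℤ) :=
  [(2, 0, 0, 0), (-2, 0, 0, 0), (0, 2, 0, 0), (0, -2, 0, 0), (0, 0, 2, 0), (0, 0, -2, 0), (0, 0, 0, 2), (0, 0, 0,
   -2), (1, 1, 1, 1), (1, 1, -1, -1), (1, -1, 1, -1), (1, -1, -1, 1), (-1, 1, 1, -1), (-1, 1, -1, 1), (-1, -1, 1,
   1), (-1, -1, -1, -1), (1, 1, 1, -1), (1, 1, -1, 1), (1, -1, 1, 1), (1, -1, -1, -1), (-1, 1, 1, 1), (-1, 1, -1,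
   -1), (-1, -1, 1, -1), (-1, -1, -1, 1)]

def qd (t : ℕ) : ℤ × ℤ × ℤ × ℤ := qdl.getD t (2, 0, 0, 0)

/-- the Hurwitz unit number `t` -/
def qv (t : ℕ) : Hq := ⟨(qd t).1 / 2, (qd t).2.1 / 2, (qd t).2.2.1 / 2, (qd t).2.2.2 / 2⟩

/-- the quaternion with the doubled coordinates `z` -/
private def Tb1_q (z : ℤ × ℤ × ℤ × ℤ) : Hq := ⟨z.1 / 2, z.2.1 / 2, z.2.2.1 / 2, z.2.2.2 / 2⟩

private theorem Tb1_qv (t : ℕ) : qv t = Tb1_q (qd t) := rfl

private theorem Tb1_acc {q : Hq} {a b c d : ℚ} (h : q = ⟨a, b, c, d⟩) :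
    q.re = a ∧ q.imI = b ∧ q.imJ = c ∧ q.imK = d := by
  subst h
  exact ⟨rfl, rfl, rfl, rfl⟩

private theorem Tb1_hu (q : Hq) : HU q ↔ ∃ a b c d : ℤ, a * a + b * b + c * c + d * d = 4 ∧
    a % 2 = b % 2 ∧ a % 2 = c % 2 ∧ a % 2 = d % 2 ∧ q = Tb1_q (a, b, c, d) := by
  constructor
  · rintro ⟨hn, ⟨a, b, c, d, h⟩ | ⟨a, b, c, d, h⟩⟩
    · obtain ⟨e1, e2, e3, e4⟩ := Tb1_acc h
      rw [Quaternion.normSq_def', e1, e2, e3, e4] at hn
      refine ⟨2 * a, 2 * b, 2 * c, 2 * d, ?_, by omega, by omega, by omega, ?_⟩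
      · have h1 : ((2 * a * (2 * a) + 2 * b * (2 * b) + 2 * c * (2 * c) + 2 * d * (2 * d) : ℤ) : ℚ) = ((4 : ℤ) : ℚ) := by
          push_cast
          linarith
        exact_mod_cast h1
      · refine Quaternion.ext _ _ ?_ ?_ ?_ ?_
        · rw [e1]
          show (a : ℚ) = ((2 * a : ℤ) : ℚ) / 2
          push_cast
          ring
        · rw [e2]
          show (b : ℚ) = ((2 * b : ℤ) : ℚ) / 2
          push_cast
          ring
        · rw [e3]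
          show (c : ℚ) = ((2 * c : ℤ) : ℚ) / 2
          push_cast
          ring
        · rw [e4]
          show (d : ℚ) = ((2 * d : ℤ) : ℚ) / 2
          push_cast
          ring
    · obtain ⟨e1, e2, e3, e4⟩ := Tb1_acc h
      rw [Quaternion.normSq_def', e1, e2, e3, e4] at hn
      refine ⟨2 * a + 1, 2 * b + 1, 2 * c + 1, 2 * d + 1, ?_, by omega, by omega, by omega, ?_⟩
      · have h1 : (((2 * a + 1) * (2 * a + 1) + (2 * b + 1) * (2 * b + 1) + (2 * c + 1) * (2 * c + 1) +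
            (2 * d + 1) * (2 * d + 1) : ℤ) : ℚ) = ((4 : ℤ) : ℚ) := by
          push_cast
          linarith
        exact_mod_cast h1
      · refine Quaternion.ext _ _ ?_ ?_ ?_ ?_
        · rw [e1]
          show (a : ℚ) + 1 / 2 = ((2 * a + 1 : ℤ) : ℚ) / 2
          push_cast
          ring
        · rw [e2]
          show (b : ℚ) + 1 / 2 = ((2 * b + 1 : ℤ) : ℚ) / 2
          push_cast
          ring
        · rw [e3]
          show (c : ℚ) + 1 / 2 = ((2 * c + 1 : ℤ) : ℚ) / 2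
          push_cast
          ring
        · rw [e4]
          show (d : ℚ) + 1 / 2 = ((2 * d + 1 : ℤ) : ℚ) / 2
          push_cast
          ring
  · rintro ⟨a, b, c, d, h4, hb, hc, hd, rfl⟩
    refine ⟨?_, ?_⟩
    · rw [Quaternion.normSq_def']
      have h1 : ((a * a + b * b + c * c + d * d : ℤ) : ℚ) = ((4 : ℤ) : ℚ) := by rw [h4]
      push_cast at h1
      show ((a : ℚ) / 2) ^ 2 + ((b : ℚ) / 2) ^ 2 + ((c : ℚ) / 2) ^ 2 + ((d : ℚ) / 2) ^ 2 = 1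
      linarith
    · rcases Int.emod_two_eq_zero_or_one a with h | h
      · left
        refine ⟨a / 2, b / 2, c / 2, d / 2, ?_⟩
        have e : ∀ m : ℤ, m % 2 = 0 → (m : ℚ) / 2 = ((m / 2 : ℤ) : ℚ) := by
          intro m hm
          have h2 : m = 2 * (m / 2) := by omega
          rw [div_eq_iff (two_ne_zero)]
          have h3 : (m : ℚ) = ((2 * (m / 2) : ℤ) : ℚ) := by rw [← h2]
          rw [h3]
          push_cast
          ring
        unfold Tb1_q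
        rw [e a h, e b (by omega), e c (by omega), e d (by omega)]
      · right
        refine ⟨a / 2, b / 2, c / 2, d / 2, ?_⟩
        have e : ∀ m : ℤ, m % 2 = 1 → (m : ℚ) / 2 = ((m / 2 : ℤ) : ℚ) + 1 / 2 := by
          intro m hm
          have h2 : m = 2 * (m / 2) + 1 := by omega
          rw [div_eq_iff (two_ne_zero)]
          have h3 : (m : ℚ) = ((2 * (m / 2) + 1 : ℤ) : ℚ) := by rw [← h2]
          rw [h3]
          push_cast
          ring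
        unfold Tb1_q
        rw [e a h, e b (by omega), e c (by omega), e d (by omega)]

private theorem Tb1_tab : ∀ t < 24, (qd t).1 * (qd t).1 + (qd t).2.1 * (qd t).2.1 + (qd t).2.2.1 * (qd t).2.2.1 +
    (qd t).2.2.2 * (qd t).2.2.2 = 4 ∧ (qd t).1 % 2 = (qd t).2.1 % 2 ∧ (qd t).1 % 2 = (qd t).2.2.1 % 2 ∧
    (qd t).1 % 2 = (qd t).2.2.2 % 2 := by
  decide +kernel

private theorem Tb1_big {t : ℕ} (h : ¬ t < 24) : qd t = qd 0 := by
  unfold qd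
  rw [List.getD_eq_default _ _ (by
    have : qdl.length = 24 := rfl
    omega)]
  rfl

private theorem Tb1_box : ∀ a ∈ Finset.Icc (-2 : ℤ) 2, ∀ b ∈ Finset.Icc (-2 : ℤ) 2, ∀ c ∈ Finset.Icc (-2 : ℤ) 2,
    ∀ d ∈ Finset.Icc (-2 : ℤ) 2, a * a + b * b + c * c + d * d = 4 → a % 2 = b % 2 → a % 2 = c % 2 → a % 2 = d % 2 →
    ∃ t < 24, (a, b, c, d) = qd t := by
  decide +kernel

private theorem Tb1_le {a b : ℤ} (hb : 0 ≤ b) (h : a * a + b = 4) : a ∈ Finset.Icc (-2 : ℤ) 2 := by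
  rw [Finset.mem_Icc]
  constructor <;> nlinarith

private theorem Tb1_mul : ∀ s < 24, ∀ t < 24, ∃ k < 24,
    2 * (qd k).1 = (qd s).1 * (qd t).1 - (qd s).2.1 * (qd t).2.1 - (qd s).2.2.1 * (qd t).2.2.1 -
      (qd s).2.2.2 * (qd t).2.2.2 ∧
    2 * (qd k).2.1 = (qd s).1 * (qd t).2.1 + (qd s).2.1 * (qd t).1 + (qd s).2.2.1 * (qd t).2.2.2 -
      (qd s).2.2.2 * (qd t).2.2.1 ∧
    2 * (qd k).2.2.1 = (qd s).1 * (qd t).2.2.1 - (qd s).2.1 * (qd t).2.2.2 + (qd s).2.2.1 * (qd t).1 +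
      (qd s).2.2.2 * (qd t).2.1 ∧
    2 * (qd k).2.2.2 = (qd s).1 * (qd t).2.2.2 + (qd s).2.1 * (qd t).2.2.1 - (qd s).2.2.1 * (qd t).2.1 +
      (qd s).2.2.2 * (qd t).1 ∧ (k / 8) % 3 = (s / 8 + t / 8) % 3 := by
  decide +kernel

private theorem Tb1_star : ∀ t < 24, ∃ k < 24, (qd k).1 = (qd t).1 ∧ (qd k).2.1 = -(qd t).2.1 ∧
    (qd k).2.2.1 = -(qd t).2.2.1 ∧ (qd k).2.2.2 = -(qd t).2.2.2 ∧ (k / 8 + t / 8) % 3 = 0 := by
  decide +kernel

private theorem Tb1_kc : ∀ t < 24,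
    ((qd t).1 * (qd t).2.1 * (qd t).2.2.1 * (qd t).2.2.2 = 1 → (t / 8) % 3 = 1) ∧
    ((qd t).1 * (qd t).2.1 * (qd t).2.2.1 * (qd t).2.2.2 = -1 → (t / 8) % 3 = 2) ∧
    ((qd t).1 * (qd t).2.1 * (qd t).2.2.1 * (qd t).2.2.2 ≠ 1 → (qd t).1 * (qd t).2.1 * (qd t).2.2.1 * (qd t).2.2.2 ≠ -1 →
      (t / 8) % 3 = 0) := by
  decide +kernel

private theorem Tb1_cast {m n : ℕ} (h : m % 3 = n % 3) : (m : ZMod 3) = (n : ZMod 3) :=
  (ZMod.natCast_eq_natCast_iff m n 3).2 h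

private theorem Tb1_half : ∀ t < 24, (qd t).1 = 1 → ¬ (t / 8) % 3 = 0 % 3 := by
  decide +kernel

private theorem Tb1_re : ∀ t < 24, ¬ (t / 8) % 3 = 0 % 3 → (qd t).1 ≤ 1 := by
  decide +kernel

theorem hu_qv (t : ℕ) : HU (qv t) := by
  rw [Tb1_hu]
  by_cases h : t < 24
  · obtain ⟨h1, h2, h3, h4⟩ := Tb1_tab t h
    exact ⟨_, _, _, _, h1, h2, h3, h4, rfl⟩
  · obtain ⟨h1, h2, h3, h4⟩ := Tb1_tab 0 (by norm_num)
    refine ⟨_, _, _, _, h1, h2, h3, h4, ?_⟩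
    rw [Tb1_qv, Tb1_big h]

theorem hu_iff (q : Hq) : HU q ↔ ∃ t < 24, q = qv t := by
  constructor
  · intro h
    obtain ⟨a, b, c, d, h4, hb, hc, hd, rfl⟩ := (Tb1_hu q).1 h
    obtain ⟨t, ht, he⟩ := Tb1_box a (Tb1_le (b := b * b + c * c + d * d) (by nlinarith) (by linarith)) b
      (Tb1_le (b := a * a + c * c + d * d) (by nlinarith) (by linarith)) c
      (Tb1_le (b := a * a + b * b + d * d) (by nlinarith) (by linarith)) d
      (Tb1_le (b := a * a + b * b + c * c) (by nlinarith) (by linarith)) h4 hb hc hd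
    exact ⟨t, ht, by rw [he, Tb1_qv]⟩
  · rintro ⟨t, -, rfl⟩
    exact hu_qv t

theorem kc_qv {t : ℕ} (h : t < 24) : kc (qv t) = ((t / 8 : ℕ) : ZMod 3) := by
  obtain ⟨h1, h2, h3⟩ := Tb1_kc t h
  have e : (qv t).re * (qv t).imI * (qv t).imJ * (qv t).imK =
      (((qd t).1 * (qd t).2.1 * (qd t).2.2.1 * (qd t).2.2.2 : ℤ) : ℚ) / 16 := by
    rw [Tb1_qv]
    unfold Tb1_q
    push_cast
    ring
  unfold kc
  rw [e]
  have e1 : ((((qd t).1 * (qd t).2.1 * (qd t).2.2.1 * (qd t).2.2.2 : ℤ) : ℚ) / 16 = 1 / 16) ↔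
      (qd t).1 * (qd t).2.1 * (qd t).2.2.1 * (qd t).2.2.2 = 1 := by
    rw [div_left_inj' (by norm_num)]
    exact_mod_cast Iff.rfl
  have e2 : ((((qd t).1 * (qd t).2.1 * (qd t).2.2.1 * (qd t).2.2.2 : ℤ) : ℚ) / 16 = -(1 / 16)) ↔
      (qd t).1 * (qd t).2.1 * (qd t).2.2.1 * (qd t).2.2.2 = -1 := by
    rw [← neg_div, div_left_inj' (by norm_num)]
    exact_mod_cast Iff.rfl
  by_cases c1 : (qd t).1 * (qd t).2.1 * (qd t).2.2.1 * (qd t).2.2.2 = 1
  · rw [if_pos (e1.2 c1)]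
    have h4 := Tb1_cast (m := t / 8) (n := 1) (h1 c1)
    rw [h4, Nat.cast_one]
  · rw [if_neg (fun h4 => c1 (e1.1 h4))]
    by_cases c2 : (qd t).1 * (qd t).2.1 * (qd t).2.2.1 * (qd t).2.2.2 = -1
    · rw [if_pos (e2.2 c2)]
      have h4 := Tb1_cast (m := t / 8) (n := 2) (h2 c2)
      rw [h4]
      rfl
    · rw [if_neg (fun h4 => c2 (e2.1 h4))]
      have h4 := Tb1_cast (m := t / 8) (n := 0) (h3 c1 c2)
      rw [h4, Nat.cast_zero]

theorem hu_ne {q : Hq} (h : HU q) : q ≠ 0 := by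
  rintro rfl
  have h1 := h.1
  rw [map_zero] at h1
  exact zero_ne_one h1

theorem hu_one : HU 1 := by
  refine ⟨map_one _, Or.inl ⟨1, 0, 0, 0, ?_⟩⟩
  refine Quaternion.ext _ _ ?_ ?_ ?_ ?_
  · show (1 : ℚ) = ((1 : ℤ) : ℚ)
    norm_num
  · show (0 : ℚ) = ((0 : ℤ) : ℚ)
    norm_num
  · show (0 : ℚ) = ((0 : ℤ) : ℚ)
    norm_num
  · show (0 : ℚ) = ((0 : ℤ) : ℚ)
    norm_num

private theorem Tb1_mulq {p q : Hq} (hp : HU p) (hq : HU q) :
    ∃ s < 24, ∃ t < 24, ∃ k < 24, p = qv s ∧ q = qv t ∧ p * q = qv k ∧ (k / 8) % 3 = (s / 8 + t / 8) % 3 := by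
  obtain ⟨s, hs, rfl⟩ := (hu_iff p).1 hp
  obtain ⟨t, ht, rfl⟩ := (hu_iff q).1 hq
  obtain ⟨k, hk, h1, h2, h3, h4, h5⟩ := Tb1_mul s hs t ht
  refine ⟨s, hs, t, ht, k, hk, rfl, rfl, ?_, h5⟩
  have e1 := congrArg (Int.cast : ℤ → ℚ) h1
  have e2 := congrArg (Int.cast : ℤ → ℚ) h2
  have e3 := congrArg (Int.cast : ℤ → ℚ) h3
  have e4 := congrArg (Int.cast : ℤ → ℚ) h4
  push_cast at e1 e2 e3 e4
  have a1 : ∀ t, (qv t).re = ((qd t).1 : ℚ) / 2 := fun t => rfl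
  have a2 : ∀ t, (qv t).imI = ((qd t).2.1 : ℚ) / 2 := fun t => rfl
  have a3 : ∀ t, (qv t).imJ = ((qd t).2.2.1 : ℚ) / 2 := fun t => rfl
  have a4 : ∀ t, (qv t).imK = ((qd t).2.2.2 : ℚ) / 2 := fun t => rfl
  refine Quaternion.ext _ _ ?_ ?_ ?_ ?_
  · rw [Quaternion.re_mul, a1, a1, a1, a2, a2, a3, a3, a4, a4]
    linarith
  · rw [Quaternion.imI_mul, a1, a1, a2, a2, a2, a3, a3, a4, a4]
    linarith
  · rw [Quaternion.imJ_mul, a1, a1, a2, a2, a3, a3, a3, a4, a4]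
    linarith
  · rw [Quaternion.imK_mul, a1, a1, a2, a2, a3, a3, a4, a4, a4]
    linarith

private theorem Tb1_starq {q : Hq} (hq : HU q) :
    ∃ t < 24, ∃ k < 24, q = qv t ∧ star q = qv k ∧ (k / 8 + t / 8) % 3 = 0 := by
  obtain ⟨t, ht, rfl⟩ := (hu_iff q).1 hq
  obtain ⟨k, hk, h1, h2, h3, h4, h5⟩ := Tb1_star t ht
  refine ⟨t, ht, k, hk, rfl, ?_, h5⟩
  have e1 := congrArg (Int.cast : ℤ → ℚ) h1
  have e2 := congrArg (Int.cast : ℤ → ℚ) h2
  have e3 := congrArg (Int.cast : ℤ → ℚ) h3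
  have e4 := congrArg (Int.cast : ℤ → ℚ) h4
  push_cast at e1 e2 e3 e4
  have a1 : ∀ t, (qv t).re = ((qd t).1 : ℚ) / 2 := fun t => rfl
  have a2 : ∀ t, (qv t).imI = ((qd t).2.1 : ℚ) / 2 := fun t => rfl
  have a3 : ∀ t, (qv t).imJ = ((qd t).2.2.1 : ℚ) / 2 := fun t => rfl
  have a4 : ∀ t, (qv t).imK = ((qd t).2.2.2 : ℚ) / 2 := fun t => rfl
  refine Quaternion.ext _ _ ?_ ?_ ?_ ?_
  · rw [Quaternion.re_star, a1, a1]
    linarith
  · rw [Quaternion.imI_star, a2, a2]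
    linarith
  · rw [Quaternion.imJ_star, a3, a3]
    linarith
  · rw [Quaternion.imK_star, a4, a4]
    linarith

theorem hu_mul {p q : Hq} (hp : HU p) (hq : HU q) : HU (p * q) := by
  obtain ⟨s, hs, t, ht, k, hk, -, -, h, -⟩ := Tb1_mulq hp hq
  rw [h]
  exact hu_qv k

theorem hu_star {q : Hq} (h : HU q) : HU (star q) := by
  obtain ⟨t, ht, k, hk, -, h1, -⟩ := Tb1_starq h
  rw [h1]
  exact hu_qv k

theorem inv_star {u : Hqˣ} (h : HU (u : Hq)) : ((u⁻¹ : Hqˣ) : Hq) = star (u : Hq) := by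
  have h1 : (u : Hq) * star (u : Hq) = 1 := by
    rw [Quaternion.self_mul_star, h.1, Quaternion.coe_one]
  calc ((u⁻¹ : Hqˣ) : Hq) = ((u⁻¹ : Hqˣ) : Hq) * ((u : Hq) * star (u : Hq)) := by rw [h1, mul_one]
    _ = star (u : Hq) := by rw [← mul_assoc, Units.inv_mul, one_mul]

theorem hu_inv {u : Hqˣ} (h : HU (u : Hq)) : HU ((u⁻¹ : Hqˣ) : Hq) := by
  rw [inv_star h]
  exact hu_star h

theorem kc_one : kc 1 = 0 := by
  have e : (1 : Hq).re * (1 : Hq).imI * (1 : Hq).imJ * (1 : Hq).imK = 0 := by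
    have e1 : (1 : Hq).imI = 0 := rfl
    rw [e1, mul_zero, zero_mul, zero_mul]
  unfold kc
  rw [e, if_neg (by norm_num), if_neg (by norm_num)]

theorem kc_mul {p q : Hq} (hp : HU p) (hq : HU q) : kc (p * q) = kc p + kc q := by
  obtain ⟨s, hs, t, ht, k, hk, e1, e2, h, h5⟩ := Tb1_mulq hp hq
  rw [h, e1, e2, kc_qv hs, kc_qv ht, kc_qv hk, ← Nat.cast_add]
  exact Tb1_cast h5

theorem kc_inv {u : Hqˣ} (h : HU (u : Hq)) : kc ((u⁻¹ : Hqˣ) : Hq) = -kc (u : Hq) := by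
  obtain ⟨t, ht, k, hk, e1, e2, h5⟩ := Tb1_starq h
  rw [inv_star h, e2, e1, kc_qv ht, kc_qv hk, eq_neg_iff_add_eq_zero, ← Nat.cast_add]
  have h6 := Tb1_cast (m := k / 8 + t / 8) (n := 0) h5
  rw [h6, Nat.cast_zero]

theorem kc_half {q : Hq} (h : HU q) (hr : q.re = 1 / 2) : kc q ≠ 0 := by
  obtain ⟨t, ht, rfl⟩ := (hu_iff q).1 h
  have h1 : ((qd t).1 : ℚ) / 2 = 1 / 2 := hr
  rw [div_left_inj' (by norm_num)] at h1
  have h2 : (qd t).1 = 1 := by exact_mod_cast h1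
  rw [kc_qv ht]
  intro h3
  have h4 : ((t / 8 : ℕ) : ZMod 3) = ((0 : ℕ) : ZMod 3) := by rw [h3, Nat.cast_zero]
  exact Tb1_half t ht h2 ((ZMod.natCast_eq_natCast_iff _ _ 3).1 h4)

theorem re_le {q : Hq} (h : HU q) (hk : kc q ≠ 0) : q.re ≤ 1 / 2 := by
  obtain ⟨t, ht, rfl⟩ := (hu_iff q).1 h
  rw [kc_qv ht] at hk
  have h1 : (qd t).1 ≤ 1 := by
    refine Tb1_re t ht fun h2 => hk ?_
    have h3 := Tb1_cast (m := t / 8) (n := 0) h2
    rw [h3, Nat.cast_zero]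
  have h2 : ((qd t).1 : ℚ) ≤ 1 := by exact_mod_cast h1
  show ((qd t).1 : ℚ) / 2 ≤ 1 / 2
  linarith

theorem nsq_one_sub {q : Hq} (h : HU q) : Quaternion.normSq (1 - q) = 2 - 2 * q.re := by
  have h1 := h.1
  rw [Quaternion.normSq_def'] at h1 ⊢
  simp only [Quaternion.re_sub, Quaternion.imI_sub, Quaternion.imJ_sub, Quaternion.imK_sub, Quaternion.re_one,
    Quaternion.imI_one, Quaternion.imJ_one, Quaternion.imK_one]
  linarith

private theorem Tb1_recomm (a b : Hq) : (a * b).re = (b * a).re := by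
  rw [Quaternion.re_mul, Quaternion.re_mul]
  ring

theorem re_conj (c u : Hqˣ) : ((c * u * c⁻¹ : Hqˣ) : Hq).re = (u : Hq).re := by
  rw [Units.val_mul, Tb1_recomm, ← Units.val_mul, ← mul_assoc, inv_mul_cancel, one_mul]

theorem re_comm (u w : Hqˣ) : ((u * w : Hqˣ) : Hq).re = ((w * u : Hqˣ) : Hq).re := by
  rw [Units.val_mul, Units.val_mul, Tb1_recomm]

theorem re_inv {u : Hqˣ} (h : HU (u : Hq)) : ((u⁻¹ : Hqˣ) : Hq).re = (u : Hq).re := by
  rw [inv_star h, Quaternion.re_star]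

/-- the units number `t` as an invertible element -/
def qu (t : ℕ) : Hqˣ := Units.mk0 (qv t) (hu_ne (hu_qv t))

theorem qu_val (t : ℕ) : ((qu t : Hqˣ) : Hq) = qv t := rfl

/-- the group of Hurwitz units -/
def HUg : Subgroup Hqˣ where
  carrier := {u | HU (u : Hq)}
  one_mem' := hu_one
  mul_mem' := fun {a b} ha hb => by
    have h := hu_mul (p := (a : Hq)) (q := (b : Hq)) ha hb
    simpa using h
  inv_mem' := fun {a} ha => hu_inv ha

theorem mem_HUg {u : Hqˣ} : u ∈ HUg ↔ HU (u : Hq) := Iff.rfl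

/-- the class as a homomorphism -/
def kch : HUg →* Multiplicative (ZMod 3) where
  toFun u := Multiplicative.ofAdd (kc ((u : Hqˣ) : Hq))
  map_one' := by
    show Multiplicative.ofAdd (kc (1 : Hq)) = 1
    rw [kc_one]
    rfl
  map_mul' := fun a b => by
    show Multiplicative.ofAdd (kc (((a : Hqˣ) : Hq) * ((b : Hqˣ) : Hq))) = _
    rw [kc_mul a.2 b.2]
    rfl

end Pool.Agent.FRN
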