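import Pool.Agent.FRN.Alg
import Pool.Agent.FRN.Tb1
import Pool.Agent.FRN.Lam

/-!
# FRN/DefL: lists and graphs
-/

set_option autoImplicit false

noncomputable section

open scoped Classical

namespace Pool.Agent.FRN

open Pool.Agent.FRM Pool.Agent.FRM.GG Pool.Agent.BEO Pool.Agent.PQE

variable {r n : ℕ}

/-- the code of an edge -/
def ed (Γ : GG (Fin r) (Fin n) XG) (j : Fin n) : Ed := (j.val, ((Γ.s j).val, ((Γ.t j).val, (lm (Γ.g j)).val)))

/-- the list `L` codes the set `S` of edges -/
structure RepE (Γ : GG (Fin r) (Fin n) XG) (L : List Ed) (S : Finset (Fin n)) : Prop where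
  nd : L.Nodup
  mem : ∀ e, e ∈ L ↔ ∃ j ∈ S, e = ed Γ j

/-- the list `asg` assigns numbers of Hurwitz units to the edges in `S` -/
structure RepA (asg : List (ℕ × ℕ)) (S : Finset (Fin n)) : Prop where
  mem : ∀ j : Fin n, j.val ∈ asg.map Prod.fst ↔ j ∈ S
  out : ∀ p ∈ asg, ∃ j ∈ S, p.1 = j.val
  lt : ∀ p ∈ asg, p.2 < 24

/-- the connection -/
def asv (asg : List (ℕ × ℕ)) (j : Fin n) : Hqˣ := qu (look asg j.val 0)

/-- the quaternion with the block number `c` -/
def bq (c : ℕ) : Hq := if c = 0 then 0 else if c = 1 then 1 else -qv (c - 2)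

/-- the integer matrix with the blocks `K` -/
def Rm {R C : Type} (K : Matrix R C ℕ) : Matrix (R × Fin 4) (C × Fin 4) ℤ :=
  fun i c => zv ((blk (K i.1 c.1) i.2.val).getD c.2.val 0)

/-- the numbers of the blocks of the matrix with the columns `H` (unit vectors) and `L` (edges) -/
def Kb (r : ℕ) (H : List ℕ) (L : List Ed) (asg : List (ℕ × ℕ)) : Matrix (Fin r) (Fin H.length ⊕ Fin L.length) ℕ :=
  fun z c => Sum.elim (fun i => ulk (H.get i) z.val) (fun i => clk asg (L.get i) z.val) c

/-- the exponents of an entry -/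
def cx (x : Ent) : XG := (x.2.2.1, x.2.2.2.1, x.2.2.2.2.1, x.2.2.2.2.2.1, x.2.2.2.2.2.2, if x.2.1 then 1 else 0)

/-- the value of an entry -/
def vE (x : Ent) : KU := if x.1 then ev (cx x) else 0

/-- the graph of a matrix of codes -/
def gC (hr : 0 < r) (C : Matrix (Fin r) (Fin n) Ent) : GG (Fin r) (Fin n) XG :=
  ⟨Finset.univ.filter fun j => (Finset.univ.filter fun i => (C i j).1 = true).card = 2,
    fun j => if h : (Finset.univ.filter fun i => (C i j).1 = true).Nonempty then
      (Finset.univ.filter fun i => (C i j).1 = true).min' h else ⟨0, hr⟩,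
    fun j => if h : (Finset.univ.filter fun i => (C i j).1 = true).Nonempty then
      (Finset.univ.filter fun i => (C i j).1 = true).max' h else ⟨0, hr⟩,
    fun j => if h : (Finset.univ.filter fun i => (C i j).1 = true).Nonempty then
      cx (C ((Finset.univ.filter fun i => (C i j).1 = true).min' h) j) -
        cx (C ((Finset.univ.filter fun i => (C i j).1 = true).max' h) j) + (0, 0, 0, 0, 0, 1) else 0⟩

/-- the quaternionic matrix -/
def mC (hr : 0 < r) (C : Matrix (Fin r) (Fin n) Ent) (τ : Fin n → Hqˣ) : Matrix (Fin r) (Fin n) Hq :=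
  fun i j => if (C i j).1 = true then (if j ∈ (gC hr C).A ∧ i = (gC hr C).s j then -(τ j : Hq) else 1) else 0

/-- the input list -/
def mx (C : Matrix (Fin r) (Fin n) Ent) : Mx := List.ofFn fun i => List.ofFn fun j => C i j

end Pool.Agent.FRN
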