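import Pool.Agent.FRM.Defs2

/-!
# FRN: counting bases of frame 2-uniform matroids in polynomial time (MP_f270bf_lc). Definitions, abstract part

See FRM/Defs and FRM/Defs2 for gain graphs `GG`, walks `Wk`, simple paths `Pt`, cycles `Cy`, good connections `Good`, complex determinants
`dC` of quaternionic matrices, the group `XG` of the 2-uniform partial field and its fundamental elements `FU`.
-/

set_option autoImplicit false

noncomputable section

open scoped Classical

namespace Pool.Agent.FRN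

open Pool.Agent.FRM Pool.Agent.FRM.GG

/-- The class of a Hurwitz unit modulo the quaternion group. -/
def kc (q : Hq) : ZMod 3 :=
  if q.re * q.imI * q.imJ * q.imK = 1 / 16 then 1 else if q.re * q.imI * q.imJ * q.imK = -(1 / 16) then 2 else 0

/-- The specialisation of the 2-uniform partial field in the field with four elements, written additively. -/
def lm (u : XG) : ZMod 3 := (u.1 : ZMod 3) + 2 * (u.2.1 : ZMod 3) + 2 * (u.2.2.1 : ZMod 3) + (u.2.2.2.1 : ZMod 3)

section Graph

variable {V E Q : Type} [AddCommGroup Q] (Γ : GG V E Q)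

/-- Every ear of a 2-connected subgraph which contains `B₀` has the gain of a path with the same ends in the subgraph. -/
def ESame (B₀ : Finset E) : Prop :=
  ∀ B' : Finset E, B₀ ⊆ B' → B' ⊆ Γ.A → (Γ.on B').C2 → ∀ a b l, Γ.Ear B' a b l →
    ∃ R, (Γ.on B').Pt a R b ∧ Γ.gn R = Γ.gn l

/-- `τ` is obtained from `σ` by the gauge `a` on the edges in `S`. -/
def Gq {G : Type} [Group G] (σ τ : E → G) (a : V → G) (S : Finset E) : Prop :=
  ∀ e ∈ S, τ e = a (Γ.s e) * σ e * (a (Γ.t e))⁻¹

/-- The holonomies of `σ` agree on the two sides of every balanced cycle. -/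
def Bal {G : Type} [Group G] (σ : E → G) : Prop :=
  ∀ x y P P', Γ.Cy x y P P' → Γ.gn P = Γ.gn P' → hl σ P = hl σ P'

/-- The holonomies of `σ` differ on the two sides of every unbalanced cycle. -/
def Unb {G : Type} [Group G] (σ : E → G) : Prop :=
  ∀ x y P P', Γ.Cy x y P P' → Γ.gn P ≠ Γ.gn P' → hl σ P ≠ hl σ P'

/-- `x` and `y` are connected by edges in `S`. -/
def Cn (S : Finset E) (x y : V) : Prop := ∃ l, (Γ.on S).Wk x l y

/-- `T` is a spanning forest. -/
structure Fst (T : Finset E) : Prop where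
  sub : T ⊆ Γ.A
  ac : ∀ c ∈ T, ¬ Cn Γ (T.erase c) (Γ.s c) (Γ.t c)
  sp : ∀ f ∈ Γ.A, Cn Γ T (Γ.s f) (Γ.t f)

/-- The edges of the path from `x` to `y` in the forest `T`. -/
def Dl (T : Finset E) (x y : V) : Finset E := T.filter fun c => ¬ Cn Γ (T.erase c) x y

/-- The fundamental cycles of the edges in `F`. -/
def Bk (T F : Finset E) : Finset E := F ∪ F.biUnion fun f => Dl Γ T (Γ.s f) (Γ.t f)

/-- The fundamental cycles of `f` and `f'` have a common edge of the forest. -/
def Ovl (T : Finset E) (f f' : E) : Prop := (Dl Γ T (Γ.s f) (Γ.t f) ∩ Dl Γ T (Γ.s f') (Γ.t f')).Nonempty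

/-- Sets of edges outside the forest which are connected by overlaps. -/
inductive Ocn (T : Finset E) : Finset E → Prop
  | one (f : E) (h : f ∈ Γ.A) (h' : f ∉ T) : Ocn T {f}
  | ins (F : Finset E) (f : E) (hF : Ocn T F) (h : f ∈ Γ.A) (h' : f ∉ T) (ho : ∃ f' ∈ F, Ovl Γ T f f') : Ocn T (insert f F)

end Graph

/-- Weak frame data: a quaternionic matrix `M` whose columns with two nonzero entries are the edges of `Γ`. -/
structure FrW {V E : Type} (Γ : GG V E XG) (M : Matrix V E Hq) (τ : E → Hqˣ) : Prop where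
  nrm : ∀ i j, M i j ≠ 0 → Quaternion.normSq (M i j) = 1
  lf : ∀ j ∈ Γ.A, Γ.s j ≠ Γ.t j
  ns : ∀ j ∈ Γ.A, M (Γ.s j) j ≠ 0
  nt : ∀ j ∈ Γ.A, M (Γ.t j) j ≠ 0
  out : ∀ j ∈ Γ.A, ∀ i, i ≠ Γ.s j → i ≠ Γ.t j → M i j = 0
  eh : ∀ j ∈ Γ.A, M (Γ.s j) j = -((τ j : Hq) * M (Γ.t j) j)
  half : ∀ j, j ∉ Γ.A → ∀ i i', M i j ≠ 0 → M i' j ≠ 0 → i = i'

/-- The matrix `[I | M]`, where the column `j ∈ S` of `M` has the entries `- τ j` in the row `s j` and `1` in the row `t j`, and the other columns
of `M` are zero. -/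
def Mp {r n : ℕ} (Γ : GG (Fin r) (Fin n) XG) (S : Finset (Fin n)) (τ : Fin n → Hqˣ) : Matrix (Fin r) (Fin r ⊕ Fin n) Hq :=
  fun i c => Sum.elim (fun i' => if i = i' then 1 else 0)
    (fun j => if j ∈ S then (if i = Γ.s j then -(τ j : Hq) else if i = Γ.t j then 1 else 0) else 0) c

/-- the energy: the sum of the complex determinants of the maximal square submatrices of `[I | M]` -/
def Wt {r n : ℕ} (Γ : GG (Fin r) (Fin n) XG) (S : Finset (Fin n)) (τ : Fin n → Hqˣ) : ℝ :=
  ∑ G : Finset (Fin (r + n)), if h : G.card = r then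
    (dC ((Mp Γ S τ).submatrix id (finSumFinEquiv.symm ∘ G.orderEmbOfFin h))).re else 0

end Pool.Agent.FRN
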