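import Pool.Agent.FRN.En2

/-!
# FRN/En3: the determinant of a cycle

PROOF PLAN.  The cycle `P = d :: P₀`, `P'` from `x` to `y` has `k` vertices and `k` edges.  Columns: `Sum.inr e` for the edges of the cycle, `Sum.inl z` for the vertices `z` not on the cycle (`r` columns in all; take an injective `g : Fin r → Fin r ⊕ Fin n` with this range).  `w_cycle` (for the
whole matrix, `f = id`) removes the row `x` and the column `d.1` with the factor `N(1 - hol)` (`hol = hl τ P' (hl τ P)⁻¹`; `N(1 - h⁻¹) = N(1 - h)` for `N(h) = 1`).  The rest has determinant `1`: go around the cycle from `x`: the row of the next vertex has exactly one nonzero entry left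
(`w_row`), and so on; at the end only unit vectors are left (`w_row` again).  It may be convenient to prove first: if the columns `g` of a square submatrix can be listed as `c₀, c₁, ..` with distinct rows `v₀, v₁, ..` such that `M v_i c_i ≠ 0` and `M v_i c_j = 0` for `j > i`, then `dC = 1`
(`tri_one`; induction with `w_row`).
-/

set_option autoImplicit false

noncomputable section

open scoped Classical

namespace Pool.Agent.FRN

open Pool.Agent.FRM Pool.Agent.FRM.GG

variable {r n : ℕ}

private theorem En3_rng {α : Type} {m : ℕ} (f : Fin (m + 1) → α) (hf : Function.Injective f) (i : Fin (m + 1))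
    (l : List α) (hn : (f i :: l).Nodup) (hl : ∀ v, v ∈ Set.range f ↔ v ∈ f i :: l) (v : α) :
    v ∈ Set.range (f ∘ i.succAbove) ↔ v ∈ l := by
  rw [List.nodup_cons] at hn
  constructor
  · rintro ⟨k, rfl⟩
    have h1 := (hl (f (i.succAbove k))).1 ⟨_, rfl⟩
    rcases List.mem_cons.1 h1 with h2 | h2
    · exact absurd (hf h2) (Fin.succAbove_ne i k)
    · exact h2
  · intro hv
    obtain ⟨k, hk⟩ := (hl v).2 (List.mem_cons_of_mem _ hv)
    have hki : k ≠ i := by
      rintro rfl
      exact hn.1 (by rw [hk]; exact hv)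
    obtain ⟨k', rfl⟩ := Fin.exists_succAbove_eq hki
    exact ⟨k', hk⟩

theorem tri_one {V E : Type} {Γ : GG V E XG} {M : Matrix V E Hq} {τ : E → Hqˣ} (hM : FrW Γ M τ) {m : ℕ} (f : Fin m → V)
    (g : Fin m → E) (hf : Function.Injective f) (hg : Function.Injective g) (L : List (V × E))
    (hL : (L.map Prod.fst).Nodup) (hL' : (L.map Prod.snd).Nodup) (hfL : ∀ v, v ∈ Set.range f ↔ v ∈ L.map Prod.fst)
    (hgL : ∀ e, e ∈ Set.range g ↔ e ∈ L.map Prod.snd) (h0 : ∀ p ∈ L, M p.1 p.2 ≠ 0)
    (hp : L.Pairwise fun p q => M p.1 q.2 = 0) : dC (M.submatrix f g) = 1 := by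
  induction L generalizing m with
  | nil =>
    cases m with
    | zero => exact dC_zero_fin _
    | succ m =>
      have h1 := (hfL (f 0)).1 ⟨0, rfl⟩
      simp at h1
  | cons p L ih =>
    cases m with
    | zero =>
      obtain ⟨i, -⟩ := (hfL p.1).2 (by simp)
      exact i.elim0
    | succ m =>
      rw [List.map_cons] at hL hL'
      simp only [List.map_cons] at hfL hgL
      obtain ⟨i, hi⟩ := (hfL p.1).2 List.mem_cons_self
      obtain ⟨j, hj⟩ := (hgL p.2).2 List.mem_cons_self
      rw [List.pairwise_cons] at hp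
      have hrow : ∀ j', j' ≠ j → M (f i) (g j') = 0 := by
        intro j' hj'
        rcases List.mem_cons.1 ((hgL (g j')).1 ⟨j', rfl⟩) with h1 | h1
        · exact absurd (hg (h1.trans hj.symm)) hj'
        · obtain ⟨q, hq, hq'⟩ := List.mem_map.1 h1
          rw [hi, ← hq']
          exact hp.1 q hq
      rw [w_row hM f g i j (by rw [hi, hj]; exact h0 p List.mem_cons_self) hrow]
      refine ih (f ∘ i.succAbove) (g ∘ j.succAbove) (hf.comp Fin.succAbove_right_injective)
        (hg.comp Fin.succAbove_right_injective) (List.nodup_cons.1 hL).2 (List.nodup_cons.1 hL').2 ?_ ?_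
        (fun q hq => h0 q (List.mem_cons_of_mem _ hq)) hp.2
      · exact En3_rng f hf i _ (by rw [hi]; exact hL) (by rw [hi]; exact hfL)
      · exact En3_rng g hg j _ (by rw [hj]; exact hL') (by rw [hj]; exact hgL)

private theorem En3_vs {V E : Type} {Γ : GG V E XG} {x y : V} {l : List (Da E)} (h : Γ.Wk x l y) :
    Γ.vs x l = l.map Γ.src ++ [y] := by
  induction l generalizing x with
  | nil =>
    have h1 : x = y := h
    rw [h1]
    rfl
  | cons d l ih =>
    obtain ⟨-, h2, h3⟩ := h
    rw [List.map_cons, List.cons_append, ← ih h3, h2]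
    rfl

private theorem En3_out {V E : Type} {Γ : GG V E XG} {M : Matrix V E Hq} {τ : E → Hqˣ} (hM : FrW Γ M τ) {d : Da E}
    (hd : d.1 ∈ Γ.A) {i : V} (h1 : i ≠ Γ.src d) (h2 : i ≠ Γ.tgt d) : M i d.1 = 0 := by
  obtain ⟨e, b⟩ := d
  cases b with
  | true => exact hM.out e hd i h1 h2
  | false => exact hM.out e hd i h2 h1

private theorem En3_ne {V E : Type} {Γ : GG V E XG} {M : Matrix V E Hq} {τ : E → Hqˣ} (hM : FrW Γ M τ) {d : Da E}
    (hd : d.1 ∈ Γ.A) : M (Γ.src d) d.1 ≠ 0 := by
  obtain ⟨e, b⟩ := d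
  cases b with
  | true => exact hM.ns e hd
  | false => exact hM.nt e hd

private theorem En3_pw {V E : Type} {Γ : GG V E XG} {M : Matrix V E Hq} {τ : E → Hqˣ} (hM : FrW Γ M τ) {x y : V}
    {l : List (Da E)} (h : Γ.Pt x l y) :
    (l.map fun d => (Γ.src d, d.1)).Pairwise fun p q => M p.1 q.2 = 0 := by
  induction l generalizing x with
  | nil => exact List.Pairwise.nil
  | cons d l ih =>
    rw [List.map_cons, List.pairwise_cons]
    have hn := h.2
    change (x :: Γ.vs (Γ.tgt d) l).Nodup at hn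
    rw [List.nodup_cons] at hn
    refine ⟨?_, ih ⟨h.1.2.2, hn.2⟩⟩
    intro q hq
    obtain ⟨d', hd', rfl⟩ := List.mem_map.1 hq
    obtain ⟨h1, h2, h3⟩ := wk_mem h.1.2.2 d' hd'
    have hx : Γ.src d = x := h.1.2.1
    show M (Γ.src d) d'.1 = 0
    rw [hx]
    refine En3_out hM h1 ?_ ?_
    · intro h0
      exact hn.1 (by rw [h0]; exact h2)
    · intro h0
      exact hn.1 (by rw [h0]; exact h3)

private theorem En3_R {V E : Type} {Γ : GG V E XG} {x y : V} {d : Da E} {P P' : List (Da E)}
    (h : Γ.Cy x y (d :: P) P') : Γ.Pt (Γ.tgt d) (P ++ rv P') x := by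
  have hn := h.p.2
  change (x :: Γ.vs (Γ.tgt d) P).Nodup at hn
  rw [List.nodup_cons] at hn
  refine pt_append ⟨h.p.1.2.2, hn.2⟩ (pt_rv h.p') ?_
  intro w hw hw'
  rcases h.dj w (List.mem_cons_of_mem _ hw) ((mem_vs_rv h.p'.1).1 hw') with h1 | h1
  · rw [h1] at hw
    exact absurd hw hn.1
  · exact h1

private theorem En3_enum {β : Type} (L : List (Fin r × β)) (h1 : (L.map Prod.fst).Nodup)
    (h2 : ∀ z, z ∈ L.map Prod.fst) (h3 : (L.map Prod.snd).Nodup) :
    ∃ g : Fin r → β, Function.Injective g ∧ ∀ b, b ∈ Set.range g ↔ b ∈ L.map Prod.snd := by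
  have h4 : ∀ z, ∃ b, (z, b) ∈ L := by
    intro z
    obtain ⟨p, hp, hp'⟩ := List.mem_map.1 (h2 z)
    exact ⟨p.2, by rw [← hp']; exact hp⟩
  choose g hg using h4
  refine ⟨g, ?_, ?_⟩
  · intro z z' hz
    have h5 := List.inj_on_of_nodup_map h3 (hg z) (hg z') hz
    exact congrArg Prod.fst h5
  · intro b
    constructor
    · rintro ⟨z, rfl⟩
      exact List.mem_map.2 ⟨_, hg z, rfl⟩
    · intro hb
      obtain ⟨p, hp, hp'⟩ := List.mem_map.1 hb
      have h5 := List.inj_on_of_nodup_map h1 hp (hg p.1) rfl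
      exact ⟨p.1, by rw [← hp']; exact (congrArg Prod.snd h5).symm⟩

private theorem En3_up_inj : Function.Injective (up (r := r) (n := n)) := by
  intro l l' h
  refine List.map_injective_iff.2 ?_ h
  intro a b hab
  have h1 := Prod.ext_iff.1 hab
  exact Prod.ext (Sum.inr_injective h1.1) h1.2

theorem cyc_dC {Γ : GG (Fin r) (Fin n) XG} {S : Finset (Fin n)} (lf : ∀ e ∈ S, Γ.s e ≠ Γ.t e) {x y : Fin r}
    {P P' : List (Da (Fin n))} (h : (Γ.on S).Cy x y P P') (hne : P ≠ P') :
    ∃ g : Fin r → Fin r ⊕ Fin n, Function.Injective g ∧ ∀ τ : Fin n → Hqˣ, (∀ e ∈ S, HU (τ e : Hq)) →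
      dC ((Mp Γ S τ).submatrix id g) =
        ((Quaternion.normSq (1 - ((hl τ P * (hl τ P')⁻¹ : Hqˣ) : Hq)) : ℚ) : ℂ) := by
  obtain _ | m := r
  · exact x.elim0
  have hU : (upG Γ S).Cy x y (up P') (up P) := cy_symm ((cy_up Γ S).2 ⟨P, P', rfl, rfl, h⟩)
  have hne' : up (r := m + 1) P' ≠ up P := fun h0 => hne (En3_up_inj h0).symm
  have hup : ∃ d Q, up (r := m + 1) P' = d :: Q := by
    cases hq : up (r := m + 1) P' with
    | nil =>
      exfalso
      have h1 := hU.p.1
      rw [hq] at h1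
      exact hU.ne h1
    | cons d Q => exact ⟨d, Q, rfl⟩
  obtain ⟨d, Q, hQ⟩ := hup
  rw [hQ] at hU hne'
  have hR := En3_R hU
  set G := upG Γ S with hG
  set R := Q ++ rv (up (r := m + 1) P) with hRdef
  obtain ⟨K, hK, hK'⟩ : ∃ K : List (Fin (m + 1)), K.Nodup ∧ ∀ z, z ∈ K ↔ z ∉ G.vs (G.tgt d) R :=
    ⟨(Finset.univ.filter fun z => z ∉ G.vs (G.tgt d) R).toList, Finset.nodup_toList _, fun z => by simp⟩
  have hvs : G.vs (G.tgt d) R = R.map G.src ++ [x] := En3_vs hR.1
  have hnR : (R.map G.src ++ [x]).Nodup := by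
    rw [← hvs]
    exact hR.2
  have hRi : ∀ d' ∈ R, ∃ e, d'.1 = Sum.inr e := by
    intro d' hd'
    have h1 := (wk_mem hR.1 d' hd').1
    rw [hG] at h1
    obtain ⟨e, -, he⟩ := Finset.mem_map.1 h1
    exact ⟨e, he.symm⟩
  have hdi : ∃ e, d.1 = Sum.inr e := by
    have h1 := hU.p.1.1
    rw [hG] at h1
    obtain ⟨e, -, he⟩ := Finset.mem_map.1 h1
    exact ⟨e, he.symm⟩
  have hdR : d.1 ∉ R.map Prod.fst := by
    rw [hRdef, List.map_append, List.mem_append, not_or]
    constructor
    · have h1 := pt_nodup hU.p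
      rw [List.map_cons, List.nodup_cons] at h1
      exact h1.1
    · rcases cy_disj hU with h1 | ⟨d', h1, h2⟩
      · intro h3
        obtain ⟨d', h4, h5⟩ := List.mem_map.1 h3
        refine h1 d List.mem_cons_self ?_
        rw [← eds_rv, mem_eds]
        exact ⟨d', h4, h5⟩
      · exact absurd (h1.trans h2.symm) hne'
  set L : List (Fin (m + 1) × (Fin (m + 1) ⊕ Fin n)) :=
    (R.map fun d => (G.src d, d.1)) ++ K.map fun z => (z, Sum.inl z) with hL
  have hfst : L.map Prod.fst = R.map G.src ++ K := by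
    rw [hL, List.map_append, List.map_map, List.map_map]
    congr 1
    exact List.map_id K
  have hsnd : L.map Prod.snd = R.map Prod.fst ++ K.map Sum.inl := by
    rw [hL, List.map_append, List.map_map, List.map_map]
    rfl
  have n1 : (x :: L.map Prod.fst).Nodup := by
    rw [hfst]
    rw [List.nodup_append] at hnR
    rw [List.nodup_cons, List.mem_append, not_or, List.nodup_append]
    refine ⟨⟨?_, ?_⟩, hnR.1, hK, ?_⟩
    · intro h1
      exact hnR.2.2 x h1 x (List.mem_singleton.2 rfl) rfl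
    · rw [hK', not_not, hvs]
      simp
    · intro a ha b hb hab
      rw [hK', hvs] at hb
      rw [← hab] at hb
      exact hb (List.mem_append_left _ ha)
  have c1 : ∀ z, z ∈ x :: L.map Prod.fst := by
    intro z
    rw [hfst, List.mem_cons, List.mem_append, hK', hvs, List.mem_append, List.mem_singleton]
    tauto
  have n2 : (d.1 :: L.map Prod.snd).Nodup := by
    rw [hsnd, List.nodup_cons, List.mem_append, not_or, List.nodup_append]
    refine ⟨⟨hdR, ?_⟩, pt_nodup hR, hK.map Sum.inl_injective, ?_⟩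
    · intro h1
      obtain ⟨z, -, hz⟩ := List.mem_map.1 h1
      obtain ⟨e, he⟩ := hdi
      rw [he] at hz
      cases hz
    · intro a ha b hb hab
      obtain ⟨z, -, hz⟩ := List.mem_map.1 hb
      obtain ⟨d', hd', hd''⟩ := List.mem_map.1 ha
      obtain ⟨e, he⟩ := hRi d' hd'
      rw [← hab, ← hd'', he] at hz
      cases hz
  obtain ⟨g, hg, hg'⟩ := En3_enum ((x, d.1) :: L) (by rw [List.map_cons]; exact n1) (by rw [List.map_cons]; exact c1)
    (by rw [List.map_cons]; exact n2)
  rw [List.map_cons] at hg'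
  refine ⟨g, hg, fun τ hτ => ?_⟩
  have hM : FrW G (Mp Γ S τ) (upT τ) := mp_frw lf hτ
  obtain ⟨j, hj⟩ := (hg' d.1).2 List.mem_cons_self
  have hj' : g j = d.1 := hj
  have he : ∀ e, e ∈ eds (d :: Q) ∨ e ∈ eds (up (r := m + 1) P) → e ∈ Set.range g := by
    intro e he
    rw [hg', hsnd]
    rcases he with he | he
    · obtain ⟨d', h1, h2⟩ := (mem_eds _ _).1 he
      rcases List.mem_cons.1 h1 with h3 | h3
      · rw [← h2, h3]
        exact List.mem_cons_self
      · refine List.mem_cons_of_mem _ (List.mem_append_left _ ?_)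
        rw [hRdef, List.map_append]
        exact List.mem_append_left _ (List.mem_map.2 ⟨d', h3, h2⟩)
    · rw [← eds_rv] at he
      obtain ⟨d', h1, h2⟩ := (mem_eds _ _).1 he
      refine List.mem_cons_of_mem _ (List.mem_append_left _ ?_)
      rw [hRdef, List.map_append]
      exact List.mem_append_right _ (List.mem_map.2 ⟨d', h1, h2⟩)
  have hw := w_cycle hM hU hne' (f := id) (g := g) Function.injective_id hg (fun z _ => ⟨z, rfl⟩)
    (fun e h => he e ((@Finset.mem_union _ (fun a b => Classical.propDecidable (a = b)) _ _ _).1 h)) x j rfl hj'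
  rw [hw, ← hQ, hl_up, hl_up]
  have hone : dC ((Mp Γ S τ).submatrix (id ∘ x.succAbove) (g ∘ j.succAbove)) = 1 := by
    refine tri_one hM _ _ (Function.injective_id.comp Fin.succAbove_right_injective)
      (hg.comp Fin.succAbove_right_injective) L (List.nodup_cons.1 n1).2 (List.nodup_cons.1 n2).2 ?_ ?_ ?_ ?_
    · exact En3_rng id Function.injective_id x _ n1 (fun v => ⟨fun _ => c1 v, fun _ => ⟨v, rfl⟩⟩)
    · refine En3_rng g hg j _ ?_ ?_
      · rw [hj']
        exact n2
      · rw [hj']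
        exact hg'
    · intro p hp
      rw [hL, List.mem_append] at hp
      rcases hp with hp | hp
      · obtain ⟨d', hd', rfl⟩ := List.mem_map.1 hp
        exact En3_ne hM (wk_mem hR.1 d' hd').1
      · obtain ⟨z, -, rfl⟩ := List.mem_map.1 hp
        show Mp Γ S τ z (Sum.inl z) ≠ 0
        simp [Mp]
    · rw [hL, List.pairwise_append]
      refine ⟨En3_pw hM hR, ?_, ?_⟩
      · rw [List.pairwise_map]
        refine hK.imp ?_
        intro a b hab
        show Mp Γ S τ a (Sum.inl b) = 0
        simp [Mp, hab]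
      · intro p hp q hq
        obtain ⟨d', hd', rfl⟩ := List.mem_map.1 hp
        obtain ⟨z, hz, rfl⟩ := List.mem_map.1 hq
        have h1 : G.src d' ≠ z := by
          intro h2
          rw [hK', hvs, ← h2] at hz
          exact hz (List.mem_append_left _ (List.mem_map.2 ⟨d', hd', rfl⟩))
        show Mp Γ S τ (G.src d') (Sum.inl z) = 0
        simp [Mp, h1]
  rw [hone, mul_one]

end Pool.Agent.FRN
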