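import Pool.Agent.FRN.En1
import Pool.Agent.FRN.En3
import Pool.Agent.FRN.Lam
import Pool.Agent.FRM.Dfm
import Pool.Agent.FRM.Fin1

/-!
# FRN/En4: the energy

PROOF PLAN.  `wt_eq`: `det_formula` for `(Mp Γ S τ).submatrix id finSumFinEquiv.symm` and `w = 1` (reindexing the columns does not change `M Mᴴ`); all `dC` are real and nonnegative (`dC_nonneg` in FRM/Rk1), so the sum is the real number `Wt`.  `wt_min`: every summand is compared by `en_le`
(`mp_frw`, `mp_zero`, `up_good`); the hypothesis `hc` of `en_le`: an unbalanced cycle has `lm (gn P) ≠ lm (gn P')` (`lm_FU`, `lm_sub`), so the class of `hl τ P (hl τ P')⁻¹` is not `0` (`hl_kc`, `hl_lme`), real part `≤ 1 / 2` (`re_le`), `nsq_one_sub`.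
If the sums are equal all summands are equal; for a cycle `P ≠ P'` take `g` from `cyc_dC`; `dC` of `submatrix id g` depends on the order of the columns only through a permutation (`dC_perm`), so it is equal for `σ` and `τ`: `N(1 - hol τ) = N(1 - hol σ)`: `0` in the balanced case (so `hol τ = 1`), `1` in
the unbalanced case (real part `1 / 2`).  If `P = P'` the conditions of `Good` are trivial.
-/

set_option autoImplicit false

noncomputable section

open scoped Classical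

namespace Pool.Agent.FRN

open Pool.Agent.FRM Pool.Agent.FRM.GG

open scoped Matrix

variable {r n : ℕ}

private theorem En4_nn (Γ : GG (Fin r) (Fin n) XG) (S : Finset (Fin n)) (τ : Fin n → Hqˣ) (G : Finset (Fin (r + n))) :
    0 ≤ (if h : G.card = r then
      (dC ((Mp Γ S τ).submatrix id (finSumFinEquiv.symm ∘ G.orderEmbOfFin h))).re else 0 : ℝ) := by
  split_ifs with h
  · obtain ⟨a, ha, h1⟩ := dC_nonneg ((Mp Γ S τ).submatrix id (finSumFinEquiv.symm ∘ G.orderEmbOfFin h))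
    rw [h1, Complex.ofReal_re]
    exact ha
  · exact le_rfl

theorem wt_nonneg (Γ : GG (Fin r) (Fin n) XG) (S : Finset (Fin n)) (τ : Fin n → Hqˣ) : 0 ≤ Wt Γ S τ :=
  Finset.sum_nonneg fun G _ => En4_nn Γ S τ G

private theorem En4_gram {A B C : Type} [Fintype B] [Fintype C] (M : Matrix A B Hq) (e : C ≃ B) :
    chi (M.submatrix id e) * (chi (M.submatrix id e))ᴴ = chi M * (chi M)ᴴ := by
  ext i j
  rw [Matrix.mul_apply, Matrix.mul_apply]
  exact Fintype.sum_equiv (Equiv.prodCongr e (Equiv.refl (Fin 2))) _ _ fun x => rfl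

theorem wt_eq (Γ : GG (Fin r) (Fin n) XG) (S : Finset (Fin n)) (τ : Fin n → Hqˣ) :
    (chi (Mp Γ S τ) * (chi (Mp Γ S τ))ᴴ).det = ((Wt Γ S τ : ℝ) : ℂ) ^ 2 := by
  have h1 := det_formula ((Mp Γ S τ).submatrix id finSumFinEquiv.symm) (w := fun _ => 1) fun _ => zero_le_one
  have h2 : Matrix.diagonal (fun _ : Fin (r + n) × Fin 2 => (((1 : ℝ)) : ℂ)) = 1 := by
    rw [Complex.ofReal_one]
    exact Matrix.diagonal_one
  rw [h2, Matrix.mul_one, En4_gram (Mp Γ S τ) finSumFinEquiv.symm] at h1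
  rw [h1]
  congr 1
  unfold Wt
  rw [Complex.ofReal_sum]
  refine Finset.sum_congr rfl fun G _ => ?_
  by_cases h : G.card = r
  · rw [dif_pos h, dif_pos h, Finset.prod_const_one, Complex.ofReal_one, one_mul]
    obtain ⟨a, ha, h3⟩ := dC_nonneg ((Mp Γ S τ).submatrix id (finSumFinEquiv.symm ∘ G.orderEmbOfFin h))
    have h4 : ((Mp Γ S τ).submatrix id finSumFinEquiv.symm).submatrix id (G.orderEmbOfFin h) =
        (Mp Γ S τ).submatrix id (finSumFinEquiv.symm ∘ G.orderEmbOfFin h) := rfl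
    rw [h4, h3, Complex.ofReal_re]
  · rw [dif_neg h, dif_neg h, Complex.ofReal_zero]

/-- the holonomies of the darts in `S` -/
private theorem En4_mem {V E : Type} {Γ : GG V E XG} {S : Finset E} {x y : V} {l : List (Da E)}
    (h : (Γ.on S).Wk x l y) : ∀ d ∈ l, d.1 ∈ S := fun d hd => by
  have h1 := eds_sub h ((mem_eds d.1 l).2 ⟨d, hd, rfl⟩)
  exact h1

private theorem En4_kc {V E : Type} {Γ : GG V E XG} {S : Finset E} {τ : E → Hqˣ} (hτ : ∀ e ∈ S, HU (τ e : Hq))
    (hk : ∀ e ∈ S, kc (τ e : Hq) = lm (Γ.g e)) {x y : V} {l : List (Da E)} (h : (Γ.on S).Wk x l y) :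
    kc ((hl τ l : Hqˣ) : Hq) = lm (Γ.gn l) := by
  have h1 := En4_mem h
  have h2 := hl_kc (σ := τ) (l := l) fun d hd => hτ _ (h1 d hd)
  have h3 : hl (kce τ) l = hl (lme Γ) l := by
    unfold hl
    congr 1
    refine List.map_congr_left fun d hd => ?_
    have h4 : kce τ d.1 = lme Γ d.1 := by
      unfold kce lme
      rw [hk _ (h1 d hd)]
    rw [h4]
  rw [h3, hl_lme] at h2
  exact Multiplicative.ofAdd.injective h2

/-- the holonomy of an unbalanced cycle is not in the class of `1` -/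
private theorem En4_unb {V E : Type} {Γ : GG V E XG} (hΦ : Γ.Phi (FU : Set XG)) {S : Finset E} (hS : S ⊆ Γ.A)
    {τ : E → Hqˣ} (hτ : ∀ e ∈ S, HU (τ e : Hq)) (hk : ∀ e ∈ S, kc (τ e : Hq) = lm (Γ.g e)) {x y : V}
    {P P' : List (Da E)} (h : (Γ.on S).Cy x y P P') (hne : Γ.gn P ≠ Γ.gn P') :
    HU ((hl τ P * (hl τ P')⁻¹ : Hqˣ) : Hq) ∧ kc ((hl τ P * (hl τ P')⁻¹ : Hqˣ) : Hq) ≠ 0 := by
  have h1 : HU ((hl τ P : Hqˣ) : Hq) := hl_hu fun d hd => hτ _ (En4_mem h.p.1 d hd)
  have h2 : HU ((hl τ P' : Hqˣ) : Hq) := hl_hu fun d hd => hτ _ (En4_mem h.p'.1 d hd)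
  have h3 := hu_inv h2
  rw [Units.val_mul]
  refine ⟨hu_mul h1 h3, ?_⟩
  rw [kc_mul h1 h3, kc_inv h2, En4_kc hτ hk h.p.1, En4_kc hτ hk h.p'.1, ← sub_eq_add_neg, ← lm_sub]
  refine lm_FU ((hΦ x y P P' (cy_mono (Γ := Γ) hS h)).resolve_left (sub_ne_zero.2 hne))

private theorem En4_norm {q : Hq} (h : HU q) (hk : kc q ≠ 0) : 1 ≤ Quaternion.normSq (1 - q) := by
  rw [nsq_one_sub h]
  have := re_le h hk
  linarith

theorem wt_min {Γ : GG (Fin r) (Fin n) XG} (hΦ : Γ.Phi (FU : Set XG)) (lf : ∀ e ∈ Γ.A, Γ.s e ≠ Γ.t e) {S : Finset (Fin n)}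
    (hS : S ⊆ Γ.A) {σ τ : Fin n → Hqˣ} (hτ : ∀ e ∈ S, HU (τ e : Hq)) (hk : ∀ e ∈ S, kc (τ e : Hq) = lm (Γ.g e))
    (hσ : Good (Γ.on S) σ) :
    Wt Γ S σ ≤ Wt Γ S τ ∧ (Wt Γ S τ ≤ Wt Γ S σ → Good (Γ.on S) τ) := by
  have lf' : ∀ e ∈ S, Γ.s e ≠ Γ.t e := fun e he => lf e (hS he)
  -- comparison of the determinants
  have hc : ∀ x y P P', (upG Γ S).Cy x y P P' → (upG Γ S).gn P ≠ (upG Γ S).gn P' →
      1 ≤ Quaternion.normSq (1 - ((hl (upT (r := r) τ) P * (hl (upT (r := r) τ) P')⁻¹ : Hqˣ) : Hq)) := by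
    intro x y P P' h hne
    obtain ⟨R, R', rfl, rfl, h'⟩ := (cy_up Γ S).1 h
    rw [gn_up, gn_up] at hne
    rw [hl_up, hl_up]
    obtain ⟨h1, h2⟩ := En4_unb hΦ hS hτ hk h' hne
    exact En4_norm h1 h2
  have hcmp : ∀ g : Fin r → Fin r ⊕ Fin n, Function.Injective g →
      ∃ a b : ℝ, dC ((Mp Γ S σ).submatrix id g) = (a : ℂ) ∧ dC ((Mp Γ S τ).submatrix id g) = (b : ℂ) ∧ a ≤ b := by
    intro g hg
    obtain ⟨a, b, h1, h2, h3, h4, h5⟩ := en_le (mp_frw (r := r) lf' hσ.hu) (mp_frw lf' hτ) mp_zero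
      ((up_good Γ S σ).2 hσ) hc id g Function.injective_id hg
    exact ⟨a, b, h1, h2, h4⟩
  have hinj : ∀ (G : Finset (Fin (r + n))) (h : G.card = r),
      Function.Injective (finSumFinEquiv.symm ∘ G.orderEmbOfFin h : Fin r → Fin r ⊕ Fin n) := fun G h =>
    finSumFinEquiv.symm.injective.comp (G.orderEmbOfFin h).injective
  have hle : ∀ G ∈ (Finset.univ : Finset (Finset (Fin (r + n)))),
      (if h : G.card = r then (dC ((Mp Γ S σ).submatrix id (finSumFinEquiv.symm ∘ G.orderEmbOfFin h))).re else 0 : ℝ) ≤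
      (if h : G.card = r then (dC ((Mp Γ S τ).submatrix id (finSumFinEquiv.symm ∘ G.orderEmbOfFin h))).re else 0 : ℝ) := by
    intro G _
    by_cases h : G.card = r
    · rw [dif_pos h, dif_pos h]
      obtain ⟨a, b, h1, h2, h3⟩ := hcmp _ (hinj G h)
      rw [h1, h2, Complex.ofReal_re, Complex.ofReal_re]
      exact h3
    · rw [dif_neg h, dif_neg h]
  refine ⟨Finset.sum_le_sum hle, fun hWt => ?_⟩
  have hall := (Finset.sum_eq_sum_iff_of_le hle).1 (le_antisymm (Finset.sum_le_sum hle) hWt)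
  -- all determinants are equal
  have heq : ∀ g : Fin r → Fin r ⊕ Fin n, Function.Injective g →
      dC ((Mp Γ S σ).submatrix id g) = dC ((Mp Γ S τ).submatrix id g) := by
    intro g hg
    let G : Finset (Fin (r + n)) := Finset.univ.image (finSumFinEquiv ∘ g)
    have hG : G.card = r := by
      rw [Finset.card_image_of_injective _ (finSumFinEquiv.injective.comp hg), Finset.card_univ, Fintype.card_fin]
    have h1 := hall G (Finset.mem_univ G)
    rw [dif_pos hG, dif_pos hG] at h1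
    have h2 : dC ((Mp Γ S σ).submatrix id (finSumFinEquiv.symm ∘ G.orderEmbOfFin hG)) =
        dC ((Mp Γ S τ).submatrix id (finSumFinEquiv.symm ∘ G.orderEmbOfFin hG)) := by
      obtain ⟨a, b, h3, h4, h5⟩ := hcmp _ (hinj G hG)
      rw [h3, h4, Complex.ofReal_re, Complex.ofReal_re] at h1
      rw [h3, h4, h1]
    have h3 : ∀ k, ∃ k', (finSumFinEquiv.symm ∘ G.orderEmbOfFin hG : Fin r → Fin r ⊕ Fin n) k' = g k := by
      intro k
      have h4 : finSumFinEquiv (g k) ∈ G := Finset.mem_image.2 ⟨k, Finset.mem_univ k, rfl⟩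
      have h5 : finSumFinEquiv (g k) ∈ Set.range (G.orderEmbOfFin hG) := by
        rw [Finset.range_orderEmbOfFin]
        exact h4
      obtain ⟨k', hk'⟩ := h5
      refine ⟨k', ?_⟩
      show finSumFinEquiv.symm (G.orderEmbOfFin hG k') = g k
      rw [hk', Equiv.symm_apply_apply]
    choose π hπ using h3
    have hπi : Function.Injective π := by
      intro k k' h
      apply hg
      rw [← hπ k, ← hπ k', h]
    let ρ : Equiv.Perm (Fin r) := Equiv.ofBijective π (Finite.injective_iff_bijective.1 hπi)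
    have h6 : ∀ M : Matrix (Fin r) (Fin r ⊕ Fin n) Hq,
        M.submatrix id g = (M.submatrix id (finSumFinEquiv.symm ∘ G.orderEmbOfFin hG)).submatrix id ρ := by
      intro M
      ext1 i k
      show M i (g k) = M i ((finSumFinEquiv.symm ∘ G.orderEmbOfFin hG) (π k))
      rw [hπ]
    rw [h6, h6, (dC_perm _ ρ).1, (dC_perm _ ρ).1, h2]
  -- the norms
  have hnorm : ∀ x y P P', (Γ.on S).Cy x y P P' → P ≠ P' →
      Quaternion.normSq (1 - ((hl σ P * (hl σ P')⁻¹ : Hqˣ) : Hq)) =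
        Quaternion.normSq (1 - ((hl τ P * (hl τ P')⁻¹ : Hqˣ) : Hq)) := by
    intro x y P P' h hne
    obtain ⟨g, hg, h1⟩ := cyc_dC lf' h hne
    have h2 := heq g hg
    rw [h1 σ hσ.hu, h1 τ hτ] at h2
    exact_mod_cast h2
  refine ⟨hτ, fun x y P P' h hb => ?_, fun x y P P' h hb => ?_⟩
  · by_cases hne : P = P'
    · rw [hne]
    · have h1 := hnorm x y P P' h hne
      rw [hσ.bal x y P P' h hb, mul_inv_cancel, Units.val_one, sub_self, map_zero] at h1
      have h2 := Quaternion.normSq_eq_zero.1 h1.symm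
      have h3 : (hl τ P * (hl τ P')⁻¹ : Hqˣ) = 1 := by
        apply Units.ext
        rw [Units.val_one]
        exact (sub_eq_zero.1 h2).symm
      exact mul_inv_eq_one.1 h3
  · have hne : P ≠ P' := by
      rintro rfl
      exact hb rfl
    have h1 := hnorm x y P P' h hne
    obtain ⟨h2, h3⟩ := En4_unb hΦ hS hτ hk h hb
    have h4 : HU ((hl σ P * (hl σ P')⁻¹ : Hqˣ) : Hq) := by
      rw [Units.val_mul]
      exact hu_mul (hl_hu fun d hd => hσ.hu _ (En4_mem h.p.1 d hd))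
        (hu_inv (hl_hu fun d hd => hσ.hu _ (En4_mem h.p'.1 d hd)))
    rw [nsq_one_sub h4, nsq_one_sub h2, hσ.unb x y P P' h hb] at h1
    linarith

end Pool.Agent.FRN
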