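import Pool.Agent.FRN.Gm
import Pool.Agent.FRN.Cl
import Pool.Agent.FRN.En4

/-!
# FRN/Ee: the energy of an assignment

`adet_rws` with `H = List.range r` expresses the energy by the complex Gram determinant of the matrix with the blocks `Kb`. Its columns are
the unit vectors and the columns of the edges in `L`; these are the columns of `Mp Γ S (asv asg)` except for zero columns, so the two
Gram matrices agree (`Ee_gram`), and `wt_eq` gives the claim.
-/

set_option autoImplicit false

noncomputable section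

open scoped Classical Matrix

namespace Pool.Agent.FRN

open Pool.Agent.FRM Pool.Agent.FRM.GG Pool.Agent.BEO Pool.Agent.PQE

variable {r n : ℕ} {Γ : GG (Fin r) (Fin n) XG}

private theorem Ee_look {asg : List (ℕ × ℕ)} (h : ∀ p ∈ asg, p.2 < 24) (x : ℕ) : look asg x 0 < 24 := by
  unfold look
  cases h1 : asg.filter (fun p => decide (p.1 = x)) with
  | nil => exact Nat.zero_lt_succ _
  | cons p l =>
    have h2 : p ∈ asg.filter (fun p => decide (p.1 = x)) := by
      rw [h1]
      exact List.mem_cons_self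
    exact h p (List.mem_of_mem_filter h2)

private theorem Ee_lt {asg : List (ℕ × ℕ)} (h : ∀ p ∈ asg, p.2 < 24) (H : List ℕ) (L : List Ed) (i : Fin r)
    (c : Fin H.length ⊕ Fin L.length) : Kb r H L asg i c < 26 := by
  rcases c with c | c
  · show ulk (H.get c) i.val < 26
    unfold ulk
    split_ifs <;> norm_num
  · show clk asg (L.get c) i.val < 26
    have h1 := Ee_look h (L.get c).1
    unfold clk
    split_ifs
    · omega
    · norm_num
    · norm_num
    · norm_num

private theorem Ee_bq0 : bq 0 = 0 := if_pos rfl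

private theorem Ee_bq1 : bq 1 = 1 := by
  unfold bq
  rw [if_neg one_ne_zero, if_pos rfl]

private theorem Ee_bq2 (t : ℕ) : bq (2 + t) = -qv t := by
  unfold bq
  rw [if_neg (by omega), if_neg (by omega), Nat.add_sub_cancel_left]

private theorem Ee_ent {asg : List (ℕ × ℕ)} {S : Finset (Fin n)} (hA : RepA asg S) (j : Fin n) (z : Fin r) :
    bq (clk asg (ed Γ j) z.val) = Mp Γ S (asv asg) z (Sum.inr j) := by
  show bq (clk asg (ed Γ j) z.val) =
    if j ∈ S then (if z = Γ.s j then -((asv asg j : Hqˣ) : Hq) else if z = Γ.t j then 1 else 0) else 0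
  have h0 : (ed Γ j).1 = j.val := rfl
  have h1 : (ed Γ j).2.1 = (Γ.s j).val := rfl
  have h2 : (ed Γ j).2.2.1 = (Γ.t j).val := rfl
  have h3 : ∀ a : Fin r, (decide (a.val = z.val) = true) ↔ z = a := by
    intro a
    rw [decide_eq_true_iff]
    exact ⟨fun h => (Fin.ext h).symm, fun h => by rw [h]⟩
  unfold clk
  rw [h0, h1, h2]
  by_cases hj : j ∈ S
  · rw [if_pos hj, if_pos ((memb_iff _ _).2 ((hA.mem j).2 hj))]
    by_cases hs : z = Γ.s j
    · rw [if_pos hs, if_pos ((h3 _).2 hs), Ee_bq2]
      rfl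
    · rw [if_neg hs, if_neg (fun h => hs ((h3 _).1 h))]
      by_cases ht : z = Γ.t j
      · rw [if_pos ht, if_pos ((h3 _).2 ht), Ee_bq1]
      · rw [if_neg ht, if_neg (fun h => ht ((h3 _).1 h)), Ee_bq0]
  · rw [if_neg hj, if_neg (fun h => hj ((hA.mem j).1 ((memb_iff _ _).1 h))), Ee_bq0]

/-- the contribution of a column to the Gram matrix -/
private def Ee_G (p q : Hq) (a b : Fin 2) : ℂ := ∑ k, cq p a k * star (cq q b k)

private theorem Ee_G0 (q : Hq) (a b : Fin 2) : Ee_G 0 q a b = 0 := by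
  unfold Ee_G
  rw [cq_zero]
  simp

private theorem Ee_mul {R C : Type} [Fintype C] (M : Matrix R C Hq) (i j : R) (a b : Fin 2) :
    (chi M * (chi M)ᴴ) (i, a) (j, b) = ∑ c, Ee_G (M i c) (M j c) a b := by
  rw [Matrix.mul_apply, Fintype.sum_prod_type]
  rfl

private theorem Ee_gram {L : List Ed} (hL : RepE Γ L Γ.A) {asg : List (ℕ × ℕ)} {S : Finset (Fin n)}
    (hA : RepA asg S) (hS : S ⊆ Γ.A) :
    chi ((Kb r (List.range r) L asg).map bq) * (chi ((Kb r (List.range r) L asg).map bq))ᴴ =
      chi (Mp Γ S (asv asg)) * (chi (Mp Γ S (asv asg)))ᴴ := by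
  have hφ : ∀ l : Fin L.length, ∃ j ∈ Γ.A, L.get l = ed Γ j := fun l =>
    (hL.mem _).1 (List.get_mem L l)
  choose φ hφA hφe using hφ
  have hinj : Function.Injective φ := by
    intro l l' h
    have h1 : L.get l = L.get l' := by rw [hφe, hφe, h]
    exact (List.nodup_iff_injective_get.1 hL.nd) h1
  have hsurj : ∀ j ∈ Γ.A, ∃ l, φ l = j := by
    intro j hj
    obtain ⟨l, hl⟩ := List.get_of_mem ((hL.mem (ed Γ j)).2 ⟨j, hj, rfl⟩)
    refine ⟨l, ?_⟩
    have h1 := hφe l
    rw [hl] at h1
    exact (Fin.ext (congrArg Prod.fst h1)).symm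
  ext ⟨i, a⟩ ⟨j, b⟩
  rw [Ee_mul, Ee_mul, Fintype.sum_sum_type, Fintype.sum_sum_type]
  congr 1
  · refine Fintype.sum_equiv (finCongr List.length_range) _ _ fun c => ?_
    have h1 : ∀ z : Fin r, ((Kb r (List.range r) L asg).map bq) z (Sum.inl c) =
        Mp Γ S (asv asg) z (Sum.inl (finCongr List.length_range c)) := by
      intro z
      show bq (ulk ((List.range r).get c) z.val) = if z = (finCongr List.length_range c) then 1 else 0
      have h2 : (List.range r).get c = c.val := by
        simp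
      rw [h2]
      unfold ulk
      by_cases h : z = (finCongr List.length_range c)
      · rw [if_pos h, if_pos, Ee_bq1]
        rw [decide_eq_true_iff, h]
        rfl
      · rw [if_neg h, if_neg, Ee_bq0]
        intro h3
        rw [decide_eq_true_iff] at h3
        exact h (Fin.ext h3.symm)
    rw [h1, h1]
  · have h1 : ∀ (z : Fin r) (l : Fin L.length), ((Kb r (List.range r) L asg).map bq) z (Sum.inr l) =
        Mp Γ S (asv asg) z (Sum.inr (φ l)) := by
      intro z l
      show bq (clk asg (L.get l) z.val) = _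
      rw [hφe l]
      exact Ee_ent hA (φ l) z
    have h2 : ∀ l : Fin L.length, Ee_G (((Kb r (List.range r) L asg).map bq) i (Sum.inr l))
        (((Kb r (List.range r) L asg).map bq) j (Sum.inr l)) a b =
        Ee_G (Mp Γ S (asv asg) i (Sum.inr (φ l))) (Mp Γ S (asv asg) j (Sum.inr (φ l))) a b := by
      intro l
      rw [h1, h1]
    rw [Finset.sum_congr rfl fun l _ => h2 l]
    have h3 : ∑ l : Fin L.length,
        Ee_G (Mp Γ S (asv asg) i (Sum.inr (φ l))) (Mp Γ S (asv asg) j (Sum.inr (φ l))) a b =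
        ∑ e ∈ Finset.univ.image φ, Ee_G (Mp Γ S (asv asg) i (Sum.inr e)) (Mp Γ S (asv asg) j (Sum.inr e)) a b := by
      rw [Finset.sum_image fun x _ y _ h => hinj h]
    rw [h3]
    refine Finset.sum_subset (Finset.subset_univ _) fun e _ he => ?_
    have h4 : e ∉ S := by
      intro h5
      obtain ⟨l, hl⟩ := hsurj e (hS h5)
      exact he (Finset.mem_image.2 ⟨l, Finset.mem_univ _, hl⟩)
    have h5 : Mp Γ S (asv asg) i (Sum.inr e) = 0 := if_neg h4
    rw [h5]
    exact Ee_G0 _ _ _

theorem en_eq {L : List Ed} (hL : RepE Γ L Γ.A) (lf : ∀ e ∈ Γ.A, Γ.s e ≠ Γ.t e) {asg : List (ℕ × ℕ)} {S : Finset (Fin n)}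
    (hA : RepA asg S) (hS : S ⊆ Γ.A) :
    ((en (List.range r) L asg : ℕ) : ℝ) = 256 ^ r * (Wt Γ S (asv asg)) ^ 4 := by
  unfold en
  rw [adet_rws (List.range r) L asg (Ee_lt hA.lt _ _), Ee_gram hL hA hS, wt_eq, map_pow, Complex.normSq_ofReal]
  ring

end Pool.Agent.FRN
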