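import Pool.Agent.FRN.Defs
import Pool.Agent.FRM.Cyv
import Pool.Agent.FRM.Qdt
import Pool.Agent.FRM.Wk3

/-!
# FRN/En0: weak frame data: the cycle step

PROOF PLAN.  As `step_cycle` in FRM/Stp, but for an arbitrary connection.  `w_cycle`: `cycle_vec` (FRM/Cyv; `FrW` gives `Cmp`) gives `v` with `v d.1 = 1`, zero outside the cycle, `∑ M i e v e = 0` for `i ≠ x` and `(1 - hol) M x d.1` for `i = x`.
`dC_updateCol` with the column `j` and `x k = v (g k)`, then `dC_col` for the updated matrix (column `j` has only the entry in row `i`), `normSq` is multiplicative, `normSq (M x d.1) = 1`.  `w_row`, `w_col`, `w_zero`: `dC_row`, `dC_col`, `dC_zero_row`.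
-/

set_option autoImplicit false

noncomputable section

open scoped Classical

namespace Pool.Agent.FRN

open Pool.Agent.FRM Pool.Agent.FRM.GG

variable {V E : Type} {Γ : GG V E XG} {M : Matrix V E Hq} {τ : E → Hqˣ}

private theorem En0_cmp (hM : FrW Γ M τ) : Cmp Γ M τ :=
  ⟨hM.lf, hM.nt, hM.out, hM.eh⟩

private theorem En0_sum {D : Type} [DivisionRing D] {m : ℕ} (g : Fin m → E) (hg : Function.Injective g) (S : Finset E)
    (hS : ∀ e ∈ S, e ∈ Set.range g) (F : E → D) (hF : ∀ e, e ∉ S → F e = 0) :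
    ∑ k, F (g k) = ∑ e ∈ S, F e := by
  rw [← Finset.sum_image (s := Finset.univ) (g := g) (f := F) (fun a _ b _ h => hg h)]
  symm
  apply Finset.sum_subset
  · intro e he
    obtain ⟨k, hk⟩ := hS e he
    exact Finset.mem_image.mpr ⟨k, Finset.mem_univ k, hk⟩
  · intro e _ he
    exact hF e he

private theorem En0_vec {D : Type} [DivisionRing D] {Γ : GG V E XG} {M : Matrix V E D} {τ : E → Dˣ} (hM : Cmp Γ M τ)
    {x y : V} {d : Da E} {P P' : List (Da E)} (h : Γ.Cy x y (d :: P) P') (hne : d :: P ≠ P')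
    {m : ℕ} (f : Fin (m + 1) → V) (g : Fin (m + 1) → E) (hg : Function.Injective g)
    (he : ∀ e ∈ eds (d :: P) ∪ eds P', e ∈ Set.range g) (j : Fin (m + 1)) (hj : g j = d.1) :
    ∃ c : Fin (m + 1) → D, c j = 1 ∧ (∀ i, f i ≠ x → ∑ k, M (f i) (g k) * c k = 0) ∧
      (∀ i, f i = x → ∑ k, M (f i) (g k) * c k = (1 - ((hl τ P' * (hl τ (d :: P))⁻¹ : Dˣ) : D)) * M x d.1) ∧
      M x d.1 ≠ 0 := by
  obtain ⟨v, hv1, hv0, hvz, hvx, hne'⟩ := cycle_vec hM h hne
  have key : ∀ i, ∑ k, M (f i) (g k) * v (g k) = ∑ e ∈ eds (d :: P) ∪ eds P', M (f i) e * v e := by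
    intro i
    apply En0_sum g hg _ he (fun e => M (f i) e * v e)
    intro e he'
    rw [Finset.mem_union, not_or] at he'
    show M (f i) e * v e = 0
    rw [hv0 e he'.1 he'.2, mul_zero]
  refine ⟨fun k => v (g k), ?_, ?_, ?_, hne'⟩
  · show v (g j) = 1
    rw [hj, hv1]
  · intro i hi
    rw [key i]
    exact hvz _ hi
  · intro i hi
    rw [key i, hi]
    exact hvx

theorem w_cycle (hM : FrW Γ M τ) {x y : V} {d : Da E} {P P' : List (Da E)} (hC : Γ.Cy x y (d :: P) P') (hne : d :: P ≠ P')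
    {m : ℕ} (f : Fin (m + 1) → V) (g : Fin (m + 1) → E) (hf : Function.Injective f) (hg : Function.Injective g)
    (hv : ∀ z, z ∈ Γ.vs x (d :: P) ∨ z ∈ Γ.vs x P' → z ∈ Set.range f)
    (he : ∀ e ∈ eds (d :: P) ∪ eds P', e ∈ Set.range g) (i j : Fin (m + 1)) (hi : f i = x) (hj : g j = d.1) :
    dC (M.submatrix f g) = ((Quaternion.normSq (1 - ((hl τ P' * (hl τ (d :: P))⁻¹ : Hqˣ) : Hq)) : ℚ) : ℂ) *
      dC (M.submatrix (f ∘ i.succAbove) (g ∘ j.succAbove)) := by
  have _ := hv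
  obtain ⟨b, hb1, hbz, hbx, hbn⟩ := En0_vec (En0_cmp hM) hC hne f g hg he j hj
  have h1 := dC_updateCol (M.submatrix f g) j b (by rw [hb1]; simp)
  rw [← h1, dC_col _ i j]
  · rw [Matrix.submatrix_updateCol_succAbove, Matrix.submatrix_submatrix, Matrix.updateCol_self]
    have h2 : ∑ k, (M.submatrix f g) i k * b k = (1 - ((hl τ P' * (hl τ (d :: P))⁻¹ : Hqˣ) : Hq)) * M x d.1 :=
      hbx i hi
    rw [h2, map_mul, hM.nrm _ _ hbn, mul_one]
  · intro i' hi'
    rw [Matrix.updateCol_self]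
    exact hbz i' (fun h4 => hi' (hf (h4.trans hi.symm)))

theorem w_row (hM : FrW Γ M τ) {m : ℕ} (f : Fin (m + 1) → V) (g : Fin (m + 1) → E) (i j : Fin (m + 1))
    (h : M (f i) (g j) ≠ 0) (h' : ∀ j', j' ≠ j → M (f i) (g j') = 0) :
    dC (M.submatrix f g) = dC (M.submatrix (f ∘ i.succAbove) (g ∘ j.succAbove)) := by
  rw [dC_row (M.submatrix f g) i j h']
  have h1 : Quaternion.normSq ((M.submatrix f g) i j) = 1 := hM.nrm _ _ h
  rw [h1, Matrix.submatrix_submatrix]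
  simp

theorem w_col (hM : FrW Γ M τ) {m : ℕ} (f : Fin (m + 1) → V) (g : Fin (m + 1) → E) (i j : Fin (m + 1))
    (h : M (f i) (g j) ≠ 0) (h' : ∀ i', i' ≠ i → M (f i') (g j) = 0) :
    dC (M.submatrix f g) = dC (M.submatrix (f ∘ i.succAbove) (g ∘ j.succAbove)) := by
  rw [dC_col (M.submatrix f g) i j h']
  have h1 : Quaternion.normSq ((M.submatrix f g) i j) = 1 := hM.nrm _ _ h
  rw [h1, Matrix.submatrix_submatrix]
  simp

theorem w_zero {m : ℕ} (f : Fin m → V) (g : Fin m → E) (i : Fin m) (h : ∀ j, M (f i) (g j) = 0) :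
    dC (M.submatrix f g) = 0 := by
  exact dC_zero_row _ i h

end Pool.Agent.FRN
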