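import Pool.Agent.FRN.En0
import Pool.Agent.FRM.Mdg

/-!
# FRN/En1: comparison of a good connection with another one

Induction on `m`: a zero row, a row with one nonzero entry, or all rows and columns have exactly two nonzero entries (by
counting), and then there is a cycle in the graph of the columns, whose factors are compared.
-/

set_option autoImplicit false

noncomputable section

open scoped Classical

namespace Pool.Agent.FRN

open Pool.Agent.FRM Pool.Agent.FRM.GG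

variable {V E : Type} {Γ : GG V E XG}

section

variable {M : Matrix V E Hq} {τ : E → Hqˣ}

private theorem En1_ends (hF : FrW Γ M τ) {i : V} {j : E} (hj : j ∈ Γ.A) (h : M i j ≠ 0) :
    Γ.s j = i ∨ Γ.t j = i := by
  by_contra hc
  have h1 : ¬ Γ.s j = i := fun h2 => hc (Or.inl h2)
  have h3 : ¬ Γ.t j = i := fun h2 => hc (Or.inr h2)
  exact h (hF.out j hj i (fun h4 => h1 h4.symm) (fun h4 => h3 h4.symm))

private theorem En1_col (hF : FrW Γ M τ) {m : ℕ} (f : Fin m → V) (hf : Function.Injective f) (e : E) :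
    (Finset.univ.filter fun i => M (f i) e ≠ 0).card ≤ 2 := by
  by_cases he : e ∈ Γ.A
  · have h1 : ((Finset.univ.filter fun i => M (f i) e ≠ 0).image f) ⊆ {Γ.s e, Γ.t e} := by
      intro v hv
      obtain ⟨i, hi, rfl⟩ := Finset.mem_image.1 hv
      rw [Finset.mem_filter] at hi
      rw [Finset.mem_insert, Finset.mem_singleton]
      rcases En1_ends hF he hi.2 with h | h
      · exact Or.inl h.symm
      · exact Or.inr h.symm
    rw [← Finset.card_image_of_injective _ hf]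
    exact (Finset.card_le_card h1).trans Finset.card_le_two
  · have h1 : (Finset.univ.filter fun i => M (f i) e ≠ 0).card ≤ 1 := by
      rw [Finset.card_le_one]
      intro a ha b hb
      rw [Finset.mem_filter] at ha hb
      exact hf (hF.half e he _ _ ha.2 hb.2)
    omega

private theorem En1_full (hF : FrW Γ M τ) {m : ℕ} (f : Fin m → V) (hf : Function.Injective f) (e : E)
    (h2 : (Finset.univ.filter fun i => M (f i) e ≠ 0).card = 2) :
    e ∈ Γ.A ∧ Γ.s e ∈ Set.range f ∧ Γ.t e ∈ Set.range f := by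
  obtain ⟨a, b, hab, hs⟩ := Finset.card_eq_two.1 h2
  have ha : M (f a) e ≠ 0 := by
    have : a ∈ (Finset.univ.filter fun i => M (f i) e ≠ 0) := by rw [hs]; simp
    exact (Finset.mem_filter.1 this).2
  have hb : M (f b) e ≠ 0 := by
    have : b ∈ (Finset.univ.filter fun i => M (f i) e ≠ 0) := by rw [hs]; simp
    exact (Finset.mem_filter.1 this).2
  have hfab : f a ≠ f b := fun h => hab (hf h)
  have he : e ∈ Γ.A := by
    by_contra he
    exact hfab (hF.half e he _ _ ha hb)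
  refine ⟨he, ?_⟩
  rcases En1_ends hF he ha with h3 | h3 <;> rcases En1_ends hF he hb with h4 | h4
  · exact absurd (h3.symm.trans h4) hfab
  · exact ⟨⟨a, h3.symm⟩, ⟨b, h4.symm⟩⟩
  · exact ⟨⟨b, h4.symm⟩, ⟨a, h3.symm⟩⟩
  · exact absurd (h3.symm.trans h4) hfab

end

private theorem En1_count {m : ℕ} (P : Fin m → Fin m → Hq)
    (hr : ∀ i, 2 ≤ (Finset.univ.filter fun j => P i j ≠ 0).card)
    (hc : ∀ j, (Finset.univ.filter fun i => P i j ≠ 0).card ≤ 2) :
    ∀ j, (Finset.univ.filter fun i => P i j ≠ 0).card = 2 := by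
  have h1 : ∑ i : Fin m, (Finset.univ.filter fun j => P i j ≠ 0).card =
      ∑ j : Fin m, (Finset.univ.filter fun i => P i j ≠ 0).card := by
    simp only [Finset.card_filter]
    exact Finset.sum_comm
  have h2 : ∑ _i : Fin m, 2 ≤ ∑ i : Fin m, (Finset.univ.filter fun j => P i j ≠ 0).card :=
    Finset.sum_le_sum fun i _ => hr i
  rw [h1] at h2
  intro j
  by_contra hj
  have h3 : (Finset.univ.filter fun i => P i j ≠ 0).card < 2 := lt_of_le_of_ne (hc j) hj
  have h4 : ∑ j : Fin m, (Finset.univ.filter fun i => P i j ≠ 0).card < ∑ _j : Fin m, 2 :=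
    Finset.sum_lt_sum (fun i _ => hc i) ⟨j, Finset.mem_univ j, h3⟩
  omega

private theorem En1_start {Q : Type} [AddCommGroup Q] {Γ : GG V E Q} {x y : V} {l : List (Da E)}
    (h : Γ.Wk x l y) (hne : x ≠ y) : x ∈ Γ.VS := by
  cases l with
  | nil => exact absurd h hne
  | cons d l =>
    refine ⟨d.1, h.1, ?_⟩
    have h2 : Γ.src d = x := h.2.1
    rw [← h2]
    unfold src
    split_ifs
    · exact Or.inl rfl
    · exact Or.inr rfl

private theorem En1_norm {τ : E → Hqˣ} {A : Finset E} (hn : ∀ e ∈ A, Quaternion.normSq (τ e : Hq) = 1)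
    (l : List (Da E)) (hl' : ∀ d ∈ l, d.1 ∈ A) : Quaternion.normSq ((hl τ l : Hqˣ) : Hq) = 1 := by
  induction l with
  | nil =>
    rw [hl_nil]
    simp
  | cons d l ih =>
    rw [hl_cons, Units.val_mul, map_mul, ih (fun d' hd' => hl' d' (List.mem_cons_of_mem _ hd')), mul_one]
    have h1 := hn d.1 (hl' d List.mem_cons_self)
    obtain ⟨e, b⟩ := d
    cases b with
    | true => simpa using h1
    | false =>
      have h2 : (((τ e)⁻¹ : Hqˣ) : Hq) = ((τ e : Hq))⁻¹ := Units.val_inv_eq_inv_val (τ e)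
      simp only [Bool.false_eq_true, if_false]
      rw [h2, map_inv₀, h1, inv_one]

private theorem En1_bal {σ : E → Hqˣ} (hg : Good Γ σ) {x y : V} {P P' : List (Da E)} (hC : Γ.Cy x y P P')
    (h : Γ.gn P = Γ.gn P') : Quaternion.normSq (1 - ((hl σ P' * (hl σ P)⁻¹ : Hqˣ) : Hq)) = 0 := by
  rw [hg.bal x y _ _ hC h, mul_inv_cancel]
  simp

private theorem En1_unb {σ : E → Hqˣ} (hg : Good Γ σ) {x y : V} {P P' : List (Da E)} (hC : Γ.Cy x y P P')
    (h : Γ.gn P ≠ Γ.gn P') : Quaternion.normSq (1 - ((hl σ P' * (hl σ P)⁻¹ : Hqˣ) : Hq)) = 1 := by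
  have hA : ∀ e ∈ Γ.A, Quaternion.normSq (σ e : Hq) = 1 := fun e he' => (hg.hu e he').1
  have n1 := En1_norm hA P (fun d' hd' => (wk_mem hC.p.1 d' hd').1)
  have n2 := En1_norm hA P' (fun d' hd' => (wk_mem hC.p'.1 d' hd').1)
  have r1 := hg.unb x y P' P (cy_symm hC) (fun h0 => h h0.symm)
  have n3 : Quaternion.normSq ((hl σ P' * (hl σ P)⁻¹ : Hqˣ) : Hq) = 1 := by
    rw [Units.val_mul, Units.val_inv_eq_inv_val, map_mul, map_inv₀, n1, n2]
    norm_num
  rw [Quaternion.normSq_def'] at n3 ⊢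
  simp only [Quaternion.re_sub, Quaternion.imI_sub, Quaternion.imJ_sub, Quaternion.imK_sub, Quaternion.re_one,
    Quaternion.imI_one, Quaternion.imJ_one, Quaternion.imK_one]
  nlinarith [n3, r1]

theorem en_le {Mσ Mτ : Matrix V E Hq} {σ τ : E → Hqˣ} (hσ : FrW Γ Mσ σ) (hτ : FrW Γ Mτ τ)
    (hs : ∀ i j, Mσ i j = 0 ↔ Mτ i j = 0) (hg : Good Γ σ)
    (hc : ∀ x y P P', Γ.Cy x y P P' → Γ.gn P ≠ Γ.gn P' →
      1 ≤ Quaternion.normSq (1 - ((hl τ P * (hl τ P')⁻¹ : Hqˣ) : Hq))) {m : ℕ} (f : Fin m → V) (g : Fin m → E)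
    (hf : Function.Injective f) (hg' : Function.Injective g) :
    ∃ a b : ℝ, dC (Mσ.submatrix f g) = (a : ℂ) ∧ dC (Mτ.submatrix f g) = (b : ℂ) ∧ 0 ≤ a ∧ a ≤ b ∧ (a = 0 ∨ a = 1) := by
  induction m with
  | zero =>
    refine ⟨1, 1, ?_, ?_, zero_le_one, le_rfl, Or.inr rfl⟩
    · unfold dC
      rw [Matrix.det_isEmpty, Complex.ofReal_one]
    · unfold dC
      rw [Matrix.det_isEmpty, Complex.ofReal_one]
  | succ m ih =>
    have ih' := fun i j : Fin (m + 1) => ih (f ∘ i.succAbove) (g ∘ j.succAbove)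
      (hf.comp Fin.succAbove_right_injective) (hg'.comp Fin.succAbove_right_injective)
    by_cases hA : ∃ i, ∀ j, Mσ (f i) (g j) = 0
    · obtain ⟨i, hi⟩ := hA
      refine ⟨0, 0, ?_, ?_, le_rfl, le_rfl, Or.inl rfl⟩
      · rw [w_zero f g i hi, Complex.ofReal_zero]
      · rw [w_zero f g i (fun j => (hs _ _).1 (hi j)), Complex.ofReal_zero]
    by_cases hB : ∃ i j, Mσ (f i) (g j) ≠ 0 ∧ ∀ j', j' ≠ j → Mσ (f i) (g j') = 0
    · obtain ⟨i, j, h1, h2⟩ := hB
      obtain ⟨a, b, h3, h4, h5⟩ := ih' i j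
      refine ⟨a, b, ?_, ?_, h5⟩
      · rw [w_row hσ f g i j h1 h2, h3]
      · rw [w_row hτ f g i j (fun h6 => h1 ((hs _ _).2 h6)) (fun j' hj' => (hs _ _).1 (h2 j' hj')), h4]
    -- all rows have two nonzero entries
    have hrow : ∀ i, ∃ j j', j ≠ j' ∧ Mσ (f i) (g j) ≠ 0 ∧ Mσ (f i) (g j') ≠ 0 := by
      intro i
      have h1 : ∃ j, Mσ (f i) (g j) ≠ 0 := by
        by_contra h
        exact hA ⟨i, fun j => by_contra fun h2 => h ⟨j, h2⟩⟩
      obtain ⟨j, hj⟩ := h1
      have h2 : ∃ j', j' ≠ j ∧ Mσ (f i) (g j') ≠ 0 := by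
        by_contra h
        exact hB ⟨i, j, hj, fun j' hj' => by_contra fun h2 => h ⟨j', hj', h2⟩⟩
      obtain ⟨j', h3, h4⟩ := h2
      exact ⟨j, j', fun h => h3 h.symm, hj, h4⟩
    have hr2 : ∀ i, 2 ≤ (Finset.univ.filter fun j => Mσ (f i) (g j) ≠ 0).card := by
      intro i
      obtain ⟨j, j', h1, h2, h3⟩ := hrow i
      have h4 : 1 < (Finset.univ.filter fun j => Mσ (f i) (g j) ≠ 0).card := by
        rw [Finset.one_lt_card]
        exact ⟨j, Finset.mem_filter.2 ⟨Finset.mem_univ _, h2⟩, j',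
          Finset.mem_filter.2 ⟨Finset.mem_univ _, h3⟩, h1⟩
      omega
    have hc2 := En1_count (fun i j => Mσ (f i) (g j)) hr2 (fun j => En1_col hσ f hf (g j))
    have hfull : ∀ j, g j ∈ Γ.A ∧ Γ.s (g j) ∈ Set.range f ∧ Γ.t (g j) ∈ Set.range f := fun j =>
      En1_full hσ f hf (g j) (hc2 j)
    -- the graph of the columns
    have hBA : Finset.univ.image g ⊆ Γ.A := by
      intro e he
      obtain ⟨j, -, rfl⟩ := Finset.mem_image.1 he
      exact (hfull j).1
    have hmemB : ∀ j, g j ∈ Finset.univ.image g := fun j =>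
      Finset.mem_image.2 ⟨j, Finset.mem_univ j, rfl⟩
    have hVS : ∀ z ∈ (Γ.on (Finset.univ.image g)).VS, z ∈ Set.range f := by
      rintro z ⟨e, he, hz⟩
      have he' : e ∈ Finset.univ.image g := he
      obtain ⟨j, -, rfl⟩ := Finset.mem_image.1 he'
      rcases hz with hz | hz
      · have hz' : Γ.s (g j) = z := hz
        rw [← hz']
        exact (hfull j).2.1
      · have hz' : Γ.t (g j) = z := hz
        rw [← hz']
        exact (hfull j).2.2
    obtain ⟨x, y, P, P', hcy, hne⟩ := exists_cycle (Γ := Γ.on (Finset.univ.image g))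
      (fun e he => hσ.lf e (hBA he)) ⟨g 0, hmemB 0⟩ (by
        intro z hz
        obtain ⟨i, rfl⟩ := hVS z hz
        obtain ⟨j, j', h1, h2, h3⟩ := hrow i
        exact ⟨g j, hmemB j, g j', hmemB j', fun h => h1 (hg' h), En1_ends hσ (hfull j).1 h2,
          En1_ends hσ (hfull j').1 h3⟩)
    have hcy' := (cy_on hBA).1 hcy
    have hx : x ∈ (Γ.on (Finset.univ.image g)).VS := En1_start hcy.p.1 hcy.ne
    have hv : ∀ z, z ∈ Γ.vs x P ∨ z ∈ Γ.vs x P' → z ∈ Set.range f := by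
      intro z hz
      rcases hz with hz | hz
      · exact hVS z (wk_VS hcy.p.1 hx hz)
      · exact hVS z (wk_VS hcy.p'.1 hx hz)
    have he : ∀ e ∈ eds P ∪ eds P', e ∈ Set.range g := by
      intro e he
      have h1 : e ∈ Finset.univ.image g := by
        rcases Finset.mem_union.1 he with h2 | h2
        · obtain ⟨d, hd, rfl⟩ := (mem_eds e P).1 h2
          exact hcy'.2.1 d hd
        · obtain ⟨d, hd, rfl⟩ := (mem_eds e P').1 h2
          exact hcy'.2.2 d hd
      obtain ⟨j, -, hj⟩ := Finset.mem_image.1 h1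
      exact ⟨j, hj⟩
    have hC := hcy'.1
    obtain ⟨d, P₁, rfl⟩ : ∃ d P₁, P = d :: P₁ := by
      cases P with
      | nil => exact absurd hC.p.1 hC.ne
      | cons d P₁ => exact ⟨d, P₁, rfl⟩
    obtain ⟨i, hi⟩ := hv x (Or.inl List.mem_cons_self)
    obtain ⟨j, hj⟩ := he d.1 (by
      rw [Finset.mem_union]
      exact Or.inl ((mem_eds _ _).mpr ⟨d, List.mem_cons_self, rfl⟩))
    have e1 := w_cycle hσ hC hne f g hf hg' hv he i j hi hj
    have e2 := w_cycle hτ hC hne f g hf hg' hv he i j hi hj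
    obtain ⟨a, b, h3, h4, h5, h6, h7⟩ := ih' i j
    rw [h3] at e1
    rw [h4] at e2
    have hN : (0 : ℝ) ≤ ((Quaternion.normSq (1 - ((hl τ P' * (hl τ (d :: P₁))⁻¹ : Hqˣ) : Hq)) : ℚ) : ℝ) := by
      exact_mod_cast Quaternion.normSq_nonneg
    by_cases hgn : Γ.gn (d :: P₁) = Γ.gn P'
    · refine ⟨0, ((Quaternion.normSq (1 - ((hl τ P' * (hl τ (d :: P₁))⁻¹ : Hqˣ) : Hq)) : ℚ) : ℝ) * b, ?_, ?_, le_rfl,
        mul_nonneg hN (h5.trans h6), Or.inl rfl⟩
      · rw [e1, En1_bal hg hC hgn]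
        simp
      · rw [e2]
        push_cast
        rfl
    · have h8 := hc x y P' (d :: P₁) (cy_symm hC) (fun h0 => hgn h0.symm)
      have h9 : (1 : ℝ) ≤ ((Quaternion.normSq (1 - ((hl τ P' * (hl τ (d :: P₁))⁻¹ : Hqˣ) : Hq)) : ℚ) : ℝ) := by
        exact_mod_cast h8
      refine ⟨a, ((Quaternion.normSq (1 - ((hl τ P' * (hl τ (d :: P₁))⁻¹ : Hqˣ) : Hq)) : ℚ) : ℝ) * b, ?_, ?_, h5,
        ?_, h7⟩
      · rw [e1, En1_unb hg hC hgn]
        simp
      · rw [e2]
        push_cast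
        rfl
      · calc a ≤ b := h6
          _ = 1 * b := (one_mul b).symm
          _ ≤ _ := mul_le_mul_of_nonneg_right h9 (h5.trans h6)

end Pool.Agent.FRN
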