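import Pool.Agent.FRN.Kh
import Pool.Agent.FRN.En0

/-!
# FRN/En2: the matrix [I | M]

The gain graph `upG Γ S` of the matrix `[I | M]` has the edges `Sum.inr e`, `e ∈ S`; its walks and cycles are the images of the
walks and cycles of `Γ.on S` under `up`, so good connections correspond.  The matrix `Mp Γ S τ` is weak frame data for it, and its
zero pattern does not depend on the connection.
-/

set_option autoImplicit false

noncomputable section

open scoped Classical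

namespace Pool.Agent.FRN

open Pool.Agent.FRM Pool.Agent.FRM.GG

variable {r n : ℕ}

/-- the graph of the matrix `[I | M]` -/
def upG (Γ : GG (Fin r) (Fin n) XG) (S : Finset (Fin n)) : GG (Fin r) (Fin r ⊕ Fin n) XG :=
  ⟨S.map ⟨Sum.inr, Sum.inr_injective⟩, Sum.elim id Γ.s, Sum.elim id Γ.t, Sum.elim (fun _ => 0) Γ.g⟩

def upT (τ : Fin n → Hqˣ) : Fin r ⊕ Fin n → Hqˣ := Sum.elim (fun _ => 1) τ

def up (l : List (Da (Fin n))) : List (Da (Fin r ⊕ Fin n)) := l.map fun d => (Sum.inr d.1, d.2)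

theorem hl_up (τ : Fin n → Hqˣ) (l : List (Da (Fin n))) : hl (upT (r := r) τ) (up l) = hl τ l := by
  unfold hl up
  rw [List.map_map]
  rfl

theorem gn_up (Γ : GG (Fin r) (Fin n) XG) (S : Finset (Fin n)) (l : List (Da (Fin n))) :
    (upG Γ S).gn (up l) = Γ.gn l := by
  unfold gn up
  rw [List.map_map]
  rfl

theorem vs_up (Γ : GG (Fin r) (Fin n) XG) (S : Finset (Fin n)) (x : Fin r) (l : List (Da (Fin n))) :
    (upG Γ S).vs x (up l) = Γ.vs x l := by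
  unfold vs up
  rw [List.map_map]
  rfl

private theorem En2_mem (Γ : GG (Fin r) (Fin n) XG) (S : Finset (Fin n)) {e : Fin r ⊕ Fin n} :
    e ∈ (upG Γ S).A ↔ ∃ f ∈ S, Sum.inr f = e := by
  show e ∈ S.map ⟨Sum.inr, Sum.inr_injective⟩ ↔ _
  rw [Finset.mem_map]
  rfl

private theorem En2_mem' (Γ : GG (Fin r) (Fin n) XG) (S : Finset (Fin n)) {f : Fin n} (h : f ∈ S) :
    (Sum.inr f : Fin r ⊕ Fin n) ∈ (upG Γ S).A := (En2_mem Γ S).mpr ⟨f, h, rfl⟩

private theorem En2_wk (Γ : GG (Fin r) (Fin n) XG) (S : Finset (Fin n)) {y : Fin r} :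
    ∀ (l : List (Da (Fin n))) (x : Fin r), (Γ.on S).Wk x l y → (upG Γ S).Wk x (up l) y
  | [], _, h => h
  | _ :: l, _, h => ⟨En2_mem' Γ S h.1, h.2.1, En2_wk Γ S l _ h.2.2⟩

private theorem En2_wk' (Γ : GG (Fin r) (Fin n) XG) (S : Finset (Fin n)) {y : Fin r} :
    ∀ (l : List (Da (Fin r ⊕ Fin n))) (x : Fin r), (upG Γ S).Wk x l y → ∃ l', l = up l' ∧ (Γ.on S).Wk x l' y
  | [], _, h => ⟨[], rfl, h⟩
  | (e, b) :: l, x, h => by
    obtain ⟨f, hf, rfl⟩ := (En2_mem Γ S).mp h.1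
    obtain ⟨l', rfl, hl'⟩ := En2_wk' Γ S l _ h.2.2
    exact ⟨(f, b) :: l', rfl, hf, h.2.1, hl'⟩

theorem wk_up (Γ : GG (Fin r) (Fin n) XG) (S : Finset (Fin n)) {x y : Fin r} {l : List (Da (Fin r ⊕ Fin n))} :
    (upG Γ S).Wk x l y ↔ ∃ l', l = up l' ∧ (Γ.on S).Wk x l' y := by
  constructor
  · exact En2_wk' Γ S l x
  · rintro ⟨l', rfl, h⟩
    exact En2_wk Γ S l' x h

theorem cy_up (Γ : GG (Fin r) (Fin n) XG) (S : Finset (Fin n)) {x y : Fin r} {P P' : List (Da (Fin r ⊕ Fin n))} :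
    (upG Γ S).Cy x y P P' ↔ ∃ R R', P = up R ∧ P' = up R' ∧ (Γ.on S).Cy x y R R' := by
  constructor
  · intro h
    obtain ⟨R, rfl, hR⟩ := (wk_up Γ S).mp h.p.1
    obtain ⟨R', rfl, hR'⟩ := (wk_up Γ S).mp h.p'.1
    have h1 := h.p.2
    have h2 := h.p'.2
    have h3 := h.dj
    rw [vs_up] at h1 h2
    rw [vs_up, vs_up] at h3
    exact ⟨R, R', rfl, rfl, ⟨h.ne, ⟨hR, h1⟩, ⟨hR', h2⟩, h3⟩⟩
  · rintro ⟨R, R', rfl, rfl, h⟩
    refine ⟨h.ne, ⟨(wk_up Γ S).mpr ⟨R, rfl, h.p.1⟩, ?_⟩, ⟨(wk_up Γ S).mpr ⟨R', rfl, h.p'.1⟩, ?_⟩, ?_⟩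
    · rw [vs_up]
      exact h.p.2
    · rw [vs_up]
      exact h.p'.2
    · rw [vs_up, vs_up]
      exact h.dj

theorem up_good (Γ : GG (Fin r) (Fin n) XG) (S : Finset (Fin n)) (τ : Fin n → Hqˣ) :
    Good (upG Γ S) (upT τ) ↔ Good (Γ.on S) τ := by
  constructor
  · intro h
    refine ⟨fun e he => h.hu (Sum.inr e) (En2_mem' Γ S he), fun x y P P' hC hg => ?_, fun x y P P' hC hg => ?_⟩
    · have h1 := h.bal x y (up P) (up P') ((cy_up Γ S).mpr ⟨P, P', rfl, rfl, hC⟩)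
      rw [gn_up, gn_up, hl_up, hl_up] at h1
      exact h1 hg
    · have h1 := h.unb x y (up P) (up P') ((cy_up Γ S).mpr ⟨P, P', rfl, rfl, hC⟩)
      rw [gn_up, gn_up, hl_up, hl_up] at h1
      exact h1 hg
  · intro h
    refine ⟨fun e he => ?_, fun x y P P' hC hg => ?_, fun x y P P' hC hg => ?_⟩
    · obtain ⟨f, hf, rfl⟩ := (En2_mem Γ S).mp he
      exact h.hu f hf
    · obtain ⟨R, R', rfl, rfl, hR⟩ := (cy_up Γ S).mp hC
      rw [gn_up, gn_up] at hg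
      rw [hl_up, hl_up]
      exact h.bal x y R R' hR hg
    · obtain ⟨R, R', rfl, rfl, hR⟩ := (cy_up Γ S).mp hC
      rw [gn_up, gn_up] at hg
      rw [hl_up, hl_up]
      exact h.unb x y R R' hR hg

private theorem En2_inl (Γ : GG (Fin r) (Fin n) XG) (S : Finset (Fin n)) (τ : Fin n → Hqˣ) (i i' : Fin r) :
    Mp Γ S τ i (Sum.inl i') = if i = i' then 1 else 0 := rfl

private theorem En2_inr (Γ : GG (Fin r) (Fin n) XG) (S : Finset (Fin n)) (τ : Fin n → Hqˣ) (i : Fin r) (j : Fin n) :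
    Mp Γ S τ i (Sum.inr j) =
      if j ∈ S then (if i = Γ.s j then -(τ j : Hq) else if i = Γ.t j then 1 else 0) else 0 := rfl

theorem mp_frw {Γ : GG (Fin r) (Fin n) XG} {S : Finset (Fin n)} (lf : ∀ e ∈ S, Γ.s e ≠ Γ.t e) {τ : Fin n → Hqˣ}
    (hτ : ∀ e ∈ S, HU (τ e : Hq)) : FrW (upG Γ S) (Mp Γ S τ) (upT τ) := by
  refine ⟨?_, ?_, ?_, ?_, ?_, ?_, ?_⟩
  · rintro i (i' | j) h
    · rw [En2_inl] at h ⊢
      split_ifs at h ⊢ with h1
      · exact map_one _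
      · exact absurd rfl h
    · rw [En2_inr] at h ⊢
      split_ifs at h ⊢ with h1 h2 h3
      · rw [Quaternion.normSq_neg]
        exact (hτ j h1).1
      · exact map_one _
      · exact absurd rfl h
      · exact absurd rfl h
  · intro j hj
    obtain ⟨e, he, rfl⟩ := (En2_mem Γ S).mp hj
    exact lf e he
  · intro j hj
    obtain ⟨e, he, rfl⟩ := (En2_mem Γ S).mp hj
    show Mp Γ S τ (Γ.s e) (Sum.inr e) ≠ 0
    rw [En2_inr, if_pos he, if_pos rfl]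
    exact neg_ne_zero.mpr (τ e).ne_zero
  · intro j hj
    obtain ⟨e, he, rfl⟩ := (En2_mem Γ S).mp hj
    show Mp Γ S τ (Γ.t e) (Sum.inr e) ≠ 0
    rw [En2_inr, if_pos he, if_neg (lf e he).symm, if_pos rfl]
    exact one_ne_zero
  · intro j hj i h1 h2
    obtain ⟨e, he, rfl⟩ := (En2_mem Γ S).mp hj
    have h1' : i ≠ Γ.s e := h1
    have h2' : i ≠ Γ.t e := h2
    rw [En2_inr, if_pos he, if_neg h1', if_neg h2']
  · intro j hj
    obtain ⟨e, he, rfl⟩ := (En2_mem Γ S).mp hj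
    show Mp Γ S τ (Γ.s e) (Sum.inr e) = -((τ e : Hq) * Mp Γ S τ (Γ.t e) (Sum.inr e))
    rw [En2_inr, En2_inr, if_pos he, if_pos he, if_pos rfl, if_neg (lf e he).symm, if_pos rfl, mul_one]
  · rintro (i' | j) hj i i₂ h1 h2
    · rw [En2_inl] at h1 h2
      split_ifs at h1 h2 with h3 h4
      · rw [h3, h4]
      · exact absurd rfl h2
      · exact absurd rfl h1
      · exact absurd rfl h1
    · exfalso
      rw [En2_inr, if_neg fun h => hj (En2_mem' Γ S h)] at h1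
      exact h1 rfl

theorem mp_zero {Γ : GG (Fin r) (Fin n) XG} {S : Finset (Fin n)} {σ τ : Fin n → Hqˣ} (i : Fin r) (j : Fin r ⊕ Fin n) :
    Mp Γ S σ i j = 0 ↔ Mp Γ S τ i j = 0 := by
  rcases j with i' | j
  · rw [En2_inl, En2_inl]
  · rw [En2_inr, En2_inr]
    split_ifs
    · exact ⟨fun h => absurd h (neg_ne_zero.mpr (σ j).ne_zero), fun h => absurd h (neg_ne_zero.mpr (τ j).ne_zero)⟩
    · exact Iff.rfl
    · exact Iff.rfl
    · exact Iff.rfl

end Pool.Agent.FRN
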