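import Pool.Agent.FRN.Defs
import Pool.Agent.FRM.Tr1
import Pool.Agent.FRM.Tr2
import Pool.Agent.FRM.Tr3
import Pool.Agent.FRM.FUf

/-!
# FRN/Ep: the three types of 2-connected graphs; ears

Balanced graphs; graphs with cyclic gains, described by an unbalanced cycle; graphs with a contrabalanced theta.  In all cases the ears of
the 2-connected subgraphs which contain the given cycle or theta have the gain of a path with the same ends.
-/

set_option autoImplicit false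

noncomputable section

open scoped Classical

namespace Pool.Agent.FRN

open Pool.Agent.FRM Pool.Agent.FRM.GG

variable {V E Q : Type} [AddCommGroup Q] {Γ : GG V E Q}


theorem bal_same (hI : Γ.InS ⊥) (B₀ : Finset E) : ESame Γ B₀ := by
  obtain ⟨p, hp⟩ := hI
  intro B' _ hB' h2 a b l he
  obtain ⟨R, hR⟩ := C2_pt h2 he.ha he.hb
  refine ⟨R, hR, ?_⟩
  have h1 := (pt_on hB').1 hR
  have h3 := gn_pot ⊥ p h1.1.1 fun d hd => hp d.1 (hB' (h1.2 d hd))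
  have h4 := gn_pot ⊥ p he.pt.1 fun d hd => hp d.1 (wk_mem he.pt.1 d hd).1
  rw [AddSubgroup.mem_bot] at h3 h4
  have h5 : Γ.gn R - Γ.gn l = (Γ.gn R + p a - p b) - (Γ.gn l + p a - p b) := by abel
  rw [h3, h4, sub_zero] at h5
  exact sub_eq_zero.1 h5

/-- `Sp` holds for all 2-connected subgraphs which contain a subgraph with `Sp` -/
theorem sp_all {B₀ B' : Finset E} (h0 : B₀ ⊆ B') (hB : B' ⊆ Γ.A) (h2 : (Γ.on B₀).C2) (h2' : (Γ.on B').C2) {T : Set Q}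
    (hS : (Γ.on B₀).Sp T) : (Γ.on B').Sp T := by
  have _ := hB
  exact ear_induction (Γ := Γ.on B') h2' (B := B₀) h0 h2 (fun B => (Γ.on B).Sp T) hS
    fun _ _ _ _ _ hB1 h3 hF he => sp_ear (Γ := Γ.on B') hB1 h3 he hF

/-- cyclic gains: an ear of a subgraph which contains an unbalanced cycle -/
private theorem Ep_cyc {V E : Type} {Γ : GG V E XG} (hΦ : Γ.Phi (FU : Set XG)) {g : XG} (hg : g ∈ FU) (p : V → XG)
    (hp : ∀ e ∈ Γ.A, Γ.g e + p (Γ.s e) - p (Γ.t e) ∈ AddSubgroup.zmultiples g) {B' : Finset E} (hB' : B' ⊆ Γ.A)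
    (hS : (Γ.on B').Sp {0, g}) {a b : V} {l : List (Da E)} (he : Γ.Ear B' a b l) :
    ∃ R, (Γ.on B').Pt a R b ∧ Γ.gn R = Γ.gn l := by
  obtain ⟨R, R', hR, hR', hRR⟩ : ∃ R R', (Γ.on B').Pt a R b ∧ (Γ.on B').Pt a R' b ∧ Γ.gn R' = Γ.gn R + g := by
    obtain ⟨q, hq | hq⟩ := hS a he.ha b he.hb he.ne
    · obtain ⟨R, hR, hRg⟩ := hq 0 (by simp)
      obtain ⟨R', hR', hRg'⟩ := hq g (by simp)
      refine ⟨R, R', hR, hR', ?_⟩
      have e1 : Γ.gn R = q + 0 := hRg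
      have e2 : Γ.gn R' = q + g := hRg'
      rw [e1, e2, add_zero]
    · obtain ⟨R, hR, hRg⟩ := hq 0 (by simp)
      obtain ⟨R', hR', hRg'⟩ := hq g (by simp)
      refine ⟨R', R, hR', hR, ?_⟩
      have e1 : Γ.gn R = q - 0 := hRg
      have e2 : Γ.gn R' = q - g := hRg'
      rw [e1, e2, sub_zero, sub_add_cancel]
  have h1 := (pt_on hB').1 hR
  have h3 := gn_pot _ p h1.1.1 fun d hd => hp d.1 (hB' (h1.2 d hd))
  have h4 := gn_pot _ p he.pt.1 fun d hd => hp d.1 (wk_mem he.pt.1 d hd).1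
  have h5 := sub_mem h4 h3
  have h6 : Γ.gn l + p a - p b - (Γ.gn R + p a - p b) = Γ.gn l - Γ.gn R := by abel
  rw [h6, AddSubgroup.mem_zmultiples_iff] at h5
  obtain ⟨m, hm⟩ := h5
  have hd1 : m • g = 0 ∨ m • g ∈ FU := by
    rw [hm]
    exact hΦ a b l R (ear_cy hB' he hR)
  rcases FU_mult hg hd1 with h7 | h7 | h7
  · refine ⟨R, hR, ?_⟩
    rw [h7, zero_smul] at hm
    exact (sub_eq_zero.1 hm.symm).symm
  · refine ⟨R', hR', ?_⟩
    rw [h7, one_smul] at hm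
    rw [hRR, hm]
    abel
  · exfalso
    have hd2 : (-2 : ℤ) • g = 0 ∨ (-2 : ℤ) • g ∈ FU := by
      have h8 : (-2 : ℤ) • g = Γ.gn l - Γ.gn R' := by
        have h9 : Γ.gn l - Γ.gn R' = (Γ.gn l - Γ.gn R) - g := by
          rw [hRR]
          abel
        rw [h9, ← hm, h7]
        have h10 : (-2 : ℤ) • g = ((-1 : ℤ) + (-1)) • g := by norm_num
        rw [h10, add_smul, neg_one_smul, sub_eq_add_neg]
      rw [h8]
      exact hΦ a b l R' (ear_cy hB' he hR')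
    rcases FU_mult hg hd2 with h8 | h8 | h8 <;> omega

theorem ear_types {V E : Type} {Γ : GG V E XG} (hΓ : Γ.C2) (hΦ : Γ.Phi (FU : Set XG)) :
    Γ.InS ⊥ ∨ (∃ x y P P', Γ.Cy x y P P' ∧ Γ.gn P ≠ Γ.gn P' ∧ ESame Γ (eds P ∪ eds P')) ∨
      ∃ u w X Y Z, Γ.Th u w X Y Z ∧ Γ.gn X ≠ Γ.gn Y ∧ Γ.gn Y ≠ Γ.gn Z ∧ Γ.gn X ≠ Γ.gn Z ∧
        ESame Γ (eds X ∪ eds Y ∪ eds Z) := by
  rcases bal_or hΓ with h | ⟨x, y, P, P', hcy, hne⟩
  · exact Or.inl h
  rcases cyc_or_theta hΓ fund_FU hΦ hcy hne with ⟨g, hg, ⟨p, hp⟩, _⟩ | ⟨u, w, X, Y, Z, hT, h1, h2, h3⟩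
  · refine Or.inr (Or.inl ⟨x, y, P, P', hcy, hne, ?_⟩)
    have hg' : Γ.gn P - Γ.gn P' ∈ FU := by
      rcases hΦ x y P P' hcy with h4 | h4
      · exact absurd (sub_eq_zero.1 h4) hne
      · exact h4
    have h3 := gn_pot _ p hcy.p.1 fun d hd => hp d.1 (wk_mem hcy.p.1 d hd).1
    have h4 := gn_pot _ p hcy.p'.1 fun d hd => hp d.1 (wk_mem hcy.p'.1 d hd).1
    have h5 := sub_mem h3 h4
    have h6 : Γ.gn P + p x - p y - (Γ.gn P' + p x - p y) = Γ.gn P - Γ.gn P' := by abel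
    rw [h6, AddSubgroup.mem_zmultiples_iff] at h5
    obtain ⟨m, hm⟩ := h5
    have hz : AddSubgroup.zmultiples (Γ.gn P - Γ.gn P') = AddSubgroup.zmultiples g := by
      rcases FU_mult hg (m := m) (Or.inr (by rw [hm]; exact hg')) with h7 | h7 | h7
      · exfalso
        rw [h7, zero_smul] at hm
        exact hne (sub_eq_zero.1 hm.symm)
      · rw [← hm, h7, one_smul]
      · rw [← hm, h7, neg_one_smul, AddSubgroup.zmultiples_neg]
    have hp' : ∀ e ∈ Γ.A, Γ.g e + p (Γ.s e) - p (Γ.t e) ∈ AddSubgroup.zmultiples (Γ.gn P - Γ.gn P') := by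
      rw [hz]
      exact hp
    intro B' hB0 hB' h2' a b l he
    exact Ep_cyc hΦ hg' p hp' hB' (sp_all hB0 hB' (cycle_C2 hcy) h2' (cycle_sp hcy)) he
  · refine Or.inr (Or.inr ⟨u, w, X, Y, Z, hT, h1, h2, h3, ?_⟩)
    obtain ⟨ha, hb, hc, -, -⟩ := theta_all hΓ fund_FU hΦ hT h1 h2 h3
    intro B' hB0 hB' h2' a b l he
    have hab : Γ.gn Y - Γ.gn X - (Γ.gn Z - Γ.gn X) ∈ (FU : Set XG) := by
      have h4 : Γ.gn Y - Γ.gn X - (Γ.gn Z - Γ.gn X) = Γ.gn Y - Γ.gn Z := by abel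
      rw [h4]
      exact hc
    exact ear_gain fund_FU hΦ hB' ha hb hab (sp_all hB0 hB' (theta_C2 hT) h2' (theta_sp hT)) he

end Pool.Agent.FRN
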