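import Pool.Agent.FRN.DefL
import Pool.Agent.FRM.Qdt

/-!
# FRN/Rl: real and complex determinants

The block number `c` is the real `4 × 4` matrix of twice the quaternion `bq c` (finite check in integers).  So `Rm K` is, up to reindexing, twice the
realification `Rl_re` of `chi (K.map bq)`; the determinant of the realification of `Z` is `normSq (det Z)` by `Matrix.det_det`.
-/

set_option autoImplicit false

noncomputable section

open scoped Classical Matrix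

namespace Pool.Agent.FRN

open Pool.Agent.FRM Pool.Agent.FRM.GG Pool.Agent.BEO Pool.Agent.PQE

variable {r : ℕ}

/-- the real `2 × 2` matrix of a complex number -/
private def Rl_rho : ℂ →+* Matrix (Fin 2) (Fin 2) ℝ where
  toFun z := !![z.re, -z.im; z.im, z.re]
  map_zero' := by
    ext i j
    fin_cases i <;> fin_cases j <;> simp
  map_one' := by
    ext i j
    fin_cases i <;> fin_cases j <;> simp
  map_add' z w := by
    ext i j
    fin_cases i <;> fin_cases j <;> simp <;> ring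
  map_mul' z w := by
    ext i j
    fin_cases i <;> fin_cases j <;> simp [Matrix.mul_apply, Fin.sum_univ_two] <;> ring

private theorem Rl_rho_det (z : ℂ) : (Rl_rho z).det = Complex.normSq z := by
  show (!![z.re, -z.im; z.im, z.re] : Matrix (Fin 2) (Fin 2) ℝ).det = Complex.normSq z
  rw [Matrix.det_fin_two, Complex.normSq_apply]
  simp

private theorem Rl_rho_conj (z : ℂ) : Rl_rho (star z) = (Rl_rho z)ᵀ := by
  show (!![(star z).re, -(star z).im; (star z).im, (star z).re] : Matrix (Fin 2) (Fin 2) ℝ) =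
    (!![z.re, -z.im; z.im, z.re] : Matrix (Fin 2) (Fin 2) ℝ)ᵀ
  ext i j
  fin_cases i <;> fin_cases j <;> simp

/-- the realification of a complex matrix -/
private def Rl_re {R C : Type} (Z : Matrix R C ℂ) : Matrix (R × Fin 2) (C × Fin 2) ℝ :=
  fun i j => Rl_rho (Z i.1 j.1) i.2 j.2

private theorem Rl_re_det {R : Type} [Fintype R] [DecidableEq R] (Z : Matrix R R ℂ) :
    (Rl_re Z).det = Complex.normSq Z.det := by
  rw [← Rl_rho_det, Matrix.det_det]
  rfl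

private theorem Rl_re_mul {R C D : Type} [Fintype C] (Z : Matrix R C ℂ) (W : Matrix C D ℂ) :
    Rl_re (Z * W) = Rl_re Z * Rl_re W := by
  ext ⟨i, a⟩ ⟨j, b⟩
  show Rl_rho ((Z * W) i j) a b = ∑ k : C × Fin 2, Rl_rho (Z i k.1) a k.2 * Rl_rho (W k.1 j) k.2 b
  rw [Fintype.sum_prod_type, Matrix.mul_apply, map_sum, Matrix.sum_apply]
  refine Finset.sum_congr rfl fun k _ => ?_
  rw [map_mul, Matrix.mul_apply]

private theorem Rl_re_star {R C : Type} (Z : Matrix R C ℂ) : Rl_re Zᴴ = (Rl_re Z)ᵀ := by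
  ext ⟨i, a⟩ ⟨j, b⟩
  show Rl_rho (star (Z j i)) a b = Rl_rho (Z j i) b a
  rw [Rl_rho_conj]
  rfl

/-- the integer matrix of a quaternion with the doubled coordinates `z` -/
private def Rl_W (z : ℤ × ℤ × ℤ × ℤ) : Fin 4 → Fin 4 → ℤ :=
  ![![z.1, -z.2.1, z.2.2.1, -z.2.2.2], ![z.2.1, z.1, z.2.2.2, z.2.2.1], ![-z.2.2.1, -z.2.2.2, z.1, z.2.1],
    ![z.2.2.2, -z.2.2.1, -z.2.1, z.1]]

/-- the doubled coordinates of `bq c` -/
private def Rl_d (c : ℕ) : ℤ × ℤ × ℤ × ℤ := if c = 0 then (0, 0, 0, 0) else if c = 1 then (2, 0, 0, 0) else -qd (c - 2)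

private theorem Rl_tab : ∀ c < 26, ∀ a b : Fin 4, zv ((blk c a.val).getD b.val 0) = Rl_W (Rl_d c) a b := by
  decide

private theorem Rl_bq (c : ℕ) : bq c = ⟨(Rl_d c).1 / 2, (Rl_d c).2.1 / 2, (Rl_d c).2.2.1 / 2, (Rl_d c).2.2.2 / 2⟩ := by
  unfold bq Rl_d
  split_ifs with h1 h2
  · refine Quaternion.ext _ _ ?_ ?_ ?_ ?_
    · show (0 : ℚ) = ((0 : ℤ) : ℚ) / 2
      norm_num
    · show (0 : ℚ) = ((0 : ℤ) : ℚ) / 2
      norm_num
    · show (0 : ℚ) = ((0 : ℤ) : ℚ) / 2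
      norm_num
    · show (0 : ℚ) = ((0 : ℤ) : ℚ) / 2
      norm_num
  · refine Quaternion.ext _ _ ?_ ?_ ?_ ?_
    · show (1 : ℚ) = ((2 : ℤ) : ℚ) / 2
      norm_num
    · show (0 : ℚ) = ((0 : ℤ) : ℚ) / 2
      norm_num
    · show (0 : ℚ) = ((0 : ℤ) : ℚ) / 2
      norm_num
    · show (0 : ℚ) = ((0 : ℤ) : ℚ) / 2
      norm_num
  · refine Quaternion.ext _ _ ?_ ?_ ?_ ?_
    · show -(((qd (c - 2)).1 : ℚ) / 2) = ((-(qd (c - 2)).1 : ℤ) : ℚ) / 2
      push_cast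
      ring
    · show -(((qd (c - 2)).2.1 : ℚ) / 2) = ((-(qd (c - 2)).2.1 : ℤ) : ℚ) / 2
      push_cast
      ring
    · show -(((qd (c - 2)).2.2.1 : ℚ) / 2) = ((-(qd (c - 2)).2.2.1 : ℤ) : ℚ) / 2
      push_cast
      ring
    · show -(((qd (c - 2)).2.2.2 : ℚ) / 2) = ((-(qd (c - 2)).2.2.2 : ℤ) : ℚ) / 2
      push_cast
      ring

/-- the two digits of an index of a real `4 × 4` matrix -/
private def Rl_e : Fin 4 ≃ Fin 2 × Fin 2 := (finProdFinEquiv (m := 2) (n := 2)).symm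

private theorem Rl_cq (x y z w : ℤ) (a b : Fin 4) :
    ((Rl_W (x, y, z, w) a b : ℤ) : ℝ) =
      2 * Rl_rho (cq ⟨x / 2, y / 2, z / 2, w / 2⟩ (Rl_e a).1 (Rl_e b).1) (Rl_e a).2 (Rl_e b).2 := by
  have e0 : Rl_e 0 = (0, 0) := by decide
  have e1 : Rl_e 1 = (0, 1) := by decide
  have e2 : Rl_e 2 = (1, 0) := by decide
  have e3 : Rl_e 3 = (1, 1) := by decide
  have hr : ∀ t : ℂ, Rl_rho t = !![t.re, -t.im; t.im, t.re] := fun t => rfl
  fin_cases a <;> fin_cases b <;> simp [Rl_W, e0, e1, e2, e3, hr, cq] <;> ring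

private theorem Rl_blk {c : ℕ} (hc : c < 26) (a b : Fin 4) :
    ((zv ((blk c a.val).getD b.val 0) : ℤ) : ℝ) = 2 * Rl_rho (cq (bq c) (Rl_e a).1 (Rl_e b).1) (Rl_e a).2 (Rl_e b).2 := by
  rw [Rl_tab c hc a b, Rl_bq c]
  exact Rl_cq _ _ _ _ a b

/-- the reindexing -/
private def Rl_f (R : Type) : R × Fin 4 ≃ (R × Fin 2) × Fin 2 :=
  (Equiv.prodCongr (Equiv.refl R) Rl_e).trans (Equiv.prodAssoc R (Fin 2) (Fin 2)).symm

private theorem Rl_Rm {C : Type} (K : Matrix (Fin r) C ℕ) (hK : ∀ i c, K i c < 26) :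
    (Rm K).map (Int.cast : ℤ → ℝ) = (2 : ℝ) • (Rl_re (chi (K.map bq))).submatrix (Rl_f (Fin r)) (Rl_f C) := by
  ext ⟨i, a⟩ ⟨j, b⟩
  exact Rl_blk (hK i j) a b

theorem real_det {C : Type} [Fintype C] (K : Matrix (Fin r) C ℕ) (hK : ∀ i c, K i c < 26) :
    ((((Rm K) * (Rm K)ᵀ).det : ℤ) : ℝ) = 256 ^ r * Complex.normSq ((chi (K.map bq) * (chi (K.map bq))ᴴ).det) := by
  have h1 : (((Rm K) * (Rm K)ᵀ).det : ℝ) = (((Rm K).map (Int.cast : ℤ → ℝ)) * ((Rm K).map (Int.cast : ℤ → ℝ))ᵀ).det := by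
    have h2 := (Int.castRingHom ℝ).map_det ((Rm K) * (Rm K)ᵀ)
    rw [RingHom.mapMatrix_apply, Matrix.map_mul, Matrix.transpose_map] at h2
    exact h2
  rw [h1, Rl_Rm K hK, Matrix.transpose_smul, Matrix.transpose_submatrix, Matrix.smul_mul, Matrix.mul_smul,
    Matrix.submatrix_mul_equiv, ← Rl_re_star, ← Rl_re_mul, smul_smul, Matrix.det_smul, Matrix.det_submatrix_equiv_self,
    Rl_re_det]
  congr 1
  rw [Fintype.card_prod, Fintype.card_fin, Fintype.card_fin, mul_comm r 4, pow_mul]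
  norm_num

end Pool.Agent.FRN
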