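import Pool.Agent.FRN.DefL
import Pool.Agent.FRN.Cl

/-!
# FRN/Ps: parsing the input

The list `nzr (mx C) j` is the increasing list of the rows of the nonzero entries of the column `j`; the lists `eds'` and `hfs` of the edges and of
the columns with one nonzero entry are computed from it.
-/

set_option autoImplicit false

noncomputable section

open scoped Classical

namespace Pool.Agent.FRN

open Pool.Agent.FRM Pool.Agent.FRM.GG Pool.Agent.BEO Pool.Agent.PQE

variable {r n : ℕ}

theorem wn_mx (C : Matrix (Fin r) (Fin n) Ent) : wn (mx C) = List.range r := by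
  simp [wn, mx]

private theorem Ps_cs (hr : 0 < r) (C : Matrix (Fin r) (Fin n) Ent) : cs (mx C) = List.range n := by
  obtain ⟨s, rfl⟩ : ∃ s, r = s + 1 := ⟨r - 1, by omega⟩
  simp [cs, mx, List.ofFn_succ]

private theorem Ps_ent (C : Matrix (Fin r) (Fin n) Ent) (i : Fin r) (j : Fin n) : ent (mx C) i.val j.val = C i j := by
  simp [ent, mx, List.getD_eq_getElem?_getD]

/-- the increasing list of the rows of the nonzero entries -/
private def Ps_L (C : Matrix (Fin r) (Fin n) Ent) (j : Fin n) : List (Fin r) :=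
  (List.finRange r).filter fun i => (C i j).1

private def Ps_N (C : Matrix (Fin r) (Fin n) Ent) (j : Fin n) : Finset (Fin r) :=
  Finset.univ.filter fun i => (C i j).1 = true

private theorem Ps_nzr (C : Matrix (Fin r) (Fin n) Ent) (j : Fin n) :
    nzr (mx C) j.val = (Ps_L C j).map Fin.val := by
  unfold nzr Ps_L
  rw [wn_mx, ← List.map_coe_finRange_eq_range, List.filter_map]
  congr 1
  apply List.filter_congr
  intro i _
  simp only [Function.comp_apply]
  rw [Ps_ent]

private theorem Ps_mem (C : Matrix (Fin r) (Fin n) Ent) (j : Fin n) (i : Fin r) : i ∈ Ps_L C j ↔ i ∈ Ps_N C j := by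
  simp [Ps_L, Ps_N]

private theorem Ps_nodup (C : Matrix (Fin r) (Fin n) Ent) (j : Fin n) : (Ps_L C j).Nodup :=
  (List.nodup_finRange r).filter _

private theorem Ps_len (C : Matrix (Fin r) (Fin n) Ent) (j : Fin n) : (Ps_L C j).length = (Ps_N C j).card := by
  rw [← List.toFinset_card_of_nodup (Ps_nodup C j)]
  congr 1
  ext i
  rw [List.mem_toFinset, Ps_mem]

private theorem Ps_sorted (C : Matrix (Fin r) (Fin n) Ent) (j : Fin n) : (Ps_L C j).Pairwise (· < ·) :=
  (List.pairwise_lt_finRange r).filter _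

private theorem Ps_two {C : Matrix (Fin r) (Fin n) Ent} {j : Fin n} (h : (Ps_N C j).card = 2) :
    ∃ a b : Fin r, a < b ∧ Ps_L C j = [a, b] ∧ Ps_N C j = {a, b} := by
  rw [← Ps_len] at h
  obtain ⟨a, b, hab⟩ := List.length_eq_two.1 h
  have h1 := Ps_sorted C j
  rw [hab] at h1
  refine ⟨a, b, ?_, hab, ?_⟩
  · simpa using h1
  · ext i
    rw [← Ps_mem, hab]
    simp

private theorem Ps_one {C : Matrix (Fin r) (Fin n) Ent} {j : Fin n} (h : (Ps_N C j).card = 1) :
    ∃ a : Fin r, Ps_L C j = [a] ∧ Ps_N C j = {a} := by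
  rw [← Ps_len] at h
  obtain ⟨a, ha⟩ := List.length_eq_one_iff.1 h
  refine ⟨a, ha, ?_⟩
  ext i
  rw [← Ps_mem, ha]
  simp

private theorem Ps_A (hr : 0 < r) (C : Matrix (Fin r) (Fin n) Ent) (j : Fin n) :
    j ∈ (gC hr C).A ↔ (Ps_N C j).card = 2 := by
  simp [gC, Ps_N]

private theorem Ps_min {s : Finset (Fin r)} {a b : Fin r} (hab : a < b) (hs : s = {a, b}) (h : s.Nonempty) : s.min' h = a := by
  subst hs
  apply le_antisymm
  · exact Finset.min'_le _ _ (by simp)
  · apply Finset.le_min'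
    intro y hy
    rw [Finset.mem_insert, Finset.mem_singleton] at hy
    rcases hy with rfl | rfl
    · exact le_refl _
    · exact hab.le

private theorem Ps_max {s : Finset (Fin r)} {a b : Fin r} (hab : a < b) (hs : s = {a, b}) (h : s.Nonempty) : s.max' h = b := by
  subst hs
  apply le_antisymm
  · apply Finset.max'_le
    intro y hy
    rw [Finset.mem_insert, Finset.mem_singleton] at hy
    rcases hy with rfl | rfl
    · exact hab.le
    · exact le_refl _
  · exact Finset.le_max' _ _ (by simp)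

private theorem Ps_gC (hr : 0 < r) (C : Matrix (Fin r) (Fin n) Ent) {j : Fin n} {a b : Fin r} (hab : a < b)
    (hN : Ps_N C j = {a, b}) : (gC hr C).s j = a ∧ (gC hr C).t j = b ∧
      (gC hr C).g j = cx (C a j) - cx (C b j) + (0, 0, 0, 0, 0, 1) := by
  have hne : (Ps_N C j).Nonempty := by rw [hN]; simp
  have h1 : (Ps_N C j).min' hne = a := Ps_min hab hN hne
  have h2 : (Ps_N C j).max' hne = b := Ps_max hab hN hne
  unfold Ps_N at hne h1 h2
  refine ⟨?_, ?_, ?_⟩
  · simp only [gC]
    rw [dif_pos hne, h1]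
  · simp only [gC]
    rw [dif_pos hne, h2]
  · simp only [gC]
    rw [dif_pos hne, h1, h2]

private theorem Ps_m3 (z : ℤ) : ((m3 z : ℕ) : ZMod 3) = (z : ZMod 3) := by
  unfold m3
  have h1 : (((z % 3).toNat : ℕ) : ℤ) = z % 3 := Int.toNat_of_nonneg (Int.emod_nonneg _ (by norm_num))
  have h2 : (((z % 3).toNat : ℕ) : ZMod 3) = (((((z % 3).toNat : ℕ) : ℤ)) : ZMod 3) := (Int.cast_natCast _).symm
  rw [h2, h1]
  exact ZMod.intCast_mod z 3

private theorem Ps_lme (x : Ent) : ((lme' x : ℕ) : ZMod 3) = lm (cx x) := by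
  unfold lme' lm cx
  rw [ZMod.natCast_mod]
  push_cast
  rw [Ps_m3, Ps_m3, Ps_m3, Ps_m3]

private theorem Ps_val (x y : Ent) :
    (lme' x + 2 * lme' y) % 3 = (lm (cx x - cx y + (0, 0, 0, 0, 0, 1))).val := by
  have h1 : lm (cx x - cx y + (0, 0, 0, 0, 0, 1)) = (((lme' x + 2 * lme' y : ℕ)) : ZMod 3) := by
    rw [lm_add, lm_sub]
    push_cast
    rw [Ps_lme, Ps_lme]
    have h2 : lm ((0, 0, 0, 0, 0, 1) : XG) = 0 := by simp [lm]
    rw [h2, add_zero]
    have h3 : (2 : ZMod 3) = -1 := by decide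
    rw [h3]
    ring
  rw [h1, ZMod.val_natCast]

private theorem Ps_eds (hr : 0 < r) (C : Matrix (Fin r) (Fin n) Ent) :
    eds' (mx C) = (List.finRange n).flatMap fun j => if (Ps_N C j).card = 2 then [ed (gC hr C) j] else [] := by
  unfold eds'
  rw [Ps_cs hr, ← List.map_coe_finRange_eq_range, List.flatMap_map]
  congr 1
  funext j
  rw [Ps_nzr, List.length_map, Ps_len]
  by_cases h : (Ps_N C j).card = 2
  · obtain ⟨a, b, hab, hL, hN⟩ := Ps_two h
    obtain ⟨h1, h2, h3⟩ := Ps_gC hr C hab hN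
    rw [if_pos (by simpa using h), if_pos h, hL]
    have h4 : (List.map Fin.val [a, b]).getD 0 0 = a.val := by simp
    have h5 : (List.map Fin.val [a, b]).getD 1 0 = b.val := by simp
    rw [h4, h5, Ps_ent, Ps_ent, Ps_val]
    unfold ed
    rw [h1, h2, h3]
  · rw [if_neg (by simpa using h), if_neg h]

private theorem Ps_hfs (hr : 0 < r) (C : Matrix (Fin r) (Fin n) Ent) :
    hfs (mx C) = (List.finRange n).flatMap fun j =>
      if (Ps_N C j).card = 1 then [((Ps_L C j).map Fin.val).getD 0 0] else [] := by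
  unfold hfs
  rw [Ps_cs hr, ← List.map_coe_finRange_eq_range, List.flatMap_map]
  congr 1
  funext j
  rw [Ps_nzr, List.length_map, Ps_len]
  simp only [decide_eq_true_eq]

private theorem Ps_fm {α β : Type} (l : List α) (p : α → Prop) [DecidablePred p] (f : α → β) :
    (l.flatMap fun j => if p j then [f j] else []) = (l.filter fun j => decide (p j)).map f := by
  induction l with
  | nil => simp
  | cons a l ih =>
    rw [List.flatMap_cons, ih]
    by_cases h : p a
    · simp [h]
    · simp [h]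

theorem rep_eds (hr : 0 < r) (C : Matrix (Fin r) (Fin n) Ent) : RepE (gC hr C) (eds' (mx C)) (gC hr C).A := by
  rw [Ps_eds hr, Ps_fm]
  constructor
  · apply List.Nodup.map
    · intro j j' h
      exact Fin.ext (congrArg Prod.fst h)
    · exact (List.nodup_finRange n).filter _
  · intro e
    rw [List.mem_map]
    constructor
    · rintro ⟨j, hj, rfl⟩
      rw [List.mem_filter] at hj
      exact ⟨j, (Ps_A hr C j).2 (by simpa using hj.2), rfl⟩
    · rintro ⟨j, hj, rfl⟩
      refine ⟨j, ?_, rfl⟩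
      rw [List.mem_filter]
      exact ⟨List.mem_finRange j, by simpa using (Ps_A hr C j).1 hj⟩

theorem gC_lf (hr : 0 < r) (C : Matrix (Fin r) (Fin n) Ent) : ∀ e ∈ (gC hr C).A, (gC hr C).s e ≠ (gC hr C).t e := by
  intro e he
  obtain ⟨a, b, hab, _, hN⟩ := Ps_two ((Ps_A hr C e).1 he)
  obtain ⟨h1, h2, _⟩ := Ps_gC hr C hab hN
  rw [h1, h2]
  exact hab.ne

/-- sums over the list `hfs` are sums over the columns with exactly one nonzero entry -/
theorem hfs_sum (hr : 0 < r) (C : Matrix (Fin r) (Fin n) Ent) {M : Type} [AddCommMonoid M] (φ : ℕ → M) :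
    ((hfs (mx C)).map φ).sum =
      ∑ j ∈ Finset.univ.filter (fun j => (Finset.univ.filter fun i => (C i j).1 = true).card = 1),
        ∑ i ∈ Finset.univ.filter (fun i => (C i j).1 = true), φ i.val := by
  rw [Ps_hfs hr, List.map_flatMap, List.flatMap_def, List.sum_flatten, List.map_map, Finset.sum_filter, Fin.sum_univ_def]
  congr 1
  apply List.map_congr_left
  intro j _
  simp only [Function.comp_apply]
  by_cases h : (Ps_N C j).card = 1
  · obtain ⟨a, hL, hN⟩ := Ps_one h
    rw [if_pos h, hL]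
    unfold Ps_N at h hN
    rw [if_pos h, hN, Finset.sum_singleton]
    simp
  · rw [if_neg h]
    unfold Ps_N at h
    rw [if_neg h]
    simp

theorem hfs_lt (hr : 0 < r) (C : Matrix (Fin r) (Fin n) Ent) : ∀ z ∈ hfs (mx C), z < r := by
  intro z hz
  rw [Ps_hfs hr, Ps_fm, List.mem_map] at hz
  obtain ⟨j, hj, rfl⟩ := hz
  rw [List.mem_filter] at hj
  obtain ⟨a, hL, _⟩ := Ps_one (C := C) (j := j) (by simpa using hj.2)
  rw [hL]
  simp

end Pool.Agent.FRN
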