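import Pool.Agent.FRN.Ph
import Pool.Agent.FRN.Ps
import Pool.Agent.FRN.Gm
import Pool.Agent.FRM.Fmq
import Pool.Agent.FRM.Dfm
import Pool.Agent.FRM.Fin1

/-!
# FRN/Fm: the determinant at the end

The quaternionic matrix of a matrix of codes has the frame data of its gain graph, so the determinant of its complex
Gram matrix is the square of the number of bases. The matrix of the algorithm has the same nonzero columns.
-/

set_option autoImplicit false

noncomputable section

open scoped Classical Matrix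

namespace Pool.Agent.FRN

open Pool.Agent.FRM Pool.Agent.FRM.GG Pool.Agent.BEO Pool.Agent.PQE

variable {r n : ℕ}

/-- number of bases -/
def nB (A : Matrix (Fin r) (Fin n) KU) : ℕ := (Finset.univ.filter fun S => IsBas A S).card

private theorem Fm_vE (x : Ent) : vE x ≠ 0 ↔ x.1 = true := by
  unfold vE
  by_cases h : x.1 = true
  · rw [if_pos h]
    exact ⟨fun _ => h, fun _ => ev_ne_zero _⟩
  · rw [if_neg h]
    exact ⟨fun h2 => absurd rfl h2, fun h2 => absurd h2 h⟩

private theorem Fm_off (hr : 0 < r) (C : Matrix (Fin r) (Fin n) Ent) (τ : Fin n → Hqˣ) {i : Fin r} {j : Fin n}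
    (h : ¬ (C i j).1 = true) : mC hr C τ i j = 0 := by
  unfold mC
  rw [if_neg h]

private theorem Fm_src (hr : 0 < r) (C : Matrix (Fin r) (Fin n) Ent) (τ : Fin n → Hqˣ) {j : Fin n}
    (hj : j ∈ (gC hr C).A) (h : (C ((gC hr C).s j) j).1 = true) : mC hr C τ ((gC hr C).s j) j = -(τ j : Hq) := by
  unfold mC
  rw [if_pos h, if_pos ⟨hj, rfl⟩]

private theorem Fm_one (hr : 0 < r) (C : Matrix (Fin r) (Fin n) Ent) (τ : Fin n → Hqˣ) {i : Fin r} {j : Fin n}
    (h : (C i j).1 = true) (h2 : ¬ (j ∈ (gC hr C).A ∧ i = (gC hr C).s j)) : mC hr C τ i j = 1 := by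
  unfold mC
  rw [if_pos h, if_neg h2]

private theorem Fm_ne (hr : 0 < r) (C : Matrix (Fin r) (Fin n) Ent) (τ : Fin n → Hqˣ) {i : Fin r} {j : Fin n}
    (h : (C i j).1 = true) : mC hr C τ i j ≠ 0 := by
  by_cases h2 : j ∈ (gC hr C).A ∧ i = (gC hr C).s j
  · obtain ⟨h3, rfl⟩ := h2
    rw [Fm_src hr C τ h3 h]
    exact neg_ne_zero.2 (τ j).ne_zero
  · rw [Fm_one hr C τ h h2]
    exact one_ne_zero

theorem mC_frd (hr : 0 < r) (C : Matrix (Fin r) (Fin n) Ent) (hF : Frame (C.map vE)) {τ : Fin n → Hqˣ}
    (hτ : Good (gC hr C) τ) : FrD (gC hr C) (C.map vE) (mC hr C τ) τ := by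
  obtain ⟨h1, h2, h3, h4, h5⟩ := gC_rel hr C hF
  have hst := gC_lf hr C
  refine ⟨?_, ?_, hst, h1, h2, h3, h4, ?_, h5, hτ⟩
  · intro i j
    rw [Matrix.map_apply]
    by_cases h : (C i j).1 = true
    · exact ⟨fun h6 => absurd h6 ((Fm_vE _).2 h), fun h6 => absurd h6 (Fm_ne hr C τ h)⟩
    · exact ⟨fun _ => Fm_off hr C τ h, fun _ => by_contra fun h6 => h ((Fm_vE _).1 h6)⟩
  · intro i j hij
    have h : (C i j).1 = true := by
      by_contra h
      exact hij (Fm_off hr C τ h)
    by_cases h6 : j ∈ (gC hr C).A ∧ i = (gC hr C).s j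
    · obtain ⟨h7, rfl⟩ := h6
      rw [Fm_src hr C τ h7 h, Quaternion.normSq_neg]
      exact (hτ.hu j h7).1
    · rw [Fm_one hr C τ h h6, map_one]
  · intro j hj
    have h6 := (Fm_vE _).1 (h1 j hj)
    have h7 := (Fm_vE _).1 (h2 j hj)
    rw [Fm_src hr C τ hj h6, Fm_one hr C τ h7 (fun h8 => hst j hj h8.2.symm), mul_one]

theorem count (hr : 0 < r) (C : Matrix (Fin r) (Fin n) Ent) (hF : Frame (C.map vE)) {τ : Fin n → Hqˣ}
    (hτ : Good (gC hr C) τ) :
    (chi (mC hr C τ) * (chi (mC hr C τ))ᴴ).det = ((nB (C.map vE) : ℕ) : ℂ) ^ 2 := by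
  have hFr := mC_frd hr C hF hτ
  have h1 := det_formula (mC hr C τ) (w := fun _ => (1 : ℝ)) (fun _ => zero_le_one)
  have h2 : Matrix.diagonal (fun _ : Fin n × Fin 2 => ((1 : ℝ) : ℂ)) = 1 := by
    rw [Complex.ofReal_one]
    exact Matrix.diagonal_one
  rw [h2, Matrix.mul_one] at h1
  rw [h1]
  congr 1
  unfold nB
  rw [Finset.card_filter, Nat.cast_sum]
  refine Finset.sum_congr rfl fun S _ => ?_
  by_cases hS : S.card = r
  · rw [dif_pos hS, Finset.prod_const_one, Complex.ofReal_one, one_mul]
    obtain ⟨h3, h4⟩ := fmq hFr id (S.orderEmbOfFin hS) Function.injective_id (S.orderEmbOfFin hS).injective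
    by_cases hdet : ((C.map vE).submatrix id (S.orderEmbOfFin hS)).det = 0
    · rw [h4 hdet, if_neg, Nat.cast_zero]
      rintro ⟨hS', hne⟩
      exact hne hdet
    · rw [h3 hdet, if_pos, Nat.cast_one]
      exact ⟨hS, hdet⟩
  · rw [dif_neg hS, if_neg, Nat.cast_zero]
    rintro ⟨hS', -⟩
    exact hS hS'

private theorem Fm_look {asg : List (ℕ × ℕ)} {S : Finset (Fin n)} (hA : RepA asg S) (x : ℕ) : look asg x 0 < 24 := by
  by_cases h : ∃ y, (x, y) ∈ asg
  · exact hA.lt (x, look asg x 0) (look_mem asg x 0 h)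
  · have h2 : look asg x 0 = 0 := look_none asg x 0 fun y hy => h ⟨y, hy⟩
    rw [h2]
    norm_num

private theorem Fm_lt {asg : List (ℕ × ℕ)} {S : Finset (Fin n)} (hA : RepA asg S) (H : List ℕ) (L : List Ed)
    (z : Fin r) (c : Fin H.length ⊕ Fin L.length) : Kb r H L asg z c < 26 := by
  unfold Kb
  rcases c with c | c
  · show ulk (H.get c) z.val < 26
    unfold ulk
    split_ifs <;> norm_num
  · show clk asg (L.get c) z.val < 26
    unfold clk
    have h := Fm_look hA (L.get c).1
    split_ifs
    · omega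
    · norm_num
    · norm_num
    · norm_num

/-- the contribution of a column -/
private def Fm_F (a a' : Fin 2) (p q : Hq) : ℂ := ∑ b : Fin 2, cq p a b * star (cq q a' b)

private theorem Fm_F0 (a a' : Fin 2) (q : Hq) : Fm_F a a' 0 q = 0 := by
  unfold Fm_F
  refine Finset.sum_eq_zero fun b _ => ?_
  rw [cq_zero]
  show (0 : ℂ) * _ = 0
  rw [zero_mul]

private theorem Fm_mul {X : Type} [Fintype X] (M : Matrix (Fin r) X Hq) (i i' : Fin r) (a a' : Fin 2) :
    (chi M * (chi M)ᴴ) (i, a) (i', a') = ∑ j, Fm_F a a' (M i j) (M i' j) := by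
  rw [Matrix.mul_apply, Fintype.sum_prod_type]
  rfl

private theorem Fm_ulk {h z : ℕ} : bq (ulk h z) = if h = z then 1 else 0 := by
  unfold bq ulk
  by_cases hz : h = z
  · simp [hz]
  · simp [hz]

private theorem Fm_gram (hr : 0 < r) (C : Matrix (Fin r) (Fin n) Ent) (hF : Frame (C.map vE)) {asg : List (ℕ × ℕ)}
    (hA : RepA asg (gC hr C).A) :
    chi ((Kb r (hfs (mx C)) (eds' (mx C)) asg).map bq) * (chi ((Kb r (hfs (mx C)) (eds' (mx C)) asg).map bq))ᴴ =
      chi (mC hr C (asv asg)) * (chi (mC hr C (asv asg)))ᴴ := by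
  obtain ⟨h1, h2, h3, h4, h5⟩ := gC_rel hr C hF
  have hst := gC_lf hr C
  have hR := rep_eds hr C
  ext ⟨i, a⟩ ⟨i', a'⟩
  rw [Fm_mul, Fm_mul, Fintype.sum_sum_type]
  have hH : ∑ x : Fin (hfs (mx C)).length, Fm_F a a' ((Kb r (hfs (mx C)) (eds' (mx C)) asg).map bq i (Sum.inl x))
      ((Kb r (hfs (mx C)) (eds' (mx C)) asg).map bq i' (Sum.inl x)) =
      ∑ j ∈ Finset.univ.filter (fun j => (Finset.univ.filter fun i => (C i j).1 = true).card = 1),
        Fm_F a a' (mC hr C (asv asg) i j) (mC hr C (asv asg) i' j) := by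
    have e1 := Fin.sum_univ_fun_getElem (hfs (mx C)) (fun h => Fm_F a a' (bq (ulk h i.val)) (bq (ulk h i'.val)))
    have e2 := hfs_sum hr C (fun h => Fm_F a a' (bq (ulk h i.val)) (bq (ulk h i'.val)))
    refine (Eq.trans ?_ (e1.trans e2)).trans ?_
    · rfl
    · refine Finset.sum_congr rfl fun j hj => ?_
      rw [Finset.mem_filter] at hj
      obtain ⟨z, hz⟩ := Finset.card_eq_one.1 hj.2
      have hjA : j ∉ (gC hr C).A := by
        intro h6
        have h7 : (Finset.univ.filter fun i => (C i j).1 = true).card = 2 := (Finset.mem_filter.1 h6).2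
        omega
      have hv : ∀ y : Fin r, bq (ulk z.val y.val) = mC hr C (asv asg) y j := by
        intro y
        rw [Fm_ulk]
        by_cases hy : z = y
        · subst hy
          have h6 : z ∈ (Finset.univ.filter fun i => (C i j).1 = true) := by
            rw [hz]
            exact Finset.mem_singleton_self z
          rw [if_pos rfl, Fm_one hr C _ (Finset.mem_filter.1 h6).2 (fun h7 => hjA h7.1)]
        · have h6 : ¬ (C y j).1 = true := by
            intro h7
            have h8 : y ∈ (Finset.univ.filter fun i => (C i j).1 = true) :=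
              Finset.mem_filter.2 ⟨Finset.mem_univ _, h7⟩
            rw [hz, Finset.mem_singleton] at h8
            exact hy h8.symm
          rw [if_neg (fun h7 => hy (Fin.ext h7)), Fm_off hr C _ h6]
      rw [hz, Finset.sum_singleton, hv, hv]
  have hL : ∑ x : Fin (eds' (mx C)).length, Fm_F a a' ((Kb r (hfs (mx C)) (eds' (mx C)) asg).map bq i (Sum.inr x))
      ((Kb r (hfs (mx C)) (eds' (mx C)) asg).map bq i' (Sum.inr x)) =
      ∑ j ∈ (gC hr C).A, Fm_F a a' (mC hr C (asv asg) i j) (mC hr C (asv asg) i' j) := by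
    have e1 := Fin.sum_univ_fun_getElem (eds' (mx C)) (fun e => Fm_F a a' (bq (clk asg e i.val)) (bq (clk asg e i'.val)))
    refine (Eq.trans ?_ e1).trans ?_
    · rfl
    · rw [← List.sum_toFinset _ hR.nd]
      have e2 : (eds' (mx C)).toFinset = (gC hr C).A.image (ed (gC hr C)) := by
        ext e
        rw [List.mem_toFinset, hR.mem, Finset.mem_image]
        exact ⟨fun ⟨j, hj, h⟩ => ⟨j, hj, h.symm⟩, fun ⟨j, hj, h⟩ => ⟨j, hj, h.symm⟩⟩
      rw [e2, Finset.sum_image]
      · refine Finset.sum_congr rfl fun j hj => ?_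
        have hm : memb (asg.map Prod.fst) j.val = true := (memb_iff _ _).2 ((hA.mem j).2 hj)
        have hv : ∀ y : Fin r, bq (clk asg (ed (gC hr C) j) y.val) = mC hr C (asv asg) y j := by
          intro y
          have e3 : clk asg (ed (gC hr C) j) y.val = if ((gC hr C).s j).val = y.val then 2 + look asg j.val 0
              else if ((gC hr C).t j).val = y.val then 1 else 0 := by
            show (if memb (asg.map Prod.fst) j.val = true then
              (if decide (((gC hr C).s j).val = y.val) = true then 2 + look asg j.val 0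
                else if decide (((gC hr C).t j).val = y.val) = true then 1 else 0) else 0) = _
            rw [if_pos hm]
            simp only [decide_eq_true_eq]
          rw [e3]
          by_cases hs : (gC hr C).s j = y
          · subst hs
            rw [if_pos rfl, Fm_src hr C _ hj ((Fm_vE _).1 (h1 j hj))]
            unfold bq asv
            rw [if_neg (by omega), if_neg (by omega), qu_val, Nat.add_sub_cancel_left]
          · rw [if_neg (fun h7 => hs (Fin.ext h7))]
            by_cases ht : (gC hr C).t j = y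
            · subst ht
              rw [if_pos rfl, Fm_one hr C _ ((Fm_vE _).1 (h2 j hj)) (fun h7 => hs h7.2.symm)]
              unfold bq
              rw [if_neg one_ne_zero, if_pos rfl]
            · rw [if_neg (fun h7 => ht (Fin.ext h7)), Fm_off hr C _]
              · unfold bq
                rw [if_pos rfl]
              · intro h7
                exact ((Fm_vE _).2 h7) (h3 j hj y (fun h8 => hs h8.symm) (fun h8 => ht h8.symm))
        rw [hv, hv]
      · intro x _ y _ hxy
        exact Fin.ext (congrArg Prod.fst hxy)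
  rw [hH, hL]
  have hAf : (gC hr C).A = Finset.univ.filter fun j => (Finset.univ.filter fun i => (C i j).1 = true).card = 2 := rfl
  rw [hAf, ← Finset.sum_union]
  · refine Finset.sum_subset (Finset.subset_univ _) fun j _ hj => ?_
    rw [Finset.mem_union, Finset.mem_filter, Finset.mem_filter] at hj
    have h6 : (Finset.univ.filter fun i => (C i j).1 = true).card ≤ 2 := by
      have h7 := hF j
      have h8 : (Finset.univ.filter fun i => C.map vE i j ≠ 0) = Finset.univ.filter fun i => (C i j).1 = true := by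
        refine Finset.filter_congr fun i _ => ?_
        rw [Matrix.map_apply]
        exact Fm_vE _
      rw [h8] at h7
      exact h7
    have h9 : (Finset.univ.filter fun i => (C i j).1 = true).card = 0 := by
      by_contra h10
      apply hj
      by_cases h11 : (Finset.univ.filter fun i => (C i j).1 = true).card = 1
      · exact Or.inl ⟨Finset.mem_univ _, h11⟩
      · exact Or.inr ⟨Finset.mem_univ _, by omega⟩
    have h10 : ¬ (C i j).1 = true := by
      intro h11
      rw [Finset.card_eq_zero] at h9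
      have h12 : i ∈ (Finset.univ.filter fun i => (C i j).1 = true) := Finset.mem_filter.2 ⟨Finset.mem_univ _, h11⟩
      rw [h9] at h12
      exact absurd h12 (Finset.notMem_empty i)
    rw [Fm_off hr C _ h10, Fm_F0]
  · rw [Finset.disjoint_left]
    intro j hj hj'
    rw [Finset.mem_filter] at hj hj'
    omega

theorem adet_fin (hr : 0 < r) (C : Matrix (Fin r) (Fin n) Ent) (hF : Frame (C.map vE)) {asg : List (ℕ × ℕ)}
    (hA : RepA asg (gC hr C).A) (hτ : Good (gC hr C) (asv asg)) :
    adet ((rws (List.range r) (hfs (mx C)) (eds' (mx C)) asg).map Prod.fst)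
      (gr (rws (List.range r) (hfs (mx C)) (eds' (mx C)) asg)) = 256 ^ r * nB (C.map vE) ^ 4 := by
  have h1 := adet_rws (r := r) (hfs (mx C)) (eds' (mx C)) asg (fun i c => Fm_lt hA _ _ i c)
  rw [Fm_gram hr C hF hA, count hr C hF hτ] at h1
  have h2 : Complex.normSq (((nB (C.map vE) : ℕ) : ℂ) ^ 2) = ((nB (C.map vE) : ℕ) : ℝ) ^ 4 := by
    rw [map_pow, Complex.normSq_natCast]
    ring
  rw [h2] at h1
  exact_mod_cast h1

end Pool.Agent.FRN
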