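import Pool.Agent.FRN.Alg
import Pool.Agent.BEO.FpC
import Pool.Agent.G4.UPAuto

/-!
# FRN/FpB: polynomial time: the Gram matrix

PROOF PLAN.  Tools: `fun_prop` after `open Pool.Agent.G4` (G4/UPAuto: maps, filters, flatMap, any, all, zipWith, conditions, `FP.eqD`, `FP.headDA`; `FP.foldA`, `FP.iterA` for folds and iterations with a bound on the sizes of the states), BEO/FpB, FpC (`fp_look`, `fp_memb`, `fp_comp`, `fp_eq`), PQE/Zf (`FP.zadd`, `FP.zmul`, `FP.zsum`, `FP.lk`), Helper22/Typed.  `blk`: `getD` of a constant table (`look` in a constant association list, or `FP.getDNat` in Helper51 / G4 libraries; search for `getDNat`).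
-/

set_option autoImplicit false

namespace Pool.Agent.FRN

open Turing Function N487b59b3 N68a2faeb Pool.Agent.Helper22 Pool.Agent.Helper6.WB Pool.Agent.Helper49.Cons
open Pool.Agent.BEO Pool.Agent.PQE Pool.Agent.G4

section

variable {α : Type} [N487b59b3 α]

theorem fp_blk {c d : α → ℕ} (hc : FP c) (hd : FP d) : FP fun a => blk (c a) (d a) :=
  FP.getDNat (FP.getDNat (FP.const btab) hc []) hd []

private theorem FpB_clk {asg : α → List (ℕ × ℕ)} {e : α → Ed} {z : α → ℕ} (ha : FP asg) (he : FP e) (hz : FP z) :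
    FP fun a => clk (asg a) (e a) (z a) := by
  have h1 : FP fun a => memb ((asg a).map Prod.fst) (e a).1 := by
    refine fp_memb ?_ (by fun_prop)
    have h : FP fun a => (asg a).map fun p : ℕ × ℕ => p.1 := by fun_prop
    exact h
  have h2 : FP fun a => look (asg a) (e a).1 0 := fp_look ha (by fun_prop) (by fun_prop)
  unfold clk
  fun_prop

private theorem FpB_rw1 {H : α → List ℕ} {L : α → List Ed} {asg : α → List (ℕ × ℕ)} {z b : α → ℕ} (hH : FP H)
    (hL : FP L) (ha : FP asg) (hz : FP z) (hb : FP b) : FP fun a => rw1 (H a) (L a) (asg a) (z a) (b a) := by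
  have h1 : FP fun p : α × ℕ => blk (ulk p.2 (z p.1)) (b p.1) := by
    refine fp_blk ?_ (by fun_prop)
    unfold ulk
    fun_prop
  have h2 : FP fun p : α × Ed => blk (clk (asg p.1) p.2 (z p.1)) (b p.1) := by
    refine fp_blk (FpB_clk (by fun_prop) (by fun_prop) (by fun_prop)) (by fun_prop)
  unfold rw1
  exact FP.append (FP.flatMapA h1 hH) (FP.flatMapA h2 hL)

theorem fp_rws {W H : α → List ℕ} {L : α → List Ed} {asg : α → List (ℕ × ℕ)} (hW : FP W) (hH : FP H) (hL : FP L)
    (ha : FP asg) : FP fun a => rws (W a) (H a) (L a) (asg a) := by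
  have h1 : FP fun p : (α × ℕ) × ℕ => (4 * p.1.2 + p.2, rw1 (H p.1.1) (L p.1.1) (asg p.1.1) p.1.2 p.2) :=
    FP.pair (by fun_prop) (FpB_rw1 (by fun_prop) (by fun_prop) (by fun_prop) (by fun_prop) (by fun_prop))
  have h2 : FP fun p : α × ℕ => [0, 1, 2, 3].map fun a => (4 * p.2 + a, rw1 (H p.1) (L p.1) (asg p.1) p.2 a) :=
    FP.mapA h1 (FP.const _)
  unfold rws
  exact FP.flatMapA h2 hW

theorem fp_gr {R : α → List (ℕ × List In)} (hR : FP R) : FP fun a => gr (R a) := by
  have h0 : FP fun p : ((α × (ℕ × List In)) × (ℕ × List In)) × (In × In) => zmul p.2.1 p.2.2 :=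
    FP.zmul (by fun_prop) (by fun_prop)
  have h1 : FP fun p : (α × (ℕ × List In)) × (ℕ × List In) => dot p.1.2.2 p.2.2 :=
    FP.zsum (FP.zipWithA h0 (by fun_prop) (by fun_prop))
  have h2 : FP fun p : (α × (ℕ × List In)) × (ℕ × List In) => ((p.1.2.1, p.2.1), dot p.1.2.2 p.2.2) :=
    FP.pair (by fun_prop) h1
  have h3 : FP fun p : α × (ℕ × List In) => (R p.1).map fun q => ((p.2.1, q.1), dot p.2.2 q.2) :=
    FP.mapA h2 (by fun_prop)
  exact FP.flatMapA h3 hR

end

end Pool.Agent.FRN
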