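import Pool.Agent.FRN.Alg
import Pool.Agent.BEO.FpC
import Pool.Agent.G4.UPAuto
import Pool.Agent.PQE.ZMom

/-!
# FRN/FpC: polynomial time: Bird's algorithm

PROOF PLAN.  Tools: `fun_prop` after `open Pool.Agent.G4` (G4/UPAuto: maps, filters, flatMap, any, all, zipWith, conditions, `FP.eqD`, `FP.headDA`; `FP.foldA`, `FP.iterA` for folds and iterations with a bound on the sizes of the states), BEO/FpB, FpC (`fp_look`, `fp_memb`, `fp_comp`, `fp_eq`), PQE/Zf (`FP.zadd`, `FP.zmul`, `FP.zsum`, `FP.lk`), Helper22/Typed.  `fp_bst`: composition (`bmu`: `FP` of `decide (i < k)` on natural numbers, see the `ltb` or `natLe` lemmas in Helper6/WB and Helper47/TR).  `fp_adet`: bound for the states of the fold: with `w X` = the sum of the norms `nz` (`wz` in PQE/Zf), `nz (lk (bst N A X) i j) ≤ (N.length + 1) * ...`: every entry of `bst N A X` has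
norm at most `N.length * (wz X) * (wz A)` (all factors at most `wz`), so `wz (bst N A X) ≤ N.length ^ 3 * wz X * wz A`, and after `k ≤ N.length` steps the norms are at most `(N.length ^ 3 * (wz A + 1)) ^ (k + 1) ≤ 2 ^ (polynomial)`; the keys are pairs of elements of `N`; `sz_of_nz`.  See PQE/ZMom (`momL`) for a similar bound.
-/

set_option autoImplicit false

namespace Pool.Agent.FRN

open Turing Function N487b59b3 N68a2faeb Pool.Agent.Helper22 Pool.Agent.Helper6.WB Pool.Agent.Helper49.Cons
open Pool.Agent.BEO Pool.Agent.PQE Pool.Agent.G4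
open Pool.Agent.Helper6.SP (fp_map fp_flatMap)

section

variable {α : Type} [N487b59b3 α]

private theorem FpC_lt {f g : α → ℕ} (hf : FP f) (hg : FP g) : FP fun a => decide (f a < g a) := by
  have h := (FP.natEq (FP.natSub hg hf) (FP.const 0)).not
  refine (congrArg FP (funext fun a => ?_)).mp h
  by_cases h1 : f a < g a
  · have h2 : g a - f a ≠ 0 := by omega
    simp [h1, h2]
  · have h2 : g a - f a = 0 := by omega
    simp [h1, h2]

private theorem FpC_zneg {f : α → In} (hf : FP f) : FP fun a => zneg (f a) := by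
  unfold zneg
  exact FP.pair (by fun_prop) (by fun_prop)

private theorem FpC_diag {N : α → List ℕ} {X : α → Qz} {i : α → ℕ} (hN : FP N) (hX : FP X) (hi : FP i) :
    FP fun a => (((N a).filter fun l => decide (i a < l)).map fun l => lk (X a) l l).sum := by
  have h1 : FP fun a => (N a).filter fun l => decide (i a < l) :=
    FP.filterA (h := fun a l => decide (i a < l)) (FpC_lt (hi.comp FP.fst) FP.snd) hN
  have h2 : FP fun a => ((N a).filter fun l => decide (i a < l)).map fun l => lk (X a) l l :=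
    FP.mapA (h := fun a l => lk (X a) l l) (FP.lk (hX.comp FP.fst) FP.snd FP.snd) h1
  exact FP.zsum h2

private theorem FpC_bmu {N : α → List ℕ} {X : α → Qz} {i k : α → ℕ} (hN : FP N) (hX : FP X) (hi : FP i)
    (hk : FP k) : FP fun a => bmu (N a) (X a) (i a) (k a) := by
  have h1 : FP fun a => decide (i a < k a) := FpC_lt hi hk
  have h2 : FP fun a => decide (i a = k a) := FP.natEq hi hk
  have h3 : FP fun a => zneg (((N a).filter fun l => decide (i a < l)).map fun l => lk (X a) l l).sum :=
    FpC_zneg (FpC_diag hN hX hi)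
  have h4 := FP.ite h1 (FP.lk hX hi hk) (FP.ite h2 h3 (FP.const (0 : In)))
  exact h4

theorem fp_bst {N : α → List ℕ} {A X : α → Qz} (hN : FP N) (hA : FP A) (hX : FP X) : FP fun a => bst (N a) (A a) (X a) := by
  have h1 : FP fun q : ((α × ℕ) × ℕ) × ℕ => PQE.zmul (bmu (N q.1.1.1) (X q.1.1.1) q.1.1.2 q.2) (PQE.lk (A q.1.1.1) q.2 q.1.2) := by
    have e1 : FP fun q : ((α × ℕ) × ℕ) × ℕ => N q.1.1.1 := hN.comp (by fun_prop)
    have e2 : FP fun q : ((α × ℕ) × ℕ) × ℕ => X q.1.1.1 := hX.comp (by fun_prop)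
    have e3 : FP fun q : ((α × ℕ) × ℕ) × ℕ => A q.1.1.1 := hA.comp (by fun_prop)
    exact FP.zmul (FpC_bmu e1 e2 (by fun_prop) (by fun_prop)) (FP.lk e3 (by fun_prop) (by fun_prop))
  have h2 : FP fun q : (α × ℕ) × ℕ => (N q.1.1).map fun k => PQE.zmul (bmu (N q.1.1) (X q.1.1) q.1.2 k) (PQE.lk (A q.1.1) k q.2) :=
    fp_map (hN.comp (by fun_prop)) h1
  have h3 : FP fun q : (α × ℕ) × ℕ => (((q.1.2, q.2), ((N q.1.1).map fun k =>
      PQE.zmul (bmu (N q.1.1) (X q.1.1) q.1.2 k) (PQE.lk (A q.1.1) k q.2)).sum) : (ℕ × ℕ) × In) :=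
    FP.pair (FP.pair (by fun_prop) (by fun_prop)) (FP.zsum h2)
  have h4 : FP fun q : α × ℕ => (N q.1).map fun j => (((q.2, j), ((N q.1).map fun k =>
      PQE.zmul (bmu (N q.1) (X q.1) q.2 k) (PQE.lk (A q.1) k j)).sum) : (ℕ × ℕ) × In) :=
    fp_map (hN.comp FP.fst) h3
  exact fp_flatMap hN h4

theorem fp_zab {f : α → In} (hf : FP f) : FP fun a => zab (f a) := by
  unfold zab
  exact FP.natAdd (FP.natSub (by fun_prop) (by fun_prop)) (FP.natSub (by fun_prop) (by fun_prop))

private theorem FpC_nz_bmu (N : List ℕ) (X : Qz) (i k : ℕ) : nz (bmu N X i k) ≤ (N.length + 1) * wz X := by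
  unfold bmu
  have h0 := nz_lk X i k
  split_ifs with h1 h2
  · nlinarith [Nat.zero_le (N.length * wz X)]
  · have e1 : ∀ a : In, nz (zneg a) = nz a := by
      intro a
      simp only [nz, zneg]
      omega
    rw [e1, nz_sum, List.map_map]
    have h3 : ∀ l : List ℕ, (l.map (nz ∘ fun l => lk X l l)).sum ≤ l.length * wz X := by
      intro l
      induction l with
      | nil => simp
      | cons a l ih =>
        rw [List.map_cons, List.sum_cons, List.length_cons]
        have h4 := nz_lk X a a
        have h5 : (nz ∘ fun l => lk X l l) a = nz (lk X a a) := rfl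
        rw [h5]
        nlinarith
    refine (h3 _).trans (Nat.mul_le_mul_right _ ?_)
    have h6 := List.length_filter_le (fun l => decide (i < l)) N
    omega
  · exact Nat.zero_le _

private theorem FpC_ent (N : List ℕ) (A X : Qz) (i j : ℕ) :
    nz ((N.map fun k => zmul (bmu N X i k) (lk A k j)).sum) ≤ N.length * ((N.length + 1) * wz X * wz A) := by
  rw [nz_sum, List.map_map]
  have h3 : ∀ l : List ℕ, (l.map (nz ∘ fun k => zmul (bmu N X i k) (lk A k j))).sum ≤
      l.length * ((N.length + 1) * wz X * wz A) := by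
    intro l
    induction l with
    | nil => simp
    | cons a l ih =>
      rw [List.map_cons, List.sum_cons, List.length_cons]
      have h5 : (nz ∘ fun k => zmul (bmu N X i k) (lk A k j)) a = nz (bmu N X i a) * nz (lk A a j) :=
        nz_mul _ _
      have h6 : nz (bmu N X i a) * nz (lk A a j) ≤ (N.length + 1) * wz X * wz A :=
        Nat.mul_le_mul (FpC_nz_bmu N X i a) (nz_lk A a j)
      rw [h5]
      nlinarith
  exact h3 N

private theorem FpC_wz_bst (N : List ℕ) (A X : Qz) : wz (bst N A X) + 1 ≤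
    2 ^ (4 * N.length + sz A) * (wz X + 1) := by
  have h := nz_dsum N (fun i j => (N.map fun k => zmul (bmu N X i k) (lk A k j)).sum) _
    (fun i _ j _ => FpC_ent N A X i j)
  have h1 : wz (bst N A X) ≤ N.length * (N.length * (N.length * ((N.length + 1) * wz X * wz A))) := by
    refine le_trans (le_of_eq ?_) h
    rw [wz, bst, dsum, nz_sum, List.map_flatMap, List.map_flatMap]
    simp only [List.map_map]
    rfl
  have h2 : N.length * (N.length * (N.length * ((N.length + 1) * wz X * wz A))) + 1 ≤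
      (N.length + 1) ^ 4 * (wz A + 1) * (wz X + 1) := by
    set n := N.length
    set a := wz A
    set x := wz X
    have h3 : n * (n * (n * ((n + 1) * x * a))) = (n * n * n * (n + 1)) * (a * x) := by ring
    have h4 : n * n * n * (n + 1) ≤ (n + 1) ^ 4 := by
      have : (n + 1) ^ 4 = (n + 1) * (n + 1) * (n + 1) * (n + 1) := by ring
      rw [this]
      gcongr <;> omega
    have h5 : 1 ≤ (n + 1) ^ 4 := Nat.one_le_pow _ _ (by omega)
    have h6 : (n + 1) ^ 4 * (a + 1) * (x + 1) = (n + 1) ^ 4 * (a * x) + (n + 1) ^ 4 * (a + x) + (n + 1) ^ 4 := by ring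
    rw [h3, h6]
    have h7 : (n * n * n * (n + 1)) * (a * x) ≤ (n + 1) ^ 4 * (a * x) := Nat.mul_le_mul_right _ h4
    omega
  have h3 : (N.length + 1) ^ 4 ≤ 2 ^ (4 * N.length) := by
    rw [mul_comm 4, pow_mul]
    exact Nat.pow_le_pow_left (Nat.lt_two_pow_self) 4
  have h4 := wz_lt A
  calc wz (bst N A X) + 1 ≤ (N.length + 1) ^ 4 * (wz A + 1) * (wz X + 1) := by omega
    _ ≤ 2 ^ (4 * N.length) * 2 ^ sz A * (wz X + 1) := by gcongr
    _ = _ := by rw [← pow_add]

private theorem FpC_wz_fold (N : List ℕ) (A : Qz) (l : List ℕ) (X : Qz) :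
    wz (l.foldl (fun X _ => bst N A X) X) + 1 ≤ 2 ^ (l.length * (4 * N.length + sz A)) * (wz X + 1) := by
  induction l generalizing X with
  | nil => simp
  | cons d l ih =>
    rw [List.foldl_cons]
    refine (ih _).trans ?_
    refine (Nat.mul_le_mul_left _ (FpC_wz_bst N A X)).trans ?_
    rw [← mul_assoc, ← pow_add, List.length_cons]
    refine Nat.mul_le_mul_right _ (Nat.pow_le_pow_right (by norm_num) ?_)
    ring_nf
    omega

private theorem FpC_sz_bst (N : List ℕ) (A X : Qz) (E : ℕ) (h : wz (bst N A X) + 1 ≤ 2 ^ E) :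
    sz (bst N A X) ≤ N.length * (N.length * (12 * sz N + 6 * E + 20)) := by
  have h1 : ∀ i ∈ N, ∀ l ∈ N, sz ((N.map fun k => zmul (bmu N X i k) (lk A k l)).sum) ≤ 3 * E + 1 := by
    intro i hi l hl
    refine sz_of_nz ?_
    have h2 : nz ((N.map fun k => zmul (bmu N X i k) (lk A k l)).sum) ≤ wz (bst N A X) := by
      rw [wz, bst, List.map_flatMap, sum_flatMap']
      have h3 : nz ((N.map fun k => zmul (bmu N X i k) (lk A k l)).sum) ≤ (List.map (fun e : (ℕ × ℕ) × In => nz e.2)
          (N.map fun l => ((i, l), (N.map fun k => zmul (bmu N X i k) (lk A k l)).sum))).sum := by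
        rw [List.map_map]
        exact List.single_le_sum (fun _ _ => Nat.zero_le _) _
          (List.mem_map.2 ⟨l, hl, rfl⟩)
      refine h3.trans ?_
      exact List.single_le_sum (fun _ _ => Nat.zero_le _) _ (List.mem_map.2 ⟨i, hi, rfl⟩)
    omega
  have h5 := sz_flatMap_le (fun i => N.map fun l => ((i, l), (N.map fun k => zmul (bmu N X i k) (lk A k l)).sum)) N
    (N.length * (12 * sz N + 6 * E + 20)) (by
    intro i hi
    have h6 := sz_map_le (fun l => ((i, l), (N.map fun k => zmul (bmu N X i k) (lk A k l)).sum)) N (6 * sz N + 3 * E + 9) (by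
      intro l hl
      have h7 := h1 i hi l hl
      have h8 := sz_mem_le hi
      have h9 := sz_mem_le hl
      simp only [sz_pair]
      omega)
    refine h6.trans (Nat.mul_le_mul_left _ (by omega)))
  exact h5

private theorem FpC_sz_fold (N : List ℕ) (A : Qz) (l : List ℕ) :
    sz (l.foldl (fun X _ => bst N A X) A) ≤ sz A + N.length * (N.length * (12 * sz N +
      6 * (l.length * (4 * N.length + sz A) + sz A) + 20)) := by
  rcases List.eq_nil_or_concat l with rfl | ⟨l', d, rfl⟩
  · simp
  · rw [List.concat_eq_append]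
    have h2 := FpC_wz_fold N A (l' ++ [d]) A
    have h4 := wz_lt A
    have h3 : wz ((l' ++ [d]).foldl (fun X _ => bst N A X) A) + 1 ≤
        2 ^ ((l' ++ [d]).length * (4 * N.length + sz A) + sz A) := by
      refine h2.trans ((Nat.mul_le_mul_left _ h4).trans ?_)
      rw [← pow_add]
    rw [List.foldl_append] at h3 ⊢
    rw [List.foldl_cons, List.foldl_nil] at h3 ⊢
    have h5 := FpC_sz_bst N A _ _ h3
    omega

private theorem FpC_fold : FP fun p : List ℕ × Qz => p.1.tail.foldl (fun X _ => bst p.1 p.2 X) p.2 := by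
  refine FP.foldA (g := fun (p : List ℕ × Qz) (X : Qz) (_ : ℕ) => bst p.1 p.2 X)
    (fp_bst (by fun_prop) (by fun_prop) (by fun_prop))
    (B := fun n => n + n * (n * (12 * n + 6 * (n * (4 * n + n) + n) + 20))) (by fun_prop)
    (l := fun p : List ℕ × Qz => p.1.tail) (x := fun p => p.2) (by fun_prop) (by fun_prop) ?_
  rintro ⟨N, A⟩ i hi
  have h1 := FpC_sz_fold N A (N.tail.take i)
  refine h1.trans ?_
  have h2 := length_le_sz N
  have h3 : (N.tail.take i).length ≤ N.length := by
    rw [List.length_take, List.length_tail]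
    omega
  generalize hS : sz (N, A) = S
  simp only [sz_pair] at hS
  have b0 : (N.tail.take i).length ≤ S := by omega
  have b1 : (N.tail.take i).length * (4 * N.length + sz A) ≤ S * (4 * S + S) :=
    Nat.mul_le_mul b0 (by omega)
  have b2 : N.length * (N.length * (12 * sz N +
      6 * ((N.tail.take i).length * (4 * N.length + sz A) + sz A) + 20)) ≤
      S * (S * (12 * S + 6 * (S * (4 * S + S) + S) + 20)) := by
    refine Nat.mul_le_mul (by omega) (Nat.mul_le_mul (by omega) ?_)
    omega
  have b3 : sz A ≤ S := by omega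
  exact Nat.add_le_add b3 b2

theorem fp_adet {N : α → List ℕ} {A : α → Qz} (hN : FP N) (hA : FP A) : FP fun a => adet (N a) (A a) := by
  have h1 : FP fun a => (N a).tail.foldl (fun X _ => bst (N a) (A a) X) (A a) :=
    FpC_fold.comp (f := fun a => (N a, A a)) (FP.pair hN hA)
  have h2 : FP fun a => zab (lk ((N a).tail.foldl (fun X _ => bst (N a) (A a) X) (A a)) 0 0) :=
    fp_zab (FP.lk h1 (FP.const 0) (FP.const 0))
  have h3 : FP fun a => (N a).isEmpty := by fun_prop
  exact FP.ite h3 (FP.const 1) h2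

end

end Pool.Agent.FRN
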