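import Pool.Agent.FRN.FpA
import Pool.Agent.FRN.FpB
import Pool.Agent.FRN.FpC

/-!
# FRN/FpD: polynomial time: the assignment

PROOF PLAN.  Tools: `fun_prop` after `open Pool.Agent.G4` (G4/UPAuto: maps, filters, flatMap, any, all, zipWith, conditions, `FP.eqD`, `FP.headDA`; `FP.foldA`, `FP.iterA` for folds and iterations with a bound on the sizes of the states), BEO/FpB, FpC (`fp_look`, `fp_memb`, `fp_comp`, `fp_eq`), PQE/Zf (`FP.zadd`, `FP.zmul`, `FP.zsum`, `FP.lk`), Helper22/Typed.  `en`, `cdl` (products by 8: repeated addition or `natMul`), `amin` (fold; the state is the start element or an element of the list), `bsu`, `nx`, `stp`: compositions.  `fp_slv`: the states of the fold: `s.2.1` and `s.2.2` consist of elements of `L`, their lengths are at most `L.length + 1` plus the number of steps; `s.1` has at most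
`L.length` + (number of steps) entries, the first components are numbers of edges of `L` (or `0`), the second components are `8 * e.2.2.2` or results of `bsu`, which are `8 * k + t`, `k` a component of an element of `L`: all of size at most `sz L + 10`.
-/

set_option autoImplicit false

namespace Pool.Agent.FRN

open Turing Function N487b59b3 N68a2faeb Pool.Agent.Helper22 Pool.Agent.Helper6.WB Pool.Agent.Helper49.Cons
open Pool.Agent.BEO Pool.Agent.PQE Pool.Agent.G4

section

variable {α : Type} [N487b59b3 α]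

private theorem FpD_lt {f g : α → ℕ} (hf : FP f) (hg : FP g) : FP fun a => decide (f a < g a) := by
  have h := FP.not (Pool.Agent.Helper47.TR.FP.natLe hg hf)
  refine (congrArg FP (funext fun a => ?_)).mp h
  rw [Bool.eq_iff_iff]
  simp

private theorem FpD_foldmin (g : ℕ × ℕ → ℕ × ℕ → ℕ × ℕ) (hg : ∀ m p, g m p = m ∨ g m p = p) (P : ℕ × ℕ → Prop)
    (l : List (ℕ × ℕ)) (x : ℕ × ℕ) (hl : ∀ p ∈ l, P p) (hx : P x) : P (l.foldl g x) := by
  induction l generalizing x with
  | nil => exact hx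
  | cons b l ih =>
    rw [List.foldl_cons]
    refine ih _ (fun p hp => hl p (List.mem_cons_of_mem _ hp)) ?_
    rcases hg x b with h | h
    · rw [h]
      exact hx
    · rw [h]
      exact hl b List.mem_cons_self

private theorem FpD_step (m p : ℕ × ℕ) : (if decide (p.1 < m.1) then p else m) = m ∨
    (if decide (p.1 < m.1) then p else m) = p := by
  split_ifs
  · exact Or.inr rfl
  · exact Or.inl rfl

private theorem FpD_amin {l : α → List (ℕ × ℕ)} (hl : FP l) : FP fun a => amin (l a) := by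
  have h0 : FP fun p : List (ℕ × ℕ) × ((ℕ × ℕ) × (ℕ × ℕ)) =>
      (fun (_ : List (ℕ × ℕ)) (m p : ℕ × ℕ) => if decide (p.1 < m.1) then p else m) p.1 p.2.1 p.2.2 :=
    FP.ite (FpD_lt (by fun_prop) (by fun_prop)) (by fun_prop) (by fun_prop)
  have h1 : FP fun l : List (ℕ × ℕ) => l.foldl ((fun (_ : List (ℕ × ℕ)) (m p : ℕ × ℕ) =>
      if decide (p.1 < m.1) then p else m) l) (l.headD (0, 0)) := by
    refine FP.foldA h0 (B := fun n => n + sz ((0, 0) : ℕ × ℕ)) (by fun_prop) FP.id (by fun_prop) ?_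
    intro l i _
    refine FpD_foldmin _ FpD_step (fun p => sz p ≤ sz l + sz ((0, 0) : ℕ × ℕ)) _ _ ?_ ?_
    · intro p hp
      have h2 := sz_le_of_mem (List.mem_of_mem_take hp)
      omega
    · have h2 := sz_headD l ((0, 0) : ℕ × ℕ)
      have h3 := max_le_add_of_nonneg (Nat.zero_le (sz l)) (Nat.zero_le (sz ((0, 0) : ℕ × ℕ)))
      omega
  exact (h1.snd').comp hl

private theorem FpD_cdl {k : α → ℕ} (hk : FP k) : FP fun a => cdl (k a) := by
  unfold cdl
  exact FP.mapA (by fun_prop) (FP.const _)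

theorem fp_en {W : α → List ℕ} {L : α → List Ed} {asg : α → List (ℕ × ℕ)} (hW : FP W) (hL : FP L) (ha : FP asg) :
    FP fun a => en (W a) (L a) (asg a) := by
  unfold en
  have h1 := fp_rws hW hW hL ha
  have h2 : FP fun a => (rws (W a) (W a) (L a) (asg a)).map Prod.fst := FP.mapA (by fun_prop) h1
  exact fp_adet h2 (fp_gr h1)

theorem fp_bsu {W : α → List ℕ} {L : α → List Ed} {asg : α → List (ℕ × ℕ)} {f : α → Ed} (hW : FP W) (hL : FP L)
    (ha : FP asg) (hf : FP f) : FP fun a => bsu (W a) (L a) (asg a) (f a) := by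
  unfold bsu
  refine FpD_amin (FP.mapA ?_ (FpD_cdl (by fun_prop)))
  refine FP.pair (fp_en (hW.comp FP.fst) (hL.comp FP.fst) ?_) FP.snd
  exact FP.cons (FP.pair (FP.fst' (hf.comp FP.fst)) FP.snd) (ha.comp FP.fst)

private theorem FpD_nx {W : α → List ℕ} {T : α → List Ed} {s : α → St} (hW : FP W) (hT : FP T) (hs : FP s) :
    FP fun a => nx (W a) (T a) (s a) := by
  unfold nx
  refine FP.filterA (FP.anyA ?_ ?_) (by fun_prop)
  · exact fp_ov (hW.comp (FP.fst.comp FP.fst)) (hT.comp (FP.fst.comp FP.fst)) (FP.snd.comp FP.fst) FP.snd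
  · exact FP.fst' (FP.snd' (hs.comp FP.fst))

theorem fp_stp {W : α → List ℕ} {L T : α → List Ed} {s : α → St} (hW : FP W) (hL : FP L) (hT : FP T) (hs : FP s) :
    FP fun a => stp (W a) (L a) (T a) (s a) := by
  unfold stp
  have hn := FpD_nx hW hT hs
  have h2 : FP fun a => (s a).2.2 := by fun_prop
  have h1 : FP fun a => (s a).1 := by fun_prop
  have h21 : FP fun a => (s a).2.1 := by fun_prop
  refine FP.ite (FP.isEmpty h2) hs (FP.ite (FP.isEmpty hn) ?_ ?_)
  · have hf : FP fun a => (s a).2.2.headD (0, (0, (0, 0))) := by fun_prop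
    have hb := fp_bsu hW hL h1 hf
    have he := fp_er h2 (FP.fst' hf)
    exact FP.pair (FP.cons (FP.pair (FP.fst' hf) hb) h1) (FP.pair (FP.cons hf (FP.const [])) he)
  · have hf : FP fun a => (nx (W a) (T a) (s a)).headD (0, (0, (0, 0))) := by fun_prop
    have hb := fp_bsu hW hL h1 hf
    have he := fp_er h2 (FP.fst' hf)
    exact FP.pair (FP.cons (FP.pair (FP.fst' hf) hb) h1) (FP.pair (FP.cons hf h21) he)

/-- `y` is `8 * k + t` with `t < 8`, where `k` is the class of an element of `L` -/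
private theorem FpD_bsu (W : List ℕ) (L : List Ed) (asg : List (ℕ × ℕ)) (f : Ed) :
    ∃ t < 8, bsu W L asg f = 8 * f.2.2.2 + t := by
  unfold bsu amin
  refine FpD_foldmin _ FpD_step (fun p => ∃ t < 8, p.2 = 8 * f.2.2.2 + t) _ _ ?_ ?_
  · intro p hp
    obtain ⟨u, hu, rfl⟩ := List.mem_map.1 hp
    unfold cdl at hu
    obtain ⟨t, ht, rfl⟩ := List.mem_map.1 hu
    refine ⟨t, ?_, rfl⟩
    simp only [List.mem_cons, List.not_mem_nil, or_false] at ht
    omega
  · exact ⟨0, by norm_num, rfl⟩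

private theorem FpD_size (k t : ℕ) (ht : t < 8) : Nat.size (8 * k + t) ≤ Nat.size k + 3 := by
  rw [Nat.size_le]
  have h1 := Nat.lt_size_self k
  rw [pow_add]
  omega

private theorem FpD_ent {L : List Ed} {f : Ed} (hf : f ∈ L) (t : ℕ) (ht : t < 8) :
    sz (f.1, 8 * f.2.2.2 + t) ≤ sz L + 4 := by
  obtain ⟨j, x, y, k⟩ := f
  have h1 := sz_le_of_mem hf
  have h2 := FpD_size k t ht
  simp only [sz_pair, sz_nat] at h1 ⊢
  omega

/-- invariant of the states -/
private def FpD_inv (L : List Ed) (i : ℕ) (s : St) : Prop :=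
  (s.1.length ≤ L.length + i ∧ ∀ q ∈ s.1, sz q ≤ sz L + 4) ∧
    (s.2.1.length ≤ i ∧ ∀ q ∈ s.2.1, q ∈ L) ∧ s.2.2.Sublist L

private theorem FpD_er (L : List Ed) (j : ℕ) : (er L j).Sublist L := List.filter_sublist

private theorem FpD_frs (W : List ℕ) (L : List Ed) : (frs W L).Sublist L := by
  unfold frs
  have h : ∀ (l T : List Ed), T.Sublist L →
      (l.foldl (fun T e => if cn W (er T e.1) e.2.1 e.2.2.1 then er T e.1 else T) T).Sublist L := by
    intro l
    induction l with
    | nil => exact fun T h => h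
    | cons b l ih =>
      intro T hT
      rw [List.foldl_cons]
      refine ih _ ?_
      split_ifs
      · exact (FpD_er T b.1).trans hT
      · exact hT
  exact h L L (List.Sublist.refl L)

private theorem FpD_add (W : List ℕ) (L : List Ed) (i : ℕ) (s : St) (hs : FpD_inv L i s) (f : Ed) (hf : f ∈ L)
    (l : List Ed) (hl : l.length ≤ i + 1) (hl' : ∀ q ∈ l, q ∈ L) :
    FpD_inv L (i + 1) ((f.1, bsu W L s.1 f) :: s.1, (l, er s.2.2 f.1)) := by
  obtain ⟨⟨h1, h2⟩, -, h4⟩ := hs
  refine ⟨⟨?_, ?_⟩, ⟨hl, hl'⟩, (FpD_er _ _).trans h4⟩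
  · rw [List.length_cons]
    omega
  · intro q hq
    rcases List.mem_cons.1 hq with rfl | hq
    · obtain ⟨t, ht, h5⟩ := FpD_bsu W L s.1 f
      rw [h5]
      exact FpD_ent hf t ht
    · exact h2 q hq

private theorem FpD_headD (l : List Ed) (d : Ed) (h : ¬ l.isEmpty = true) : l.headD d ∈ l := by
  cases l with
  | nil => exact absurd rfl h
  | cons b l => exact List.mem_cons_self

private theorem FpD_stp (W : List ℕ) (L T : List Ed) (i : ℕ) (s : St) (hs : FpD_inv L i s) :
    FpD_inv L (i + 1) (stp W L T s) := by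
  unfold stp
  have hs' := hs
  obtain ⟨⟨h1, h2⟩, ⟨h3, h3'⟩, h4⟩ := hs'
  split_ifs with ha hb
  · exact ⟨⟨by omega, h2⟩, ⟨by omega, h3'⟩, h4⟩
  · have hf := h4.subset (FpD_headD s.2.2 (0, (0, (0, 0))) ha)
    refine FpD_add W L i s hs _ hf _ ?_ ?_
    · simp
    · intro q hq
      rw [List.mem_singleton] at hq
      rw [hq]
      exact hf
  · have hf := h4.subset (List.mem_of_mem_filter (FpD_headD (nx W T s) (0, (0, (0, 0))) hb))
    refine FpD_add W L i s hs _ hf _ ?_ ?_
    · rw [List.length_cons]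
      omega
    · intro q hq
      rcases List.mem_cons.1 hq with rfl | hq
      · exact hf
      · exact h3' q hq

private theorem FpD_st0 (W : List ℕ) (L : List Ed) : FpD_inv L 0 (st0 L (frs W L)) := by
  unfold st0
  refine ⟨⟨?_, ?_⟩, ⟨?_, ?_⟩, ?_⟩
  · rw [List.length_map]
    exact (FpD_frs W L).length_le
  · intro q hq
    obtain ⟨e, he, rfl⟩ := List.mem_map.1 hq
    exact FpD_ent ((FpD_frs W L).subset he) 0 (by norm_num)
  · exact Nat.zero_le _
  · intro q hq
    exact absurd hq (List.not_mem_nil)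
  · exact List.filter_sublist

private theorem FpD_sz (L : List Ed) (i : ℕ) (hi : i ≤ L.length) (s : St) (hs : FpD_inv L i s) :
    sz s ≤ 20 * (sz L + 1) * (sz L + 1) := by
  obtain ⟨⟨h1, h2⟩, ⟨h3, h3'⟩, h4⟩ := hs
  have h5 := length_le_sz L
  have h6 := sz_le_length_mul h2
  have h7 := sz_le_length_mul (l := s.2.1) (C := sz L) fun q hq => by
    have := sz_le_of_mem (h3' q hq)
    omega
  have h8 := sz_sublist h4
  have h9 : sz s = 2 * sz s.1 + 1 + (2 * sz s.2.1 + 1 + sz s.2.2) := by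
    conv_lhs => rw [show s = (s.1, (s.2.1, s.2.2)) from rfl]
    rw [sz_pair, sz_pair]
  have h10 : s.1.length * (2 * (sz L + 4) + 1) ≤ (2 * sz L) * (2 * (sz L + 4) + 1) :=
    Nat.mul_le_mul_right _ (by omega)
  have h11 : s.2.1.length * (2 * sz L + 1) ≤ sz L * (2 * sz L + 1) := Nat.mul_le_mul_right _ (by omega)
  nlinarith

private def FpD_g (p : List ℕ × List Ed) (s : St) (_ : Ed) : St := stp p.1 p.2 (frs p.1 p.2) s

private def FpD_s (p : List ℕ × List Ed) : St := st0 p.2 (frs p.1 p.2)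

private theorem FpD_fg : FP fun q : (List ℕ × List Ed) × (St × Ed) => FpD_g q.1 q.2.1 q.2.2 := by
  unfold FpD_g
  have h1 : FP fun q : (List ℕ × List Ed) × (St × Ed) => q.1.1 := by fun_prop
  have h2 : FP fun q : (List ℕ × List Ed) × (St × Ed) => q.1.2 := by fun_prop
  have h3 : FP fun q : (List ℕ × List Ed) × (St × Ed) => q.2.1 := by fun_prop
  exact fp_stp h1 h2 (fp_frs h1 h2) h3

private theorem FpD_fs : FP FpD_s := by
  unfold FpD_s
  have hfrs : FP fun p : List ℕ × List Ed => frs p.1 p.2 := fp_frs FP.fst FP.snd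
  have h1 : FP fun p : List ℕ × List Ed => (frs p.1 p.2).map fun e => (e.1, 8 * e.2.2.2) :=
    FP.mapA (by fun_prop) hfrs
  have h2 : FP fun q : (List ℕ × List Ed) × Ed => !(memb (frs q.1.1 q.1.2) q.2) :=
    FP.not (fp_memb (hfrs.comp FP.fst) FP.snd)
  have h3 : FP fun p : List ℕ × List Ed => p.2.filter fun e => !(memb (frs p.1 p.2) e) :=
    FP.filterA h2 FP.snd
  have h4 : FP fun p : List ℕ × List Ed => (((frs p.1 p.2).map fun e => (e.1, 8 * e.2.2.2),
      (([] : List Ed), p.2.filter fun e => !(memb (frs p.1 p.2) e))) : St) :=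
    FP.pair h1 (FP.pair (FP.const []) h3)
  exact h4

private theorem FpD_bd (p : List ℕ × List Ed) (i : ℕ) (hi : i ≤ p.2.length) :
    sz ((p.2.take i).foldl (FpD_g p) (FpD_s p)) ≤ 20 * (sz p + 1) * (sz p + 1) := by
  have h2 : FpD_inv p.2 i ((p.2.take i).foldl (FpD_g p) (FpD_s p)) :=
    foldl_take_ind (P := FpD_inv p.2) (g := FpD_g p) (FpD_st0 p.1 p.2)
      (fun i s _ _ hs => FpD_stp p.1 p.2 (frs p.1 p.2) i s hs) i hi
  have h3 := FpD_sz p.2 i hi _ h2
  have h4 : sz p.2 ≤ sz p := by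
    obtain ⟨W, L⟩ := p
    rw [sz_pair]
    simp only
    omega
  refine h3.trans ?_
  exact Nat.mul_le_mul (Nat.mul_le_mul_left _ (by omega)) (by omega)

private theorem FpD_ff : FP fun p : List ℕ × List Ed => p.2.foldl (FpD_g p) (FpD_s p) :=
  FP.foldA (g := FpD_g) FpD_fg (B := fun n => 20 * (n + 1) * (n + 1)) (by fun_prop) FP.snd FpD_fs FpD_bd

theorem fp_slv {W : α → List ℕ} {L : α → List Ed} (hW : FP W) (hL : FP L) : FP fun a => slv (W a) (L a) := by
  have h1 : FP fun a => ((L a).foldl (FpD_g (W a, L a)) (FpD_s (W a, L a))) := FpD_ff.comp (hW.pair hL)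
  have h2 : FP fun a => ((L a).foldl (FpD_g (W a, L a)) (FpD_s (W a, L a))).1 := FP.fst.comp h1
  exact h2

end

end Pool.Agent.FRN
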