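import Pool.Agent.FRN.Alg
import Pool.Agent.BEO.FpC
import Pool.Agent.G4.UPAuto

/-!
# FRN/FpP: polynomial time: parsing

The remainder modulo 3 of a natural number is a fold over its bits, `m3` follows from the coding of the integers as pairs of natural
numbers.  The vertices, edges and half edges of the input are computed by filters and maps over ranges.
-/

set_option autoImplicit false

namespace Pool.Agent.FRN

open Turing Function N487b59b3 N68a2faeb Pool.Agent.Helper22 Pool.Agent.Helper6.WB Pool.Agent.Helper49.Cons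
open Pool.Agent.BEO Pool.Agent.PQE Pool.Agent.G4

section

variable {α : Type} [N487b59b3 α]

private def FpP_ad (r w : ℕ) : ℕ :=
  if decide (w = 1) then (if decide (r = 0) then 1 else if decide (r = 1) then 2 else 0)
  else (if decide (r = 0) then 2 else if decide (r = 1) then 0 else 1)

private def FpP_up (s : ℕ × ℕ) (b : Bool) : ℕ × ℕ :=
  (if b then FpP_ad s.1 s.2 else s.1, if decide (s.2 = 1) then 2 else 1)

private theorem FpP_ad_eq (r w : ℕ) (hr : r < 3) (hw : w = 1 ∨ w = 2) : FpP_ad r w = (r + w) % 3 := by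
  unfold FpP_ad
  have h1 : r = 0 ∨ r = 1 ∨ r = 2 := by omega
  rcases h1 with rfl | rfl | rfl <;> rcases hw with rfl | rfl <;> rfl

private theorem FpP_up_ok (s : ℕ × ℕ) (b : Bool) (hr : s.1 < 3) (hw : s.2 = 1 ∨ s.2 = 2) :
    (FpP_up s b).1 < 3 ∧ ((FpP_up s b).2 = 1 ∨ (FpP_up s b).2 = 2) ∧
      (FpP_up s b).1 % 3 = (s.1 + s.2 * b.toNat) % 3 ∧ (FpP_up s b).2 % 3 = (2 * s.2) % 3 := by
  obtain ⟨r, w⟩ := s
  simp only at hr hw
  have h1 := FpP_ad_eq r w hr hw
  unfold FpP_up
  rcases hw with rfl | rfl <;> cases b <;> simp [h1] <;> omega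

private theorem FpP_fold (n : ℕ) : ∀ r w : ℕ, r < 3 → (w = 1 ∨ w = 2) →
    ((Computability.encodeNat n).foldl FpP_up (r, w)).1 = (r + w * n) % 3 := by
  induction n using Nat.strong_induction_on with
  | _ n ih =>
    intro r w hr hw
    obtain ⟨b, m, rfl⟩ : ∃ b m, n = Nat.bit b m := ⟨n.bodd, n.div2, (Nat.bit_bodd_div2 n).symm⟩
    rw [encodeNat_bit]
    split_ifs with h0
    · obtain ⟨rfl, rfl⟩ := h0
      simp only [List.foldl_nil, Nat.bit_false, Nat.mul_zero, Nat.add_zero]
      omega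
    · rw [List.foldl_cons]
      have h1 := FpP_up_ok (r, w) b hr hw
      simp only at h1
      obtain ⟨h2, h3, h4, h5⟩ := h1
      have h6 : m < Nat.bit b m := by
        rw [Nat.bit_val]
        cases b
        · have : m ≠ 0 := fun h => h0 ⟨h, rfl⟩
          simp only [Bool.toNat_false]
          omega
        · simp only [Bool.toNat_true]
          omega
      have h7 := ih m h6 (FpP_up (r, w) b).1 (FpP_up (r, w) b).2 h2 h3
      rw [Prod.mk.eta] at h7
      rw [h7, Nat.bit_val]
      rw [Nat.add_mod, h4, Nat.mul_mod, h5, ← Nat.mul_mod, ← Nat.add_mod]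
      congr 1
      ring

private theorem FpP_mod {f : α → ℕ} (hf : FP f) : FP fun a => f a % 3 := by
  have h1 : FP fun a => (Computability.encodeNat (f a)).foldl (fun s b => FpP_up s b) (0, 1) := by
    refine FP.foldA (g := fun (_ : α) (s : ℕ × ℕ) (b : Bool) => FpP_up s b)
      (l := fun a => Computability.encodeNat (f a)) (x := fun _ => (0, 1)) ?_ (B := fun _ => 7)
      (by fun_prop) (FP.bits hf) (FP.const _) ?_
    · unfold FpP_up FpP_ad
      fun_prop
    · intro a i hi
      have h2 : ((((Computability.encodeNat (f a)).take i).foldl (fun s b => FpP_up s b) (0, 1)).1 < 3) ∧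
          ((((Computability.encodeNat (f a)).take i).foldl (fun s b => FpP_up s b) (0, 1)).2 = 1 ∨
          (((Computability.encodeNat (f a)).take i).foldl (fun s b => FpP_up s b) (0, 1)).2 = 2) := by
        refine foldl_take_ind (P := fun _ (s : ℕ × ℕ) => s.1 < 3 ∧ (s.2 = 1 ∨ s.2 = 2)) ?_ ?_ i hi
        · exact ⟨by norm_num, Or.inl rfl⟩
        · rintro i s b - ⟨h3, h4⟩
          have h5 := FpP_up_ok s b h3 h4
          exact ⟨h5.1, h5.2.1⟩
      generalize ((Computability.encodeNat (f a)).take i).foldl (fun s b => FpP_up s b) (0, 1) = s at h2 ⊢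
      obtain ⟨r, w⟩ := s
      obtain ⟨h3, h4⟩ := h2
      simp only at h3 h4
      rw [sz_pair, sz_nat, sz_nat]
      have h5 : r.size ≤ 2 := by
        rw [Nat.size_le]
        omega
      have h6 : w.size ≤ 2 := by
        rw [Nat.size_le]
        omega
      omega
  refine (congrArg FP (funext fun a => ?_)).mp h1.fst'
  have h2 := FpP_fold (f a) 0 1 (by norm_num) (Or.inl rfl)
  simpa using h2

theorem fp_m3 {f : α → ℤ} (hf : FP f) : FP fun a => m3 (f a) := by
  have h1 : FP fun a => ((f a).toNat, (-(f a)).toNat) := FP.recode hf (fun _ => rfl)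
  have h2 : FP fun a => (f a).toNat + 2 * (-(f a)).toNat :=
    FP.natAdd h1.fst' (FP.natMul (FP.const 2) h1.snd')
  refine (congrArg FP (funext fun a => ?_)).mp (FpP_mod h2)
  unfold m3
  omega

theorem fp_wn {A : α → Mx} (hA : FP A) : FP fun a => wn (A a) := by
  unfold wn
  exact FP.range hA

private theorem FpP_cs {A : α → Mx} (hA : FP A) : FP fun a => cs (A a) := by
  unfold cs
  exact FP.range (FP.headD hA _)

private theorem FpP_ent {A : α → Mx} {i j : α → ℕ} (hA : FP A) (hi : FP i) (hj : FP j) :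
    FP fun a => ent (A a) (i a) (j a) := by
  unfold ent
  exact FP.getDNat (FP.getDNat hA hi _) hj _

private theorem FpP_nzr {A : α → Mx} {j : α → ℕ} (hA : FP A) (hj : FP j) :
    FP fun a => nzr (A a) (j a) := by
  unfold nzr
  have h1 : FP fun p : α × ℕ => ent (A p.1) p.2 (j p.1) :=
    FpP_ent (hA.comp FP.fst) FP.snd (hj.comp FP.fst)
  exact FP.filterA (h := fun a i => (ent (A a) i (j a)).1) h1.fst' (fp_wn hA)

private theorem FpP_lme {x : α → Ent} (hx : FP x) : FP fun a => lme' (x a) := by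
  unfold lme'
  have h1 := fp_m3 hx.snd'.snd'.fst'
  have h2 := fp_m3 hx.snd'.snd'.snd'.fst'
  have h3 := fp_m3 hx.snd'.snd'.snd'.snd'.fst'
  have h4 := fp_m3 hx.snd'.snd'.snd'.snd'.snd'.fst'
  exact FpP_mod (FP.natAdd (FP.natAdd (FP.natAdd h1 (FP.natMul (FP.const 2) h2)) (FP.natMul (FP.const 2) h3)) h4)

theorem fp_edsp {A : α → Mx} (hA : FP A) : FP fun a => eds' (A a) := by
  unfold eds'
  refine FP.flatMapA (h := fun a j => if decide ((nzr (A a) j).length = 2) then
    [(j, ((nzr (A a) j).getD 0 0, ((nzr (A a) j).getD 1 0,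
      (lme' (ent (A a) ((nzr (A a) j).getD 0 0) j) + 2 * lme' (ent (A a) ((nzr (A a) j).getD 1 0) j)) % 3)))]
    else []) ?_ (FpP_cs hA)
  have hA' : FP fun p : α × ℕ => A p.1 := hA.comp FP.fst
  have hj : FP fun p : α × ℕ => p.2 := FP.snd
  have h0 : FP fun p : α × ℕ => nzr (A p.1) p.2 := FpP_nzr hA' hj
  have h1 : FP fun p : α × ℕ => (nzr (A p.1) p.2).getD 0 0 := FP.getDNat h0 (FP.const 0) 0
  have h2 : FP fun p : α × ℕ => (nzr (A p.1) p.2).getD 1 0 := FP.getDNat h0 (FP.const 1) 0
  have h3 : FP fun p : α × ℕ => lme' (ent (A p.1) ((nzr (A p.1) p.2).getD 0 0) p.2) :=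
    FpP_lme (FpP_ent hA' h1 hj)
  have h4 : FP fun p : α × ℕ => lme' (ent (A p.1) ((nzr (A p.1) p.2).getD 1 0) p.2) :=
    FpP_lme (FpP_ent hA' h2 hj)
  have h5 := FpP_mod (FP.natAdd h3 (FP.natMul (FP.const 2) h4))
  exact FP.ite (FP.natEq (FP.lengthNat h0) (FP.const 2)) (FP.cons (hj.pair (h1.pair (h2.pair h5))) (FP.const [])) (FP.const [])

theorem fp_hfs {A : α → Mx} (hA : FP A) : FP fun a => hfs (A a) := by
  unfold hfs
  refine FP.flatMapA (h := fun a j => if decide ((nzr (A a) j).length = 1) then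
    [(nzr (A a) j).getD 0 0] else []) ?_ (FpP_cs hA)
  have hA' : FP fun p : α × ℕ => A p.1 := hA.comp FP.fst
  have hj : FP fun p : α × ℕ => p.2 := FP.snd
  have h0 : FP fun p : α × ℕ => nzr (A p.1) p.2 := FpP_nzr hA' hj
  have h1 : FP fun p : α × ℕ => (nzr (A p.1) p.2).getD 0 0 := FP.getDNat h0 (FP.const 0) 0
  exact FP.ite (FP.natEq (FP.lengthNat h0) (FP.const 1)) (FP.cons h1 (FP.const [])) (FP.const [])

end

end Pool.Agent.FRN
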