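import Pool.Agent.FRN.Alg
import Pool.Agent.BEO.FpH
import Pool.Agent.G4.UPAuto

/-!
# FRN/FpR: polynomial time: the fourth root

PROOF PLAN.  Tools: `fun_prop` after `open Pool.Agent.G4` (G4/UPAuto: maps, filters, flatMap, any, all, zipWith, conditions, `FP.eqD`, `FP.headDA`; `FP.foldA`, `FP.iterA` for folds and iterations with a bound on the sizes of the states), BEO/FpB, FpC (`fp_look`, `fp_memb`, `fp_comp`, `fp_eq`), PQE/Zf (`FP.zadd`, `FP.zmul`, `FP.zsum`, `FP.lk`), Helper22/Typed.  `fp_half` (BEO/FpH), `FP.bits`; the fold in `rt4`: the state `s` satisfies `s ^ 4 ≤ n`, so `s ≤ n`; `pws`: the powers are at most `2 ^ l.length`, their number is `l.length + 1`.  Multiplication of natural numbers: Helper6/WB/Arith, Helper47/TR/AP.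
-/

set_option autoImplicit false

namespace Pool.Agent.FRN

open Turing Function N487b59b3 N68a2faeb Pool.Agent.Helper22 Pool.Agent.Helper6.WB Pool.Agent.Helper49.Cons
open Pool.Agent.BEO Pool.Agent.PQE Pool.Agent.G4

section

variable {α : Type} [N487b59b3 α]

private theorem FpR_pws : FP fun l : List Bool => pws l := by
  refine FP.foldA (g := fun (_ : List Bool) (p : List ℕ) (_ : Bool) => (2 * p.headD 1) :: p) ?_
    (B := fun n => (n + 1) * (2 * (n + 1) + 1)) (by fun_prop) FP.id (FP.const [1]) ?_
  · have h1 : FP fun p : List Bool × (List ℕ × Bool) => p.2.1 := by fun_prop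
    have h2 : FP fun p : List Bool × (List ℕ × Bool) => p.2.1.headD 1 := FP.headD h1 _
    exact FP.cons (FP.natMul (FP.const 2) h2) h1
  · intro l i hi
    have h := foldl_take_ind (P := fun i (s : List ℕ) => s.length = i + 1 ∧ ∀ x ∈ s, x ≤ 2 ^ i)
      (g := fun (p : List ℕ) (_ : Bool) => (2 * p.headD 1) :: p) (l := l) (x := [1]) (by simp) (by
        rintro i s b - ⟨h1, h2⟩
        refine ⟨by rw [List.length_cons, h1], ?_⟩
        intro x hx
        rcases List.mem_cons.1 hx with rfl | hx
        · cases s with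
          | nil => simp at h1
          | cons y s =>
            have h3 := h2 y List.mem_cons_self
            rw [List.headD_cons, pow_succ]
            omega
        · exact (h2 x hx).trans (Nat.pow_le_pow_right (by norm_num) (Nat.le_succ i))) i hi
    obtain ⟨h1, h2⟩ := h
    have h3 : ∀ x ∈ (l.take i).foldl (fun (p : List ℕ) (_ : Bool) => (2 * p.headD 1) :: p) [1],
        sz x ≤ i + 1 := by
      intro x hx
      rw [sz_nat, Nat.size_le]
      exact lt_of_le_of_lt (h2 x hx) (Nat.pow_lt_pow_right (by norm_num) (Nat.lt_succ_self i))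
    have h4 := sz_le_length_mul h3
    rw [h1] at h4
    have h5 : i ≤ sz l := hi.trans (length_le_sz l)
    refine h4.trans ?_
    exact Nat.mul_le_mul (by omega) (by omega)

private theorem FpR_rt4 : FP fun n : ℕ => rt4 n := by
  refine FP.foldA (g := fun (n : ℕ) (s p : ℕ) =>
      if decide ((s + p) * (s + p) * ((s + p) * (s + p)) ≤ n) then s + p else s) ?_
    (B := fun n => n) PB.id (FpR_pws.comp (FP.bits FP.id)) (FP.const 0) ?_
  · have h1 : FP fun p : ℕ × (ℕ × ℕ) => p.2.1 + p.2.2 := FP.natAdd (by fun_prop) (by fun_prop)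
    have h2 := FP.natMul h1 h1
    exact FP.ite (Pool.Agent.Helper47.TR.FP.natLe (FP.natMul h2 h2) (by fun_prop)) h1 (by fun_prop)
  · intro n i hi
    have h := foldl_take_ind (P := fun _ (s : ℕ) => s * s * (s * s) ≤ n)
      (g := fun (s p : ℕ) => if decide ((s + p) * (s + p) * ((s + p) * (s + p)) ≤ n) then s + p else s)
      (l := pws (Computability.encodeNat n)) (x := 0) (by simp) (by
        intro i s b _ hs
        by_cases h : (s + b) * (s + b) * ((s + b) * (s + b)) ≤ n
        · simp only [h, decide_true, if_true]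
        · simpa only [h, decide_false, Bool.false_eq_true, if_false] using hs) i hi
    have h1 := h
    show sz ((List.take i (pws (Computability.encodeNat n))).foldl _ 0) ≤ sz n
    rw [sz_nat, sz_nat]
    apply Nat.size_le_size
    refine le_trans ?_ h1
    generalize (List.take i (pws (Computability.encodeNat n))).foldl
      (fun (s p : ℕ) => if decide ((s + p) * (s + p) * ((s + p) * (s + p)) ≤ n) then s + p else s) 0 = s
    rcases Nat.eq_zero_or_pos s with rfl | hs
    · exact Nat.zero_le _
    · have h2 : 1 ≤ s * (s * s) := Nat.mul_pos hs (Nat.mul_pos hs hs)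
      calc s = s * 1 := (Nat.mul_one s).symm
        _ ≤ s * (s * (s * s)) := Nat.mul_le_mul_left s h2
        _ = s * s * (s * s) := by ring

theorem fp_rt4 {f : α → ℕ} (hf : FP f) : FP fun a => rt4 (f a) :=
  FpR_rt4.comp hf

private theorem FpR_dv4 : FP fun q : List ℕ × ℕ => dv4 q.1 q.2 := by
  refine FP.foldA (g := fun (_ : List ℕ × ℕ) (n : ℕ) (_ : ℕ) => n / 2 / 2) ?_
    (B := fun n => n) PB.id FP.fst FP.snd ?_
  · exact fp_half (fp_half (by fun_prop))
  · rintro ⟨W, n⟩ i hi
    have h := foldl_take_ind (P := fun _ (s : ℕ) => s ≤ n)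
      (g := fun (n : ℕ) (_ : ℕ) => n / 2 / 2) (l := W) (x := n) le_rfl (by
        intro i s b _ hs
        exact ((Nat.div_le_self _ _).trans (Nat.div_le_self _ _)).trans hs) i hi
    show sz ((List.take i W).foldl (fun (n : ℕ) (_ : ℕ) => n / 2 / 2) n) ≤ sz (W, n)
    have h1 := Nat.size_le_size h
    rw [sz_pair, sz_nat, sz_nat]
    omega

theorem fp_dv4 {W : α → List ℕ} {f : α → ℕ} (hW : FP W) (hf : FP f) : FP fun a => dv4 (W a) (f a) :=
  FpR_dv4.comp (f := fun a => (W a, f a)) (FP.pair hW hf)

end

end Pool.Agent.FRN
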