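import Pool.Agent.FRN.DefL

/-!
# FRN/Rt: the fourth root

The list `pws l` is `[2 ^ l.length, .., 2, 1]`, and the fold in `rt4` keeps `s ^ 4 ≤ n < (s + 2 p) ^ 4` for the next power `p`.
-/

set_option autoImplicit false

noncomputable section

open scoped Classical

namespace Pool.Agent.FRN

open Pool.Agent.FRM Pool.Agent.FRM.GG Pool.Agent.BEO Pool.Agent.PQE

/-- the powers of two, largest first -/
private def Rt_pl : ℕ → List ℕ
  | 0 => [1]
  | k + 1 => 2 ^ (k + 1) :: Rt_pl k

private theorem Rt_pl_head (k : ℕ) : (Rt_pl k).headD 1 = 2 ^ k := by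
  cases k with
  | zero => simp [Rt_pl]
  | succ k => simp [Rt_pl]

private theorem Rt_pws_aux (l : List Bool) : ∀ k : ℕ,
    l.foldl (fun p _ => (2 * p.headD 1) :: p) (Rt_pl k) = Rt_pl (k + l.length) := by
  induction l with
  | nil => intro k; simp
  | cons b l ih =>
    intro k
    have h : (2 * (Rt_pl k).headD 1) :: Rt_pl k = Rt_pl (k + 1) := by
      rw [Rt_pl_head, Rt_pl, pow_succ, mul_comm]
    rw [List.foldl_cons, h, ih (k + 1), List.length_cons]
    congr 1
    omega

private theorem Rt_pws (l : List Bool) : pws l = Rt_pl l.length := by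
  have h := Rt_pws_aux l 0
  rw [zero_add] at h
  exact h

private theorem Rt_fold (n : ℕ) : ∀ (k s : ℕ), s ^ 4 ≤ n → n < (s + 2 ^ (k + 1)) ^ 4 →
    ((Rt_pl k).foldl (fun s p => if decide ((s + p) * (s + p) * ((s + p) * (s + p)) ≤ n) then s + p else s) s) ^ 4 ≤ n ∧
    n < ((Rt_pl k).foldl (fun s p => if decide ((s + p) * (s + p) * ((s + p) * (s + p)) ≤ n) then s + p else s) s + 1) ^ 4 := by
  intro k
  induction k with
  | zero =>
    intro s h1 h2
    have e : ∀ x : ℕ, x * x * (x * x) = x ^ 4 := fun x => by ring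
    simp only [Rt_pl, List.foldl_cons, List.foldl_nil, e, decide_eq_true_eq]
    split_ifs with h
    · refine ⟨h, ?_⟩
      have : s + 2 ^ (0 + 1) = s + 1 + 1 := by norm_num
      rw [this] at h2
      exact h2
    · exact ⟨h1, not_le.mp h⟩
  | succ k ih =>
    intro s h1 h2
    have e : ∀ x : ℕ, x * x * (x * x) = x ^ 4 := fun x => by ring
    rw [Rt_pl, List.foldl_cons]
    apply ih
    · rw [e]
      by_cases h : (s + 2 ^ (k + 1)) ^ 4 ≤ n
      · rw [if_pos (by simpa using h)]
        exact h
      · rw [if_neg (by simpa using h)]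
        exact h1
    · rw [e]
      by_cases h : (s + 2 ^ (k + 1)) ^ 4 ≤ n
      · rw [if_pos (by simpa using h)]
        have : s + 2 ^ (k + 1) + 2 ^ (k + 1) = s + 2 ^ (k + 1 + 1) := by ring
        rw [this]
        exact h2
      · rw [if_neg (by simpa using h)]
        exact not_le.mp h

private theorem Rt_size (n : ℕ) : n < (0 + 2 ^ ((Computability.encodeNat n).length + 1)) ^ 4 := by
  have h1 : n < 2 ^ (Computability.encodeNat n).length := by
    rw [Pool.Agent.PQE.bits_length]
    exact Nat.lt_size_self n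
  have h2 : 2 ^ (Computability.encodeNat n).length ≤ 2 ^ ((Computability.encodeNat n).length + 1) :=
    Nat.pow_le_pow_right (by norm_num) (Nat.le_succ _)
  have h3 : 2 ^ ((Computability.encodeNat n).length + 1) ≤
      (2 ^ ((Computability.encodeNat n).length + 1)) ^ 4 := Nat.le_self_pow (by norm_num) _
  rw [zero_add]
  omega

private theorem Rt_spec (n : ℕ) : rt4 n ^ 4 ≤ n ∧ n < (rt4 n + 1) ^ 4 := by
  have h := Rt_fold n (Computability.encodeNat n).length 0 (by simp) (Rt_size n)
  rw [← Rt_pws] at h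
  exact h

theorem rt4_pow (m : ℕ) : rt4 (m ^ 4) = m := by
  obtain ⟨h1, h2⟩ := Rt_spec (m ^ 4)
  have h3 : rt4 (m ^ 4) ≤ m := (Nat.pow_le_pow_iff_left (by norm_num)).mp h1
  have h4 : m < rt4 (m ^ 4) + 1 := (Nat.pow_lt_pow_iff_left (by norm_num)).mp h2
  omega

theorem dv4_eq (W : List ℕ) (m : ℕ) : dv4 W (4 ^ W.length * m) = m := by
  induction W with
  | nil => simp [dv4]
  | cons a W ih =>
    have h : 4 ^ (a :: W).length * m / 2 / 2 = 4 ^ W.length * m := by
      have e : 4 ^ (a :: W).length * m = 4 * (4 ^ W.length * m) := by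
        rw [List.length_cons, pow_succ]
        ring
      rw [e]
      omega
    unfold dv4 at ih ⊢
    rw [List.foldl_cons, h]
    exact ih

theorem root_eq (r N : ℕ) : dv4 (List.range r) (rt4 (256 ^ r * N ^ 4)) = N := by
  have h : 256 ^ r * N ^ 4 = (4 ^ r * N) ^ 4 := by
    rw [mul_pow, ← pow_mul, mul_comm r 4, pow_mul]
    norm_num
  rw [h, rt4_pow]
  have h2 := dv4_eq (List.range r) N
  rw [List.length_range] at h2
  exact h2

end Pool.Agent.FRN
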