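import Pool.Agent.FRN.Lp
import Pool.Agent.FRN.Fm
import Pool.Agent.FRN.Rt
import Pool.Agent.FRN.FpD
import Pool.Agent.FRN.FpR
import Pool.Agent.FRN.FpP

/-!
# FRN/Fin2: final assembly

`nb` is computable in polynomial time, and it is the number of bases of a frame matrix over the 2-uniform partial field.
-/

set_option autoImplicit false

noncomputable section

open scoped Classical

namespace Pool.Agent.FRN

open Pool.Agent.FRM Pool.Agent.FRM.GG Pool.Agent.BEO Pool.Agent.PQE

open N487b59b3 N68a2faeb Pool.Agent.Helper22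

variable {r n : ℕ}

theorem fp_nb : FP nb := by
  have hA : FP (fun A : Mx => A) := FP.id
  have hw := fp_wn hA
  have hH := fp_hfs hA
  have hL := fp_edsp hA
  have hs := fp_slv hw hL
  have hR := fp_rws hw hH hL hs
  exact fp_dv4 hw (fp_rt4 (fp_adet (FP.map (f := fun p : ℕ × List In => p.1) FP.fst hR)
    (fp_gr hR)))

private theorem Fin2_zero (A : Matrix (Fin 0) (Fin n) KU) : nB A = 1 := by
  have h : (Finset.univ.filter fun S : Finset (Fin n) => IsBas A S) = {∅} := by
    ext S
    rw [Finset.mem_filter, Finset.mem_singleton]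
    constructor
    · rintro ⟨-, h1, -⟩
      exact Finset.card_eq_zero.1 h1
    · rintro rfl
      refine ⟨Finset.mem_univ _, Finset.card_empty, ?_⟩
      rw [Matrix.det_isEmpty]
      exact one_ne_zero
  unfold nB
  rw [h, Finset.card_singleton]

private theorem Fin2_nil : nb [] = 1 := by
  have h1 : nb [] = dv4 [] (rt4 1) := rfl
  have h2 : rt4 1 = 1 := by
    have := rt4_pow 1
    rw [one_pow] at this
    exact this
  rw [h1, h2]
  rfl

theorem nb_eq (C : Matrix (Fin r) (Fin n) Ent) (hU : IsU2 (C.map vE)) (hF : Frame (C.map vE)) :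
    nb (mx C) = nB (C.map vE) := by
  rcases Nat.eq_zero_or_pos r with h0 | hr
  · subst h0
    have h1 : mx C = [] := rfl
    rw [h1, Fin2_nil, Fin2_zero]
  · have hL := rep_eds hr C
    obtain ⟨hA, hG⟩ := slv_good hL (gC_lf hr C) (gC_phi hr C hU hF)
    unfold nb
    rw [wn_mx, adet_fin hr C hF hA hG, root_eq]

theorem main2 : ∃ f : Mx → ℕ, IsPolyTime f ∧ ∀ (r n : ℕ) (C : Matrix (Fin r) (Fin n) Ent), IsU2 (C.map vE) →
    Frame (C.map vE) → f (mx C) = nB (C.map vE) :=
  ⟨nb, (isPolyTime_iff nb).2 fp_nb, fun _ _ C hU hF => nb_eq C hU hF⟩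

end Pool.Agent.FRN
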