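import Pool.Agent.FRN.Alg
import Pool.Agent.BEO.FpC
import Pool.Agent.G4.UPAuto

/-!
# FRN/FpA: polynomial time: forest and overlaps
-/

set_option autoImplicit false

namespace Pool.Agent.FRN

open Turing Function N487b59b3 N68a2faeb Pool.Agent.Helper22 Pool.Agent.Helper6.WB Pool.Agent.Helper49.Cons
open Pool.Agent.BEO Pool.Agent.PQE Pool.Agent.G4

section

variable {α : Type} [N487b59b3 α]

private theorem FpA_lb {W : α → List ℕ} {L : α → List Ed} {x : α → ℕ} (hW : FP W) (hL : FP L) (hx : FP x) :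
    FP fun a => lb (W a) (L a) (x a) := by
  have h1 : FP fun a => rl (L a) := by
    unfold rl
    fun_prop
  unfold lb
  exact fp_look (fp_comp hW h1) hx hx

theorem fp_cn {W : α → List ℕ} {L : α → List Ed} {x y : α → ℕ} (hW : FP W) (hL : FP L) (hx : FP x) (hy : FP y) :
    FP fun a => cn (W a) (L a) (x a) (y a) := by
  unfold cn
  exact fp_eq (FpA_lb hW hL hx) (FpA_lb hW hL hy)

theorem fp_er {L : α → List Ed} {j : α → ℕ} (hL : FP L) (hj : FP j) : FP fun a => er (L a) (j a) := by
  unfold er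
  fun_prop

theorem sz_er (L : List Ed) (j : ℕ) : sz (er L j) ≤ sz L := sz_filter_le _ L

theorem fp_frs {W : α → List ℕ} {L : α → List Ed} (hW : FP W) (hL : FP L) : FP fun a => frs (W a) (L a) := by
  obtain ⟨B, hB, -, hBL⟩ := hL.bound
  have h1 : FP fun p : α × (List Ed × Ed) => er p.2.1 p.2.2.1 := fp_er (by fun_prop) (by fun_prop)
  have h2 : FP fun p : α × (List Ed × Ed) => cn (W p.1) (er p.2.1 p.2.2.1) p.2.2.2.1 p.2.2.2.2.1 :=
    fp_cn (hW.comp FP.fst) h1 (by fun_prop) (by fun_prop)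
  have h3 : FP fun p : α × (List Ed × Ed) =>
      if cn (W p.1) (er p.2.1 p.2.2.1) p.2.2.2.1 p.2.2.2.2.1 then er p.2.1 p.2.2.1 else p.2.1 :=
    FP.ite h2 h1 (by fun_prop)
  refine FP.foldA (g := fun a T e => if cn (W a) (er T e.1) e.2.1 e.2.2.1 then er T e.1 else T) h3 hB hL hL ?_
  intro a i _
  have h4 : ∀ (l : List Ed) (T : List Ed),
      sz (l.foldl (fun T e => if cn (W a) (er T e.1) e.2.1 e.2.2.1 then er T e.1 else T) T) ≤ sz T := by
    intro l
    induction l with
    | nil => exact fun T => le_rfl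
    | cons e l ih =>
      intro T
      rw [List.foldl_cons]
      refine (ih _).trans ?_
      split_ifs
      · exact sz_er T e.1
      · exact le_rfl
  exact (h4 _ _).trans (hBL a)

private theorem FpA_onc {W : α → List ℕ} {T : α → List Ed} {c f : α → Ed} (hW : FP W) (hT : FP T) (hc : FP c)
    (hf : FP f) : FP fun a => onc (W a) (T a) (c a) (f a) := by
  unfold onc
  have h1 : FP fun a => er (T a) (c a).1 := fp_er hT (by fun_prop)
  exact FP.not (fp_cn hW h1 (by fun_prop) (by fun_prop))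

theorem fp_ov {W : α → List ℕ} {T : α → List Ed} {f g : α → Ed} (hW : FP W) (hT : FP T) (hf : FP f) (hg : FP g) :
    FP fun a => ov (W a) (T a) (f a) (g a) := by
  unfold ov
  refine FP.anyA (h := fun a c => onc (W a) (T a) c (f a) && onc (W a) (T a) c (g a)) ?_ hT
  exact FP.and (FpA_onc (hW.comp FP.fst) (hT.comp FP.fst) FP.snd (hf.comp FP.fst))
    (FpA_onc (hW.comp FP.fst) (hT.comp FP.fst) FP.snd (hg.comp FP.fst))

end

end Pool.Agent.FRN
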