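import Pool.Agent.FRN.Eg
import Pool.Agent.FRM.Ear1

/-!
# FRN/Ge: gauge equivalence extends along ears

Proof by `ear_induction`: for an ear of `B'` the path `R` of `ESame` has the same gain, so `σ` and `τ` have the same holonomy along the
ear and along `R`; `gq_hl` for `R`; `ext_gauge` changes the gauge only at the inner vertices of the ear.
-/

set_option autoImplicit false

noncomputable section

open scoped Classical

namespace Pool.Agent.FRN

open Pool.Agent.FRM Pool.Agent.FRM.GG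

variable {V E Q : Type} [AddCommGroup Q] {Γ : GG V E Q}


theorem gauge_ext {G : Type} [Group G] (hΓ : Γ.C2) {B₀ : Finset E} (hB : B₀ ⊆ Γ.A) (h2 : (Γ.on B₀).C2) (hE : ESame Γ B₀)
    {σ τ : E → G} (hσ : Bal Γ σ) (hτ : Bal Γ τ) (a₀ : V → G) (h₀ : Gq Γ σ τ a₀ B₀) :
    ∃ a : V → G, (∀ z ∈ (Γ.on B₀).VS, a z = a₀ z) ∧ Gq Γ σ τ a Γ.A := by
  refine ear_induction hΓ hB h2
    (fun B' => ∃ a : V → G, (∀ z ∈ (Γ.on B₀).VS, a z = a₀ z) ∧ Gq Γ σ τ a B')
    ⟨a₀, fun z _ => rfl, h₀⟩ ?_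
  rintro B' a b l hBB hBA hC ⟨f, hf0, hf⟩ hear
  obtain ⟨R, hR, hg⟩ := hE B' hBB hBA hC a b l hear
  have hcy := ear_cy hBA hear hR
  have hs := hσ _ _ _ _ hcy hg.symm
  have ht := hτ _ _ _ _ hcy hg.symm
  obtain ⟨hR1, hR2⟩ := (pt_on hBA).1 hR
  have h1 : hl τ R = f a * hl σ R * (f b)⁻¹ := gq_hl hf hR1.1 hR2
  obtain ⟨a', h3, h4, h5, h6⟩ := ext_gauge σ τ f hear.pt hear.ne (by rw [ht, hs]; exact h1)
  have h7 : ∀ z ∈ (Γ.on B').VS, a' z = f z := by
    intro z hz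
    by_cases hzl : z ∈ Γ.vs a l
    · rcases hear.int z hzl hz with rfl | rfl
      · exact h4
      · exact h5
    · exact h3 z hzl
  refine ⟨a', ?_, ?_⟩
  · intro z hz
    obtain ⟨e, he, hze⟩ := hz
    rw [h7 z ⟨e, hBB he, hze⟩]
    exact hf0 z ⟨e, he, hze⟩
  · intro e he
    rcases Finset.mem_union.1 he with he | he
    · rw [h7 (Γ.s e) ⟨e, he, Or.inl rfl⟩, h7 (Γ.t e) ⟨e, he, Or.inr rfl⟩]
      exact hf e he
    · obtain ⟨d, hd, rfl⟩ := (mem_eds _ _).1 he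
      exact h6 d hd

end Pool.Agent.FRN
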