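import Pool.Agent.FRN.Sx
import Pool.Agent.FRN.En4

/-!
# FRN/Gr: the greedy step
-/

set_option autoImplicit false

noncomputable section

open scoped Classical

namespace Pool.Agent.FRN

open Pool.Agent.FRM Pool.Agent.FRM.GG

variable {r n : ℕ} {Γ : GG (Fin r) (Fin n) XG} {T : Finset (Fin n)}

theorem greedy (hT : Fst Γ T) (lf : ∀ e ∈ Γ.A, Γ.s e ≠ Γ.t e) (hΦ : Γ.Phi (FU : Set XG)) {D F : Finset (Fin n)} (hD : D ⊆ Γ.A)
    (hDT : ∀ d ∈ D, d ∉ T) (hFD : F ⊆ D) {f : Fin n} (hf : f ∈ Γ.A) (hfT : f ∉ T) (hfD : f ∉ D)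
    (hO : F = ∅ ∨ (Ocn Γ T F ∧ ∃ f' ∈ F, Ovl Γ T f f'))
    (hN : ∀ d ∈ D, d ∉ F → ∀ f' ∈ insert f F, ¬ Ovl Γ T d f') {τ : Fin n → Hqˣ} (hτ : Good (Γ.on (T ∪ D)) τ)
    (hk : ∀ e ∈ T ∪ D, kc (τ e : Hq) = lm (Γ.g e)) {t : Hqˣ} (ht : HU (t : Hq)) (hkt : kc (t : Hq) = lm (Γ.g f))
    (hmin : ∀ t' : Hqˣ, HU (t' : Hq) → kc (t' : Hq) = lm (Γ.g f) →
      Wt Γ (T ∪ insert f D) (Function.update τ f t) ≤ Wt Γ (T ∪ insert f D) (Function.update τ f t')) :
    Good (Γ.on (T ∪ insert f D)) (Function.update τ f t) := by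
  have hdec : (fun a b : Fin n => Classical.propDecidable (a = b)) = instDecidableEqFin n := by
    funext a b
    exact Subsingleton.elim _ _
  have hstep := step_ex hT lf hΦ hD hDT hFD hf hfT hfD hO (τ := τ)
  rw [hdec] at hstep
  obtain ⟨t₀, ht₀, hk₀, hG₀⟩ := hstep hN hτ hk
  have hS : T ∪ insert f D ⊆ Γ.A :=
    Finset.union_subset hT.sub (Finset.insert_subset hf hD)
  have hm : ∀ e ∈ T ∪ insert f D, e ≠ f → e ∈ T ∪ D := by
    intro e he hef
    rcases Finset.mem_union.1 he with h | h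
    · exact Finset.mem_union_left _ h
    · exact Finset.mem_union_right _ ((Finset.mem_insert.1 h).resolve_left hef)
  refine (wt_min hΦ lf hS (σ := Function.update τ f t₀) (τ := Function.update τ f t) ?_ ?_ hG₀).2
    (hmin t₀ ht₀ hk₀)
  · intro e he
    by_cases hef : e = f
    · rw [hef, Function.update_self]
      exact ht
    · rw [Function.update_of_ne hef]
      exact hτ.hu e (hm e he hef)
  · intro e he
    by_cases hef : e = f
    · rw [hef, Function.update_self]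
      exact hkt
    · rw [Function.update_of_ne hef]
      exact hk e (hm e he hef)

theorem good_start {V E : Type} {Γ : GG V E XG} {T : Finset E} (hac : ∀ c ∈ T, ¬ Cn Γ (T.erase c) (Γ.s c) (Γ.t c))
    {τ : E → Hqˣ} (hτ : ∀ e ∈ T, HU (τ e : Hq)) : Good (Γ.on T) τ := by
  refine ⟨hτ, ?_, ?_⟩
  · intro x y P P' h _
    rw [forest_cy hac h]
  · intro x y P P' h hne
    exact absurd (by rw [forest_cy hac h]) hne

end Pool.Agent.FRN
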