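import Pool.Agent.FRN.Cl

/-!
# FRN/Tl: the spanning forest of a list of edges, overlaps

The spanning forest `frs` is obtained by removing edges as long as their ends stay connected; the tests `onc` and `ov` decide
membership in fundamental cycles and overlaps of them.
-/

set_option autoImplicit false

noncomputable section

open scoped Classical

namespace Pool.Agent.FRN

open Pool.Agent.FRM Pool.Agent.FRM.GG Pool.Agent.BEO Pool.Agent.PQE

variable {r n : ℕ} {Γ : GG (Fin r) (Fin n) XG}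

private theorem Tl_mem {S : Finset (Fin n)} {c x : Fin n} :
    x ∈ @Finset.erase _ (fun a b => Classical.propDecidable (a = b)) S c ↔ x ≠ c ∧ x ∈ S :=
  @Finset.mem_erase _ (fun a b => Classical.propDecidable (a = b)) _ _ _

private theorem Tl_er (S : Finset (Fin n)) (j : Fin n) :
    @Finset.erase _ (fun a b => Classical.propDecidable (a = b)) S j = S.erase j := by
  ext x
  rw [Tl_mem, Finset.mem_erase]

private theorem Tl_cn {L : List Ed} {S : Finset (Fin n)} (h : RepE Γ L S) (j : Fin n) (x y : Fin r) :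
    cn (List.range r) (er L j.val) x.val y.val = true ↔
      Cn Γ (@Finset.erase _ (fun a b => Classical.propDecidable (a = b)) S j) x y := by
  rw [Tl_er]
  exact cn_iff (rep_er h j) x y

private theorem Tl_rep {L : List Ed} {S : Finset (Fin n)} (h : RepE Γ L S) (j : Fin n) :
    RepE Γ (er L j.val) (@Finset.erase _ (fun a b => Classical.propDecidable (a = b)) S j) := by
  rw [Tl_er]
  exact rep_er h j

private theorem Tl_fold : ∀ (M Tl : List Ed) (S : Finset (Fin n)), RepE Γ Tl S → S ⊆ Γ.A →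
    (∀ f ∈ Γ.A, Cn Γ S (Γ.s f) (Γ.t f)) → (∀ e ∈ M, ∃ j : Fin n, e = ed Γ j) →
    (∀ c ∈ S, ed Γ c ∉ M → ¬ Cn Γ (@Finset.erase _ (fun a b => Classical.propDecidable (a = b)) S c) (Γ.s c) (Γ.t c)) →
    ∃ T : Finset (Fin n), RepE Γ (M.foldl (fun T e => if cn (List.range r) (er T e.1) e.2.1 e.2.2.1 then er T e.1
      else T) Tl) T ∧ Fst Γ T := by
  intro M
  induction M with
  | nil =>
    intro Tl S hT hS hsp _ hac
    exact ⟨S, hT, ⟨hS, fun c hc => hac c hc (by simp), hsp⟩⟩
  | cons e M ih =>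
    intro Tl S hT hS hsp hM hac
    obtain ⟨j, rfl⟩ := hM e (by simp)
    have hM' : ∀ e ∈ M, ∃ j : Fin n, e = ed Γ j := fun e he => hM e (List.mem_cons_of_mem _ he)
    rw [List.foldl_cons]
    have key := Tl_cn hT j (Γ.s j) (Γ.t j)
    have hne : ∀ c, c ≠ j → ed Γ c ∉ M → ed Γ c ∉ ed Γ j :: M := by
      intro c hc hcM hm
      rcases List.mem_cons.1 hm with h | h
      · exact hc (ed_inj (congrArg Prod.fst h))
      · exact hcM h
    by_cases hc : cn (List.range r) (er Tl j.val) (Γ.s j).val (Γ.t j).val = true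
    · have e1 : (if cn (List.range r) (er Tl (ed Γ j).1) (ed Γ j).2.1 (ed Γ j).2.2.1 = true then er Tl (ed Γ j).1
          else Tl) = er Tl j.val := if_pos hc
      rw [e1]
      have hcn := key.1 hc
      refine ih _ _ (Tl_rep hT j) ?_ ?_ hM' ?_
      · intro x hx
        exact hS (Tl_mem.1 hx).2
      · intro f hf
        refine cn_of_cn ?_ (hsp f hf)
        intro c hcS
        by_cases hcj : c = j
        · rw [hcj]
          exact hcn
        · exact cn_edge (Tl_mem.2 ⟨hcj, hcS⟩)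
      · intro c hcS hcM hcn'
        have h1 := Tl_mem.1 hcS
        refine hac c h1.2 (hne c h1.1 hcM) (cn_mono ?_ hcn')
        intro x hx
        have h2 := Tl_mem.1 hx
        exact Tl_mem.2 ⟨h2.1, (Tl_mem.1 h2.2).2⟩
    · have e1 : (if cn (List.range r) (er Tl (ed Γ j).1) (ed Γ j).2.1 (ed Γ j).2.2.1 = true then er Tl (ed Γ j).1
          else Tl) = Tl := if_neg hc
      rw [e1]
      refine ih _ _ hT hS hsp hM' ?_
      intro c hcS hcM
      by_cases hcj : c = j
      · rw [hcj]
        exact fun h => hc (key.2 h)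
      · exact hac c hcS (hne c hcj hcM)

theorem frs_fst {L : List Ed} (h : RepE Γ L Γ.A) :
    ∃ T : Finset (Fin n), RepE Γ (frs (List.range r) L) T ∧ Fst Γ T := by
  refine Tl_fold L L Γ.A h (Finset.Subset.refl _) (fun f hf => cn_edge hf) ?_ ?_
  · intro e he
    obtain ⟨j, _, hj⟩ := (h.mem e).1 he
    exact ⟨j, hj⟩
  · intro c hc hcL
    exact absurd ((h.mem _).2 ⟨c, hc, rfl⟩) hcL

theorem onc_iff {Tl : List Ed} {T : Finset (Fin n)} (h : RepE Γ Tl T) {c : Fin n} (hc : c ∈ T) (f : Fin n) :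
    onc (List.range r) Tl (ed Γ c) (ed Γ f) = true ↔ c ∈ Dl Γ T (Γ.s f) (Γ.t f) := by
  have key := Tl_cn h c (Γ.s f) (Γ.t f)
  rw [mem_dl]
  constructor
  · intro h1
    refine ⟨hc, fun h2 => ?_⟩
    have h3 := key.2 h2
    have h4 : (!(cn (List.range r) (er Tl c.val) (Γ.s f).val (Γ.t f).val)) = true := h1
    rw [h3] at h4
    exact absurd h4 (by decide)
  · intro h1
    have h3 : ¬ cn (List.range r) (er Tl c.val) (Γ.s f).val (Γ.t f).val = true := fun h2 => h1.2 (key.1 h2)
    change (!(cn (List.range r) (er Tl c.val) (Γ.s f).val (Γ.t f).val)) = true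
    rw [Bool.not_eq_true] at h3
    rw [h3]
    rfl

theorem ov_iff {Tl : List Ed} {T : Finset (Fin n)} (h : RepE Γ Tl T) (f g : Fin n) :
    ov (List.range r) Tl (ed Γ f) (ed Γ g) = true ↔ Ovl Γ T f g := by
  unfold ov Ovl
  rw [List.any_eq_true]
  constructor
  · rintro ⟨x, hx, hx2⟩
    obtain ⟨c, hc, rfl⟩ := (h.mem x).1 hx
    rw [Bool.and_eq_true, onc_iff h hc, onc_iff h hc] at hx2
    exact ⟨c, (@Finset.mem_inter _ (fun a b => Classical.propDecidable (a = b)) _ _ _).2 hx2⟩
  · rintro ⟨c, hc⟩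
    have h1 := (@Finset.mem_inter _ (fun a b => Classical.propDecidable (a = b)) _ _ _).1 hc
    have hcT : c ∈ T := (mem_dl.1 h1.1).1
    refine ⟨ed Γ c, (h.mem _).2 ⟨c, hcT, rfl⟩, ?_⟩
    rw [Bool.and_eq_true, onc_iff h hcT, onc_iff h hcT]
    exact h1

end Pool.Agent.FRN
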