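import Pool.Agent.FRN.Am
import Pool.Agent.FRN.Tl
import Pool.Agent.FRN.Gr

/-!
# FRN/Lp: the main loop

Invariant `Inv Γ T s D F U` for the state `s` = (assignment, current part, to do): `RepA s.1 (T ∪ D)`, `RepE Γ s.2.1 F`, `RepE Γ s.2.2 U`, `Γ.A = T ∪ D ∪ U` (disjoint), `F ⊆ D`, `F = ∅ ∨ Ocn Γ T F`, no edge in `D \ F` overlaps an edge in `F ∪ U`, `Good (Γ.on (T ∪ D)) (asv s.1)`, classes `kc (asv s.1 e) = lm (g e)` on `T ∪ D`.
Each step removes one edge from `U`; after `L.length` steps `U = ∅`.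
-/

set_option autoImplicit false

noncomputable section

open scoped Classical

namespace Pool.Agent.FRN

open Pool.Agent.FRM Pool.Agent.FRM.GG Pool.Agent.BEO Pool.Agent.PQE

variable {r n : ℕ} {Γ : GG (Fin r) (Fin n) XG}

structure Inv (Γ : GG (Fin r) (Fin n) XG) (T : Finset (Fin n)) (s : St) (D F U : Finset (Fin n)) : Prop where
  as : RepA s.1 (T ∪ D)
  cu : RepE Γ s.2.1 F
  td : RepE Γ s.2.2 U
  sub : ∀ e, e ∈ Γ.A ↔ e ∈ T ∨ e ∈ D ∨ e ∈ U
  d1 : ∀ e ∈ D, e ∉ T
  d2 : ∀ e ∈ U, e ∉ T ∧ e ∉ D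
  fd : F ⊆ D
  oc : F = ∅ ∨ Ocn Γ T F
  no : ∀ d ∈ D, d ∉ F → ∀ f ∈ F ∪ U, ¬ Ovl Γ T d f
  gd : Good (Γ.on (T ∪ D)) (asv s.1)
  cl : ∀ e ∈ T ∪ D, kc ((asv s.1 e : Hqˣ) : Hq) = lm (Γ.g e)

private theorem Lp_dec : (fun a b : Fin n => Classical.propDecidable (a = b)) = instDecidableEqFin n := by
  funext a b
  exact Subsingleton.elim _ _

private theorem Lp_ovl {Γ : GG (Fin r) (Fin n) XG} {T : Finset (Fin n)} {d f : Fin n} (h : Ovl Γ T d f) : Ovl Γ T f d := by
  obtain ⟨c, hc⟩ := h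
  have h1 := (@Finset.mem_inter _ (fun a b => Classical.propDecidable (a = b)) _ _ _).1 hc
  exact ⟨c, (@Finset.mem_inter _ (fun a b => Classical.propDecidable (a = b)) _ _ _).2 ⟨h1.2, h1.1⟩⟩

private theorem Lp_qu {t : ℕ} : HU ((qu t : Hqˣ) : Hq) := by
  rw [qu_val]
  exact hu_qv t

private theorem Lp_nil {L : List Ed} (h : RepE Γ L ∅) : L = [] := by
  rw [List.eq_nil_iff_forall_not_mem]
  intro e he
  obtain ⟨j, hj, -⟩ := (h.mem e).1 he
  exact absurd hj (Finset.notMem_empty j)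

private theorem Lp_emp : RepE Γ [] ∅ :=
  ⟨List.nodup_nil, fun e => ⟨fun h => absurd h (by simp), fun ⟨j, hj, _⟩ => absurd hj (Finset.notMem_empty j)⟩⟩

private theorem Lp_cons {L : List Ed} {S : Finset (Fin n)} (h : RepE Γ L S) {j : Fin n} (hj : j ∉ S) :
    RepE Γ (ed Γ j :: L) (insert j S) := by
  refine ⟨List.nodup_cons.2 ⟨fun hm => ?_, h.nd⟩, fun e => ?_⟩
  · obtain ⟨i, hi, he⟩ := (h.mem _).1 hm
    exact hj (by rw [ed_inj (congrArg Prod.fst he)]; exact hi)
  · rw [List.mem_cons, h.mem]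
    constructor
    · rintro (rfl | ⟨i, hi, rfl⟩)
      · exact ⟨j, Finset.mem_insert_self _ _, rfl⟩
      · exact ⟨i, Finset.mem_insert_of_mem hi, rfl⟩
    · rintro ⟨i, hi, rfl⟩
      rcases Finset.mem_insert.1 hi with rfl | hi
      · exact Or.inl rfl
      · exact Or.inr ⟨i, hi, rfl⟩

private theorem Lp_card {L : List Ed} {S : Finset (Fin n)} (h : RepE Γ L S) : S.card ≤ L.length := by
  have h1 : (S.image (ed Γ)) ⊆ L.toFinset := by
    intro e he
    obtain ⟨j, hj, rfl⟩ := Finset.mem_image.1 he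
    exact List.mem_toFinset.2 ((h.mem _).2 ⟨j, hj, rfl⟩)
  have h2 : (S.image (ed Γ)).card = S.card :=
    Finset.card_image_of_injective S fun i j hij => ed_inj (congrArg Prod.fst hij)
  rw [← h2]
  exact (Finset.card_le_card h1).trans (List.toFinset_card_le L)

theorem inv_start {L : List Ed} (hL : RepE Γ L Γ.A) {T : Finset (Fin n)} (hT : RepE Γ (frs (List.range r) L) T) (hT' : Fst Γ T) :
    ∃ U, Inv Γ T (st0 L (frs (List.range r) L)) ∅ ∅ U := by
  set Tl := frs (List.range r) L with hTl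
  clear_value Tl
  have hk : ∀ j : Fin n, (lm (Γ.g j)).val < 3 := fun j => ZMod.val_lt _
  have hmem : ∀ j : Fin n, j ∈ T → (j.val, 8 * (lm (Γ.g j)).val) ∈ Tl.map fun e => (e.1, 8 * e.2.2.2) := by
    intro j hj
    exact List.mem_map.2 ⟨ed Γ j, (hT.mem _).2 ⟨j, hj, rfl⟩, rfl⟩
  have hlook : ∀ j : Fin n, j ∈ T → look (Tl.map fun e => (e.1, 8 * e.2.2.2)) j.val 0 = 8 * (lm (Γ.g j)).val := by
    intro j hj
    refine look_eq _ _ _ _ (hmem j hj) ?_
    intro y hy
    obtain ⟨e, he, he'⟩ := List.mem_map.1 hy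
    obtain ⟨i, -, rfl⟩ := (hT.mem _).1 he
    have h1 : i = j := Fin.ext (congrArg Prod.fst he')
    rw [← h1]
    exact (congrArg Prod.snd he').symm
  refine ⟨Γ.A \ T, ?_, Lp_emp, ?_, ?_, ?_, ?_, Finset.Subset.refl _, Or.inl rfl, ?_, ?_, ?_⟩
  · rw [Finset.union_empty]
    refine ⟨fun j => ?_, fun p hp => ?_, fun p hp => ?_⟩
    · constructor
      · intro h
        obtain ⟨p, hp, hp'⟩ := List.mem_map.1 h
        obtain ⟨e, he, rfl⟩ := List.mem_map.1 hp
        obtain ⟨i, hi, rfl⟩ := (hT.mem _).1 he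
        have h1 : i = j := Fin.ext hp'
        rw [← h1]
        exact hi
      · intro h
        exact List.mem_map.2 ⟨_, hmem j h, rfl⟩
    · obtain ⟨e, he, rfl⟩ := List.mem_map.1 hp
      obtain ⟨i, hi, rfl⟩ := (hT.mem _).1 he
      exact ⟨i, hi, rfl⟩
    · obtain ⟨e, he, rfl⟩ := List.mem_map.1 hp
      obtain ⟨i, hi, rfl⟩ := (hT.mem _).1 he
      have h1 := hk i
      change 8 * (lm (Γ.g i)).val < 24
      omega
  · refine ⟨hL.nd.filter _, fun e => ?_⟩
    change e ∈ (L.filter fun e => !(memb Tl e)) ↔ _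
    rw [List.mem_filter]
    constructor
    · rintro ⟨h1, h2⟩
      obtain ⟨j, hj, rfl⟩ := (hL.mem _).1 h1
      refine ⟨j, Finset.mem_sdiff.2 ⟨hj, fun hjT => ?_⟩, rfl⟩
      have h3 : memb Tl (ed Γ j) = true := (memb_iff _ _).2 ((hT.mem _).2 ⟨j, hjT, rfl⟩)
      rw [h3] at h2
      exact absurd h2 (by decide)
    · rintro ⟨j, hj, rfl⟩
      obtain ⟨hj1, hj2⟩ := Finset.mem_sdiff.1 hj
      refine ⟨(hL.mem _).2 ⟨j, hj1, rfl⟩, ?_⟩
      have h3 : ¬ memb Tl (ed Γ j) = true := fun h4 => by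
        obtain ⟨i, hi, he⟩ := (hT.mem _).1 ((memb_iff _ _).1 h4)
        exact hj2 (by rw [ed_inj (congrArg Prod.fst he)]; exact hi)
      rw [Bool.not_eq_true] at h3
      rw [h3]
      rfl
  · intro e
    constructor
    · intro he
      by_cases h : e ∈ T
      · exact Or.inl h
      · exact Or.inr (Or.inr (Finset.mem_sdiff.2 ⟨he, h⟩))
    · rintro (h | h | h)
      · exact hT'.sub h
      · exact absurd h (Finset.notMem_empty e)
      · exact (Finset.mem_sdiff.1 h).1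
  · intro e he
    exact absurd he (Finset.notMem_empty e)
  · intro e he
    exact ⟨(Finset.mem_sdiff.1 he).2, Finset.notMem_empty e⟩
  · intro d hd
    exact absurd hd (Finset.notMem_empty d)
  · rw [Finset.union_empty]
    refine good_start ?_ fun e _ => Lp_qu
    intro c hc
    exact hT'.ac c hc
  · intro e he
    rw [Finset.union_empty] at he
    have h1 : (asv (st0 L Tl).1 : Fin n → Hqˣ) e = qu (8 * (lm (Γ.g e)).val) := congrArg qu (hlook e he)
    rw [h1, qu_val, kc_qv (by have := hk e; omega), Nat.mul_div_cancel_left _ (by norm_num : 0 < 8),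
      ZMod.natCast_zmod_val]

private theorem Lp_new {L : List Ed} (hL : RepE Γ L Γ.A) (lf : ∀ e ∈ Γ.A, Γ.s e ≠ Γ.t e) (hΦ : Γ.Phi (FU : Set XG))
    {T : Finset (Fin n)} (hT' : Fst Γ T) {s : St} {D F U : Finset (Fin n)} (h : Inv Γ T s D F U)
    {j : Fin n} (hj : j ∈ U) {F₀ : Finset (Fin n)} (hF₀ : F₀ ⊆ D)
    (hO : F₀ = ∅ ∨ (Ocn Γ T F₀ ∧ ∃ f' ∈ F₀, Ovl Γ T j f'))
    (hN : ∀ d ∈ D, d ∉ F₀ → ∀ f' ∈ insert j F₀, ¬ Ovl Γ T d f')
    (hN' : ∀ d ∈ D, d ∉ F₀ → ∀ f' ∈ U, ¬ Ovl Γ T d f') {cl : List Ed} (hcl : RepE Γ cl (insert j F₀)) :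
    Inv Γ T ((j.val, bsu (List.range r) L s.1 (ed Γ j)) :: s.1, (cl, er s.2.2 j.val)) (insert j D) (insert j F₀)
      (U.erase j) := by
  have hjA : j ∈ Γ.A := (h.sub j).2 (Or.inr (Or.inr hj))
  obtain ⟨hjT, hjD⟩ := h.d2 j hj
  have hDA : D ⊆ Γ.A := fun d hd => (h.sub d).2 (Or.inr (Or.inl hd))
  have hTD : T ∪ D ⊆ Γ.A := Finset.union_subset hT'.sub hDA
  have hjTD : j ∉ T ∪ D := fun hc => (Finset.mem_union.1 hc).elim hjT hjD
  obtain ⟨b1, b2, b3⟩ := bsu_spec hL lf h.as hTD hjA hjTD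
  set t := bsu (List.range r) L s.1 (ed Γ j) with ht
  clear_value t
  have hun : T ∪ insert j D = insert j (T ∪ D) := Finset.union_insert j T D
  have hasv : (asv ((j.val, t) :: s.1) : Fin n → Hqˣ) = Function.update (asv s.1) j (qu t) := asv_cons s.1 j t
  refine ⟨?_, hcl, rep_er h.td j, ?_, ?_, ?_, Finset.insert_subset_insert j hF₀, Or.inr ?_, ?_, ?_, ?_⟩
  · rw [hun]
    exact rep_cons h.as j b1
  · intro e
    rw [h.sub e]
    by_cases hej : e = j
    · rw [hej]
      exact ⟨fun _ => Or.inr (Or.inl (Finset.mem_insert_self _ _)), fun _ => Or.inr (Or.inr hj)⟩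
    · rw [Finset.mem_insert, Finset.mem_erase]
      constructor
      · rintro (h1 | h1 | h1)
        · exact Or.inl h1
        · exact Or.inr (Or.inl (Or.inr h1))
        · exact Or.inr (Or.inr ⟨hej, h1⟩)
      · rintro (h1 | (h1 | h1) | h1)
        · exact Or.inl h1
        · exact absurd h1 hej
        · exact Or.inr (Or.inl h1)
        · exact Or.inr (Or.inr h1.2)
  · intro e he
    rcases Finset.mem_insert.1 he with rfl | he
    · exact hjT
    · exact h.d1 e he
  · intro e he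
    obtain ⟨he1, he2⟩ := Finset.mem_erase.1 he
    refine ⟨(h.d2 e he2).1, fun hc => ?_⟩
    rcases Finset.mem_insert.1 hc with h1 | h1
    · exact he1 h1
    · exact (h.d2 e he2).2 h1
  · rcases hO with rfl | ⟨hO1, hO2⟩
    · rw [insert_empty_eq]
      exact Ocn.one (Γ := Γ) (T := T) j hjA hjT
    · have h1 := Ocn.ins (Γ := Γ) (T := T) F₀ j hO1 hjA hjT hO2
      rw [Lp_dec] at h1
      exact h1
  · intro d hd hdF f' hf'
    have hdj : d ≠ j := fun hc => hdF (by rw [hc]; exact Finset.mem_insert_self _ _)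
    have hdD : d ∈ D := (Finset.mem_insert.1 hd).resolve_left hdj
    have hdF₀ : d ∉ F₀ := fun hc => hdF (Finset.mem_insert_of_mem hc)
    rcases Finset.mem_union.1 hf' with h1 | h1
    · exact hN d hdD hdF₀ f' h1
    · exact hN' d hdD hdF₀ f' (Finset.mem_erase.1 h1).2
  · change Good (Γ.on (T ∪ insert j D)) (asv ((j.val, t) :: s.1))
    rw [hasv]
    refine greedy hT' lf hΦ hDA h.d1 hF₀ hjA hjT hjD hO hN h.gd h.cl Lp_qu ?_ ?_
    · rw [qu_val]
      exact b2
    · intro t' ht' hk'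
      rw [hun]
      exact b3 t' ht' hk'
  · intro e he
    change kc ((asv ((j.val, t) :: s.1) e : Hqˣ) : Hq) = lm (Γ.g e)
    rw [hasv]
    by_cases hej : e = j
    · rw [hej, Function.update_self, qu_val]
      exact b2
    · rw [Function.update_of_ne hej]
      refine h.cl e ?_
      rw [hun] at he
      exact (Finset.mem_insert.1 he).resolve_left hej

theorem inv_step {L : List Ed} (hL : RepE Γ L Γ.A) (lf : ∀ e ∈ Γ.A, Γ.s e ≠ Γ.t e) (hΦ : Γ.Phi (FU : Set XG))
    {T : Finset (Fin n)} (hT : RepE Γ (frs (List.range r) L) T) (hT' : Fst Γ T) {s : St} {D F U : Finset (Fin n)}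
    (h : Inv Γ T s D F U) :
    ∃ D' F' U', Inv Γ T (stp (List.range r) L (frs (List.range r) L) s) D' F' U' ∧ U'.card ≤ U.card - 1 := by
  set Tl := frs (List.range r) L with hTl
  clear_value Tl
  cases h0 : s.2.2 with
  | nil =>
    have hs : stp (List.range r) L Tl s = s := by
      unfold stp
      rw [h0]
      rfl
    rw [hs]
    have hU : U = ∅ := by
      rw [Finset.eq_empty_iff_forall_notMem]
      intro j hj
      have h1 := (h.td.mem (ed Γ j)).2 ⟨j, hj, rfl⟩
      rw [h0] at h1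
      exact absurd h1 (by simp)
    exact ⟨D, F, U, h, by rw [hU]; simp⟩
  | cons f tl =>
    have hne : ¬ s.2.2.isEmpty = true := by
      rw [h0]
      simp
    cases h1 : nx (List.range r) Tl s with
    | nil =>
      have hfm : f ∈ s.2.2 := by
        rw [h0]
        exact List.mem_cons_self
      obtain ⟨j, hj, hfj⟩ := (h.td.mem f).1 hfm
      have hs : stp (List.range r) L Tl s = ((j.val, bsu (List.range r) L s.1 (ed Γ j)) :: s.1,
          ([ed Γ j], er s.2.2 j.val)) := by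
        unfold stp
        rw [if_neg hne, h1, if_pos (by rfl)]
        have h2 : s.2.2.headD (0, (0, (0, 0))) = ed Γ j := by
          rw [h0, ← hfj]
          rfl
        rw [h2]
        rfl
      have hno : ∀ f' ∈ U, ∀ d ∈ F, ¬ Ovl Γ T f' d := by
        intro f' hf' d hd ho
        have h2 : ed Γ f' ∈ nx (List.range r) Tl s := by
          unfold nx
          rw [List.mem_filter]
          refine ⟨(h.td.mem _).2 ⟨f', hf', rfl⟩, ?_⟩
          rw [List.any_eq_true]
          exact ⟨ed Γ d, (h.cu.mem _).2 ⟨d, hd, rfl⟩, (ov_iff hT f' d).2 ho⟩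
        rw [h1] at h2
        exact absurd h2 (by simp)
      have hN' : ∀ d ∈ D, d ∉ (∅ : Finset (Fin n)) → ∀ f' ∈ U, ¬ Ovl Γ T d f' := by
        intro d hd _ f' hf' ho
        by_cases hdF : d ∈ F
        · exact hno f' hf' d hdF (Lp_ovl ho)
        · exact h.no d hd hdF f' (Finset.mem_union_right _ hf') ho
      rw [hs]
      refine ⟨insert j D, insert j ∅, U.erase j, Lp_new hL lf hΦ hT' h hj (Finset.empty_subset D) (Or.inl rfl) ?_ hN'
        (Lp_cons Lp_emp (Finset.notMem_empty j)), ?_⟩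
      · intro d hd hd' f' hf'
        rw [Finset.mem_insert] at hf'
        rcases hf' with rfl | hf'
        · exact hN' d hd hd' f' hj
        · exact absurd hf' (Finset.notMem_empty f')
      · rw [Finset.card_erase_of_mem hj]
    | cons g gl =>
      have hgm : g ∈ nx (List.range r) Tl s := by
        rw [h1]
        exact List.mem_cons_self
      unfold nx at hgm
      rw [List.mem_filter, List.any_eq_true] at hgm
      obtain ⟨hg1, e, he1, he2⟩ := hgm
      obtain ⟨j, hj, rfl⟩ := (h.td.mem g).1 hg1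
      obtain ⟨i, hi, rfl⟩ := (h.cu.mem e).1 he1
      have ho := (ov_iff hT j i).1 he2
      have hs : stp (List.range r) L Tl s = ((j.val, bsu (List.range r) L s.1 (ed Γ j)) :: s.1,
          (ed Γ j :: s.2.1, er s.2.2 j.val)) := by
        unfold stp
        rw [if_neg hne, h1, if_neg (by simp)]
        rfl
      have hjF : j ∉ F := fun hc => (h.d2 j hj).2 (h.fd hc)
      have hOc : Ocn Γ T F := h.oc.resolve_left fun hc => by
        rw [hc] at hi
        exact absurd hi (Finset.notMem_empty i)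
      have hN' : ∀ d ∈ D, d ∉ F → ∀ f' ∈ U, ¬ Ovl Γ T d f' := fun d hd hdF f' hf' =>
        h.no d hd hdF f' (Finset.mem_union_right _ hf')
      rw [hs]
      refine ⟨insert j D, insert j F, U.erase j, Lp_new hL lf hΦ hT' h hj h.fd (Or.inr ⟨hOc, i, hi, ho⟩) ?_ hN'
        (Lp_cons h.cu hjF), ?_⟩
      · intro d hd hdF f' hf'
        rw [Finset.mem_insert] at hf'
        rcases hf' with rfl | hf'
        · exact hN' d hd hdF f' hj
        · exact h.no d hd hdF f' (Finset.mem_union_left _ hf')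
      · rw [Finset.card_erase_of_mem hj]

private theorem Lp_loop {L : List Ed} (hL : RepE Γ L Γ.A) (lf : ∀ e ∈ Γ.A, Γ.s e ≠ Γ.t e) (hΦ : Γ.Phi (FU : Set XG))
    {T : Finset (Fin n)} (hT : RepE Γ (frs (List.range r) L) T) (hT' : Fst Γ T) (M : List Ed) :
    ∀ (s : St) (D F U : Finset (Fin n)), Inv Γ T s D F U →
      ∃ D' F' U', Inv Γ T (M.foldl (fun s _ => stp (List.range r) L (frs (List.range r) L) s) s) D' F' U' ∧
        U'.card ≤ U.card - M.length := by
  induction M with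
  | nil => exact fun s D F U h => ⟨D, F, U, h, by simp⟩
  | cons e M ih =>
    intro s D F U h
    obtain ⟨D₁, F₁, U₁, h1, h2⟩ := inv_step hL lf hΦ hT hT' h
    obtain ⟨D₂, F₂, U₂, h3, h4⟩ := ih _ D₁ F₁ U₁ h1
    refine ⟨D₂, F₂, U₂, h3, ?_⟩
    rw [List.length_cons]
    omega

theorem slv_good {L : List Ed} (hL : RepE Γ L Γ.A) (lf : ∀ e ∈ Γ.A, Γ.s e ≠ Γ.t e) (hΦ : Γ.Phi (FU : Set XG)) :
    RepA (slv (List.range r) L) Γ.A ∧ Good Γ (asv (slv (List.range r) L)) := by
  obtain ⟨T, hT, hT'⟩ := frs_fst hL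
  obtain ⟨U, h0⟩ := inv_start hL hT hT'
  obtain ⟨D', F', U', h1, h2⟩ := Lp_loop hL lf hΦ hT hT' L _ _ _ _ h0
  have hUA : U ⊆ Γ.A := fun e he => (h0.sub e).2 (Or.inr (Or.inr he))
  have hU' : U' = ∅ := by
    rw [← Finset.card_eq_zero]
    have h3 := Finset.card_le_card hUA
    have h4 := Lp_card hL
    omega
  rw [hU'] at h1
  have hA : T ∪ D' = Γ.A := by
    ext e
    rw [Finset.mem_union, h1.sub e]
    constructor
    · rintro (h | h)
      · exact Or.inl h
      · exact Or.inr (Or.inl h)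
    · rintro (h | h | h)
      · exact Or.inl h
      · exact Or.inr h
      · exact absurd h (Finset.notMem_empty e)
  have h5 := h1.as
  have h6 := h1.gd
  rw [hA] at h5 h6
  exact ⟨h5, h6⟩

end Pool.Agent.FRN
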