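import Pool.Agent.FRN.Fo
import Pool.Agent.FRM.Ear1
import Pool.Agent.FRM.CyB

/-!
# FRN/Ov1: fundamental cycles, overlaps

`fund_cy`: the fundamental cycle of an edge.  `C2_union`: the union of two subgraphs without cut vertex with a common edge.
`bk_C2`, `bk_conv`: the union `Bk T F` of the fundamental cycles of an overlap-connected set `F` has no cut vertex, and with two
vertices it contains the forest path between them.
-/

set_option autoImplicit false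

noncomputable section

open scoped Classical

namespace Pool.Agent.FRN

open Pool.Agent.FRM Pool.Agent.FRM.GG

variable {V E Q : Type} [AddCommGroup Q] {Γ : GG V E Q}

variable {T : Finset E}

theorem fund_cy (hT : Fst Γ T) (lf : ∀ e ∈ Γ.A, Γ.s e ≠ Γ.t e) {f : E} (hf : f ∈ Γ.A) :
    ∃ l, Γ.Cy (Γ.s f) (Γ.t f) [(f, true)] l ∧ (Γ.on T).Pt (Γ.s f) l (Γ.t f) ∧ eds l = Dl Γ T (Γ.s f) (Γ.t f) := by
  obtain ⟨l, hl, he⟩ := dl_ex hT.ac (hT.sp f hf)
  refine ⟨l, ⟨lf f hf, ?_, ((pt_on hT.sub).1 hl).1, fun z hz _ => ?_⟩, hl, he⟩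
  · exact pt_single (Γ := Γ) (d := (f, true)) hf (lf f hf)
  · have h1 : z ∈ [Γ.s f, Γ.t f] := hz
    simpa using h1

private theorem Ov1_join {B B' : Finset E} (h : (Γ.on B).C2) (h' : (Γ.on B').C2) {z w : V}
    (hw : w ∈ (Γ.on B).VS) (hw' : w ∈ (Γ.on B').VS) (hwz : w ≠ z) {x : V} (hx : x ∈ (Γ.on (B ∪ B')).VS) (hxz : x ≠ z) :
    ∃ l, (Γ.on (B ∪ B')).Wk x l w ∧ z ∉ Γ.vs x l := by
  rw [VS_union] at hx
  rcases hx with hx | hx
  · obtain ⟨l, hl, hz⟩ := h.cut z x hx w hw hxz hwz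
    exact ⟨l, wk_mono Finset.subset_union_left hl, hz⟩
  · obtain ⟨l, hl, hz⟩ := h'.cut z x hx w hw' hxz hwz
    exact ⟨l, wk_mono Finset.subset_union_right hl, hz⟩

theorem C2_union {B B' : Finset E} (hB : B ⊆ Γ.A) (hB' : B' ⊆ Γ.A) (h : (Γ.on B).C2) (h' : (Γ.on B').C2) {e : E}
    (he : e ∈ B) (he' : e ∈ B') : (Γ.on (B ∪ B')).C2 := by
  have _ := hB
  have _ := hB'
  have hs : Γ.s e ∈ (Γ.on B).VS := ⟨e, he, Or.inl rfl⟩
  have hs' : Γ.s e ∈ (Γ.on B').VS := ⟨e, he', Or.inl rfl⟩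
  have ht : Γ.t e ∈ (Γ.on B).VS := ⟨e, he, Or.inr rfl⟩
  have ht' : Γ.t e ∈ (Γ.on B').VS := ⟨e, he', Or.inr rfl⟩
  have hlf : Γ.s e ≠ Γ.t e := h.lf e he
  refine ⟨⟨e, Finset.mem_union_left _ he⟩, ?_, ?_, ?_⟩
  · intro f hf
    rcases Finset.mem_union.1 hf with hf | hf
    · exact h.lf f hf
    · exact h'.lf f hf
  · have key : ∀ x ∈ (Γ.on (B ∪ B')).VS, ∃ l, (Γ.on (B ∪ B')).Wk x l (Γ.s e) := by
      intro x hx
      rw [VS_union] at hx
      rcases hx with hx | hx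
      · obtain ⟨l, hl⟩ := h.con x hx _ hs
        exact ⟨l, wk_mono Finset.subset_union_left hl⟩
      · obtain ⟨l, hl⟩ := h'.con x hx _ hs'
        exact ⟨l, wk_mono Finset.subset_union_right hl⟩
    intro x hx y hy
    obtain ⟨l, hl⟩ := key x hx
    obtain ⟨l', hl'⟩ := key y hy
    exact ⟨l ++ rv l', wk_append.2 ⟨_, hl, wk_rv hl'⟩⟩
  · intro z x hx y hy hxz hyz
    obtain ⟨w, hw, hw', hwz⟩ : ∃ w, w ∈ (Γ.on B).VS ∧ w ∈ (Γ.on B').VS ∧ w ≠ z := by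
      by_cases h1 : Γ.s e = z
      · exact ⟨Γ.t e, ht, ht', fun h2 => hlf (h1.trans h2.symm)⟩
      · exact ⟨Γ.s e, hs, hs', h1⟩
    obtain ⟨l, hl, hz⟩ := Ov1_join h h' hw hw' hwz hx hxz
    obtain ⟨l', hl', hz'⟩ := Ov1_join h h' hw hw' hwz hy hyz
    have hr : (Γ.on (B ∪ B')).Wk w (rv l') y := wk_rv hl'
    refine ⟨l ++ rv l', wk_append.2 ⟨_, hl, hr⟩, fun h1 => ?_⟩
    rcases (mem_vs_append (Γ := Γ.on (B ∪ B')) hl).1 h1 with h2 | h2
    · exact hz h2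
    · exact hz' ((mem_vs_rv (Γ := Γ.on (B ∪ B')) hl').1 h2)

theorem ocn_sub {F : Finset E} (h : Ocn Γ T F) : F ⊆ Γ.A ∧ (∀ f ∈ F, f ∉ T) ∧ F.Nonempty := by
  induction h with
  | one f h h' =>
    refine ⟨Finset.singleton_subset_iff.2 h, fun g hg => ?_, Finset.singleton_nonempty f⟩
    rw [Finset.mem_singleton.1 hg]
    exact h'
  | ins F f hF h h' ho ih =>
    refine ⟨Finset.insert_subset h ih.1, fun g hg => ?_, Finset.insert_nonempty f F⟩
    rcases Finset.mem_insert.1 hg with hg | hg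
    · rw [hg]
      exact h'
    · exact ih.2.1 g hg

theorem bk_sub (hT : Fst Γ T) {F : Finset E} (h : F ⊆ Γ.A) : Bk Γ T F ⊆ Γ.A :=
  Finset.union_subset h (Finset.biUnion_subset.2 fun _ _ => (Finset.filter_subset _ _).trans hT.sub)

theorem bk_insert (F : Finset E) (f : E) : Bk Γ T (insert f F) = Bk Γ T F ∪ Bk Γ T {f} := by
  unfold Bk
  rw [Finset.biUnion_insert, Finset.singleton_biUnion, Finset.insert_eq]
  ext e
  simp only [Finset.mem_union]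
  tauto

/-- the edges of `Bk` outside the forest -/
theorem bk_off {F : Finset E} {e : E} (h : e ∈ Bk Γ T F) (h' : e ∉ T) : e ∈ F := by
  rcases Finset.mem_union.1 h with h | h
  · exact h
  · obtain ⟨f, -, hf⟩ := Finset.mem_biUnion.1 h
    exact absurd (Finset.mem_filter.1 hf).1 h'

private theorem Ov1_one (f : E) : Bk Γ T {f} = {f} ∪ Dl Γ T (Γ.s f) (Γ.t f) := by
  unfold Bk
  rw [Finset.singleton_biUnion]

private theorem Ov1_C2 (hT : Fst Γ T) (lf : ∀ e ∈ Γ.A, Γ.s e ≠ Γ.t e) {f : E} (hf : f ∈ Γ.A) :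
    (Γ.on (Bk Γ T {f})).C2 := by
  obtain ⟨l, hc, -, he⟩ := fund_cy hT lf hf
  have h1 := cycle_C2 hc
  have h2 : eds [((f, true) : Da E)] = {f} := by
    ext e
    rw [mem_eds, Finset.mem_singleton]
    constructor
    · rintro ⟨d, hd, rfl⟩
      rw [List.mem_singleton] at hd
      rw [hd]
    · rintro rfl
      exact ⟨_, List.mem_singleton.2 rfl, rfl⟩
  rw [h2, he] at h1
  rw [Ov1_one]
  exact h1

private theorem Ov1_mem {F : Finset E} {f c : E} (hf : f ∈ F) (hc : c ∈ Dl Γ T (Γ.s f) (Γ.t f)) : c ∈ Bk Γ T F :=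
  Finset.mem_union_right _ (Finset.mem_biUnion.2 ⟨f, hf, hc⟩)

private theorem Ov1_conv (hT : Fst Γ T) (lf : ∀ e ∈ Γ.A, Γ.s e ≠ Γ.t e) {f : E} (hf : f ∈ Γ.A) {x y : V}
    (hx : x ∈ (Γ.on (Bk Γ T {f})).VS) (hy : y ∈ (Γ.on (Bk Γ T {f})).VS) :
    Cn Γ T x y ∧ Dl Γ T x y ⊆ Bk Γ T {f} := by
  obtain ⟨l, hc, hp, he⟩ := fund_cy hT lf hf
  have hl0 : l ≠ [] := pt_ne hc.p' hc.ne
  have hsub : eds l ⊆ Bk Γ T {f} := by
    rw [he, Ov1_one]
    exact Finset.subset_union_right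
  have hv : ∀ z ∈ (Γ.on (Bk Γ T {f})).VS, z ∈ (Γ.on T).vs (Γ.s f) l := by
    intro z hz
    rw [Ov1_one, VS_union] at hz
    rcases hz with hz | hz
    · obtain ⟨e, he1, he2⟩ := hz
      have he3 : e = f := Finset.mem_singleton.1 he1
      subst he3
      rcases he2 with h1 | h1
      · have h2 : Γ.s e = z := h1
        rw [← h2]
        exact wk_first _ _
      · have h2 : Γ.t e = z := h1
        rw [← h2]
        exact wk_last hp.1
    · rw [← he, VS_eds hc.p'.1 hl0] at hz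
      exact hz
  obtain ⟨l1, l2, rfl, hp1, hp2, -⟩ := pt_split_at hp (hv x hx)
  rw [eds_append] at hsub
  rcases (mem_vs_append hp1.1).1 (hv y hy) with h1 | h1
  · obtain ⟨l3, l4, rfl, hp3, hp4, -⟩ := pt_split_at hp1 h1
    refine ⟨cn_symm ⟨l4, hp4.1⟩, ?_⟩
    rw [dl_symm]
    refine (dl_wk hp4.1).trans (Finset.Subset.trans ?_ hsub)
    rw [eds_append]
    exact Finset.subset_union_right.trans Finset.subset_union_left
  · obtain ⟨l3, l4, rfl, hp3, hp4, -⟩ := pt_split_at hp2 h1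
    refine ⟨⟨l3, hp3.1⟩, ?_⟩
    refine (dl_wk hp3.1).trans (Finset.Subset.trans ?_ hsub)
    rw [eds_append]
    exact Finset.subset_union_left.trans Finset.subset_union_right

theorem bk_C2 (hT : Fst Γ T) (lf : ∀ e ∈ Γ.A, Γ.s e ≠ Γ.t e) {F : Finset E} (h : Ocn Γ T F) : (Γ.on (Bk Γ T F)).C2 := by
  induction h with
  | one f h _ => exact Ov1_C2 hT lf h
  | ins F f hF h _ ho ih =>
    obtain ⟨f', hf', c, hc⟩ := ho
    rw [Finset.mem_inter] at hc
    rw [bk_insert]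
    exact C2_union (bk_sub hT (ocn_sub hF).1) (bk_sub hT (Finset.singleton_subset_iff.2 h)) ih (Ov1_C2 hT lf h)
      (Ov1_mem hf' hc.2) (Ov1_mem (Finset.mem_singleton_self f) hc.1)

theorem bk_conv (hT : Fst Γ T) (lf : ∀ e ∈ Γ.A, Γ.s e ≠ Γ.t e) {F : Finset E} (h : Ocn Γ T F) {x y : V}
    (hx : x ∈ (Γ.on (Bk Γ T F)).VS) (hy : y ∈ (Γ.on (Bk Γ T F)).VS) : Cn Γ T x y ∧ Dl Γ T x y ⊆ Bk Γ T F := by
  induction h generalizing x y with
  | one f h _ => exact Ov1_conv hT lf h hx hy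
  | ins F f hF h _ ho ih =>
    obtain ⟨f', hf', c, hc⟩ := ho
    rw [Finset.mem_inter] at hc
    have hw : Γ.s c ∈ (Γ.on (Bk Γ T F)).VS := ⟨c, Ov1_mem hf' hc.2, Or.inl rfl⟩
    have hw' : Γ.s c ∈ (Γ.on (Bk Γ T {f})).VS := ⟨c, Ov1_mem (Finset.mem_singleton_self f) hc.1, Or.inl rfl⟩
    rw [bk_insert, VS_union] at hx hy
    rw [bk_insert]
    rcases hx with hx | hx <;> rcases hy with hy | hy
    · obtain ⟨h1, h2⟩ := ih hx hy
      exact ⟨h1, h2.trans Finset.subset_union_left⟩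
    · obtain ⟨h1, h2⟩ := ih hx hw
      obtain ⟨h3, h4⟩ := Ov1_conv hT lf h hw' hy
      exact ⟨cn_trans h1 h3, (dl_tri x (Γ.s c) y).trans (Finset.union_subset_union h2 h4)⟩
    · obtain ⟨h1, h2⟩ := ih hw hy
      obtain ⟨h3, h4⟩ := Ov1_conv hT lf h hx hw'
      refine ⟨cn_trans h3 h1, (dl_tri x (Γ.s c) y).trans (Finset.union_subset ?_ ?_)⟩
      · exact h4.trans Finset.subset_union_right
      · exact h2.trans Finset.subset_union_left
    · obtain ⟨h1, h2⟩ := Ov1_conv hT lf h hx hy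
      exact ⟨h1, h2.trans Finset.subset_union_right⟩

end Pool.Agent.FRN
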