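import Pool.Agent.FRN.Ov1
import Pool.Agent.FRM.Rs

/-!
# FRN/Ov2: a cycle is inside or outside an overlap-connected part

Let `B = Bk Γ T F`, `K = (Γ.on B).VS`.  (a) If `k, k' ∈ K` are connected by edges of `T \ B` then `k = k'`: `Dl k k' ⊆ B` (`bk_conv`)
and `Dl k k' ⊆ T \ B` (`dl_wk`).  (b) Every edge `e ∉ B` of `T ∪ F ∪ D` has ends connected in `T \ B`: otherwise `e ∈ D`, `e ∉ F`,
and the forest path of `e` does not meet `B` (no overlap).  Hence every simple path `R` in `T ∪ F ∪ D` with both ends in `K` has all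
its edges in `B`: if `R = R₁ ++ [δ] ++ R₂` with `δ.1 ∉ B` take the first vertices `k ∈ K` on `rv R₁` and `k' ∈ K` on `R₂`; the edges
between them are not in `B`, so `k` and `k'` are connected in `T \ B`, so `k = k'`, but `R` is simple.  A cycle with an edge `f ∈ B` is
split at the ends of `f` (`resplit`).
-/

set_option autoImplicit false

noncomputable section

open scoped Classical

namespace Pool.Agent.FRN

open Pool.Agent.FRM Pool.Agent.FRM.GG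

variable {V E Q : Type} [AddCommGroup Q] {Γ : GG V E Q}

omit [AddCommGroup Q] in
private theorem Ov2_ends (Γ : GG V E Q) (d : Da E) :
    (Γ.src d = Γ.s d.1 ∧ Γ.tgt d = Γ.t d.1) ∨ (Γ.src d = Γ.t d.1 ∧ Γ.tgt d = Γ.s d.1) := by
  unfold GG.src GG.tgt
  cases d.2
  · right
    simp
  · left
    simp

/-- a simple path which meets the vertices of `B` only in its last vertex has no edge in `B` -/
private theorem Ov2_seg {B B' : Finset E} {x y : V} {l : List (Da E)} (h : (Γ.on B').Pt x l y)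
    (hK : ∀ v ∈ (Γ.on B').vs x l, v ∈ (Γ.on B).VS → v = y) : ∀ d ∈ l, d.1 ∉ B := by
  intro d hd hdB
  obtain ⟨-, h1, h2⟩ := wk_mem h.1 d hd
  have h3 : Γ.s d.1 ≠ Γ.t d.1 := pt_lf h d hd
  have h4 : ∀ v, (Γ.s d.1 = v ∨ Γ.t d.1 = v) → v ∈ (Γ.on B).VS := fun v hv => ⟨d.1, hdB, hv⟩
  have h1' : Γ.src d ∈ (Γ.on B').vs x l := h1
  have h2' : Γ.tgt d ∈ (Γ.on B').vs x l := h2
  rcases Ov2_ends Γ d with ⟨h5, h6⟩ | ⟨h5, h6⟩
  · rw [h5] at h1'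
    rw [h6] at h2'
    exact h3 ((hK _ h1' (h4 _ (Or.inl rfl))).trans (hK _ h2' (h4 _ (Or.inr rfl))).symm)
  · rw [h5] at h1'
    rw [h6] at h2'
    exact h3 ((hK _ h2' (h4 _ (Or.inl rfl))).trans (hK _ h1' (h4 _ (Or.inr rfl))).symm)

/-- a simple path whose ends are vertices of `Bk` has all its edges in `Bk` -/
private theorem Ov2_path {T : Finset E} (hT : Fst Γ T) (lf : ∀ e ∈ Γ.A, Γ.s e ≠ Γ.t e) {F D : Finset E}
    (hF : Ocn Γ T F) (hD : D ⊆ Γ.A) (hd : ∀ d ∈ D, d ∉ T → d ∉ F → ∀ f ∈ F, ¬ Ovl Γ T d f) {u w : V}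
    {R : List (Da E)} (h : (Γ.on (T ∪ F ∪ D)).Pt u R w) (hu : u ∈ (Γ.on (Bk Γ T F)).VS)
    (hw : w ∈ (Γ.on (Bk Γ T F)).VS) : ∀ e ∈ eds R, e ∈ Bk Γ T F := by
  have hS : T ∪ F ∪ D ⊆ Γ.A := Finset.union_subset (Finset.union_subset hT.sub (ocn_sub hF).1) hD
  -- (a)
  have ha : ∀ k k', k ∈ (Γ.on (Bk Γ T F)).VS → k' ∈ (Γ.on (Bk Γ T F)).VS → Cn Γ (T \ Bk Γ T F) k k' → k = k' := by
    intro k k' hk hk' hc
    obtain ⟨hc1, hc2⟩ := bk_conv hT lf hF hk hk'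
    apply dl_empty hT.ac hc1
    obtain ⟨l, hl⟩ := hc
    have h5 := dl_wk (wk_mono Finset.sdiff_subset hl : (Γ.on T).Wk k l k')
    apply Finset.eq_empty_of_forall_notMem
    intro c hc
    have h7 : c ∈ T \ Bk Γ T F := eds_sub hl (h5 hc)
    exact (Finset.mem_sdiff.1 h7).2 (hc2 hc)
  -- (b)
  have hb : ∀ e, e ∈ T ∪ F ∪ D → e ∉ Bk Γ T F → Cn Γ (T \ Bk Γ T F) (Γ.s e) (Γ.t e) := by
    intro e he heB
    by_cases heT : e ∈ T
    · exact cn_edge (Finset.mem_sdiff.2 ⟨heT, heB⟩)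
    have heF : e ∉ F := fun hf => heB (Finset.mem_union_left _ hf)
    have heD : e ∈ D := by
      rcases Finset.mem_union.1 he with h | h
      · rcases Finset.mem_union.1 h with h | h
        · exact absurd h heT
        · exact absurd h heF
      · exact h
    obtain ⟨l, hl1, hl2⟩ := dl_ex hT.ac (hT.sp e (hD heD))
    have hl3 : eds l ⊆ T \ Bk Γ T F := by
      intro c hc
      rw [hl2] at hc
      have hcT := (mem_dl.1 hc).1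
      refine Finset.mem_sdiff.2 ⟨hcT, fun hcB => ?_⟩
      rcases Finset.mem_union.1 hcB with h | h
      · exact (ocn_sub hF).2.1 c h hcT
      · obtain ⟨f, hf, hcf⟩ := Finset.mem_biUnion.1 h
        exact hd e heD heT heF f hf ⟨c, Finset.mem_inter.2 ⟨hc, hcf⟩⟩
    exact ⟨l, (pt_eds hl1 hl3).1⟩
  intro e he
  by_contra hB
  obtain ⟨δ, hδ, hδe⟩ := (mem_eds _ _).1 he
  obtain ⟨R₁, R₂, hR⟩ := List.append_of_mem hδ
  subst hR
  obtain ⟨z, h1, h2, h12⟩ := pt_split h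
  have hz : z ∉ (Γ.on (T ∪ F ∪ D)).vs (Γ.tgt δ) R₂ := (List.nodup_cons.1 h2.2).1
  have h3 : (Γ.on (T ∪ F ∪ D)).Pt (Γ.tgt δ) R₂ w := ⟨h2.1.2.2, (List.nodup_cons.1 h2.2).2⟩
  obtain ⟨m₁, m₂, k', hm, hm1, hm2, hk', hmK, -⟩ := pt_first_hit h3 (Γ.on (Bk Γ T F)).VS hw
  obtain ⟨n₁, n₂, k, hn, hn1, hn2, hk, hnK, -⟩ := pt_first_hit (pt_rv h1) (Γ.on (Bk Γ T F)).VS hu
  have hwk : (Γ.on (T ∪ F ∪ D)).Wk k (rv n₁ ++ δ :: m₁) k' :=
    wk_append.2 ⟨z, (pt_rv hn1).1, h2.1.1, h2.1.2.1, hm1.1⟩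
  have hcn : Cn Γ (T \ Bk Γ T F) k k' := by
    refine cn_wk ((wk_on hS).1 hwk).1 fun d hd' => hb d.1 ((wk_on hS).1 hwk |>.2 d hd') ?_
    rcases List.mem_append.1 hd' with h4 | h4
    · exact Ov2_seg hn1 hnK (fl d) ((mem_rv _ _).1 h4)
    · rcases List.mem_cons.1 h4 with h4 | h4
      · rw [h4, hδe]
        exact hB
      · exact Ov2_seg hm1 hmK d h4
  have hkk := ha k k' hk hk' hcn
  subst hkk
  have h5 : k ∈ (Γ.on (T ∪ F ∪ D)).vs u R₁ := by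
    rw [← mem_vs_rv h1.1, hn, mem_vs_append hn1.1]
    exact Or.inl (wk_last hn1.1)
  have h6 : k ∈ (Γ.on (T ∪ F ∪ D)).vs (Γ.tgt δ) R₂ := by
    rw [hm, mem_vs_append hm1.1]
    exact Or.inl (wk_last hm1.1)
  have h7 : k = z := h12 k h5 (List.mem_cons_of_mem z h6)
  rw [h7] at h6
  exact hz h6

theorem dich {T : Finset E} (hT : Fst Γ T) (lf : ∀ e ∈ Γ.A, Γ.s e ≠ Γ.t e) {F D : Finset E} (hF : Ocn Γ T F) (hD : D ⊆ Γ.A)
    (hd : ∀ d ∈ D, d ∉ T → d ∉ F → ∀ f ∈ F, ¬ Ovl Γ T d f) {x y : V} {P P' : List (Da E)}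
    (h : (Γ.on (T ∪ F ∪ D)).Cy x y P P') :
    (∀ e ∈ eds P ∪ eds P', e ∈ Bk Γ T F) ∨ ∀ e ∈ eds P ∪ eds P', e ∉ Bk Γ T F := by
  by_contra hcon
  rw [not_or] at hcon
  obtain ⟨hc1, hc2⟩ := hcon
  push Not at hc1 hc2
  obtain ⟨e, he, heB⟩ := hc1
  obtain ⟨f, hf, hfB⟩ := hc2
  have hfA : f ∈ Γ.A := bk_sub hT (ocn_sub hF).1 hfB
  have hends : ∀ {l : List (Da E)}, (Γ.on (T ∪ F ∪ D)).Wk x l y → f ∈ eds l →
      Γ.s f ∈ (Γ.on (T ∪ F ∪ D)).vs x l ∧ Γ.t f ∈ (Γ.on (T ∪ F ∪ D)).vs x l := by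
    intro l hl hfl
    obtain ⟨d, hdl, rfl⟩ := (mem_eds _ _).1 hfl
    obtain ⟨-, h1, h2⟩ := wk_mem hl d hdl
    have h1' : Γ.src d ∈ (Γ.on (T ∪ F ∪ D)).vs x l := h1
    have h2' : Γ.tgt d ∈ (Γ.on (T ∪ F ∪ D)).vs x l := h2
    rcases Ov2_ends Γ d with ⟨h5, h6⟩ | ⟨h5, h6⟩
    · rw [h5] at h1'
      rw [h6] at h2'
      exact ⟨h1', h2'⟩
    · rw [h5] at h1'
      rw [h6] at h2'
      exact ⟨h2', h1'⟩
  have hs : (Γ.s f ∈ (Γ.on (T ∪ F ∪ D)).vs x P ∨ Γ.s f ∈ (Γ.on (T ∪ F ∪ D)).vs x P') ∧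
      (Γ.t f ∈ (Γ.on (T ∪ F ∪ D)).vs x P ∨ Γ.t f ∈ (Γ.on (T ∪ F ∪ D)).vs x P') := by
    rcases Finset.mem_union.1 hf with h1 | h1
    · have := hends h.p.1 h1
      exact ⟨Or.inl this.1, Or.inl this.2⟩
    · have := hends h.p'.1 h1
      exact ⟨Or.inr this.1, Or.inr this.2⟩
  obtain ⟨R, R', hR, -, hE, -⟩ := resplit h hs.1 hs.2 (lf f hfA)
  have hsK : Γ.s f ∈ (Γ.on (Bk Γ T F)).VS := ⟨f, hfB, Or.inl rfl⟩
  have htK : Γ.t f ∈ (Γ.on (Bk Γ T F)).VS := ⟨f, hfB, Or.inr rfl⟩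
  rcases (hE e).2 (Finset.mem_union.1 he) with h1 | h1
  · exact heB (Ov2_path hT lf hF hD hd hR.p hsK htK e h1)
  · exact heB (Ov2_path hT lf hF hD hd hR.p' hsK htK e h1)

end Pool.Agent.FRN
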