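import Pool.Agent.FRN.DefL
import Pool.Agent.FRM.Mgr
import Pool.Agent.FRM.Cdt
import Pool.Agent.FRM.Une2

/-!
# FRN/Ph: the gain graph of a matrix of codes

The edges are the columns with exactly two nonzero entries, their gains are the quotients of the two entries, up to
sign. The subdeterminants of the cycles and the unit equation give the gains of the cycles.
-/

set_option autoImplicit false

noncomputable section

open scoped Classical

namespace Pool.Agent.FRN

open Pool.Agent.FRM Pool.Agent.FRM.GG Pool.Agent.BEO Pool.Agent.PQE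

variable {r n : ℕ}

private theorem Ph_ne (x : Ent) : vE x ≠ 0 ↔ x.1 = true := by
  unfold vE
  constructor
  · intro h
    by_contra h1
    exact h (if_neg h1)
  · intro h
    rw [if_pos h]
    exact ev_ne_zero _

private def Ph_S (C : Matrix (Fin r) (Fin n) Ent) (j : Fin n) : Finset (Fin r) :=
  Finset.univ.filter fun i => (C i j).1 = true

private theorem Ph_mem (C : Matrix (Fin r) (Fin n) Ent) (i : Fin r) (j : Fin n) :
    i ∈ Ph_S C j ↔ vE (C i j) ≠ 0 := by
  unfold Ph_S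
  rw [Ph_ne, Finset.mem_filter]
  exact ⟨fun h => h.2, fun h => ⟨Finset.mem_univ _, h⟩⟩

private theorem Ph_A (hr : 0 < r) (C : Matrix (Fin r) (Fin n) Ent) (j : Fin n) :
    j ∈ (gC hr C).A ↔ (Ph_S C j).card = 2 := by
  show j ∈ (Finset.univ.filter fun j => (Finset.univ.filter fun i => (C i j).1 = true).card = 2) ↔ _
  rw [Finset.mem_filter]
  exact ⟨fun h => h.2, fun h => ⟨Finset.mem_univ _, h⟩⟩

private theorem Ph_s (hr : 0 < r) (C : Matrix (Fin r) (Fin n) Ent) (j : Fin n) (h : (Ph_S C j).Nonempty) :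
    (gC hr C).s j = (Ph_S C j).min' h :=
  dif_pos h

private theorem Ph_t (hr : 0 < r) (C : Matrix (Fin r) (Fin n) Ent) (j : Fin n) (h : (Ph_S C j).Nonempty) :
    (gC hr C).t j = (Ph_S C j).max' h :=
  dif_pos h

private theorem Ph_g (hr : 0 < r) (C : Matrix (Fin r) (Fin n) Ent) (j : Fin n) (h : (Ph_S C j).Nonempty) :
    (gC hr C).g j = cx (C ((gC hr C).s j) j) - cx (C ((gC hr C).t j) j) + (0, 0, 0, 0, 0, 1) := by
  rw [Ph_s hr C j h, Ph_t hr C j h]
  exact dif_pos h

private theorem Ph_key (hr : 0 < r) (C : Matrix (Fin r) (Fin n) Ent) (j : Fin n) (hj : j ∈ (gC hr C).A) :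
    (gC hr C).s j ≠ (gC hr C).t j ∧ vE (C ((gC hr C).s j) j) ≠ 0 ∧ vE (C ((gC hr C).t j) j) ≠ 0 ∧
      (∀ i, i ≠ (gC hr C).s j → i ≠ (gC hr C).t j → vE (C i j) = 0) ∧
      vE (C ((gC hr C).s j) j) = -(ev ((gC hr C).g j) * vE (C ((gC hr C).t j) j)) := by
  have hc := (Ph_A hr C j).1 hj
  have hn : (Ph_S C j).Nonempty := by
    rw [← Finset.card_pos]
    omega
  have hs := Ph_s hr C j hn
  have ht := Ph_t hr C j hn
  have hg := Ph_g hr C j hn
  have hms : (gC hr C).s j ∈ Ph_S C j := by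
    rw [hs]
    exact Finset.min'_mem _ _
  have hmt : (gC hr C).t j ∈ Ph_S C j := by
    rw [ht]
    exact Finset.max'_mem _ _
  have hst : (gC hr C).s j ≠ (gC hr C).t j := by
    rw [hs, ht]
    exact (Finset.min'_lt_max'_of_card _ (by omega)).ne
  have h1 := (Ph_mem C _ j).1 hms
  have h2 := (Ph_mem C _ j).1 hmt
  refine ⟨hst, h1, h2, ?_, ?_⟩
  · intro i hi hi'
    by_contra h3
    have h4 := (Ph_mem C i j).2 h3
    have h5 : ({i, (gC hr C).s j, (gC hr C).t j} : Finset (Fin r)) ⊆ Ph_S C j := by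
      intro z hz
      simp only [Finset.mem_insert, Finset.mem_singleton] at hz
      rcases hz with rfl | rfl | rfl
      · exact h4
      · exact hms
      · exact hmt
    have h6 := Finset.card_le_card h5
    rw [Finset.card_eq_three.2 ⟨_, _, _, hi, hi', hst, rfl⟩] at h6
    omega
  · have e1 : vE (C ((gC hr C).s j) j) = ev (cx (C ((gC hr C).s j) j)) := if_pos ((Ph_ne _).1 h1)
    have e2 : vE (C ((gC hr C).t j) j) = ev (cx (C ((gC hr C).t j) j)) := if_pos ((Ph_ne _).1 h2)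
    rw [hg, ev_add, sub_eq_add_neg, ev_add, ev_neg, ev_neg_one, e1, e2]
    have h3 := ev_ne_zero (cx (C ((gC hr C).t j) j))
    field_simp

theorem gC_rel (hr : 0 < r) (C : Matrix (Fin r) (Fin n) Ent) (hF : Frame (C.map vE)) :
    (∀ j ∈ (gC hr C).A, vE (C ((gC hr C).s j) j) ≠ 0) ∧ (∀ j ∈ (gC hr C).A, vE (C ((gC hr C).t j) j) ≠ 0) ∧
      (∀ j ∈ (gC hr C).A, ∀ i, i ≠ (gC hr C).s j → i ≠ (gC hr C).t j → vE (C i j) = 0) ∧
      (∀ j ∈ (gC hr C).A, vE (C ((gC hr C).s j) j) = -(ev ((gC hr C).g j) * vE (C ((gC hr C).t j) j))) ∧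
      ∀ j, j ∉ (gC hr C).A → ∀ i i', vE (C i j) ≠ 0 → vE (C i' j) ≠ 0 → i = i' := by
  refine ⟨fun j hj => (Ph_key hr C j hj).2.1, fun j hj => (Ph_key hr C j hj).2.2.1,
    fun j hj => (Ph_key hr C j hj).2.2.2.1, fun j hj => (Ph_key hr C j hj).2.2.2.2, ?_⟩
  intro j hj i i' hi hi'
  have h1 : (Ph_S C j).card ≤ 2 := by
    refine le_trans (Finset.card_le_card fun z hz => ?_) (hF j)
    rw [Finset.mem_filter]
    exact ⟨Finset.mem_univ _, (Ph_mem C z j).1 hz⟩
  have h2 : (Ph_S C j).card ≠ 2 := fun h => hj ((Ph_A hr C j).2 h)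
  exact Finset.card_le_one.mp (by omega) i ((Ph_mem C i j).2 hi) i' ((Ph_mem C i' j).2 hi')

theorem gC_phi (hr : 0 < r) (C : Matrix (Fin r) (Fin n) Ent) (hU : IsU2 (C.map vE)) (hF : Frame (C.map vE)) :
    (gC hr C).Phi (FU : Set XG) := by
  have hG : ∀ i j, (C.map vE) i j ≠ 0 → InG ((C.map vE) i j) := by
    intro i j h
    have h1 := hU 1 (fun _ => i) (fun _ => j)
    rw [Matrix.det_fin_one] at h1
    rcases h1 with h1 | h1
    · exact absurd h1 h
    · exact h1
  obtain ⟨k1, k2, k3, k4, -⟩ := gC_rel hr C hF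
  intro x y P P' hcy
  by_cases hne : P = P'
  · left
    rw [hne, sub_self]
  · obtain ⟨m, f, g', c, hc, hdet⟩ := cyc_det (Mk := C.map vE) (fun j hj => (Ph_key hr C j hj).1) hG
      k1 k2 k3 k4 hcy hne
    have hc0 : c ≠ 0 := inG_ne hc
    have h1 : ∀ u : XG, ((C.map vE).submatrix f g').det = c * (1 - ev u) → u = 0 ∨ u ∈ FU := by
      intro u hu
      apply unit_eq'
      rcases hU m f g' with h | h
      · left
        rw [hu] at h
        rcases mul_eq_zero.mp h with h | h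
        · exact absurd h hc0
        · exact h
      · right
        rw [hu] at h
        have := inG_mul (inG_inv hc) h
        rwa [← mul_assoc, inv_mul_cancel₀ hc0, one_mul] at this
    rcases h1 _ hdet with h | h
    · exact Or.inl h
    · exact Or.inr (Finset.mem_coe.mpr h)

end Pool.Agent.FRN
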