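import Pool.Agent.FRN.Ge
import Pool.Agent.FRN.Ep
import Pool.Agent.FRN.Kh
import Pool.Agent.FRN.Tb2
import Pool.Agent.FRM.CyB
import Pool.Agent.FRM.ThB

/-!
# FRN/Uq: uniqueness of good connections with given classes

PROOF PLAN.  `ear_types`.  (i) `InS ⊥`: as in Uz with the base `{e}`.  (ii) cycle: `u = hl σ P (hl σ P')⁻¹`, `w = hl τ P (hl τ P')⁻¹` have real part `1 / 2` and the same class: `conj_one`, `gauge_cycle`.  (iii) theta: `u = hl σ X (hl σ Z)⁻¹`,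
`u' = hl σ Y (hl σ Z)⁻¹`; `u⁻¹ u'` is conjugate to `(hl σ X)⁻¹ hl σ Y`, whose real part is that of `hl σ X (hl σ Y)⁻¹` (`re_conj`, `re_comm`, `re_inv`), i.e. `1 / 2`; `conj_two`, `gauge_theta`.
The gauge is in `HU` at one vertex of the base and then at all vertices: `a (t e) = (τ e)⁻¹ a (s e) σ e` along walks (`C2.con`).
-/

set_option autoImplicit false

noncomputable section

open scoped Classical

namespace Pool.Agent.FRN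

open Pool.Agent.FRM Pool.Agent.FRM.GG

variable {V E : Type} {Γ : GG V E XG}

/-- a gauge between two connections in `HU` which is in `HU` at one vertex is in `HU` at all vertices -/
private theorem Uq_hu (hΓ : Γ.C2) {σ τ : E → Hqˣ} (hσ : Good Γ σ) (hτ : Good Γ τ) {a : V → Hqˣ}
    (h : Gq Γ σ τ a Γ.A) {x : V} (hx : x ∈ Γ.VS) (hax : HU (a x : Hq)) : ∀ z ∈ Γ.VS, HU (a z : Hq) := by
  intro z hz
  obtain ⟨l, hl'⟩ := hΓ.con x hx z hz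
  have hm : ∀ d ∈ l, d.1 ∈ Γ.A := fun d hd => (wk_mem hl' d hd).1
  have h1 := gq_hl h hl' hm
  have h2 : HU ((hl σ l : Hqˣ) : Hq) := hl_hu fun d hd => hσ.hu _ (hm d hd)
  have h3 : HU ((hl τ l : Hqˣ) : Hq) := hl_hu fun d hd => hτ.hu _ (hm d hd)
  have h4 : a z = (hl τ l)⁻¹ * a x * hl σ l := by
    rw [h1]
    group
  have h5 : a z ∈ HUg := by
    rw [h4]
    exact HUg.mul_mem (HUg.mul_mem (HUg.inv_mem (mem_HUg.2 h3)) (mem_HUg.2 hax)) (mem_HUg.2 h2)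
  exact mem_HUg.1 h5

/-- the extension of a gauge from a base, with values in `HU` -/
private theorem Uq_ext (hΓ : Γ.C2) {σ τ : E → Hqˣ} (hσ : Good Γ σ) (hτ : Good Γ τ) {B₀ : Finset E} (hB : B₀ ⊆ Γ.A)
    (h2 : (Γ.on B₀).C2) (hE : ESame Γ B₀) {a₀ : V → Hqˣ} (h₀ : Gq Γ σ τ a₀ B₀) {x : V} (hx : x ∈ (Γ.on B₀).VS)
    (hax : HU (a₀ x : Hq)) :
    ∃ a : V → Hqˣ, (∀ z ∈ Γ.VS, HU (a z : Hq)) ∧ Gq Γ σ τ a Γ.A := by
  obtain ⟨a, ha, hq⟩ := gauge_ext hΓ hB h2 hE (good_bal hσ) (good_bal hτ) a₀ h₀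
  have hx' : x ∈ Γ.VS := VS_mono hB hx
  refine ⟨a, Uq_hu hΓ hσ hτ hq hx' ?_, hq⟩
  rw [ha x hx]
  exact hax

/-- holonomies of paths in `HU` -/
private theorem Uq_pt {σ : E → Hqˣ} (hσ : Good Γ σ) {x y : V} {l : List (Da E)} (h : Γ.Pt x l y) :
    HU ((hl σ l : Hqˣ) : Hq) := hl_hu fun d hd => hσ.hu _ (wk_mem h.1 d hd).1

private theorem Uq_quo {u w : Hqˣ} (hu : HU (u : Hq)) (hw : HU (w : Hq)) : HU ((u * w⁻¹ : Hqˣ) : Hq) :=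
  mem_HUg.1 (HUg.mul_mem (mem_HUg.2 hu) (HUg.inv_mem (mem_HUg.2 hw)))

private theorem Uq_kq {u w : Hqˣ} (hu : HU (u : Hq)) (hw : HU (w : Hq)) :
    kc ((u * w⁻¹ : Hqˣ) : Hq) = kc (u : Hq) - kc (w : Hq) := by
  rw [Units.val_mul, kc_mul hu (hu_inv hw), kc_inv hw, sub_eq_add_neg]

private theorem Uq_kpt {σ τ : E → Hqˣ} (hσ : Good Γ σ) (hτ : Good Γ τ)
    (hk : ∀ e ∈ Γ.A, kc (σ e : Hq) = kc (τ e : Hq)) {x y : V} {l : List (Da E)} (h : Γ.Pt x l y) :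
    kc ((hl σ l : Hqˣ) : Hq) = kc ((hl τ l : Hqˣ) : Hq) :=
  hl_kc_congr (fun d hd => hσ.hu _ (wk_mem h.1 d hd).1) (fun d hd => hτ.hu _ (wk_mem h.1 d hd).1)
    fun d hd => hk _ (wk_mem h.1 d hd).1

private theorem Uq_kk {σ τ : E → Hqˣ} (hσ : Good Γ σ) (hτ : Good Γ τ)
    (hk : ∀ e ∈ Γ.A, kc (σ e : Hq) = kc (τ e : Hq)) {x y : V} {l l' : List (Da E)} (h : Γ.Pt x l y) (h' : Γ.Pt x l' y) :
    kc ((hl σ l * (hl σ l')⁻¹ : Hqˣ) : Hq) = kc ((hl τ l * (hl τ l')⁻¹ : Hqˣ) : Hq) := by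
  rw [Uq_kq (Uq_pt hσ h) (Uq_pt hσ h'), Uq_kq (Uq_pt hτ h) (Uq_pt hτ h'), Uq_kpt hσ hτ hk h, Uq_kpt hσ hτ hk h']

/-- the third real part in a theta -/
private theorem Uq_re {σ : E → Hqˣ} (hσ : Good Γ σ) {u w : V} {X Y Z : List (Da E)} (h : Γ.Th u w X Y Z)
    (hxy : Γ.gn X ≠ Γ.gn Y) :
    (((hl σ X * (hl σ Z)⁻¹)⁻¹ * (hl σ Y * (hl σ Z)⁻¹) : Hqˣ) : Hq).re = 1 / 2 := by
  have h1 : (hl σ X * (hl σ Z)⁻¹)⁻¹ * (hl σ Y * (hl σ Z)⁻¹) = hl σ Z * ((hl σ X)⁻¹ * hl σ Y) * (hl σ Z)⁻¹ := by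
    group
  rw [h1, re_conj, re_comm]
  exact hσ.unb _ _ _ _ (cy_symm h.xy) (Ne.symm hxy)

theorem q_uniq (hΓ : Γ.C2) (hΦ : Γ.Phi (FU : Set XG)) {σ τ : E → Hqˣ} (hσ : Good Γ σ) (hτ : Good Γ τ)
    (hk : ∀ e ∈ Γ.A, kc (σ e : Hq) = kc (τ e : Hq)) :
    ∃ a : V → Hqˣ, (∀ z ∈ Γ.VS, HU (a z : Hq)) ∧ Gq Γ σ τ a Γ.A := by
  rcases ear_types hΓ hΦ with h | ⟨x, y, P, P', hC, hg, hE⟩ | ⟨u, w, X, Y, Z, hT, hxy, hyz, hxz, hE⟩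
  · obtain ⟨e, he⟩ := hΓ.ne
    have hne := hΓ.lf e he
    refine Uq_ext hΓ hσ hτ (Finset.singleton_subset_iff.2 he) (single_C2 he hne) (bal_same h {e})
      (a₀ := fun z => if z = Γ.s e then 1 else (τ e)⁻¹ * σ e) ?_ (x := Γ.s e) ?_ ?_
    · intro f hf
      have hf' : f = e := Finset.mem_singleton.1 hf
      subst hf'
      have h1 : Γ.t f ≠ Γ.s f := Ne.symm hne
      simp only [if_true, if_neg h1]
      group
    · exact ⟨e, Finset.mem_singleton_self e, Or.inl rfl⟩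
    · simp only [if_true, Units.val_one]
      exact hu_one
  · obtain ⟨c, hc, hcc⟩ := conj_one (Uq_quo (Uq_pt hσ hC.p) (Uq_pt hσ hC.p')) (Uq_quo (Uq_pt hτ hC.p) (Uq_pt hτ hC.p'))
      (hσ.unb _ _ _ _ hC hg) (hτ.unb _ _ _ _ hC hg) (Uq_kk hσ hτ hk hC.p hC.p')
    obtain ⟨a₀, ha, hq⟩ := gauge_cycle hC c hcc.symm
    refine Uq_ext hΓ hσ hτ (Finset.union_subset (eds_sub hC.p.1) (eds_sub hC.p'.1)) (cycle_C2 hC) hE hq (x := x) ?_ ?_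
    · rw [VS_union, VS_eds hC.p.1 (pt_ne hC.p hC.ne)]
      exact Or.inl (wk_first _ _)
    · rw [ha]
      exact hc
  · have hX := hT.xy.p
    have hY := hT.xy.p'
    have hZ := hT.yz.p'
    obtain ⟨c, hc, h1, h2⟩ := conj_two (Uq_quo (Uq_pt hσ hX) (Uq_pt hσ hZ)) (Uq_quo (Uq_pt hσ hY) (Uq_pt hσ hZ))
      (Uq_quo (Uq_pt hτ hX) (Uq_pt hτ hZ)) (Uq_quo (Uq_pt hτ hY) (Uq_pt hτ hZ))
      (hσ.unb _ _ _ _ hT.xz hxz) (hσ.unb _ _ _ _ hT.yz hyz) (hτ.unb _ _ _ _ hT.xz hxz) (hτ.unb _ _ _ _ hT.yz hyz)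
      (Uq_re hσ hT hxy) (Uq_re hτ hT hxy) (Uq_kk hσ hτ hk hX hZ) (Uq_kk hσ hτ hk hY hZ)
    obtain ⟨a₀, ha, hq⟩ := gauge_theta hT c h1.symm h2.symm
    refine Uq_ext hΓ hσ hτ (Finset.union_subset (Finset.union_subset (eds_sub hX.1) (eds_sub hY.1)) (eds_sub hZ.1))
      (theta_C2 hT) hE hq (x := u) ?_ ?_
    · rw [VS_union, VS_union, VS_eds hX.1 (pt_ne hX hT.xy.ne)]
      exact Or.inl (Or.inl (wk_first _ _))
    · rw [ha]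
      exact hc

end Pool.Agent.FRN
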