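import Pool.Agent.FRN.Ov2
import Pool.Agent.FRN.Uq
import Pool.Agent.FRN.Cf

/-!
# FRN/Sx: extension of a good connection by one edge

`Sx_gauge`: a good connection `σ` with the right classes on the fundamental cycles of `F ∪ {f}` and the given connection `τ` are made
trivial on the forest by gauges `q` and `p`; on the edges in `F` they then differ by the conjugation with a constant `c`.
`step_ex`: the unit of `f` is the one of `σ`, transported by these gauges.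
-/

set_option autoImplicit false

noncomputable section

open scoped Classical

namespace Pool.Agent.FRN

open Pool.Agent.FRM Pool.Agent.FRM.GG

variable {V E : Type} {Γ : GG V E XG} {T : Finset E}

private theorem Sx_mem3 {a b c : Hqˣ} (ha : a ∈ HUg) (hb : b ∈ HUg) (hc : c ∈ HUg) : a * b * c⁻¹ ∈ HUg :=
  HUg.mul_mem (HUg.mul_mem ha hb) (HUg.inv_mem hc)

private theorem Sx_kc3 {a b c : Hqˣ} (ha : a ∈ HUg) (hb : b ∈ HUg) (hc : c ∈ HUg) :
    kc ((a * b * c⁻¹ : Hqˣ) : Hq) = kc (a : Hq) + kc (b : Hq) - kc (c : Hq) := by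
  have ha' := mem_HUg.1 ha
  have hb' := mem_HUg.1 hb
  have hc' := mem_HUg.1 hc
  have h1 : HU ((a : Hq) * (b : Hq)) := hu_mul ha' hb'
  rw [Units.val_mul, Units.val_mul, kc_mul h1 (hu_inv hc'), kc_mul ha' hb', kc_inv hc']
  ring

private theorem Sx_kc3' {a b c : Hqˣ} (ha : a ∈ HUg) (hb : b ∈ HUg) (hc : c ∈ HUg) :
    kc ((a⁻¹ * b * c : Hqˣ) : Hq) = -kc (a : Hq) + kc (b : Hq) + kc (c : Hq) := by
  have ha' := mem_HUg.1 ha
  have hb' := mem_HUg.1 hb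
  have hc' := mem_HUg.1 hc
  have h1 : HU (((a⁻¹ : Hqˣ) : Hq) * (b : Hq)) := hu_mul (hu_inv ha') hb'
  rw [Units.val_mul, Units.val_mul, kc_mul h1 hc', kc_mul (hu_inv ha') hb', kc_inv ha']

/-- the gauges of two connections on a forest -/
private theorem Sx_class (hT : Fst Γ T) {σ τ : E → Hqˣ} (hσ : ∀ e ∈ T, σ e ∈ HUg) (hτ : ∀ e ∈ T, τ e ∈ HUg)
    (hk : ∀ e ∈ T, kc (τ e : Hq) = kc (σ e : Hq)) {p q : V → Hqˣ} (hp : ∀ z, p z ∈ HUg) (hq : ∀ z, q z ∈ HUg)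
    (hp1 : ∀ c ∈ T, p (Γ.s c) * τ c * (p (Γ.t c))⁻¹ = 1) (hq1 : ∀ c ∈ T, q (Γ.s c) * σ c * (q (Γ.t c))⁻¹ = 1)
    {x y : V} (hxy : Cn Γ T x y) : kc (q x : Hq) - kc (p x : Hq) = kc (q y : Hq) - kc (p y : Hq) := by
  refine cn_ind (Γ := Γ) (S := T) (fun x y => kc (q x : Hq) - kc (p x : Hq) = kc (q y : Hq) - kc (p y : Hq))
    ⟨fun _ => rfl, fun h => h.symm, fun h h' => h.trans h'⟩ (fun c hc => ?_) hxy
  have h1 := Sx_kc3 (hp (Γ.s c)) (hτ c hc) (hp (Γ.t c))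
  have h2 := Sx_kc3 (hq (Γ.s c)) (hσ c hc) (hq (Γ.t c))
  rw [hp1 c hc] at h1
  rw [hq1 c hc] at h2
  rw [Units.val_one, kc_one] at h1 h2
  rw [hk c hc] at h1
  linear_combination h1 - h2

/-- the constant -/
private theorem Sx_const (hT : Fst Γ T) (lf : ∀ e ∈ Γ.A, Γ.s e ≠ Γ.t e) {F : Finset E} (hF : Ocn Γ T F) {σ τ : E → Hqˣ}
    {p q a : V → Hqˣ} (hp : ∀ z, p z ∈ HUg) (hq : ∀ z, q z ∈ HUg)
    (hp1 : ∀ c ∈ T, p (Γ.s c) * τ c * (p (Γ.t c))⁻¹ = 1) (hq1 : ∀ c ∈ T, q (Γ.s c) * σ c * (q (Γ.t c))⁻¹ = 1)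
    (ha : ∀ z ∈ (Γ.on (Bk Γ T F)).VS, HU (a z : Hq)) (hg : Gq (Γ.on (Bk Γ T F)) σ τ a (Bk Γ T F)) :
    ∃ c ∈ HUg, ∀ e ∈ F, τ e = (p (Γ.s e))⁻¹ * c * q (Γ.s e) * σ e * ((p (Γ.t e))⁻¹ * c * q (Γ.t e))⁻¹ := by
  obtain ⟨f₀, hf₀⟩ := (ocn_sub hF).2.2
  have hFB : F ⊆ Bk Γ T F := Finset.subset_union_left
  have hvs : ∀ e ∈ F, Γ.s e ∈ (Γ.on (Bk Γ T F)).VS ∧ Γ.t e ∈ (Γ.on (Bk Γ T F)).VS := fun e he =>
    ⟨⟨e, hFB he, Or.inl rfl⟩, ⟨e, hFB he, Or.inr rfl⟩⟩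
  have hconst : ∀ x ∈ (Γ.on (Bk Γ T F)).VS, ∀ y ∈ (Γ.on (Bk Γ T F)).VS,
      p x * a x * (q x)⁻¹ = p y * a y * (q y)⁻¹ := by
    intro x hx y hy
    obtain ⟨h1, h2⟩ := bk_conv hT lf hF hx hy
    obtain ⟨l, h3, h4⟩ := dl_ex hT.ac h1
    have h5 : Cn Γ (T ∩ Bk Γ T F) x y := by
      have h6 := (wk_on hT.sub).1 h3.1
      refine ⟨l, (wk_on (fun e he => hT.sub (Finset.mem_inter.1 he).1)).2 ⟨h6.1, fun d hd => ?_⟩⟩
      refine Finset.mem_inter.2 ⟨h6.2 d hd, h2 ?_⟩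
      rw [← h4]
      exact (mem_eds _ _).2 ⟨d, hd, rfl⟩
    refine cn_ind (Γ := Γ) (S := T ∩ Bk Γ T F) (fun x y => p x * a x * (q x)⁻¹ = p y * a y * (q y)⁻¹)
      ⟨fun _ => rfl, fun h => h.symm, fun h h' => h.trans h'⟩ (fun c hc => ?_) h5
    obtain ⟨hcT, hcB⟩ := Finset.mem_inter.1 hc
    have h7 : τ c = a (Γ.s c) * σ c * (a (Γ.t c))⁻¹ := hg c hcB
    have h8 := hp1 c hcT
    have h9 : σ c = (q (Γ.s c))⁻¹ * q (Γ.t c) := by
      have h10 := hq1 c hcT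
      rw [mul_inv_eq_one] at h10
      rw [← h10]
      group
    rw [h7, h9, mul_inv_eq_one] at h8
    rw [← h8]
    group
  have hc : p (Γ.s f₀) * a (Γ.s f₀) * (q (Γ.s f₀))⁻¹ ∈ HUg :=
    Sx_mem3 (hp _) (ha _ (hvs f₀ hf₀).1) (hq _)
  refine ⟨_, hc, fun e he => ?_⟩
  have h1 := hconst _ (hvs f₀ hf₀).1 _ (hvs e he).1
  have h2 := hconst _ (hvs f₀ hf₀).1 _ (hvs e he).2
  have h3 : (p (Γ.s e))⁻¹ * (p (Γ.s f₀) * a (Γ.s f₀) * (q (Γ.s f₀))⁻¹) * q (Γ.s e) = a (Γ.s e) := by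
    rw [h1]
    group
  have h4 : (p (Γ.t e))⁻¹ * (p (Γ.s f₀) * a (Γ.s f₀) * (q (Γ.s f₀))⁻¹) * q (Γ.t e) = a (Γ.t e) := by
    rw [h2]
    group
  rw [h3, h4]
  exact hg e (hFB he)

private theorem Sx_bk (F : Finset E) : Bk Γ T F ⊆ T ∪ F := by
  intro e he
  rcases Finset.mem_union.1 he with h | h
  · exact Finset.mem_union_right _ h
  · obtain ⟨f, -, hf⟩ := Finset.mem_biUnion.1 h
    exact Finset.mem_union_left _ (mem_dl.1 hf).1

/-- the new unit -/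
private theorem Sx_gauge (hT : Fst Γ T) (lf : ∀ e ∈ Γ.A, Γ.s e ≠ Γ.t e) (hΦ : Γ.Phi (FU : Set XG)) {D F : Finset E}
    (hFD : F ⊆ D) {f : E} (hf : f ∈ Γ.A) (hfT : f ∉ T) (hfD : f ∉ D)
    (hO : F = ∅ ∨ (Ocn Γ T F ∧ ∃ f' ∈ F, Ovl Γ T f f')) (hO' : Ocn Γ T (insert f F))
    {τ : E → Hqˣ} (hτ : Good (Γ.on (T ∪ D)) τ)
    (hk : ∀ e ∈ T ∪ D, kc (τ e : Hq) = lm (Γ.g e)) :
    ∃ t : Hqˣ, HU (t : Hq) ∧ kc (t : Hq) = lm (Γ.g f) ∧ Good (Γ.on (Bk Γ T (insert f F))) (Function.update τ f t) := by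
  set B := Bk Γ T (insert f F) with hB
  have hBA : B ⊆ Γ.A := bk_sub hT (ocn_sub hO').1
  have hBT : B ⊆ T ∪ insert f F := Sx_bk _
  have hfB : f ∈ B := Finset.mem_union_left _ (Finset.mem_insert_self _ _)
  obtain ⟨σ₀, hσ₀, hkσ₀⟩ := good_cls (bk_C2 hT lf hO') (phi_on hBA hΦ)
  obtain ⟨σ, hσB, hσB'⟩ : ∃ σ : E → Hqˣ, (∀ e ∈ B, σ e = σ₀ e) ∧ ∀ e, e ∉ B → σ e = τ e :=
    ⟨fun e => if e ∈ B then σ₀ e else τ e, fun e he => if_pos he, fun e he => if_neg he⟩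
  have hσ : Good (Γ.on B) σ := good_congr hσ₀ hσB
  have hσT : ∀ e ∈ T, σ e ∈ HUg := by
    intro e he
    by_cases h : e ∈ B
    · exact hσ.hu e h
    · rw [hσB' e h]
      exact hτ.hu e (Finset.mem_union_left _ he)
  have hτT : ∀ e ∈ T, τ e ∈ HUg := fun e he => hτ.hu e (Finset.mem_union_left _ he)
  have hkB : ∀ e ∈ B, kc (σ e : Hq) = lm (Γ.g e) := by
    intro e he
    rw [hσB e he]
    exact hkσ₀ e he
  have hkT : ∀ e ∈ T, kc (τ e : Hq) = kc (σ e : Hq) := by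
    intro e he
    by_cases h : e ∈ B
    · rw [hkB e h]
      exact hk e (Finset.mem_union_left _ he)
    · rw [hσB' e h]
  obtain ⟨p, hp, hp1⟩ := forest_flat hT.ac HUg τ hτT
  obtain ⟨q, hq, hq1⟩ := forest_flat hT.ac HUg σ hσT
  obtain ⟨c, hc, hcF⟩ : ∃ c ∈ HUg, ∀ e ∈ F,
      τ e = (p (Γ.s e))⁻¹ * c * q (Γ.s e) * σ e * ((p (Γ.t e))⁻¹ * c * q (Γ.t e))⁻¹ := by
    rcases hO with h | ⟨hF, -⟩
    · refine ⟨1, HUg.one_mem, fun e he => ?_⟩
      rw [h] at he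
      exact absurd he (Finset.notMem_empty e)
    · have hB0 : Bk Γ T F ⊆ B := by
        rw [hB, bk_insert]
        exact Finset.subset_union_left
      have hB1 : Bk Γ T F ⊆ T ∪ D := (Sx_bk F).trans (Finset.union_subset_union_right hFD)
      have hC2 : (Γ.on (Bk Γ T F)).C2 := bk_C2 hT lf hF
      have hg1 : Good (Γ.on (Bk Γ T F)) σ := good_on (Γ := Γ.on B) hσ hB0
      have hg2 : Good (Γ.on (Bk Γ T F)) τ := good_on (Γ := Γ.on (T ∪ D)) hτ hB1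
      obtain ⟨a, ha, hg⟩ := q_uniq hC2 (phi_on (hB0.trans hBA) hΦ) hg1 hg2 (fun e he => by
        rw [hkB e (hB0 he)]
        exact (hk e (hB1 he)).symm)
      exact Sx_const hT lf hF hp hq hp1 hq1 ha hg
  have hA : ∀ z, (p z)⁻¹ * c * q z ∈ HUg := fun z =>
    HUg.mul_mem (HUg.mul_mem (HUg.inv_mem (hp z)) hc) (hq z)
  refine ⟨(p (Γ.s f))⁻¹ * c * q (Γ.s f) * σ f * ((p (Γ.t f))⁻¹ * c * q (Γ.t f))⁻¹,
    Sx_mem3 (hA _) (hσ.hu f hfB) (hA _), ?_, ?_⟩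
  · rw [Sx_kc3 (hA _) (hσ.hu f hfB) (hA _), hkB f hfB, Sx_kc3' (hp _) hc (hq _), Sx_kc3' (hp _) hc (hq _)]
    have h1 := Sx_class hT hσT hτT hkT hp hq hp1 hq1 (hT.sp f hf)
    linear_combination h1
  · have hgq : Gq (Γ.on B) σ (Function.update τ f
        ((p (Γ.s f))⁻¹ * c * q (Γ.s f) * σ f * ((p (Γ.t f))⁻¹ * c * q (Γ.t f))⁻¹)) (fun z => (p z)⁻¹ * c * q z) B := by
      intro e he
      show Function.update τ f _ e = (p (Γ.s e))⁻¹ * c * q (Γ.s e) * σ e * ((p (Γ.t e))⁻¹ * c * q (Γ.t e))⁻¹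
      by_cases hef : e = f
      · rw [hef, Function.update_self]
      · rw [Function.update_of_ne hef]
        by_cases heT : e ∈ T
        · have h1 := hp1 e heT
          have h2 := hq1 e heT
          rw [mul_inv_eq_one] at h1 h2
          have h3 : τ e = (p (Γ.s e))⁻¹ * p (Γ.t e) := by
            rw [← h1]
            group
          have h4 : σ e = (q (Γ.s e))⁻¹ * q (Γ.t e) := by
            rw [← h2]
            group
          rw [h3, h4]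
          group
        · refine hcF e ?_
          rcases Finset.mem_insert.1 (bk_off he heT) with h | h
          · exact absurd h hef
          · exact h
    refine good_gauge hσ hgq fun e he => ?_
    by_cases hef : e = f
    · rw [hef, Function.update_self]
      exact Sx_mem3 (hA _) (hσ.hu f hfB) (hA _)
    · rw [Function.update_of_ne hef]
      have h1 := hBT he
      rcases Finset.mem_union.1 h1 with h2 | h2
      · exact hτ.hu e (Finset.mem_union_left _ h2)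
      · rcases Finset.mem_insert.1 h2 with h3 | h3
        · exact absurd h3 hef
        · exact hτ.hu e (Finset.mem_union_right _ (hFD h3))

private theorem Sx_hl {τ : E → Hqˣ} {f : E} {t : Hqˣ} {l : List (Da E)} (h : ∀ d ∈ l, d.1 ≠ f) :
    hl (Function.update τ f t) l = hl τ l := by
  unfold hl
  congr 1
  refine List.map_congr_left fun d hd => ?_
  rw [Function.update_of_ne (h d hd)]

theorem step_ex (hT : Fst Γ T) (lf : ∀ e ∈ Γ.A, Γ.s e ≠ Γ.t e) (hΦ : Γ.Phi (FU : Set XG)) {D F : Finset E} (hD : D ⊆ Γ.A)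
    (hDT : ∀ d ∈ D, d ∉ T) (hFD : F ⊆ D) {f : E} (hf : f ∈ Γ.A) (hfT : f ∉ T) (hfD : f ∉ D)
    (hO : F = ∅ ∨ (Ocn Γ T F ∧ ∃ f' ∈ F, Ovl Γ T f f'))
    (hN : ∀ d ∈ D, d ∉ F → ∀ f' ∈ insert f F, ¬ Ovl Γ T d f') {τ : E → Hqˣ} (hτ : Good (Γ.on (T ∪ D)) τ)
    (hk : ∀ e ∈ T ∪ D, kc (τ e : Hq) = lm (Γ.g e)) :
    ∃ t : Hqˣ, HU (t : Hq) ∧ kc (t : Hq) = lm (Γ.g f) ∧ Good (Γ.on (T ∪ insert f D)) (Function.update τ f t) := by
  have hO' : Ocn Γ T (insert f F) := by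
    rcases hO with h | ⟨h, h'⟩
    · subst h
      exact Ocn.one f hf hfT
    · exact Ocn.ins F f h hf hfT h'
  obtain ⟨t, ht, htk, hg⟩ := Sx_gauge hT lf hΦ hFD hf hfT hfD hO hO' hτ hk
  refine ⟨t, ht, htk, ?_⟩
  set B := Bk Γ T (insert f F) with hB
  have hBA : B ⊆ Γ.A := bk_sub hT (ocn_sub hO').1
  have hfB : f ∈ B := Finset.mem_union_left _ (Finset.mem_insert_self _ _)
  have hset : T ∪ insert f F ∪ D = T ∪ insert f D := by
    ext e
    simp only [Finset.mem_union, Finset.mem_insert]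
    constructor
    · rintro ((h | h | h) | h)
      · exact Or.inl h
      · exact Or.inr (Or.inl h)
      · exact Or.inr (Or.inr (hFD h))
      · exact Or.inr (Or.inr h)
    · rintro (h | h | h)
      · exact Or.inl (Or.inl h)
      · exact Or.inl (Or.inr (Or.inl h))
      · exact Or.inr h
  have hTA : T ∪ insert f D ⊆ Γ.A :=
    Finset.union_subset hT.sub (Finset.insert_subset hf hD)
  have hTD : T ∪ D ⊆ Γ.A := Finset.union_subset hT.sub hD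
  have hdi : ∀ {x y : V} {P P' : List (Da E)}, (Γ.on (T ∪ insert f D)).Cy x y P P' →
      (Γ.on B).Cy x y P P' ∨ ((Γ.on (T ∪ D)).Cy x y P P' ∧ (∀ d ∈ P, d.1 ≠ f) ∧ ∀ d ∈ P', d.1 ≠ f) := by
    intro x y P P' hc
    have h1 := (cy_on hTA).1 hc
    rw [← hset] at hc
    rcases dich hT lf hO' hD (fun d hd _ hdF f' hf' => hN d hd (fun h => hdF (Finset.mem_insert_of_mem h)) f' hf') hc with
      h2 | h2
    · left
      exact (cy_on hBA).2 ⟨h1.1, fun d hd => h2 _ (Finset.mem_union_left _ ((mem_eds _ _).2 ⟨d, hd, rfl⟩)),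
        fun d hd => h2 _ (Finset.mem_union_right _ ((mem_eds _ _).2 ⟨d, hd, rfl⟩))⟩
    · right
      have h3 : ∀ d ∈ P, d.1 ≠ f := fun d hd hdf =>
        h2 f (Finset.mem_union_left _ ((mem_eds _ _).2 ⟨d, hd, hdf⟩)) hfB
      have h4 : ∀ d ∈ P', d.1 ≠ f := fun d hd hdf =>
        h2 f (Finset.mem_union_right _ ((mem_eds _ _).2 ⟨d, hd, hdf⟩)) hfB
      have h5 : ∀ e ∈ T ∪ insert f D, e ≠ f → e ∈ T ∪ D := by
        intro e he hef
        rcases Finset.mem_union.1 he with h | h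
        · exact Finset.mem_union_left _ h
        · rcases Finset.mem_insert.1 h with h | h
          · exact absurd h hef
          · exact Finset.mem_union_right _ h
      exact ⟨(cy_on hTD).2 ⟨h1.1, fun d hd => h5 _ (h1.2.1 d hd) (h3 d hd),
        fun d hd => h5 _ (h1.2.2 d hd) (h4 d hd)⟩, h3, h4⟩
  refine ⟨fun e he => ?_, fun x y P P' hc hgn => ?_, fun x y P P' hc hgn => ?_⟩
  · by_cases hef : e = f
    · rw [hef, Function.update_self]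
      exact ht
    · rw [Function.update_of_ne hef]
      refine hτ.hu e ?_
      rcases Finset.mem_union.1 he with h | h
      · exact Finset.mem_union_left _ h
      · rcases Finset.mem_insert.1 h with h | h
        · exact absurd h hef
        · exact Finset.mem_union_right _ h
  · rcases hdi hc with h | ⟨h, h3, h4⟩
    · exact hg.bal x y P P' h hgn
    · rw [Sx_hl h3, Sx_hl h4]
      exact hτ.bal x y P P' h hgn
  · rcases hdi hc with h | ⟨h, h3, h4⟩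
    · exact hg.unb x y P P' h hgn
    · rw [Sx_hl h3, Sx_hl h4]
      exact hτ.unb x y P P' h hgn

end Pool.Agent.FRN
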