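import Pool.Agent.FRN.Ge
import Pool.Agent.FRN.Ep
import Pool.Agent.FRM.CyB
import Pool.Agent.FRM.ThB

/-!
# FRN/Uz: uniqueness up to sign of functions with values in Z/3

`z_uniq`: two functions with values in the group of order three whose holonomies agree exactly on the balanced cycles are gauge equivalent after
possibly inverting the first one.  By `ear_types` it is enough to find the gauge on an edge, on a cycle or on a theta (`gauge_ext`), and there the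
holonomies are determined up to inversion because they are pairwise different in a group of order three.
-/

set_option autoImplicit false

noncomputable section

open scoped Classical

namespace Pool.Agent.FRN

open Pool.Agent.FRM Pool.Agent.FRM.GG

variable {V E : Type} {Γ : GG V E XG}

private theorem Uz_two : ∀ u v : Multiplicative (ZMod 3), u ≠ 1 → v ≠ 1 → v = u ∨ v = u⁻¹ := by decide

private theorem Uz_three : ∀ x y x' y' : Multiplicative (ZMod 3), x ≠ 1 → y ≠ 1 → x ≠ y → x' ≠ 1 → y' ≠ 1 → x' ≠ y' →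
    (x' = x ∧ y' = y) ∨ (x' = x⁻¹ ∧ y' = y⁻¹) := by decide

private theorem Uz_hl (μ : E → Multiplicative (ZMod 3)) (l : List (Da E)) :
    hl (fun e => (μ e)⁻¹) l = (hl μ l)⁻¹ := by
  induction l with
  | nil => simp [hl_nil]
  | cons d l ih =>
    rw [hl_cons, hl_cons, ih, mul_inv]
    by_cases hd : d.2 = true <;> simp [hd]

private theorem Uz_bal {μ : E → Multiplicative (ZMod 3)} (hμ : Bal Γ μ) : Bal Γ (fun e => (μ e)⁻¹) := by
  intro x y P P' h hg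
  rw [Uz_hl, Uz_hl, hμ x y P P' h hg]

private theorem Uz_ne {μ : E → Multiplicative (ZMod 3)} (hμ' : Unb Γ μ) {x y : V} {P P' : List (Da E)} (h : Γ.Cy x y P P')
    (hg : Γ.gn P ≠ Γ.gn P') : hl μ P * (hl μ P')⁻¹ ≠ 1 := by
  intro h1
  exact hμ' x y P P' h hg (mul_inv_eq_one.mp h1)

theorem z_uniq (hΓ : Γ.C2) (hΦ : Γ.Phi (FU : Set XG)) {μ ν : E → Multiplicative (ZMod 3)} (hμ : Bal Γ μ) (hμ' : Unb Γ μ)
    (hν : Bal Γ ν) (hν' : Unb Γ ν) :
    (∃ a : V → Multiplicative (ZMod 3), Gq Γ μ ν a Γ.A) ∨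
      ∃ a : V → Multiplicative (ZMod 3), Gq Γ (fun e => (μ e)⁻¹) ν a Γ.A := by
  rcases ear_types hΓ hΦ with hI | ⟨x, y, P, P', hc, hg, hE⟩ | ⟨u, w, X, Y, Z, ht, hXY, hYZ, hXZ, hE⟩
  · obtain ⟨e, he⟩ := hΓ.ne
    have hlf := hΓ.lf e he
    have hB : ({e} : Finset E) ⊆ Γ.A := Finset.singleton_subset_iff.mpr he
    have h₀ : Gq Γ μ ν (fun z => if z = Γ.t e then (ν e)⁻¹ * μ e else 1) {e} := by
      intro f hf
      rw [Finset.mem_singleton] at hf
      subst hf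
      simp only [if_neg hlf, if_true, one_mul, mul_inv_rev, inv_inv, mul_inv_cancel_left]
    obtain ⟨a, -, ha⟩ := gauge_ext hΓ hB (single_C2 he hlf) (bal_same hI {e}) hμ hν _ h₀
    exact Or.inl ⟨a, ha⟩
  · have hB : eds P ∪ eds P' ⊆ Γ.A := Finset.union_subset (eds_sub hc.p.1) (eds_sub hc.p'.1)
    rcases Uz_two _ _ (Uz_ne hμ' hc hg) (Uz_ne hν' hc hg) with h | h
    · obtain ⟨a₀, -, h₀⟩ := gauge_cycle (σ := μ) (τ := ν) hc 1 (by rw [h, one_mul, inv_one, mul_one])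
      obtain ⟨a, -, ha⟩ := gauge_ext hΓ hB (cycle_C2 hc) hE hμ hν a₀ h₀
      exact Or.inl ⟨a, ha⟩
    · obtain ⟨a₀, -, h₀⟩ := gauge_cycle (σ := fun e => (μ e)⁻¹) (τ := ν) hc 1
        (by rw [h, Uz_hl, Uz_hl, one_mul, inv_one, mul_one, mul_inv])
      obtain ⟨a, -, ha⟩ := gauge_ext hΓ hB (cycle_C2 hc) hE (Uz_bal hμ) hν a₀ h₀
      exact Or.inr ⟨a, ha⟩
  · have hB : eds X ∪ eds Y ∪ eds Z ⊆ Γ.A :=
      Finset.union_subset (Finset.union_subset (eds_sub ht.xy.p.1) (eds_sub ht.xy.p'.1)) (eds_sub ht.yz.p'.1)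
    have hm : hl μ X * (hl μ Z)⁻¹ ≠ hl μ Y * (hl μ Z)⁻¹ := fun h => hμ' _ _ _ _ ht.xy hXY (mul_right_cancel h)
    have hn : hl ν X * (hl ν Z)⁻¹ ≠ hl ν Y * (hl ν Z)⁻¹ := fun h => hν' _ _ _ _ ht.xy hXY (mul_right_cancel h)
    rcases Uz_three _ _ _ _ (Uz_ne hμ' ht.xz hXZ) (Uz_ne hμ' ht.yz hYZ) hm (Uz_ne hν' ht.xz hXZ) (Uz_ne hν' ht.yz hYZ) hn
      with ⟨h, h'⟩ | ⟨h, h'⟩
    · obtain ⟨a₀, -, h₀⟩ := gauge_theta (σ := μ) (τ := ν) ht 1 (by rw [h, one_mul, inv_one, mul_one])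
        (by rw [h', one_mul, inv_one, mul_one])
      obtain ⟨a, -, ha⟩ := gauge_ext hΓ hB (theta_C2 ht) hE hμ hν a₀ h₀
      exact Or.inl ⟨a, ha⟩
    · obtain ⟨a₀, -, h₀⟩ := gauge_theta (σ := fun e => (μ e)⁻¹) (τ := ν) ht 1
        (by rw [h, Uz_hl, Uz_hl, one_mul, inv_one, mul_one, mul_inv])
        (by rw [h', Uz_hl, Uz_hl, one_mul, inv_one, mul_one, mul_inv])
      obtain ⟨a, -, ha⟩ := gauge_ext hΓ hB (theta_C2 ht) hE (Uz_bal hμ) hν a₀ h₀
      exact Or.inr ⟨a, ha⟩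

end Pool.Agent.FRN
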